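import Pool.Agent.Mg.F90395b.G8570e2

namespace Pool.Agent.MP_90395b_gt.Bn

set_option maxRecDepth 4000
set_option deprecated.oldSectionVars true

theorem vb_s0 : check 36 22 228 192 8 0 [7, 6, 6, 14] [8, 8, 7, 6, 6, 14] [8, 0, 7, 6, 6, 14] 2 1
    [(-2, 0, 7), (-2, -2, 7), (-2, 1, 7), (-2, 2, 7), (-2, 2, 7), (-1, 15, 15)] (shAt 1 (shAt 0
      pVA)) (shAt 1 (shAt 0 pCA))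
    (.s 5 .z (.s 3 (.s 4 (.s 2 .z .z) (.s 4 (.l 723) (.s 3 (.s 5 (.s 3 (.s 2 (.l 2242) (.l 1250))
      .z) (.s 3 (.s 2 (.s 3 (.l 3868) (.l 3114)) (.l 2892)) (.s 5 (.l 1588) (.l 2373)))) (.l
      985)))) (.s 2 .z .z))) = true := by
  decide +kernel

theorem vb_k1 : check 36 22 232 180 8 8 [0, 6, 6, 14] [8, 8, 7, 6, 6, 14] [8, 0, 7, 6, 6, 14] 2 1
    [(-2, 0, 7), (-2, 2, 7), (1, 1, 7), (-2, 2, 7), (-2, 2, 7), (-1, 15, 15)] (shAt 1 (shAt 0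
      pVA)) (shAt 1 (shAt 0 pCA))
    (.s 2 (.s 3 (.s 0 (.s 2 (.s 2 (.l 1592) (.l 265)) .z) .z) .z) (.s 3 (.s 3 .z .z) .z)) = true
      := by
  decide +kernel

theorem vm_bRRRLL : check 26 18 116 84 8 8 [7, 6, 6, 0] [8, 8, 7, 6, 6, 16] [8, 0, 7, 6, 6, 16] 0
  0
    [(21, 24, 32), (0, 1, 1), (0, 1, 2), (-2, 1, 2), (-1, 1, 1), (1, 1, 1)] pVA pCA
    (.s 0 (.s 2 (.s 2 (.s 3 (.s 3 (.l 35) (.s 2 (.l 26) (.s 2 (.l 17) (.s 1 (.l 9) (.l 13))))) (.s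
      3 (.s 2 (.l 35) (.s 1 (.l 9) (.s 1 (.s 2 (.l 16) (.l 12)) (.l 24)))) (.l 53))) (.s 3 (.s 3
      (.s 3 (.l 20) (.s 2 (.l 12) (.l 6))) (.s 2 (.s 2 (.s 2 (.s 1 (.l 5) (.l 9)) (.l 6)) (.l 3))
      .z)) (.s 3 (.s 1 .z (.s 2 (.s 1 (.s 3 (.l 5) (.s 2 (.l 8) (.l 3))) (.s 0 (.l 6) (.s 2 (.s 3
      (.s 2 (.l 11) (.l 9)) (.l 15)) (.s 3 (.l 7) (.s 2 (.l 10) (.l 8)))))) (.s 3 .z (.s 3 (.l 3)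
      (.l 6))))) (.s 3 (.s 1 (.l 5) (.s 2 (.l 21) (.s 2 (.l 12) (.l 9)))) (.l 30))))) (.s 3 (.s 3
      (.s 3 (.l 9) .z) .z) (.s 3 .z (.s 1 .z (.s 3 (.l 6) (.l 15)))))) (.s 2 (.s 2 (.s 2 (.s 3 (.l
      137) (.l 145)) (.s 3 (.s 3 (.l 112) (.s 2 (.s 1 (.s 3 (.l 55) (.l 34)) (.l 69)) (.s 0 (.s 0
      (.s 2 (.l 19) (.s 3 (.l 15) (.s 2 (.s 2 (.l 17) (.l 16)) (.s 1 (.l 4) (.l 15))))) (.s 2 (.s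
      3 (.l 28) (.l 26)) (.s 5 (.s 2 (.l 19) (.l 17)) (.s 2 (.l 23) (.l 21))))) (.s 3 (.s 0 (.s 2
      (.l 40) (.l 34)) (.l 53)) (.s 0 (.s 2 (.l 33) (.s 2 (.l 28) (.l 25))) (.s 2 (.l 40) (.l
      32))))))) (.s 3 (.s 1 (.s 2 (.l 21) (.l 7)) (.s 2 (.l 72) (.s 1 (.s 3 (.s 2 (.l 22) (.l 15))
      (.l 31)) (.s 3 (.s 0 (.l 28) (.l 42)) (.l 56))))) (.l 122)))) (.s 3 (.s 3 (.s 3 (.l 90) (.s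
      2 (.s 3 (.l 59) (.s 2 (.s 2 (.l 48) (.l 40)) (.s 0 (.l 16) (.s 2 (.l 33) (.l 26))))) (.s 3
      (.s 0 (.l 20) (.l 35)) (.s 0 (.l 8) (.s 2 (.l 19) (.l 5)))))) (.s 2 (.s 0 (.s 2 (.s 0 (.s 1
      (.s 2 (.l 10) (.l 6)) (.s 1 (.s 2 (.l 10) (.l 7)) (.s 2 (.l 14) (.l 11)))) (.s 5 (.s 2 (.s 2
      (.l 15) (.l 13)) (.l 10)) (.s 2 (.s 0 (.l 16) (.s 2 (.l 19) (.l 17))) (.s 3 (.l 15) (.s 1 .z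
      (.s 2 (.l 15) (.l 13))))))) (.s 5 (.l 6) (.s 2 (.s 0 (.l 8) (.s 2 (.l 11) (.l 9))) (.l 7))))
      (.s 2 (.s 3 (.s 1 (.s 2 (.l 25) (.l 16)) (.s 3 (.l 38) (.s 2 (.l 30) (.l 21)))) (.s 2 (.s 2
      (.s 2 (.l 24) (.l 22)) (.l 20)) (.l 16))) (.s 3 (.s 3 (.s 2 (.l 22) (.l 14)) (.l 13)) (.l
      10)))) (.s 0 (.l 3) (.l 6)))) (.s 3 (.s 1 .z (.s 2 (.s 1 (.s 2 (.s 3 (.l 9) (.s 2 (.l 15)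
      (.l 8))) (.l 4)) (.s 2 (.s 3 (.s 1 (.s 2 (.s 2 (.l 17) (.l 14)) (.l 11)) (.s 2 (.s 2 (.l 26)
      (.l 22)) (.s 5 (.s 2 (.l 15) (.l 13)) (.l 19)))) (.s 3 (.s 2 (.l 32) (.s 1 (.l 14) (.l 25)))
      (.l 41))) (.s 3 (.s 1 (.l 6) (.s 2 (.s 5 (.l 10) (.l 13)) (.l 8))) (.s 3 (.s 1 (.l 8) (.s 2
      (.s 2 (.l 17) (.l 14)) (.l 11))) (.s 0 (.l 17) (.l 26)))))) (.s 3 (.l 2) (.s 2 (.s 3 (.l 6)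
      (.s 3 (.l 8) (.l 11))) (.l 2))))) (.s 3 (.s 1 (.l 7) (.s 2 (.s 1 (.s 2 (.l 36) (.l 22)) (.l
      65)) (.s 3 (.s 1 (.l 1) (.s 2 (.l 24) (.l 11))) (.l 39)))) (.l 98))))) (.s 3 (.s 3 (.s 3 (.s
      2 (.l 69) (.l 81)) (.s 1 (.s 0 (.s 2 (.l 8) (.l 5)) (.s 3 (.s 0 (.l 19) (.s 2 (.l 17) (.l
      41))) (.l 13))) (.l 8))) (.s 2 .z .z)) (.s 3 (.s 2 .z .z) (.s 3 (.s 3 (.l 2) (.s 3 (.l 9)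
      (.l 18))) (.l 60)))))) = true := by
  decide +kernel

theorem vm_dRR : check 26 18 133 101 8 8 [7, 6, 6, 0] [8, 8, 7, 6, 6, 16] [8, 0, 7, 6, 6, 16] 0 0
    [(13, 16, 16), (0, 1, 1), (-3, -1, 4), (0, 3, 4), (-3, 3, 4), (1, 1, 1)] pVA pCA
    (.s 3 (.s 3 (.s 2 (.s 3 (.l 134) (.s 5 (.s 1 (.l 79) (.s 0 (.s 1 (.l 17) (.s 3 (.l 11) (.l
      6))) (.s 3 (.s 5 (.s 1 (.l 69) (.s 2 (.s 3 (.s 2 (.l 37) (.l 48)) (.s 5 (.s 0 (.s 1 (.l 22)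
      (.l 18)) (.s 2 (.l 20) (.l 27))) (.s 2 (.l 28) (.l 36)))) (.s 2 (.s 3 (.l 59) (.s 5 (.s 2
      (.l 34) (.l 40)) (.l 49))) (.l 69)))) (.l 81)) (.s 5 (.s 2 (.s 1 (.s 3 (.l 27) (.s 2 (.l 15)
      (.l 19))) (.s 3 (.s 0 (.s 0 (.l 11) (.s 5 (.s 2 (.l 10) (.l 15)) (.s 2 (.l 16) (.l 19))))
      (.s 5 (.l 16) (.s 3 (.l 24) (.l 19)))) (.s 0 (.s 5 (.l 3) (.s 2 (.l 7) (.l 12))) (.l 13))))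
      (.s 1 (.s 2 (.l 36) (.l 51)) (.s 2 (.s 3 (.s 5 (.s 0 (.l 19) (.s 2 (.l 21) (.l 26))) (.s 2
      (.l 31) (.l 37))) (.s 5 (.s 2 (.l 12) (.l 17)) (.s 0 (.l 17) (.s 2 (.l 18) (.l 24))))) (.s 3
      (.s 2 (.l 45) (.l 52)) (.s 5 (.s 2 (.l 23) (.l 30)) (.l 41)))))) (.s 1 (.l 64) (.s 2 (.s 3
      (.s 0 (.l 24) (.s 2 (.l 28) (.l 39))) (.s 5 (.s 0 (.s 2 (.l 13) (.l 16)) (.s 2 (.l 13) (.l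
      21))) (.s 2 (.l 20) (.l 28)))) (.s 2 (.s 3 (.l 52) (.s 5 (.s 2 (.l 27) (.l 34)) (.l 42)))
      (.l 64)))))))) (.l 104))) (.l 162)) (.s 2 (.s 5 (.s 0 (.s 1 (.s 3 (.l 16) (.l 7)) (.s 1 (.s
      3 (.l 7) (.l 1)) (.l 2))) (.s 3 (.s 1 (.s 3 (.l 40) (.s 2 (.l 13) (.l 22))) (.s 2 (.s 3 (.s
      5 (.s 1 (.s 3 (.l 12) (.l 6)) (.l 5)) (.s 1 (.s 2 (.l 15) (.l 20)) (.s 3 (.s 0 (.s 1 (.l 13)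
      (.l 10)) (.s 5 (.l 11) (.l 17))) (.s 1 (.l 11) (.l 7))))) (.s 0 (.s 3 (.l 6) (.l 2)) (.l
      6))) (.s 3 (.s 5 (.s 2 (.s 1 (.s 3 (.l 18) (.l 11)) (.s 0 (.s 2 (.l 6) (.l 10)) (.l 12)))
      (.s 3 (.s 1 (.l 28) (.s 5 (.s 2 (.l 11) (.l 18)) (.s 2 (.l 21) (.l 28)))) (.s 5 (.l 12) (.s
      2 (.l 14) (.l 18))))) (.s 1 (.l 45) (.s 2 (.s 3 (.s 5 (.s 5 (.s 2 (.l 14) (.l 19)) (.l 22))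
      (.l 30)) (.s 0 (.l 12) (.s 2 (.l 12) (.l 18)))) (.s 3 (.l 46) (.s 5 (.l 25) (.l 35)))))) (.s
      5 (.s 1 (.s 2 (.l 4) (.l 11)) (.l 5)) (.s 2 (.s 1 (.l 13) (.s 1 (.l 11) (.l 8))) (.s 5 (.s 2
      (.l 13) (.l 17)) (.s 2 (.l 18) (.l 23)))))))) (.s 1 (.l 12) (.s 2 .z (.s 1 (.s 2 (.l 3) (.l
      9)) (.l 5)))))) (.s 1 (.l 66) (.s 0 (.s 3 (.l 9) (.l 3)) (.s 5 (.s 3 (.s 1 (.l 56) (.s 2 (.s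
      3 (.s 3 (.l 28) (.s 2 (.l 12) (.l 19))) (.s 0 (.l 8) (.l 10))) (.s 3 (.l 56) (.s 2 (.s 3 (.l
      22) (.l 13)) (.l 37))))) (.s 1 (.s 2 (.l 5) (.l 18)) (.s 2 (.l 2) (.s 2 (.l 7) (.l 18)))))
      (.s 3 (.l 66) (.s 2 (.l 8) (.l 30))))))) (.s 2 (.s 5 (.s 1 (.l 68) (.s 0 (.l 10) (.s 3 (.s 2
      (.s 5 (.s 1 (.l 44) (.s 3 (.s 5 (.s 3 (.l 35) (.l 22)) (.l 45)) (.s 2 (.l 13) (.l 21)))) (.s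
      3 (.l 59) (.l 41))) (.s 3 (.l 70) (.l 54))) (.s 2 (.s 5 (.l 7) (.l 20)) (.s 0 (.l 17) (.l
      37)))))) (.l 93)) (.l 116)))) (.s 2 (.s 0 (.l 3) (.s 1 (.l 8) (.s 2 .z (.l 5)))) (.s 2 (.s 5
      (.s 2 (.l 8) (.l 14)) (.l 31)) (.l 61)))) = true := by
  decide +kernel

theorem vm_bRLL : check 26 18 102 70 8 8 [7, 6, 6, 0] [8, 8, 7, 6, 6, 16] [8, 0, 7, 6, 6, 16] 0 0
    [(6, 9, 16), (0, 1, 1), (0, 1, 2), (-1, 1, 1), (-1, 1, 1), (1, 1, 1)] pVA pCA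
    (.s 0 (.s 2 (.s 3 (.s 0 (.s 5 (.l 2) (.s 2 (.l 4) .z)) (.s 3 (.s 2 (.s 2 (.l 15) (.s 2 (.l 8)
      (.l 6))) (.l 3)) (.s 2 (.s 2 (.s 2 (.l 12) (.l 7)) .z) .z))) (.s 2 (.s 3 (.s 2 (.s 2 (.l 21)
      (.s 1 (.l 2) (.s 1 (.l 9) (.s 3 (.l 11) (.l 16))))) (.s 1 .z (.s 1 (.l 3) (.s 0 (.l 2) (.s 3
      (.l 5) (.s 2 (.s 2 (.l 12) (.l 9)) (.l 6))))))) (.s 2 (.l 37) (.s 3 (.s 1 (.l 2) (.s 0 (.l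
      6) (.s 1 (.s 2 (.l 9) (.l 5)) (.s 2 (.l 18) (.s 3 (.l 10) (.l 14)))))) (.l 27)))) (.s 3 .z
      (.s 1 (.l 1) (.s 3 (.s 1 .z (.s 2 (.s 3 (.l 5) (.s 2 (.l 10) (.l 5))) .z)) (.s 1 (.l 9) (.s
      2 (.l 19) (.l 12)))))))) (.s 3 (.s 2 .z (.s 2 (.l 1) (.l 5))) (.s 3 (.l 1) (.s 1 (.s 2 .z
      (.l 4)) (.s 3 (.s 2 .z (.l 6)) (.s 2 (.l 8) (.l 13))))))) (.s 2 (.s 2 (.s 3 (.s 2 (.s 3 (.s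
      0 (.l 41) (.l 94)) (.s 2 (.s 1 (.l 36) (.l 62)) (.s 5 (.l 14) (.s 0 (.s 2 (.l 19) (.l 13))
      (.s 2 (.l 41) (.l 29)))))) (.s 3 (.s 3 (.l 59) (.s 0 (.l 12) (.s 2 (.l 36) (.l 15)))) (.s 0
      (.l 6) (.s 2 (.l 16) .z)))) (.s 3 (.s 2 (.s 1 (.s 2 (.l 22) (.l 2)) (.s 2 (.l 82) (.s 1 (.s
      0 (.s 2 (.l 18) (.l 12)) (.l 30)) (.s 2 (.s 3 (.l 44) (.l 63)) (.s 0 (.s 3 (.l 20) (.l 30))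
      (.s 3 (.l 31) (.l 53))))))) (.s 1 .z (.s 1 (.l 5) (.s 2 (.s 3 (.s 2 (.s 2 (.l 17) (.l 11))
      (.l 4)) (.s 0 (.s 5 (.l 13) (.s 2 (.l 25) (.s 3 (.l 13) (.l 19)))) (.s 3 (.s 2 (.l 29) (.l
      14)) (.s 2 (.l 43) (.l 31))))) (.s 2 (.s 0 (.s 3 .z (.s 3 (.l 2) (.l 13))) (.l 17)) (.l
      5)))))) (.s 2 (.s 1 (.l 66) (.l 129)) (.s 3 (.s 1 (.l 3) (.s 1 (.s 2 (.s 2 (.l 36) (.l 25))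
      (.l 14)) (.s 2 (.s 0 (.l 38) (.l 71)) (.s 3 (.s 0 (.s 2 (.l 21) (.l 16)) (.s 2 (.l 38) (.l
      27))) (.s 1 (.l 36) (.l 55)))))) (.s 1 (.l 33) (.l 102)))))) (.s 3 (.s 3 (.s 3 (.s 3 (.l 26)
      (.l 9)) .z) .z) (.s 3 .z (.s 1 (.l 2) (.s 3 (.s 2 (.s 1 .z (.s 3 (.s 0 (.s 2 (.l 10) .z) (.l
      15)) (.s 1 (.s 2 (.l 16) .z) (.s 0 (.s 2 (.l 20) (.l 12)) (.s 2 (.l 39) (.l 23)))))) (.l 4))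
      (.s 3 (.s 1 (.l 17) (.s 0 (.s 2 (.l 29) (.l 16)) (.s 2 (.l 58) (.l 36)))) (.l 77))))))) (.s
      0 (.s 3 (.s 2 (.l 3) (.s 3 (.s 3 (.l 24) (.l 9)) .z)) (.s 3 (.s 2 .z (.l 5)) (.s 3 (.s 2 .z
      (.s 2 (.l 9) (.l 19))) (.s 2 (.s 3 (.l 11) (.l 20)) (.l 36))))) (.s 2 (.s 3 (.s 3 (.s 3 (.l
      23) .z) .z) (.s 3 .z (.s 3 (.l 5) (.s 3 (.l 30) (.l 52))))) (.s 2 (.s 3 (.s 3 (.s 3 (.l 46)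
      (.l 1)) .z) (.s 3 .z (.s 3 (.l 27) (.l 66)))) (.s 3 (.s 3 (.l 70) (.l 8)) (.s 3 (.l 18) (.l
      86)))))))) = true := by
  decide +kernel

theorem vm_eL : check 26 18 138 91 8 8 [7, 6, 6, 0] [8, 8, 7, 6, 6, 16] [8, 0, 7, 6, 6, 16] 0 0
    [(3, 4, 4), (0, 3, 4), (-2, 1, 8), (-3, 0, 4), (-3, 3, 4), (1, 1, 1)] pVA pCA
    (.s 3 (.s 3 (.s 5 (.s 3 (.s 2 (.l 95) (.s 3 (.l 74) (.s 5 (.s 0 (.l 13) (.s 3 (.s 2 (.l 49)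
      (.l 44)) (.s 5 (.s 2 (.l 32) (.l 20)) (.s 2 (.l 42) (.l 35))))) (.l 61)))) (.s 2 (.s 2 (.l
      74) (.s 0 (.s 2 (.l 22) (.l 18)) (.s 5 (.s 3 (.s 5 (.s 2 (.l 36) (.l 29)) (.l 45)) (.s 2 (.s
      2 (.l 33) (.l 28)) (.s 3 (.l 24) (.l 17)))) (.s 3 (.l 57) (.s 2 (.l 46) (.s 5 (.s 2 (.l 33)
      (.l 29)) (.l 39))))))) (.s 0 (.s 2 (.l 13) (.l 2)) (.s 5 (.s 3 (.s 2 (.s 5 (.s 3 (.l 23) (.l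
      12)) (.s 3 (.s 2 (.l 33) (.l 29)) (.s 2 (.l 25) (.l 18)))) (.s 3 (.s 3 (.l 23) (.l 15)) .z))
      (.s 3 (.s 0 (.l 12) (.l 15)) (.l 1))) (.s 3 (.s 3 (.s 2 (.l 47) (.s 3 (.l 41) (.l 37))) (.s
      5 (.s 0 (.l 24) (.s 2 (.s 2 (.l 34) (.l 29)) (.l 24))) (.s 2 (.l 41) (.l 33)))) (.s 2 (.s 5
      (.s 3 (.s 0 (.l 20) (.s 2 (.l 26) (.l 20))) (.s 2 (.l 19) (.l 5))) (.s 3 (.s 2 (.l 34) (.s 3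
      (.l 29) (.l 25))) (.s 2 (.s 2 (.l 27) (.l 24)) (.s 2 (.l 21) (.l 18))))) (.s 3 (.s 5 (.l 7)
      (.s 3 (.l 24) (.l 19))) (.l 12)))))))) (.s 2 (.l 120) (.s 3 (.l 94) (.s 3 (.l 63) (.s 5 (.s
      0 (.l 13) (.s 5 (.s 3 (.s 2 (.l 39) (.l 30)) (.s 2 (.s 2 (.l 32) (.s 2 (.l 27) (.l 24))) (.l
      22))) (.s 2 (.l 42) (.l 33)))) (.l 48)))))) (.s 2 (.s 2 (.s 5 (.s 2 (.l 59) (.s 5 (.s 3 (.s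
      3 (.l 36) (.l 28)) (.l 19)) (.l 48))) (.l 77)) (.s 5 (.s 0 (.s 2 (.l 13) (.l 8)) (.s 5 (.s 2
      (.s 2 (.s 0 (.l 16) (.l 22)) (.l 14)) (.l 8)) (.s 3 (.s 2 (.s 5 (.s 2 (.l 31) (.l 25)) (.l
      37)) (.s 3 (.s 5 (.l 19) (.s 2 (.l 28) (.l 24))) (.l 14))) (.s 2 (.l 19) .z)))) (.s 2 (.l
      51) (.s 5 (.s 3 (.s 3 (.l 36) (.s 2 (.l 26) (.l 22))) (.l 17)) (.l 42))))) (.s 0 (.s 5 .z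
      (.s 2 (.l 11) .z)) (.s 5 (.s 2 (.s 5 .z (.s 3 (.s 3 (.s 2 (.s 5 (.l 9) (.s 2 (.l 20) (.l
      16))) (.l 11)) .z) .z)) .z) (.s 3 (.s 5 (.s 2 (.s 3 (.s 2 (.s 5 (.s 2 (.l 26) (.s 3 (.l 23)
      (.l 16))) (.l 29)) (.s 0 (.l 15) (.s 3 (.s 5 (.l 19) (.l 24)) (.s 2 (.l 17) (.l 14))))) (.s
      2 (.s 2 (.l 18) (.l 15)) (.l 11))) (.s 3 (.s 3 (.s 3 (.l 18) (.l 15)) (.l 11)) (.l 2))) (.s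
      3 (.s 2 (.l 34) (.l 22)) (.s 2 (.s 2 (.l 23) (.l 16)) (.l 10)))) (.s 2 (.s 2 (.l 13) (.l 8))
      (.l 2))))))) (.s 2 (.s 2 (.s 5 (.s 2 (.l 32) (.l 19)) (.l 49)) (.s 5 (.l 3) (.l 23))) (.l
      3))) = true := by
  decide +kernel

theorem vm_bRRRRL : check 26 18 121 78 8 8 [7, 6, 6, 0] [8, 8, 7, 6, 6, 16] [8, 0, 7, 6, 6, 16] 0
  0
    [(21, 24, 32), (2, 3, 2), (0, 1, 2), (-1, 1, 1), (-1, 1, 1), (1, 1, 1)] pVA pCA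
    (.s 0 (.s 3 (.s 3 (.s 3 (.s 2 (.l 66) (.l 67)) (.s 2 (.s 2 (.s 2 (.l 48) (.s 0 (.s 2 (.l 20)
      (.l 14)) (.l 28))) (.s 2 (.s 3 (.s 2 (.l 13) (.l 8)) (.s 2 (.l 7) (.l 2))) (.l 4))) (.s 2
      (.s 3 (.s 2 (.l 8) (.s 0 (.l 12) (.s 2 (.l 15) (.l 21)))) (.s 2 .z (.s 2 .z (.s 2 (.l 7) (.l
      11))))) (.s 2 (.s 0 (.l 20) (.s 2 (.l 27) (.l 33))) (.l 48))))) (.s 2 (.s 2 (.s 2 (.l 36)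
      (.s 2 (.s 3 (.s 2 (.l 16) (.l 12)) (.l 9)) (.s 3 (.s 2 (.l 8) (.l 5)) (.l 4)))) (.s 2 (.s 2
      (.s 2 (.l 3) (.l 1)) .z) .z)) (.s 2 .z (.s 2 (.s 3 (.s 2 (.s 0 (.l 4) (.s 2 (.l 4) (.l 10)))
      (.s 3 (.l 18) (.l 11))) (.l 2)) (.l 34))))) (.s 3 (.s 2 (.s 2 (.s 2 (.l 39) (.s 1 (.l 2) (.s
      2 (.s 1 (.l 9) (.l 18)) (.s 3 (.l 4) (.s 2 (.s 2 (.l 11) (.l 9)) (.s 2 (.l 7) (.l 6)))))))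
      (.s 2 (.s 2 (.s 3 (.l 1) (.s 2 (.l 4) (.l 2))) (.l 1)) .z)) (.s 2 .z (.s 2 (.s 2 (.l 1) (.l
      6)) (.l 19)))) (.s 3 (.s 2 (.s 2 (.s 1 (.l 23) (.l 52)) (.s 2 (.s 3 (.s 2 (.l 9) (.l 3)) (.l
      15)) (.s 2 (.l 5) (.l 2)))) (.s 2 (.s 3 (.l 2) (.l 8)) (.s 2 (.l 18) (.l 33)))) (.s 2 (.l
      71) (.l 52))))) (.s 3 (.s 3 (.s 3 (.s 2 (.l 109) (.l 125)) (.s 2 (.s 2 (.s 2 (.l 81) (.l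
      47)) (.s 3 (.s 2 (.l 22) (.l 5)) (.l 8))) (.s 2 (.s 2 (.s 3 (.l 13) .z) (.s 3 (.s 2 (.s 2
      (.l 23) (.l 33)) (.l 48)) (.s 2 .z (.s 3 (.l 29) (.l 14))))) (.s 2 (.s 5 (.s 0 (.l 42) (.l
      62)) (.l 75)) (.l 101))))) (.s 2 (.s 2 (.s 2 (.l 58) (.s 2 (.l 21) (.l 8))) (.s 2 (.l 1)
      .z)) (.s 2 .z (.s 2 (.s 3 (.s 2 (.s 3 (.s 2 (.l 15) (.l 31)) .z) (.s 5 (.l 32) (.l 49))) (.s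
      2 .z (.l 16))) (.l 79))))) (.s 3 (.s 2 (.s 2 (.s 2 (.l 69) (.s 1 .z (.s 2 (.s 2 (.l 34) (.l
      26)) (.s 3 (.l 4) (.s 2 (.l 18) (.l 11)))))) (.s 3 .z (.s 2 (.l 4) .z))) (.s 2 .z (.s 2 (.s
      2 (.l 6) (.l 20)) (.l 50)))) (.s 3 (.s 2 (.s 2 (.s 2 (.l 93) (.l 59)) (.s 3 (.s 2 (.l 16)
      .z) (.s 2 (.l 30) (.l 9)))) (.s 2 (.s 3 (.l 7) (.l 22)) (.s 2 (.l 47) (.l 77)))) (.s 2 (.l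
      121) (.l 107)))))) = true := by
  decide +kernel

theorem vm_bRRLRRL : check 26 18 129 86 8 8 [7, 6, 6, 0] [8, 8, 7, 6, 6, 16] [8, 0, 7, 6, 6, 16] 0
  0
    [(39, 42, 64), (2, 3, 2), (0, 1, 2), (-1, 1, 1), (-1, 1, 1), (1, 1, 1)] pVA pCA
    (.s 0 (.s 2 (.s 2 (.s 2 (.s 3 (.s 3 (.l 53) (.l 28)) (.s 1 (.l 29) (.l 66))) (.s 3 (.s 3 (.s 3
      (.l 34) (.s 2 (.l 20) (.l 13))) (.s 2 (.s 2 (.l 10) (.l 6)) (.l 3))) (.s 3 (.s 1 .z (.s 1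
      (.l 4) (.s 2 (.s 3 (.l 7) (.l 16)) (.s 3 (.l 2) (.s 2 (.l 8) (.l 5)))))) (.s 3 (.s 0 (.s 2
      (.l 20) (.l 15)) (.l 28)) (.l 47))))) (.s 3 (.s 3 (.s 3 (.l 20) (.s 3 (.l 6) (.l 1))) .z)
      (.s 3 (.s 2 (.s 2 (.l 2) .z) .z) (.s 3 (.s 1 .z (.s 1 (.l 1) (.s 3 (.s 3 (.l 4) (.s 2 (.l 8)
      .z)) (.s 2 (.l 15) (.l 5))))) (.l 32))))) (.s 2 (.s 3 (.s 3 (.s 3 (.l 25) (.l 3)) .z) (.s 3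
      .z (.s 3 (.s 3 .z (.l 7)) (.l 24)))) (.s 2 (.s 3 (.s 3 (.s 3 (.l 35) (.s 2 (.l 12) (.l 19)))
      (.l 1)) (.s 3 (.l 2) (.s 3 (.l 16) (.l 33)))) (.s 3 (.s 3 (.l 49) (.l 20)) (.s 3 (.l 15) (.l
      47)))))) (.s 3 (.s 3 (.s 3 (.s 2 (.s 2 (.l 95) (.l 42)) (.s 2 (.l 53) (.l 99))) (.s 2 (.s 2
      (.s 2 (.l 69) (.l 36)) (.l 9)) (.s 2 (.l 7) (.s 2 (.s 2 (.l 31) (.l 47)) (.l 75))))) (.s 2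
      (.s 2 (.s 2 (.l 48) (.s 2 (.l 12) (.l 2))) .z) (.s 2 .z (.s 2 (.l 8) (.l 52))))) (.s 3 (.s 2
      (.s 2 (.s 2 (.l 62) (.s 2 (.s 2 (.l 28) (.l 20)) (.s 2 (.l 12) (.l 5)))) .z) (.s 2 .z (.s 2
      (.l 10) (.l 40)))) (.s 3 (.s 2 (.s 2 (.s 2 (.l 87) (.s 2 (.l 55) (.l 42))) (.s 3 (.s 2 (.l
      13) .z) (.s 2 (.l 29) (.l 8)))) (.s 2 (.s 3 .z (.l 19)) (.s 2 (.l 40) (.l 67)))) (.s 2 (.s 2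
      (.l 115) (.l 65)) (.s 2 (.l 56) (.l 98))))))) = true := by
  decide +kernel

theorem vm_dRL : check 26 18 132 101 8 8 [7, 6, 6, 0] [8, 8, 7, 6, 6, 16] [8, 0, 7, 6, 6, 16] 0 0
    [(13, 16, 16), (0, 1, 1), (-3, -1, 4), (-3, 0, 4), (-3, 3, 4), (1, 1, 1)] pVA pCA
    (.s 3 (.s 3 (.s 3 (.l 155) (.s 5 (.s 2 (.l 101) (.s 1 (.l 78) (.s 3 (.s 5 (.s 0 (.l 34) (.s 3
      (.l 57) (.s 5 (.s 3 (.l 38) (.s 3 (.l 33) (.l 30))) (.l 45)))) (.l 77)) (.s 0 (.s 5 (.s 1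
      (.l 26) (.s 3 (.l 22) (.l 18))) (.l 30)) (.s 5 (.s 0 (.s 3 (.s 1 (.l 32) (.s 2 (.s 2 (.l 31)
      (.l 28)) (.s 3 (.l 25) (.l 21)))) (.s 1 (.l 25) (.s 2 (.s 2 (.l 24) (.l 20)) (.l 16)))) (.s
      3 (.l 30) (.l 21))) (.s 1 (.l 46) (.s 5 (.s 3 (.l 39) (.s 2 (.l 31) (.l 24))) (.l 43))))))))
      (.l 122))) (.s 2 (.s 2 (.l 85) (.s 5 (.s 1 (.l 39) (.s 3 (.s 2 (.l 45) (.s 5 (.s 0 (.l 20)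
      (.s 2 (.l 24) (.l 21))) (.s 2 (.l 39) (.l 36)))) (.s 2 (.l 21) (.l 15)))) (.l 59))) (.s 1
      (.s 5 (.s 3 (.s 3 (.l 40) (.l 24)) (.l 15)) (.l 56)) (.s 3 (.s 5 (.s 0 (.s 0 (.l 6) (.s 3
      (.s 1 (.s 2 (.l 21) (.l 15)) (.s 5 (.l 13) (.s 2 (.l 18) (.l 9)))) (.s 1 (.l 13) (.l 10))))
      (.s 3 (.s 0 (.s 5 (.s 2 (.s 3 (.s 2 (.l 19) (.l 16)) (.l 13)) (.l 13)) (.s 1 (.l 26) (.s 2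
      (.s 3 (.l 25) (.l 19)) (.s 2 (.l 17) (.l 15))))) (.s 2 (.l 25) (.l 20))) (.s 2 (.s 2 (.l 15)
      (.l 12)) (.l 9)))) (.s 5 (.s 1 (.l 41) (.s 0 (.s 2 (.l 21) (.l 12)) (.s 3 (.s 2 (.l 34) (.l
      27)) (.s 2 (.l 21) (.l 12))))) (.l 50))) (.s 0 (.s 5 (.l 6) (.l 12)) (.s 5 (.l 7) (.s 2 (.l
      15) (.l 9)))))))) (.s 2 (.s 2 (.l 32) (.l 14)) (.s 0 (.l 6) (.l 6)))) = true := by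
  decide +kernel

theorem vm_iL : check 26 18 139 91 8 8 [7, 6, 6, 0] [8, 8, 7, 6, 6, 16] [8, 0, 7, 6, 6, 16] 0 0
    [(3, 4, 4), (3, 5, 4), (-2, 1, 8), (-1, 1, 4), (-3, -2, 4), (1, 1, 1)] pVA pCA
    (.s 5 (.s 3 (.s 5 (.s 3 (.l 112) (.s 2 (.l 45) (.s 5 (.s 2 (.l 41) (.s 2 (.l 52) (.l 69))) (.l
      95)))) (.l 134)) (.s 5 (.s 2 (.s 3 (.s 3 (.l 27) (.l 19)) (.l 14)) (.s 3 (.s 5 (.s 2 (.l 19)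
      (.s 3 (.s 2 (.l 27) (.l 39)) (.l 26))) (.s 2 (.s 5 (.s 2 (.l 23) (.l 30)) (.s 2 (.l 32) (.l
      39))) (.s 3 (.l 68) (.s 5 (.s 2 (.l 27) (.l 39)) (.s 2 (.l 38) (.l 52)))))) (.s 5 (.l 8) (.s
      0 (.s 2 (.l 15) (.s 3 (.s 2 (.l 23) (.s 2 (.l 28) (.l 34))) (.s 2 (.l 8) (.l 22)))) (.l
      34))))) (.s 3 (.s 5 (.s 2 (.l 40) (.s 2 (.s 2 (.l 46) (.l 57)) (.l 93))) (.l 106)) (.s 2 (.s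
      5 (.s 3 (.l 23) (.l 17)) (.s 3 (.l 34) (.l 26))) (.s 5 (.s 2 (.s 0 (.s 3 (.s 3 (.l 32) (.l
      28)) (.s 3 (.l 23) (.l 18))) (.l 30)) (.s 3 (.s 5 (.s 2 (.l 37) (.l 52)) (.s 2 (.l 47) (.l
      68))) (.s 0 (.s 1 (.s 2 (.s 3 (.l 31) (.l 26)) (.s 2 (.l 36) (.l 42))) (.l 13)) (.s 2 (.l
      30) (.l 48))))) (.s 3 (.s 2 (.l 51) (.l 90)) (.s 2 (.s 5 (.s 2 (.l 26) (.l 33)) (.l 40)) (.s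
      2 (.s 2 (.l 46) (.l 56)) (.l 79))))))))) (.l 161)) = true := by
  decide +kernel

theorem vm_bRLRL : check 26 18 106 70 8 8 [7, 6, 6, 0] [8, 8, 7, 6, 6, 16] [8, 0, 7, 6, 6, 16] 0 0
    [(6, 9, 16), (1, 2, 1), (0, 1, 2), (-1, 1, 1), (-1, 0, 1), (1, 1, 1)] pVA pCA
    (.s 0 (.s 3 (.s 3 (.s 2 (.s 2 (.s 2 (.l 47) (.l 28)) (.s 3 (.l 14) (.l 5))) (.s 2 (.s 3 (.l
      12) .z) (.s 2 (.l 26) (.l 42)))) (.s 0 (.s 2 (.s 2 (.s 2 (.l 16) (.s 2 (.l 7) (.l 3))) .z)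
      (.s 2 .z (.s 2 (.l 2) (.l 10)))) (.s 2 (.s 2 (.s 2 (.l 31) (.l 12)) .z) (.s 2 .z (.s 2 (.l
      6) (.l 26)))))) (.s 2 (.s 2 (.s 2 (.s 2 (.s 2 (.l 20) (.l 14)) (.s 3 (.s 2 (.l 9) (.l 4))
      (.l 4))) (.l 2)) .z) (.s 2 .z (.s 2 .z (.s 2 .z (.l 11)))))) (.s 3 (.s 3 (.s 2 (.s 2 (.l
      124) (.s 2 (.l 44) (.l 11))) (.s 2 (.s 3 (.l 50) .z) (.s 2 (.l 100) (.l 137)))) (.s 2 (.s 2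
      (.s 2 (.l 83) (.l 20)) .z) (.s 2 .z (.s 2 (.s 2 .z (.l 37)) (.l 104))))) (.s 2 (.s 2 (.s 2
      (.s 2 (.l 43) (.l 10)) .z) .z) (.s 2 .z (.s 2 .z (.s 2 (.l 3) (.l 65))))))) = true := by
  decide +kernel

theorem xm_a : check 32 24 48 33 6 3 [3, 3, 6, 0] [6, 3, 3, 3, 6, 9] [6, 0, 3, 3, 6, 9] 0 0
    [(-8, 8, 8), (-1, 1, 1), (0, 3, 8), (0, 1, 1), (-1, 1, 1), (1, 1, 1)] pXA pDA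
    (.s 3 (.s 5 (.s 0 (.s 5 (.s 3 (.s 0 .z .z) (.s 2 (.s 5 (.s 3 .z (.s 2 .z (.s 3 .z (.s 2 (.l
      11) (.l 15))))) (.s 0 (.s 3 (.s 2 .z (.s 1 .z (.s 1 (.l 11) (.l 13)))) (.s 2 (.l 4) (.s 0
      (.s 0 (.s 0 (.s 0 (.s 3 (.s 5 (.s 1 .z (.l 8)) (.s 1 .z (.l 17))) (.s 5 (.l 10) (.l 10)))
      (.s 1 .z (.l 18))) (.l 16)) (.l 12)) (.l 5)))) .z)) (.s 5 (.l 35) (.s 2 (.s 0 (.s 0 (.s 0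
      (.s 3 (.s 5 .z (.s 3 .z (.s 2 (.s 1 (.l 5) (.l 8)) (.s 5 .z (.s 2 (.l 10) (.l 6)))))) (.s 0
      (.s 0 (.s 1 (.s 5 (.s 3 (.s 2 (.s 5 (.l 5) (.s 3 .z (.l 10))) (.l 8)) (.s 2 (.l 18) (.l 9)))
      (.s 3 (.s 0 (.s 0 (.s 2 (.s 3 (.s 5 (.l 3) (.l 6)) (.l 6)) (.s 5 (.l 11) (.l 7))) (.l 9))
      (.l 5)) (.l 9))) (.l 18)) (.l 14)) (.l 14))) (.l 21)) (.l 15)) (.l 1)) (.l 42))))) (.s 3 (.s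
      3 (.s 5 .z (.s 5 (.l 16) (.s 1 (.l 23) (.l 19)))) (.s 2 (.s 0 (.s 5 (.s 2 .z (.s 5 .z (.s 1
      .z (.l 20)))) (.s 5 (.s 2 .z (.s 1 (.l 6) (.l 23))) (.l 16))) (.s 1 .z (.l 24))) (.s 5 (.s 5
      (.l 4) (.s 0 (.s 2 (.s 1 (.l 17) (.l 25)) (.l 24)) (.l 27))) (.s 1 (.l 36) (.l 45))))) (.s 2
      (.s 0 (.s 5 (.s 3 (.s 2 (.s 3 .z .z) (.s 0 (.s 1 (.s 0 (.s 2 .z (.s 5 (.s 3 .z .z) (.s 3 .z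
      .z))) .z) (.s 5 (.s 3 (.s 2 (.l 12) (.s 0 (.l 19) (.l 20))) (.s 2 (.s 3 (.l 18) (.l 14)) (.s
      0 (.s 5 (.s 1 (.l 13) (.l 19)) (.s 1 (.s 2 .z (.l 17)) (.s 3 (.s 0 (.l 25) (.l 28)) (.l
      29)))) (.l 32)))) (.s 3 (.s 2 (.s 5 (.l 18) (.l 14)) (.s 0 (.s 1 (.s 3 (.l 18) (.l 20)) (.s
      3 (.l 25) (.s 0 (.s 5 (.l 26) (.l 27)) (.s 0 (.l 31) (.l 33))))) (.s 1 (.l 20) (.l 38))))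
      (.s 2 (.s 0 (.l 16) (.l 5)) (.s 1 (.l 21) (.s 0 (.s 5 (.s 3 (.s 0 (.l 28) (.l 34)) (.l 33))
      (.l 36)) (.s 2 (.s 3 (.l 38) (.l 34)) (.l 44)))))))) (.s 1 .z (.s 5 (.l 39) (.s 2 (.l 10)
      (.s 3 (.l 39) (.l 47))))))) (.s 2 .z (.s 1 .z (.s 0 (.s 5 (.s 1 (.l 11) (.l 29)) (.l 34))
      (.l 42))))) (.s 3 (.s 2 .z (.s 1 .z (.s 2 (.l 6) (.s 0 (.s 3 (.l 37) (.l 41)) (.l 49)))))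
      .z)) (.s 2 .z (.s 5 (.s 3 (.l 39) (.l 26)) (.s 3 (.l 36) .z)))) (.s 0 (.s 5 (.s 2 (.s 3 (.s
      0 (.s 0 (.s 5 (.s 1 (.s 0 (.s 3 (.s 2 (.s 1 (.l 3) (.l 11)) (.s 5 .z (.s 1 (.l 12) (.l
      11)))) (.s 0 (.s 2 (.s 0 (.s 5 (.s 1 (.l 4) (.l 12)) (.s 1 (.l 1) (.l 16))) (.l 11)) (.s 1
      (.s 5 (.s 3 (.l 6) (.l 6)) (.l 12)) (.l 15))) (.l 13))) (.l 16)) (.s 3 (.l 18) (.s 5 (.l 19)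
      (.s 3 (.l 26) (.l 28))))) (.s 1 (.s 0 (.s 3 (.s 0 (.s 2 (.s 1 (.l 14) (.s 2 (.l 17) (.l
      18))) (.s 3 (.l 19) (.l 20))) (.l 21)) (.s 2 (.l 14) (.l 16))) (.l 27)) (.s 1 (.s 3 (.s 1
      (.l 25) (.l 29)) (.s 0 (.l 27) (.l 30))) (.l 38)))) (.s 1 (.l 24) (.s 3 (.l 40) (.s 0 (.l
      42) (.l 47))))) (.s 1 (.l 17) (.l 53))) (.s 0 (.s 0 (.s 1 (.s 2 (.l 14) (.l 14)) (.s 0 (.l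
      29) (.l 36))) (.l 46)) (.l 53))) (.s 3 (.l 51) (.l 43))) (.s 2 (.s 3 (.s 1 (.l 25) (.s 0 (.s
      0 (.l 38) (.l 49)) (.l 57))) (.s 0 (.l 48) (.l 59))) (.l 51))) (.s 5 (.s 3 (.l 55) (.l 58))
      (.s 2 (.s 3 (.l 56) (.l 59)) (.l 54))))))) (.s 2 (.s 5 (.s 1 (.s 3 (.s 0 (.l 25) .z) (.s 5
      (.s 0 .z (.l 47)) .z)) (.l 53)) (.s 3 (.s 3 (.l 58) (.l 9)) .z)) (.s 5 (.l 50) (.s 2 (.l 63)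
      (.l 52))))) (.s 0 (.s 2 (.s 5 (.s 3 (.s 3 (.l 58) (.l 9)) .z) (.s 1 (.s 3 (.s 0 .z (.l 25))
      (.s 5 .z (.s 0 (.l 47) .z))) (.l 53))) (.s 5 (.s 2 (.l 63) (.l 52)) (.l 50))) (.s 5 (.s 3
      (.s 3 (.s 5 (.s 5 (.s 1 (.l 23) (.l 19)) (.l 16)) .z) (.s 2 (.s 0 (.s 1 .z (.l 24)) (.s 5
      (.s 5 (.l 16) (.s 2 .z (.s 1 (.l 6) (.l 23)))) (.s 2 .z (.s 5 (.s 1 .z (.l 20)) .z)))) (.s 5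
      (.s 1 (.l 36) (.l 45)) (.s 5 (.s 0 (.l 27) (.s 2 (.s 1 (.l 17) (.l 25)) (.l 24))) (.l 4)))))
      (.s 2 (.s 0 (.s 2 .z (.s 5 (.s 3 (.l 36) .z) (.s 3 (.l 39) (.l 26)))) (.s 5 (.s 3 (.s 2 .z
      (.s 1 .z (.s 2 (.l 6) (.s 0 (.l 49) (.s 3 (.l 37) (.l 41)))))) .z) (.s 3 (.s 2 (.s 3 .z .z)
      (.s 0 (.s 1 .z (.s 5 (.s 2 (.l 10) (.s 3 (.l 39) (.l 47))) (.l 39))) (.s 1 (.s 0 .z (.s 2 .z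
      (.s 5 (.s 3 .z .z) (.s 3 .z .z)))) (.s 5 (.s 3 (.s 2 (.s 5 (.l 14) (.l 18)) (.s 0 (.s 1 (.l
      20) (.l 38)) (.s 1 (.s 3 (.l 18) (.l 20)) (.s 3 (.l 25) (.s 0 (.s 0 (.l 33) (.l 31)) (.s 5
      (.l 27) (.l 26))))))) (.s 2 (.s 0 (.l 5) (.l 16)) (.s 1 (.l 21) (.s 0 (.s 2 (.s 3 (.l 38)
      (.l 34)) (.l 44)) (.s 5 (.l 36) (.s 3 (.s 0 (.l 34) (.l 28)) (.l 33))))))) (.s 3 (.s 2 (.l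
      12) (.s 0 (.l 20) (.l 19))) (.s 2 (.s 3 (.l 18) (.l 14)) (.s 0 (.l 32) (.s 5 (.s 1 (.s 2 .z
      (.l 17)) (.s 3 (.s 0 (.l 28) (.l 25)) (.l 29))) (.s 1 (.l 13) (.l 19)))))))))) (.s 2 .z (.s
      1 .z (.s 0 (.l 42) (.s 5 (.l 34) (.s 1 (.l 11) (.l 29))))))))) (.s 0 (.s 5 (.s 2 (.s 3 (.l
      56) (.l 59)) (.l 54)) (.s 3 (.l 55) (.l 58))) (.s 5 (.s 2 (.s 3 (.s 1 (.l 25) (.s 0 (.l 57)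
      (.s 0 (.l 49) (.l 38)))) (.s 0 (.l 59) (.l 48))) (.l 51)) (.s 2 (.s 3 (.s 0 (.s 1 (.l 17)
      (.l 53)) (.s 0 (.s 1 (.l 24) (.s 3 (.l 40) (.s 0 (.l 47) (.l 42)))) (.s 5 (.s 1 (.s 0 (.l
      27) (.s 3 (.s 0 (.l 21) (.s 2 (.s 1 (.l 14) (.s 2 (.l 17) (.l 18))) (.s 3 (.l 19) (.l 20))))
      (.s 2 (.l 14) (.l 16)))) (.s 1 (.s 3 (.s 1 (.l 25) (.l 29)) (.s 0 (.l 30) (.l 27))) (.l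
      38))) (.s 1 (.s 0 (.l 16) (.s 3 (.s 2 (.s 1 (.l 3) (.l 11)) (.s 5 (.s 1 (.l 12) (.l 11))
      .z)) (.s 0 (.l 13) (.s 2 (.s 0 (.l 11) (.s 5 (.s 1 (.l 1) (.l 16)) (.s 1 (.l 4) (.l 12))))
      (.s 1 (.s 5 (.l 12) (.s 3 (.l 6) (.l 6))) (.l 15)))))) (.s 3 (.l 18) (.s 5 (.s 3 (.l 26) (.l
      28)) (.l 19))))))) (.s 0 (.l 53) (.s 0 (.l 46) (.s 1 (.s 2 (.l 14) (.l 14)) (.s 0 (.l 36)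
      (.l 29)))))) (.s 3 (.l 51) (.l 43))))))) (.s 3 (.s 0 .z .z) (.s 2 (.s 5 (.s 0 .z (.s 3 (.s 2
      .z (.s 1 .z (.s 1 (.l 11) (.l 13)))) (.s 2 (.l 4) (.s 0 (.l 5) (.s 0 (.l 12) (.s 0 (.l 16)
      (.s 0 (.s 1 .z (.l 18)) (.s 3 (.s 5 (.s 1 .z (.l 17)) (.s 1 .z (.l 8))) (.s 5 (.l 10) (.l
      10)))))))))) (.s 3 .z (.s 2 .z (.s 3 .z (.s 2 (.l 11) (.l 15)))))) (.s 5 (.s 2 (.s 0 (.l 1)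
      (.s 0 (.l 15) (.s 0 (.l 21) (.s 3 (.s 5 (.s 3 .z (.s 2 (.s 1 (.l 5) (.l 8)) (.s 5 (.s 2 (.l
      10) (.l 6)) .z))) .z) (.s 0 (.l 14) (.s 0 (.l 14) (.s 1 (.s 5 (.s 3 (.s 0 (.l 5) (.s 0 (.l
      9) (.s 2 (.s 3 (.s 5 (.l 6) (.l 3)) (.l 6)) (.s 5 (.l 7) (.l 11))))) (.l 9)) (.s 3 (.s 2 (.s
      5 (.s 3 .z (.l 10)) (.l 5)) (.l 8)) (.s 2 (.l 18) (.l 9)))) (.l 18)))))))) (.l 42)) (.l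
      35))))))) (.s 5 (.s 0 (.s 2 (.s 5 (.s 1 (.s 3 (.s 5 (.s 0 (.l 47) .z) .z) (.s 0 .z (.l 25)))
      (.l 53)) (.s 3 .z (.s 3 (.l 9) (.l 58)))) (.s 5 (.l 50) (.s 2 (.l 63) (.l 52)))) (.s 5 (.s 3
      (.s 2 (.s 5 (.s 3 (.s 2 .z (.s 3 (.s 2 (.l 11) (.l 15)) .z)) .z) (.s 0 .z (.s 3 (.s 2 (.l 4)
      (.s 0 (.l 5) (.s 0 (.l 12) (.s 0 (.l 16) (.s 0 (.s 1 .z (.l 18)) (.s 3 (.s 5 (.l 10) (.l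
      10)) (.s 5 (.s 1 .z (.l 8)) (.s 1 .z (.l 17))))))))) (.s 2 .z (.s 1 .z (.s 1 (.l 11) (.l
      13))))))) (.s 5 (.l 35) (.s 2 (.s 0 (.l 1) (.s 0 (.l 15) (.s 0 (.l 21) (.s 3 (.s 0 (.l 14)
      (.s 0 (.l 14) (.s 1 (.s 5 (.s 3 (.s 2 (.l 18) (.l 9)) (.s 2 (.s 5 (.l 5) (.s 3 (.l 10) .z))
      (.l 8))) (.s 3 (.l 9) (.s 0 (.l 5) (.s 0 (.l 9) (.s 2 (.s 3 (.l 6) (.s 5 (.l 3) (.l 6))) (.s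
      5 (.l 11) (.l 7))))))) (.l 18)))) (.s 5 .z (.s 3 (.s 2 (.s 1 (.l 5) (.l 8)) (.s 5 .z (.s 2
      (.l 10) (.l 6)))) .z)))))) (.l 42)))) (.s 0 .z .z)) (.s 3 (.s 2 (.s 0 (.s 2 .z (.s 5 (.s 3
      (.l 26) (.l 39)) (.s 3 .z (.l 36)))) (.s 5 (.s 3 (.s 2 .z (.s 1 .z (.s 0 (.l 42) (.s 5 (.s 1
      (.l 11) (.l 29)) (.l 34))))) (.s 2 (.s 3 .z .z) (.s 0 (.s 1 .z (.s 5 (.l 39) (.s 2 (.l 10)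
      (.s 3 (.l 47) (.l 39))))) (.s 1 (.s 0 .z (.s 2 .z (.s 5 (.s 3 .z .z) (.s 3 .z .z)))) (.s 5
      (.s 3 (.s 2 (.s 3 (.l 14) (.l 18)) (.s 0 (.l 32) (.s 5 (.s 1 (.l 13) (.l 19)) (.s 1 (.s 2 .z
      (.l 17)) (.s 3 (.l 29) (.s 0 (.l 28) (.l 25))))))) (.s 2 (.l 12) (.s 0 (.l 20) (.l 19))))
      (.s 3 (.s 2 (.s 0 (.l 5) (.l 16)) (.s 1 (.l 21) (.s 0 (.s 2 (.s 3 (.l 34) (.l 38)) (.l 44))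
      (.s 5 (.s 3 (.l 33) (.s 0 (.l 34) (.l 28))) (.l 36))))) (.s 2 (.s 5 (.l 18) (.l 14)) (.s 0
      (.s 1 (.l 20) (.l 38)) (.s 1 (.s 3 (.l 20) (.l 18)) (.s 3 (.s 0 (.s 0 (.l 33) (.l 31)) (.s 5
      (.l 26) (.l 27))) (.l 25))))))))))) (.s 3 .z (.s 2 .z (.s 1 .z (.s 2 (.l 6) (.s 0 (.l 49)
      (.s 3 (.l 41) (.l 37))))))))) (.s 0 (.s 5 (.s 3 (.l 58) (.l 55)) (.s 2 (.s 3 (.l 59) (.l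
      56)) (.l 54))) (.s 5 (.s 2 (.s 3 (.s 0 (.l 53) (.s 0 (.l 46) (.s 1 (.s 2 (.l 14) (.l 14))
      (.s 0 (.l 36) (.l 29))))) (.s 0 (.s 1 (.l 17) (.l 53)) (.s 0 (.s 1 (.l 24) (.s 3 (.s 0 (.l
      47) (.l 42)) (.l 40))) (.s 5 (.s 1 (.s 0 (.l 16) (.s 3 (.s 0 (.l 13) (.s 2 (.s 0 (.l 11) (.s
      5 (.s 1 (.l 4) (.l 12)) (.s 1 (.l 1) (.l 16)))) (.s 1 (.s 5 (.s 3 (.l 6) (.l 6)) (.l 12))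
      (.l 15)))) (.s 2 (.s 1 (.l 3) (.l 11)) (.s 5 .z (.s 1 (.l 12) (.l 11)))))) (.s 3 (.s 5 (.l
      19) (.s 3 (.l 28) (.l 26))) (.l 18))) (.s 1 (.s 0 (.l 27) (.s 3 (.s 2 (.l 14) (.l 16)) (.s 0
      (.l 21) (.s 2 (.s 1 (.l 14) (.s 2 (.l 17) (.l 18))) (.s 3 (.l 20) (.l 19)))))) (.s 1 (.s 3
      (.s 0 (.l 30) (.l 27)) (.s 1 (.l 25) (.l 29))) (.l 38))))))) (.s 3 (.l 43) (.l 51))) (.s 2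
      (.s 3 (.s 0 (.l 59) (.l 48)) (.s 1 (.l 25) (.s 0 (.l 57) (.s 0 (.l 49) (.l 38))))) (.l
      51))))) (.s 3 (.s 2 (.s 0 (.s 1 .z (.l 24)) (.s 5 (.s 2 .z (.s 5 .z (.s 1 .z (.l 20)))) (.s
      5 (.s 2 .z (.s 1 (.l 6) (.l 23))) (.l 16)))) (.s 5 (.s 5 (.l 4) (.s 0 (.l 27) (.s 2 (.s 1
      (.l 17) (.l 25)) (.l 24)))) (.s 1 (.l 36) (.l 45)))) (.s 5 .z (.s 5 (.l 16) (.s 1 (.l 23)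
      (.l 19)))))))) (.s 0 (.s 5 (.s 3 (.s 2 (.s 0 (.s 5 (.s 3 .z (.s 2 .z (.s 1 .z (.s 2 (.l 6)
      (.s 0 (.s 3 (.l 41) (.l 37)) (.l 49)))))) (.s 3 (.s 2 .z (.s 1 .z (.s 0 (.s 5 (.l 34) (.s 1
      (.l 11) (.l 29))) (.l 42)))) (.s 2 (.s 3 .z .z) (.s 0 (.s 1 (.s 0 (.s 2 .z (.s 5 (.s 3 .z
      .z) (.s 3 .z .z))) .z) (.s 5 (.s 3 (.s 2 (.s 0 (.l 16) (.l 5)) (.s 1 (.l 21) (.s 0 (.s 5 (.l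
      36) (.s 3 (.l 33) (.s 0 (.l 28) (.l 34)))) (.s 2 (.s 3 (.l 34) (.l 38)) (.l 44))))) (.s 2
      (.s 5 (.l 14) (.l 18)) (.s 0 (.s 1 (.s 3 (.l 20) (.l 18)) (.s 3 (.s 0 (.s 5 (.l 27) (.l 26))
      (.s 0 (.l 31) (.l 33))) (.l 25))) (.s 1 (.l 20) (.l 38))))) (.s 3 (.s 2 (.s 3 (.l 14) (.l
      18)) (.s 0 (.s 5 (.s 1 (.s 2 .z (.l 17)) (.s 3 (.l 29) (.s 0 (.l 25) (.l 28)))) (.s 1 (.l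
      13) (.l 19))) (.l 32))) (.s 2 (.l 12) (.s 0 (.l 19) (.l 20)))))) (.s 1 .z (.s 5 (.s 2 (.l
      10) (.s 3 (.l 47) (.l 39))) (.l 39))))))) (.s 2 .z (.s 5 (.s 3 .z (.l 36)) (.s 3 (.l 26) (.l
      39))))) (.s 0 (.s 5 (.s 2 (.s 3 (.s 0 (.l 48) (.l 59)) (.s 1 (.l 25) (.s 0 (.s 0 (.l 38) (.l
      49)) (.l 57)))) (.l 51)) (.s 2 (.s 3 (.s 0 (.s 0 (.s 1 (.s 2 (.l 14) (.l 14)) (.s 0 (.l 29)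
      (.l 36))) (.l 46)) (.l 53)) (.s 0 (.s 0 (.s 5 (.s 1 (.s 0 (.s 3 (.s 2 (.l 14) (.l 16)) (.s 0
      (.s 2 (.s 1 (.l 14) (.s 2 (.l 17) (.l 18))) (.s 3 (.l 20) (.l 19))) (.l 21))) (.l 27)) (.s 1
      (.s 3 (.s 0 (.l 27) (.l 30)) (.s 1 (.l 25) (.l 29))) (.l 38))) (.s 1 (.s 0 (.s 3 (.s 0 (.s 2
      (.s 0 (.s 5 (.s 1 (.l 1) (.l 16)) (.s 1 (.l 4) (.l 12))) (.l 11)) (.s 1 (.s 5 (.l 12) (.s 3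
      (.l 6) (.l 6))) (.l 15))) (.l 13)) (.s 2 (.s 1 (.l 3) (.l 11)) (.s 5 (.s 1 (.l 12) (.l 11))
      .z))) (.l 16)) (.s 3 (.s 5 (.s 3 (.l 28) (.l 26)) (.l 19)) (.l 18)))) (.s 1 (.l 24) (.s 3
      (.s 0 (.l 42) (.l 47)) (.l 40)))) (.s 1 (.l 17) (.l 53)))) (.s 3 (.l 43) (.l 51)))) (.s 5
      (.s 2 (.s 3 (.l 59) (.l 56)) (.l 54)) (.s 3 (.l 58) (.l 55))))) (.s 3 (.s 2 (.s 0 (.s 5 (.s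
      5 (.l 16) (.s 2 .z (.s 1 (.l 6) (.l 23)))) (.s 2 .z (.s 5 (.s 1 .z (.l 20)) .z))) (.s 1 .z
      (.l 24))) (.s 5 (.s 1 (.l 36) (.l 45)) (.s 5 (.s 0 (.s 2 (.s 1 (.l 17) (.l 25)) (.l 24)) (.l
      27)) (.l 4)))) (.s 5 (.s 5 (.s 1 (.l 23) (.l 19)) (.l 16)) .z))) (.s 3 (.s 2 (.s 5 (.s 0 (.s
      3 (.s 2 (.l 4) (.s 0 (.s 0 (.s 0 (.s 0 (.s 3 (.s 5 (.l 10) (.l 10)) (.s 5 (.s 1 .z (.l 17))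
      (.s 1 .z (.l 8)))) (.s 1 .z (.l 18))) (.l 16)) (.l 12)) (.l 5))) (.s 2 .z (.s 1 .z (.s 1 (.l
      11) (.l 13))))) .z) (.s 3 (.s 2 .z (.s 3 (.s 2 (.l 11) (.l 15)) .z)) .z)) (.s 5 (.s 2 (.s 0
      (.s 0 (.s 0 (.s 3 (.s 0 (.s 0 (.s 1 (.s 5 (.s 3 (.l 9) (.s 0 (.s 0 (.s 2 (.s 3 (.l 6) (.s 5
      (.l 6) (.l 3))) (.s 5 (.l 7) (.l 11))) (.l 9)) (.l 5))) (.s 3 (.s 2 (.l 18) (.l 9)) (.s 2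
      (.s 5 (.s 3 (.l 10) .z) (.l 5)) (.l 8)))) (.l 18)) (.l 14)) (.l 14)) (.s 5 (.s 3 (.s 2 (.s 1
      (.l 5) (.l 8)) (.s 5 (.s 2 (.l 10) (.l 6)) .z)) .z) .z)) (.l 21)) (.l 15)) (.l 1)) (.l 42))
      (.l 35))) (.s 0 .z .z))) (.s 2 (.s 5 (.s 3 .z (.s 3 (.l 9) (.l 58))) (.s 1 (.s 3 (.s 5 .z
      (.s 0 .z (.l 47))) (.s 0 (.l 25) .z)) (.l 53))) (.s 5 (.s 2 (.l 63) (.l 52)) (.l 50)))))) =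
      true := by
  decide +kernel

theorem xm_e : check 32 24 57 42 6 3 [3, 3, 6, 0] [6, 3, 3, 3, 6, 9] [6, 0, 3, 3, 6, 9] 0 0
    [(-8, -1, 8), (-1, 1, 1), (3, 5, 8), (3, 5, 8), (-1, 1, 1), (1, 1, 1)] pXA pDA
    (.s 3 (.s 3 (.l 68) (.s 5 (.l 48) (.s 0 (.s 0 (.s 3 (.s 5 (.s 3 (.l 37) (.s 0 (.s 1 (.s 5 (.l
      28) (.s 0 (.s 0 (.l 35) (.l 41)) (.s 3 (.l 43) (.l 48)))) (.l 46)) (.l 53))) (.s 1 (.s 2 (.s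
      3 (.s 0 (.s 5 (.l 41) (.l 41)) (.l 46)) (.s 0 (.s 5 (.s 2 (.s 0 (.l 40) (.s 1 (.s 3 (.l 45)
      (.l 47)) (.l 49))) (.l 51)) (.l 50)) (.s 5 (.s 3 (.l 53) (.s 0 (.s 2 (.s 0 (.l 53) (.l 55))
      (.l 57)) (.l 59))) (.s 1 (.l 57) (.l 60))))) (.s 0 (.l 52) (.l 61))) (.s 0 (.l 55) (.l
      63)))) (.s 5 (.s 0 (.l 52) (.l 56)) (.s 2 (.s 1 (.s 3 (.s 0 (.s 1 (.l 52) (.l 53)) (.s 5 (.s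
      1 (.s 0 (.l 55) (.l 56)) (.s 0 (.l 58) (.l 60))) (.s 2 (.l 58) (.s 1 (.l 58) (.l 61))))) (.l
      59)) (.s 0 (.l 52) (.s 3 (.s 0 (.l 60) (.l 64)) (.l 61)))) (.s 1 (.s 0 (.l 52) (.s 5 (.l 61)
      (.s 0 (.l 60) (.l 65)))) (.l 63))))) (.s 5 (.s 1 (.l 59) (.l 58)) (.s 3 (.s 2 (.s 1 (.l 61)
      (.l 59)) (.l 64)) (.s 2 (.s 1 (.s 3 (.s 5 (.l 60) (.s 1 (.l 56) (.l 65))) (.l 65)) (.s 3 (.l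
      67) (.l 67))) (.s 1 (.s 3 (.l 67) (.l 66)) (.l 68)))))) (.s 1 (.l 66) (.l 67))))) (.s 3 (.s
      5 (.l 48) (.s 0 (.s 1 (.l 66) (.l 67)) (.s 0 (.s 5 (.s 1 (.l 59) (.l 58)) (.s 3 (.s 2 (.s 1
      (.s 3 (.l 65) (.s 5 (.l 60) (.s 1 (.l 56) (.l 65)))) (.s 3 (.l 67) (.l 67))) (.s 1 (.s 3 (.l
      66) (.l 67)) (.l 68))) (.s 2 (.s 1 (.l 61) (.l 59)) (.l 64)))) (.s 3 (.s 5 (.s 0 (.l 56) (.l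
      52)) (.s 2 (.s 1 (.s 3 (.l 59) (.s 0 (.s 5 (.s 1 (.s 0 (.l 56) (.l 55)) (.s 0 (.l 60) (.l
      58))) (.s 2 (.l 58) (.s 1 (.l 58) (.l 61)))) (.s 1 (.l 52) (.l 53)))) (.s 0 (.s 3 (.l 61)
      (.s 0 (.l 64) (.l 60))) (.l 52))) (.s 1 (.s 0 (.s 5 (.l 61) (.s 0 (.l 65) (.l 60))) (.l 52))
      (.l 63)))) (.s 5 (.s 3 (.s 0 (.l 53) (.s 1 (.s 5 (.l 28) (.s 0 (.s 3 (.l 48) (.l 43)) (.s 0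
      (.l 41) (.l 35)))) (.l 46))) (.l 37)) (.s 1 (.s 2 (.s 3 (.s 0 (.s 5 (.s 3 (.s 0 (.l 59) (.s
      2 (.s 0 (.l 55) (.l 53)) (.l 57))) (.l 53)) (.s 1 (.l 57) (.l 60))) (.s 5 (.s 2 (.s 0 (.s 1
      (.s 3 (.l 47) (.l 45)) (.l 49)) (.l 40)) (.l 51)) (.l 50))) (.s 0 (.l 46) (.s 5 (.l 41) (.l
      41)))) (.s 0 (.l 61) (.l 52))) (.s 0 (.l 63) (.l 55)))))))) (.l 68))) = true := by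
  decide +kernel

theorem xm_f : check 32 24 57 42 6 3 [3, 3, 6, 0] [6, 3, 3, 3, 6, 9] [6, 0, 3, 3, 6, 9] 0 0
    [(1, 8, 8), (-1, 1, 1), (3, 5, 8), (3, 5, 8), (-1, 1, 1), (1, 1, 1)] pXA pDA
    (.s 3 (.s 3 (.l 68) (.s 5 (.s 0 (.s 1 (.l 66) (.l 67)) (.s 0 (.s 5 (.s 3 (.s 2 (.s 1 (.l 61)
      (.l 59)) (.l 64)) (.s 2 (.s 1 (.s 3 (.s 5 (.s 1 (.l 56) (.l 65)) (.l 60)) (.l 65)) (.s 3 (.l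
      67) (.l 67))) (.s 1 (.s 3 (.l 67) (.l 66)) (.l 68)))) (.s 1 (.l 59) (.l 58))) (.s 3 (.s 5
      (.s 1 (.s 2 (.s 3 (.s 0 (.l 46) (.s 5 (.l 41) (.l 41))) (.s 0 (.s 5 (.s 1 (.l 57) (.l 60))
      (.s 3 (.l 53) (.s 0 (.l 59) (.s 2 (.s 0 (.l 55) (.l 53)) (.l 57))))) (.s 5 (.l 50) (.s 2 (.s
      0 (.s 1 (.s 3 (.l 45) (.l 47)) (.l 49)) (.l 40)) (.l 51))))) (.s 0 (.l 61) (.l 52))) (.s 0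
      (.l 63) (.l 55))) (.s 3 (.l 37) (.s 0 (.l 53) (.s 1 (.s 5 (.s 0 (.s 3 (.l 43) (.l 48)) (.s 0
      (.l 41) (.l 35))) (.l 28)) (.l 46))))) (.s 5 (.s 2 (.s 1 (.s 3 (.s 0 (.s 5 (.s 2 (.l 58) (.s
      1 (.l 58) (.l 61))) (.s 1 (.s 0 (.l 56) (.l 55)) (.s 0 (.l 60) (.l 58)))) (.s 1 (.l 52) (.l
      53))) (.l 59)) (.s 0 (.s 3 (.s 0 (.l 64) (.l 60)) (.l 61)) (.l 52))) (.s 1 (.s 0 (.s 5 (.s 0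
      (.l 65) (.l 60)) (.l 61)) (.l 52)) (.l 63))) (.s 0 (.l 56) (.l 52)))))) (.l 48))) (.s 3 (.s
      5 (.s 0 (.s 0 (.s 3 (.s 5 (.s 2 (.s 1 (.s 3 (.l 59) (.s 0 (.s 1 (.l 52) (.l 53)) (.s 5 (.s 2
      (.l 58) (.s 1 (.l 58) (.l 61))) (.s 1 (.s 0 (.l 55) (.l 56)) (.s 0 (.l 58) (.l 60)))))) (.s
      0 (.l 52) (.s 3 (.l 61) (.s 0 (.l 60) (.l 64))))) (.s 1 (.s 0 (.l 52) (.s 5 (.s 0 (.l 60)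
      (.l 65)) (.l 61))) (.l 63))) (.s 0 (.l 52) (.l 56))) (.s 5 (.s 1 (.s 2 (.s 3 (.s 0 (.s 5 (.l
      50) (.s 2 (.s 0 (.l 40) (.s 1 (.s 3 (.l 47) (.l 45)) (.l 49))) (.l 51))) (.s 5 (.s 1 (.l 57)
      (.l 60)) (.s 3 (.s 0 (.s 2 (.s 0 (.l 53) (.l 55)) (.l 57)) (.l 59)) (.l 53)))) (.s 0 (.s 5
      (.l 41) (.l 41)) (.l 46))) (.s 0 (.l 52) (.l 61))) (.s 0 (.l 55) (.l 63))) (.s 3 (.s 0 (.s 1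
      (.s 5 (.s 0 (.s 0 (.l 35) (.l 41)) (.s 3 (.l 48) (.l 43))) (.l 28)) (.l 46)) (.l 53)) (.l
      37)))) (.s 5 (.s 3 (.s 2 (.s 1 (.s 3 (.l 65) (.s 5 (.s 1 (.l 56) (.l 65)) (.l 60))) (.s 3
      (.l 67) (.l 67))) (.s 1 (.s 3 (.l 66) (.l 67)) (.l 68))) (.s 2 (.s 1 (.l 61) (.l 59)) (.l
      64))) (.s 1 (.l 59) (.l 58)))) (.s 1 (.l 66) (.l 67))) (.l 48)) (.l 68))) = true := by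
  decide +kernel

theorem xm_g : check 32 24 71 59 6 3 [3, 3, 6, 0] [6, 3, 3, 3, 6, 9] [6, 0, 3, 3, 6, 9] 0 0
    [(-1, 1, 8), (-1, 1, 1), (3, 5, 8), (3, 5, 8), (-8, -1, 8), (1, 1, 1)] pXA pDA
    (.s 3 (.l 150) (.s 0 (.s 3 (.l 185) (.s 0 (.s 1 (.s 2 (.l 180) (.l 183)) (.s 2 (.l 183) (.l
      183))) (.s 1 (.s 2 (.l 187) (.l 190)) (.s 2 (.l 189) (.l 188))))) (.s 3 (.l 185) (.s 0 (.s 1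
      (.s 2 (.l 187) (.l 190)) (.s 2 (.l 189) (.l 188))) (.s 1 (.s 2 (.l 180) (.l 183)) (.s 2 (.l
      183) (.l 183))))))) = true := by
  decide +kernel

theorem xb_t0 : check 32 24 79 0 6 3 [3, 3, 0, 7] [6, 3, 3, 3, 6, 7] [6, 0, 3, 3, 6, 7] 2 0
    [(-1, 1, 8), (-1, 1, 8), (-1, 1, 8), (-1, 1, 8), (-1, -1, 8), (0, 1, 1)] pQB Po.o
    (.s 1 (.s 2 .z (.s 1 .z .z)) (.s 2 (.s 1 .z .z) .z)) = true := by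
  decide +kernel

theorem xb_y0 : check 32 24 86 0 6 3 [3, 0, 6, 7] [6, 3, 3, 3, 6, 7] [6, 0, 3, 3, 6, 7] 2 0
    [(-1, 1, 8), (-1, 1, 8), (-1, 1, 8), (-1, -1, 8), (-1, 1, 8), (0, 1, 1)] pQA Po.o
    .z = true := by
  decide +kernel

end Pool.Agent.MP_90395b_gt.Bn
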