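import Pool.Agent.MP_90395b_gt.W5Alg
import Pool.Agent.MP_90395b_gt.BnDig

section

/-! Definitions for the asymptotics of the maximal width. -/

namespace Pool.Agent.MP_90395b_gt.As

open Pool.Agent.MP_90395b_gt.W5

/-- cross product -/
def cr (a b : V3) : V3 := ![a 1 * b 2 - a 2 * b 1, a 2 * b 0 - a 0 * b 2, a 0 * b 1 - a 1 * b 0]

abbrev I4 (n : ℕ) := Fin n × Fin n × Fin n × Fin n

/-- `a i` maximises the functional `u` -/
def Sup {n : ℕ} (a : Fin n → V3) (i : Fin n) (u : V3) : Prop := ∀ z, ip (a z) u ≤ ip (a i) u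

/-- oriented facet `(i, j, k)` of the hull of `a`, whose normal is maximised over `b` at `l` -/
def Tri {n : ℕ} (a b : Fin n → V3) (t : I4 n) : Prop :=
  t.1 ≠ t.2.1 ∧ t.2.2.1 ≠ t.1 ∧ t.2.2.1 ≠ t.2.1 ∧
    Sup a t.1 (cr (a t.2.1 - a t.1) (a t.2.2.1 - a t.1)) ∧
    Sup b t.2.2.2 (cr (a t.2.1 - a t.1) (a t.2.2.1 - a t.1))

/-- edge `(i, j)` of the hull of `a` and edge `(l, m)` of the hull of `b` with a common normal -/
def Crs {n : ℕ} (a b : Fin n → V3) (t : I4 n) : Prop :=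
  t.1 ≠ t.2.1 ∧ t.2.2.1 ≠ t.2.2.2 ∧
    Sup a t.1 (cr (a t.2.1 - a t.1) (b t.2.2.2 - b t.2.2.1)) ∧
    Sup b t.2.2.1 (cr (a t.2.1 - a t.1) (b t.2.2.2 - b t.2.2.1))

open Classical in
noncomputable def triSet {n : ℕ} (a b : Fin n → V3) : Finset (I4 n) := Finset.univ.filter (Tri a b)

open Classical in
noncomputable def crsSet {n : ℕ} (a b : Fin n → V3) : Finset (I4 n) := Finset.univ.filter (Crs a b)

/-- general position -/
structure Gen {n : ℕ} (a b : Fin n → V3) : Prop where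
  aaa : ∀ i j k l, i ≠ j → i ≠ k → i ≠ l → j ≠ k → j ≠ l → k ≠ l →
    dt (a j - a i) (a k - a i) (a l - a i) ≠ 0
  aab : ∀ i j k l m, i ≠ j → i ≠ k → j ≠ k → l ≠ m → dt (a j - a i) (a k - a i) (b m - b l) ≠ 0
  abb : ∀ i j l m p, i ≠ j → l ≠ m → l ≠ p → m ≠ p → dt (a j - a i) (b m - b l) (b p - b l) ≠ 0
  ht : ∀ i j, i ≠ j → a i 0 ≠ a j 0

/-- closed form of `Tri` -/
def WTri {n : ℕ} (a b : Fin n → V3) (t : I4 n) : Prop :=
  ∃ u : V3, ip u u = 1 ∧ Sup a t.1 u ∧ ip (a t.2.1) u = ip (a t.1) u ∧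
    ip (a t.2.2.1) u = ip (a t.1) u ∧ Sup b t.2.2.2 u ∧
    0 ≤ dt (a t.2.1 - a t.1) (a t.2.2.1 - a t.1) u

/-- closed form of `Crs` -/
def WCrs {n : ℕ} (a b : Fin n → V3) (t : I4 n) : Prop :=
  ∃ u : V3, ip u u = 1 ∧ Sup a t.1 u ∧ ip (a t.2.1) u = ip (a t.1) u ∧
    Sup b t.2.2.1 u ∧ ip (b t.2.2.2) u = ip (b t.2.2.1) u ∧
    0 ≤ dt (a t.2.1 - a t.1) (b t.2.2.2 - b t.2.2.1) u

/-- coboundary on a triangle -/
def Vf (c : V3 → V3 → V3 → ℝ) (a1 a2 a3 b : V3) : ℝ := c a1 a2 b + c a2 a3 b + c a3 a1 b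

/-- coboundary on a parallelogram -/
def Sf (c : V3 → V3 → V3 → ℝ) (a a' b b' : V3) : ℝ := c a' a b + c a a' b' + c b' b a' + c b b' a

def VT {n : ℕ} (c : V3 → V3 → V3 → ℝ) (a b : Fin n → V3) (t : I4 n) : ℝ :=
  Vf c (a t.1) (a t.2.1) (a t.2.2.1) (b t.2.2.2)

def ST {n : ℕ} (c : V3 → V3 → V3 → ℝ) (a b : Fin n → V3) (t : I4 n) : ℝ :=
  Sf c (a t.1) (a t.2.1) (b t.2.2.1) (b t.2.2.2)

def DT {n : ℕ} (a : Fin n → V3) (t : I4 n) : ℝ := dt (a t.1) (a t.2.1) (a t.2.2.1)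

/-- every direction has height at least `r` -/
def Inr {n : ℕ} (a : Fin n → V3) (r : ℝ) : Prop := ∀ u : V3, ip u u = 1 → ∃ i, r ≤ ip (a i) u

/-- the weight polynomial -/
noncomputable def g (x m q : ℝ) : ℝ :=
  1173 / 2000 - 527 / 500 * (x - 1 / 2) - 127 / 1000 * m + 267 / 250 * (x - 1 / 2) ^ 2
    + 601 / 1000 * (x - 1 / 2) * m - 79 / 500 * m ^ 2 - 239 / 1000 * q - 1 / 10 * (x - 1 / 2) ^ 3
    - 91 / 125 * (x - 1 / 2) ^ 2 * m - 121 / 500 * (x - 1 / 2) * m ^ 2 + 33 / 250 * m ^ 3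
    + 43 / 250 * (x - 1 / 2) * q + 611 / 1000 * m * q

/-- cochain value from a determinant `D`, quarter squared length `x`, squared distances `r, r'` -/
noncomputable def c2 (D x r r' : ℝ) : ℝ := D / 2 * g x ((r + r') / 2 - x) ((r - r') ^ 2 / 16)

/-- the cochain at scale `T` -/
noncomputable def cg (T : ℝ) (a a' b : V3) : ℝ :=
  c2 (dt a a' b / T) (ip (a - a') (a - a') / (4 * T)) (ip (a - b) (a - b) / T)
    (ip (a' - b) (a' - b) / T)

/-- the area cochain at scale `T` -/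
noncomputable def c0 (T : ℝ) (a a' b : V3) : ℝ := dt a a' b / (2 * T)

/-- planar cochain: points `(a1, a2)`, `(p1, p2)` seen from `(b1, b2)` -/
noncomputable def cp (a1 a2 p1 p2 b1 b2 : ℝ) : ℝ :=
  c2 ((a1 - b1) * (p2 - b2) - (a2 - b2) * (p1 - b1)) (((a1 - p1) ^ 2 + (a2 - p2) ^ 2) / 4)
    ((a1 - b1) ^ 2 + (a2 - b2) ^ 2) ((p1 - b1) ^ 2 + (p2 - b2) ^ 2)

noncomputable def Vp (a1 a2 p1 p2 q1 q2 b1 b2 : ℝ) : ℝ :=
  cp a1 a2 p1 p2 b1 b2 + cp p1 p2 q1 q2 b1 b2 + cp q1 q2 a1 a2 b1 b2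

/-- the computer-checked triangle inequality -/
def BoxV : Prop := ∀ h k u v s : ℝ, 0 ≤ h → k ≤ 1 / 2 → 0 ≤ s → s ≤ 2 → (k ≤ 0 → s ≤ 1) →
  (3 / 4 ≤ h → k ≤ 1 / 8 → s ≤ 3 / 2) → h ^ 2 + k ^ 2 + u ^ 2 + v ^ 2 ≤ 1 →
  Vp (-h) (-k) h (-k) ((h * (1 - s ^ 2) + 2 * k * s) / (1 + s ^ 2))
    ((2 * h * s - k * (1 - s ^ 2)) / (1 + s ^ 2)) u v ≤ 1 / 2

noncomputable def Jl0 (x y t u c : ℝ) : ℝ :=
  1393 / 1000 - 1219 / 2000 * y - 2197 / 1000 * x - 3657 / 2000 * u ^ 2 - 1219 / 2000 * t ^ 2 -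
  37 / 1000 * y ^ 2 + 1329 / 1000 * x * y + 609 / 500 * x ^ 2 + 1219 / 500 * t * u * c + 323 /
  125 * y * u ^ 2 - 111 / 500 * y * t ^ 2 + 33 / 250 * y ^ 3 + 107 / 125 * x * u ^ 2 + 1329 /
  1000 * x * t ^ 2 - 121 / 500 * x * y ^ 2 - 91 / 125 * x ^ 2 * y - 1 / 10 * x ^ 3 - 37 / 200 *
  u ^ 4 - 111 / 500 * t ^ 2 * u ^ 2 - 37 / 1000 * t ^ 4 - 177 / 500 * y * t * u * c - 53 / 50 *
  y ^ 2 * u ^ 2 + 99 / 50 * y ^ 2 * t ^ 2 - 1329 / 250 * x * t * u * c - 13 / 40 * x * y * c ^ 2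
  - 841 / 1000 * x * y * u ^ 2 - 363 / 250 * x * y * t ^ 2 + 59 / 250 * x ^ 2 * u ^ 2 - 91 / 125
  * x ^ 2 * t ^ 2 + 74 / 125 * t * u ^ 3 * c + 37 / 125 * t ^ 3 * u * c - 143 / 250 * y * u ^ 4
  + 37 / 250 * y * t ^ 2 * c ^ 2 + 263 / 100 * y * t ^ 2 * u ^ 2 + 99 / 50 * y * t ^ 4 - 31 / 25
  * y ^ 2 * t * u * c + 39 / 40 * x * u ^ 2 * c ^ 2 + 3009 / 1000 * x * u ^ 4 + 1711 / 1000 * x
  * t ^ 2 * u ^ 2 - 121 / 500 * x * t ^ 4 + 2801 / 500 * x * y * t * u * c + 611 / 1000 * x * y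
  ^ 2 * c ^ 2 + 364 / 125 * x ^ 2 * t * u * c + 43 / 250 * x ^ 2 * y * c ^ 2 + 231 / 250 * u ^ 6
  - 111 / 250 * t ^ 2 * u ^ 2 * c ^ 2 + 99 / 50 * t ^ 2 * u ^ 4 + 297 / 250 * t ^ 4 * u ^ 2 + 33
  / 250 * t ^ 6 - 1 / 100 * y * t * u ^ 3 * c - 617 / 100 * y * t ^ 3 * u * c - 198 / 125 * y ^
  2 * t ^ 2 * c ^ 2 - 919 / 250 * x * t * u ^ 3 * c + 242 / 125 * x * t ^ 3 * u * c + 1579 /
  1000 * x * y * t ^ 2 * c ^ 2 - 129 / 250 * x ^ 2 * u ^ 2 * c ^ 2 - 594 / 125 * t * u ^ 5 * c -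
  792 / 125 * t ^ 3 * u ^ 3 * c - 198 / 125 * t ^ 5 * u * c - 249 / 500 * y * t ^ 2 * u ^ 2 * c
  ^ 2 - 198 / 125 * y * t ^ 4 * c ^ 2 - 2889 / 1000 * x * u ^ 4 * c ^ 2 - 4737 / 1000 * x * t ^
  2 * u ^ 2 * c ^ 2 - 611 / 125 * x * y * t * u * c ^ 3 + 198 / 25 * t ^ 2 * u ^ 4 * c ^ 2 + 594
  / 125 * t ^ 4 * u ^ 2 * c ^ 2 + 528 / 125 * y * t ^ 3 * u * c ^ 3 + 611 / 125 * x * t * u ^ 3
  * c ^ 3 - 528 / 125 * t ^ 3 * u ^ 3 * c ^ 3

noncomputable def Jl1 (x y t u c : ℝ) : ℝ :=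
  - 1219 / 2000 - 37 / 500 * y + 1329 / 1000 * x - 111 / 500 * u ^ 2 - 37 / 500 * t ^ 2 + 99 /
  250 * y ^ 2 - 121 / 250 * x * y - 91 / 125 * x ^ 2 + 37 / 125 * t * u * c - 22 / 125 * y * u ^
  2 + 297 / 125 * y * t ^ 2 + 1711 / 1000 * x * u ^ 2 - 121 / 250 * x * t ^ 2 + 99 / 50 * u ^ 4
  + 297 / 125 * t ^ 2 * u ^ 2 + 99 / 250 * t ^ 4 - 973 / 500 * y * t * u * c + 242 / 125 * x * t
  * u * c + 611 / 1000 * x * y * c ^ 2 - 792 / 125 * t * u ^ 3 * c - 396 / 125 * t ^ 3 * u * c -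
  198 / 125 * y * t ^ 2 * c ^ 2 - 1833 / 1000 * x * u ^ 2 * c ^ 2 + 594 / 125 * t ^ 2 * u ^ 2 *
  c ^ 2

noncomputable def Jl2 (x y t u c : ℝ) : ℝ :=
  - 37 / 1000 + 99 / 250 * y - 121 / 500 * x + 297 / 250 * u ^ 2 + 99 / 250 * t ^ 2 - 198 / 125
  * t * u * c

noncomputable def Jl3 (x y t u c : ℝ) : ℝ :=
  33 / 250

noncomputable def Jm0 (x y t u c : ℝ) : ℝ :=
  1393 / 1000 - 2197 / 1000 * y - 1219 / 2000 * x - 1219 / 2000 * u ^ 2 - 3657 / 2000 * t ^ 2 +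
  609 / 500 * y ^ 2 + 1329 / 1000 * x * y - 37 / 1000 * x ^ 2 + 1219 / 500 * t * u * c + 1329 /
  1000 * y * u ^ 2 + 107 / 125 * y * t ^ 2 - 1 / 10 * y ^ 3 - 111 / 500 * x * u ^ 2 + 323 / 125
  * x * t ^ 2 - 91 / 125 * x * y ^ 2 - 121 / 500 * x ^ 2 * y + 33 / 250 * x ^ 3 - 37 / 1000 * u
  ^ 4 - 111 / 500 * t ^ 2 * u ^ 2 - 37 / 200 * t ^ 4 - 1329 / 250 * y * t * u * c - 91 / 125 * y
  ^ 2 * u ^ 2 + 59 / 250 * y ^ 2 * t ^ 2 - 177 / 500 * x * t * u * c - 13 / 40 * x * y * c ^ 2 -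
  363 / 250 * x * y * u ^ 2 - 841 / 1000 * x * y * t ^ 2 + 99 / 50 * x ^ 2 * u ^ 2 - 53 / 50 * x
  ^ 2 * t ^ 2 + 37 / 125 * t * u ^ 3 * c + 74 / 125 * t ^ 3 * u * c - 121 / 500 * y * u ^ 4 + 39
  / 40 * y * t ^ 2 * c ^ 2 + 1711 / 1000 * y * t ^ 2 * u ^ 2 + 3009 / 1000 * y * t ^ 4 + 364 /
  125 * y ^ 2 * t * u * c + 37 / 250 * x * u ^ 2 * c ^ 2 + 99 / 50 * x * u ^ 4 + 263 / 100 * x *
  t ^ 2 * u ^ 2 - 143 / 250 * x * t ^ 4 + 2801 / 500 * x * y * t * u * c + 43 / 250 * x * y ^ 2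
  * c ^ 2 - 31 / 25 * x ^ 2 * t * u * c + 611 / 1000 * x ^ 2 * y * c ^ 2 + 33 / 250 * u ^ 6 -
  111 / 250 * t ^ 2 * u ^ 2 * c ^ 2 + 297 / 250 * t ^ 2 * u ^ 4 + 99 / 50 * t ^ 4 * u ^ 2 + 231
  / 250 * t ^ 6 + 242 / 125 * y * t * u ^ 3 * c - 919 / 250 * y * t ^ 3 * u * c - 129 / 250 * y
  ^ 2 * t ^ 2 * c ^ 2 - 617 / 100 * x * t * u ^ 3 * c - 1 / 100 * x * t ^ 3 * u * c + 1579 /
  1000 * x * y * u ^ 2 * c ^ 2 - 198 / 125 * x ^ 2 * u ^ 2 * c ^ 2 - 198 / 125 * t * u ^ 5 * c -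
  792 / 125 * t ^ 3 * u ^ 3 * c - 594 / 125 * t ^ 5 * u * c - 4737 / 1000 * y * t ^ 2 * u ^ 2 *
  c ^ 2 - 2889 / 1000 * y * t ^ 4 * c ^ 2 - 198 / 125 * x * u ^ 4 * c ^ 2 - 249 / 500 * x * t ^
  2 * u ^ 2 * c ^ 2 - 611 / 125 * x * y * t * u * c ^ 3 + 594 / 125 * t ^ 2 * u ^ 4 * c ^ 2 +
  198 / 25 * t ^ 4 * u ^ 2 * c ^ 2 + 611 / 125 * y * t ^ 3 * u * c ^ 3 + 528 / 125 * x * t * u ^
  3 * c ^ 3 - 528 / 125 * t ^ 3 * u ^ 3 * c ^ 3

noncomputable def Jm1 (x y t u c : ℝ) : ℝ :=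
  - 1219 / 2000 + 1329 / 1000 * y - 37 / 500 * x - 37 / 500 * u ^ 2 - 111 / 500 * t ^ 2 - 91 /
  125 * y ^ 2 - 121 / 250 * x * y + 99 / 250 * x ^ 2 + 37 / 125 * t * u * c - 121 / 250 * y * u
  ^ 2 + 1711 / 1000 * y * t ^ 2 + 297 / 125 * x * u ^ 2 - 22 / 125 * x * t ^ 2 + 99 / 250 * u ^
  4 + 297 / 125 * t ^ 2 * u ^ 2 + 99 / 50 * t ^ 4 + 242 / 125 * y * t * u * c - 973 / 500 * x *
  t * u * c + 611 / 1000 * x * y * c ^ 2 - 396 / 125 * t * u ^ 3 * c - 792 / 125 * t ^ 3 * u * c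
  - 1833 / 1000 * y * t ^ 2 * c ^ 2 - 198 / 125 * x * u ^ 2 * c ^ 2 + 594 / 125 * t ^ 2 * u ^ 2
  * c ^ 2

noncomputable def Jm2 (x y t u c : ℝ) : ℝ :=
  - 37 / 1000 - 121 / 500 * y + 99 / 250 * x + 99 / 250 * u ^ 2 + 297 / 250 * t ^ 2 - 198 / 125
  * t * u * c

noncomputable def Jm3 (x y t u c : ℝ) : ℝ :=
  33 / 250

/-- quotient of the parallelogram coboundary by the area -/
noncomputable def Jt (x y t u c l m e : ℝ) : ℝ :=
  l * (Jl0 x y t u c + e * Jl1 x y t u c + e ^ 2 * Jl2 x y t u c + e ^ 3 * Jl3 x y t u c)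
    + m * (Jm0 x y t u c + e * Jm1 x y t u c + e ^ 2 * Jm2 x y t u c + e ^ 3 * Jm3 x y t u c)

/-- the computer-checked parallelogram inequality -/
def BoxX : Prop := ∀ x y t u c : ℝ, 0 ≤ x → 0 ≤ y → -1 ≤ c → c ≤ 1 → x + y + t ^ 2 + u ^ 2 ≤ 1 →
  1 ≤ Jt x y t u c 1 1 0

end Pool.Agent.MP_90395b_gt.As

end

section

namespace Pool.Agent.MP_90395b_gt.As

open Pool.Agent.MP_90395b_gt.W5

lemma ip_cr (a b c : V3) : ip c (cr a b) = dt a b c := by simp [ip, cr, dt]; ring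

/-- coordinates in an oriented orthonormal frame whose last vector is `u` -/
theorem frame (u : V3) (hu : ip u u = 1) : ∃ e1 e2 : V3,
    (∀ x y, ip x y = ip x e1 * ip y e1 + ip x e2 * ip y e2 + ip x u * ip y u) ∧
    (∀ x y z, dt x y z =
      ip x e1 * (ip y e2 * ip z u - ip y u * ip z e2) - ip x e2 * (ip y e1 * ip z u - ip y u * ip z e1)
        + ip x u * (ip y e1 * ip z e2 - ip y e2 * ip z e1)) ∧ ip u e1 = 0 ∧ ip u e2 = 0 := by
  have key : ∀ e1 e2 : V3, ip e1 e1 = 1 → ip e2 e2 = 1 → ip e1 e2 = 0 → ip e1 u = 0 →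
      ip e2 u = 0 → dt e1 e2 u = 1 →
      (∀ x y, ip x y = ip x e1 * ip y e1 + ip x e2 * ip y e2 + ip x u * ip y u) ∧
      (∀ x y z, dt x y z =
        ip x e1 * (ip y e2 * ip z u - ip y u * ip z e2)
          - ip x e2 * (ip y e1 * ip z u - ip y u * ip z e1)
          + ip x u * (ip y e1 * ip z e2 - ip y e2 * ip z e1)) ∧ ip u e1 = 0 ∧ ip u e2 = 0 := by
    intro p q h1 h2 h3 h4 h5 h6
    refine ⟨fun x y => ?_, fun x y z => ?_, by rw [ip_comm, h4], by rw [ip_comm, h5]⟩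
    · have hG : ip x y * dt p q u ^ 2
        = ip x p * ip y p * (ip q q * ip u u - ip q u ^ 2)
          + ip x q * ip y q * (ip p p * ip u u - ip p u ^ 2)
          + ip x u * ip y u * (ip p p * ip q q - ip p q ^ 2)
          - (ip x p * ip y q + ip x q * ip y p) * (ip p q * ip u u - ip p u * ip q u)
          + (ip x p * ip y u + ip x u * ip y p) * (ip p q * ip q u - ip p u * ip q q)
          - (ip x q * ip y u + ip x u * ip y q) * (ip p p * ip q u - ip p q * ip p u) := by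
        unfold ip dt; ring
      rw [h1, h2, h3, h4, h5, h6, hu] at hG
      linarith
    · rw [← dt_mul, h6, mul_one]
  by_cases h : u 2 = -1
  · have h0 : u 0 = 0 := by unfold ip at hu; rw [h] at hu; nlinarith [sq_nonneg (u 0), sq_nonneg (u 1)]
    have h1 : u 1 = 0 := by unfold ip at hu; rw [h] at hu; nlinarith [sq_nonneg (u 0), sq_nonneg (u 1)]
    refine ⟨![0, 1, 0], ![1, 0, 0], key _ _ ?_ ?_ ?_ ?_ ?_ ?_⟩ <;> simp [ip, dt, h, h0, h1]
  · have hp : 1 + u 2 ≠ 0 := fun h' => h (by linarith)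
    unfold ip at hu
    refine ⟨![1 - u 0 ^ 2 / (1 + u 2), -(u 0 * u 1 / (1 + u 2)), -u 0],
      ![-(u 0 * u 1 / (1 + u 2)), 1 - u 1 ^ 2 / (1 + u 2), -u 1], key _ _ ?_ ?_ ?_ ?_ ?_ ?_⟩ <;>
      simp only [ip, dt, Matrix.cons_val_zero, Matrix.cons_val_one, Matrix.cons_val] <;> field_simp
    · linear_combination (u 0 ^ 2) * hu
    · linear_combination (u 1 ^ 2) * hu
    · linear_combination (u 0 * u 1) * hu
    · linear_combination (-u 0) * hu
    · linear_combination (-u 1) * hu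
    · linear_combination (1 + u 2) * hu

/-- uniform continuity in three parameters over a compact set -/
theorem unif {α : Type} [TopologicalSpace α] {K : Set α} (hK : IsCompact K)
    (f : α × ℝ × ℝ × ℝ → ℝ) (hf : Continuous f) (c ε : ℝ) (hε : 0 < ε)
    (h : ∀ p ∈ K, f (p, 1, 1, 0) ≤ c) :
    ∃ δ > 0, ∀ p ∈ K, ∀ l m e : ℝ, |l - 1| ≤ δ → |m - 1| ≤ δ → |e| ≤ δ →
      f (p, l, m, e) ≤ c + ε := by
  have h1 : ∀ᶠ θ in nhds ((1, 1, 0) : ℝ × ℝ × ℝ), ∀ p ∈ K, f (p, θ) < c + ε := by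
    apply hK.eventually_forall_of_forall_eventually
    intro p hp
    have hc : Continuous fun z : (ℝ × ℝ × ℝ) × α => f (z.2, z.1) := by fun_prop
    exact hc.continuousAt.eventually_lt continuousAt_const (by simpa using by linarith [h p hp])
  obtain ⟨r, hr, h2⟩ := Metric.eventually_nhds_iff.mp h1
  refine ⟨r / 2, by positivity, fun p hp l m e hl hm he => (h2 ?_ p hp).le⟩
  simp only [Prod.dist_eq, Real.dist_eq, sub_zero, max_lt_iff]
  exact ⟨by linarith, by linarith, by linarith⟩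

end Pool.Agent.MP_90395b_gt.As

end

section

namespace Pool.Agent.MP_90395b_gt.As

open Pool.Agent.MP_90395b_gt.W5

theorem edge_ex {ι : Type} [Fintype ι] (S : ι → Prop) (f : ι → ι → ℝ)
    (ha : ∀ x y, f y x = -f x y) (hn : ∀ x y, S x → S y → f x y = 0 → x = y)
    (h0 : ∀ x y, ¬ S y → f x y = 0)
    (hp : ∀ x y z t, f x y * f z t - f x z * f y t + f x t * f y z = 0)
    (h : ∃ x, S x ∧ ∀ y, f x y ≤ 0) : ∃ x, S x ∧ ∀ y, 0 ≤ f x y := by
  classical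
  obtain ⟨w0, s0, hw0⟩ := h
  obtain ⟨w1, s1, hw1⟩ := Finset.exists_max_image (Finset.univ.filter S)
    (fun x => (Finset.univ.filter fun t => S t ∧ 0 ≤ f x t).card) ⟨w0, by simpa using s0⟩
  have s1' : S w1 := by simpa using s1
  refine ⟨w1, s1', fun y => ?_⟩
  by_contra hy
  rw [not_le] at hy
  have sy : S y := by
    by_contra h'
    exact hy.ne (h0 w1 y h')
  have hyw : 0 < f y w1 := by rw [ha]; linarith
  refine absurd (hw1 y (by simpa using sy)) (not_le.2 (Finset.card_lt_card ⟨fun t ht => ?_, ?_⟩))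
  · simp only [Finset.mem_filter, Finset.mem_univ, true_and] at ht ⊢
    refine ⟨ht.1, ?_⟩
    by_cases e : w1 = w0
    · subst e
      rw [← hn w1 t s1' ht.1 (le_antisymm (hw0 t) ht.2)]
      exact hyw.le
    · have h1 : f w0 w1 < 0 := lt_of_le_of_ne (hw0 w1) fun h' => e (hn w0 w1 s0 s1' h').symm
      have h2 := hp w0 y w1 t
      have h3 := mul_nonpos_of_nonpos_of_nonneg (hw0 y) ht.2
      have h4 := mul_nonpos_of_nonpos_of_nonneg (hw0 t) hyw.le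
      by_contra h5
      have := mul_pos_of_neg_of_neg h1 (not_le.1 h5)
      linarith
  · intro h'
    have hyy : f y y = 0 := by linarith [ha y y]
    have := h' (show y ∈ Finset.univ.filter fun t => S t ∧ 0 ≤ f y t by simp [sy, hyy])
    simp only [Finset.mem_filter, Finset.mem_univ, true_and] at this
    linarith [this.2]

open Classical in
theorem edge_one {ι : Type} [Fintype ι] (P : ι → Prop) (h : ∀ x y, P x → P y → x = y) :
    ∑ x, (if P x then (1 : ℝ) else 0) = if ∃ x, P x then 1 else 0 := by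
  split_ifs with h'
  · obtain ⟨x, hx⟩ := h'
    rw [Finset.sum_eq_single x, if_pos hx]
    · intro y _ hy
      exact if_neg fun h'' => hy (h y x h'' hx)
    · simp
  · exact Finset.sum_eq_zero fun x _ => if_neg fun h'' => h' ⟨x, h''⟩

open Classical in
theorem edge_plane {ι : Type} [Fintype ι] (S : ι → Prop) (f : ι → ι → ℝ)
    (ha : ∀ x y, f y x = -f x y) (hn : ∀ x y, S x → S y → f x y = 0 → x = y)
    (h0 : ∀ x y, ¬ S y → f x y = 0)
    (hp : ∀ x y z t, f x y * f z t - f x z * f y t + f x t * f y z = 0) :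
    ∑ x, (if S x ∧ ∀ y, f x y ≤ 0 then (1 : ℝ) else 0) =
      ∑ x, (if S x ∧ ∀ y, 0 ≤ f x y then (1 : ℝ) else 0) := by
  have e1 := edge_one (fun x => S x ∧ ∀ y, f x y ≤ 0) fun x y hx hy =>
    hn x y hx.1 hy.1 (by linarith [hx.2 y, hy.2 x, ha x y])
  have e2 := edge_one (fun x => S x ∧ ∀ y, 0 ≤ f x y) fun x y hx hy =>
    hn x y hx.1 hy.1 (by linarith [hx.2 y, hy.2 x, ha x y])
  have e3 : (∃ x, S x ∧ ∀ y, f x y ≤ 0) ↔ ∃ x, S x ∧ ∀ y, 0 ≤ f x y := by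
    refine ⟨edge_ex S f ha hn h0 hp, fun h => ?_⟩
    have := edge_ex S (fun x y => -f x y) (fun x y => by rw [ha]) (fun x y hx hy h' =>
      hn x y hx hy (neg_eq_zero.1 h')) (fun x y hy => by rw [h0 x y hy, neg_zero])
      (fun x y z t => by linarith [hp x y z t]) (by simpa using h)
    simpa using this
  by_cases h : ∃ x, S x ∧ ∀ y, f x y ≤ 0
  · rw [if_pos h] at e1
    rw [if_pos (e3.1 h)] at e2
    convert e1.trans e2.symm
  · rw [if_neg h] at e1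
    rw [if_neg (mt e3.2 h)] at e2
    convert e1.trans e2.symm

theorem edge_sup {n : ℕ} (a : Fin n → V3) (i i' : Fin n) (u d w : V3) (s : ℝ)
    (h : ∀ z, ip (a z) u - ip (a i) u = s * dt d w (a z - a i')) :
    Sup a i u ↔ ∀ z, s * dt d w (a z - a i') ≤ 0 :=
  forall_congr' fun z => by rw [← h, sub_nonpos]

open Classical in
theorem edge_sym {n : ℕ} (a b : Fin n → V3) (hG : Gen a b) (i j l : Fin n) :
    ∑ k, (if Tri a b (i, j, k, l) then (1 : ℝ) else 0) +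
      ∑ m, (if Crs a b (i, j, l, m) then (1 : ℝ) else 0) =
    ∑ k, (if Tri a b (j, i, k, l) then (1 : ℝ) else 0) +
      ∑ m, (if Crs a b (j, i, l, m) then (1 : ℝ) else 0) := by
  by_cases hij : i = j
  · rw [hij]
  let w : Fin n ⊕ Fin n → V3 := Sum.elim (fun k => a k - a i) fun m => b m - b l
  let S : Fin n ⊕ Fin n → Prop := Sum.elim (fun k => k ≠ i ∧ k ≠ j) fun m => l ≠ m
  have key := edge_plane S (fun x y => dt (a j - a i) (w x) (w y))
    (fun x y => by simp only [dt]; ring) (by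
      rintro (k | m) (k' | m') h1 h2 h3
      · by_contra h
        exact hG.aaa i j k k' hij (Ne.symm h1.1) (Ne.symm h2.1) (Ne.symm h1.2) (Ne.symm h2.2)
          (fun e => h (congrArg _ e)) h3
      · exact (hG.aab i j k l m' hij (Ne.symm h1.1) (Ne.symm h1.2) h2 h3).elim
      · refine (hG.aab i j k' l m hij (Ne.symm h2.1) (Ne.symm h2.2) h1 ?_).elim
        have : dt (a j - a i) (b m - b l) (a k' - a i) = 0 := h3
        simp only [dt] at this ⊢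
        linarith
      · by_contra h
        exact hG.abb i j l m m' hij h1 h2 (fun e => h (congrArg _ e)) h3) (by
      rintro x (k | m) h
      · change dt (a j - a i) (w x) (a k - a i) = 0
        by_cases h1 : k = i
        · simp [h1, dt]
        · have h2 : k = j := by
            by_contra h2
            exact h ⟨h1, h2⟩
          rw [h2]
          simp only [dt]
          ring
      · change dt (a j - a i) (w x) (b m - b l) = 0
        have h1 : l = m := not_not.1 h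
        simp [h1, dt])
    (fun x y z t => by simp only [dt]; ring)
  rw [Fintype.sum_sum_type, Fintype.sum_sum_type] at key
  have t1 : ∀ k, Tri a b (i, j, k, l) ↔
      S (.inl k) ∧ ∀ y, dt (a j - a i) (w (.inl k)) (w y) ≤ 0 := fun k => by
    simp only [Tri, Sum.forall, S, w, Sum.elim_inl, Sum.elim_inr]
    rw [edge_sup a i i _ (a j - a i) (a k - a i) 1 fun z => by simp [ip, cr, dt]; ring,
      edge_sup b l l _ (a j - a i) (a k - a i) 1 fun z => by simp [ip, cr, dt]; ring]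
    simp [hij, and_assoc]
  have t2 : ∀ m, Crs a b (i, j, l, m) ↔
      S (.inr m) ∧ ∀ y, dt (a j - a i) (w (.inr m)) (w y) ≤ 0 := fun m => by
    simp only [Crs, Sum.forall, S, w, Sum.elim_inl, Sum.elim_inr]
    rw [edge_sup a i i _ (a j - a i) (b m - b l) 1 fun z => by simp [ip, cr, dt]; ring,
      edge_sup b l l _ (a j - a i) (b m - b l) 1 fun z => by simp [ip, cr, dt]; ring]
    simp [hij]
  have t3 : ∀ k, Tri a b (j, i, k, l) ↔
      S (.inl k) ∧ ∀ y, 0 ≤ dt (a j - a i) (w (.inl k)) (w y) := fun k => by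
    simp only [Tri, Sum.forall, S, w, Sum.elim_inl, Sum.elim_inr]
    rw [edge_sup a j i _ (a j - a i) (a k - a i) (-1) fun z => by simp [ip, cr, dt]; ring,
      edge_sup b l l _ (a j - a i) (a k - a i) (-1) fun z => by simp [ip, cr, dt]; ring]
    simp only [neg_mul, one_mul, Left.neg_nonpos_iff]
    exact ⟨fun h => ⟨⟨h.2.2.1, h.2.1⟩, h.2.2.2⟩, fun h => ⟨Ne.symm hij, h.1.2, h.1.1, h.2⟩⟩
  have t4 : ∀ m, Crs a b (j, i, l, m) ↔
      S (.inr m) ∧ ∀ y, 0 ≤ dt (a j - a i) (w (.inr m)) (w y) := fun m => by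
    simp only [Crs, Sum.forall, S, w, Sum.elim_inl, Sum.elim_inr]
    rw [edge_sup a j i _ (a j - a i) (b m - b l) (-1) fun z => by simp [ip, cr, dt]; ring,
      edge_sup b l l _ (a j - a i) (b m - b l) (-1) fun z => by simp [ip, cr, dt]; ring]
    simp only [neg_mul, one_mul, Left.neg_nonpos_iff]
    exact ⟨fun h => h.2, fun h => ⟨Ne.symm hij, h⟩⟩
  simp only [t1, t2, t3, t4]
  convert key

theorem edge_id {n : ℕ} (a b : Fin n → V3) (hG : Gen a b) (c : V3 → V3 → V3 → ℝ)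
    (hc : ∀ x y z, c y x z = -c x y z) :
    ∑ t ∈ triSet a b, c (a t.1) (a t.2.1) (b t.2.2.2)
      + ∑ t ∈ crsSet a b, c (a t.1) (a t.2.1) (b t.2.2.1) = 0 := by
  classical
  let R : Fin n → Fin n → Fin n → ℝ := fun i j l =>
    ∑ k, (if Tri a b (i, j, k, l) then (1 : ℝ) else 0) +
      ∑ m, (if Crs a b (i, j, l, m) then (1 : ℝ) else 0)
  have h1 : ∑ t ∈ triSet a b, c (a t.1) (a t.2.1) (b t.2.2.2)
      + ∑ t ∈ crsSet a b, c (a t.1) (a t.2.1) (b t.2.2.1) =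
      ∑ i, ∑ j, ∑ l, c (a i) (a j) (b l) * R i j l := by
    simp only [triSet, crsSet, Finset.sum_filter, Fintype.sum_prod_type, R, mul_add,
      Finset.sum_add_distrib, Finset.mul_sum, mul_ite, mul_one, mul_zero]
    congr 1
    refine Finset.sum_congr rfl fun i _ => Finset.sum_congr rfl fun j _ => ?_
    rw [Finset.sum_comm]
  have h2 : ∑ i, ∑ j, ∑ l, c (a i) (a j) (b l) * R i j l =
      -∑ i, ∑ j, ∑ l, c (a i) (a j) (b l) * R i j l := by
    conv_lhs => rw [Finset.sum_comm]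
    simp only [← Finset.sum_neg_distrib]
    refine Finset.sum_congr rfl fun i _ => Finset.sum_congr rfl fun j _ =>
      Finset.sum_congr rfl fun l _ => ?_
    have : R j i l = R i j l := by convert edge_sym a b hG j i l
    rw [this, hc, neg_mul]
  linarith

theorem edge_sup_iff {n : ℕ} (a : Fin n → V3) {i j : Fin n} {u u' : V3} (hu : u' = u)
    (h : ip (a j) u = ip (a i) u) : Sup a i u ↔ Sup a j u' := by
  simp only [Sup, hu, h]

theorem edge_rot {n : ℕ} (a b : Fin n → V3) (g : I4 n → ℝ) :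
    ∑ t ∈ triSet a b, g (t.2.1, t.2.2.1, t.1, t.2.2.2) = ∑ t ∈ triSet a b, g t := by
  refine Finset.sum_equiv (⟨fun t => (t.2.1, t.2.2.1, t.1, t.2.2.2),
    fun t => (t.2.2.1, t.1, t.2.1, t.2.2.2), fun _ => rfl, fun _ => rfl⟩ : I4 n ≃ I4 n) ?_
    fun _ _ => rfl
  rintro ⟨i, j, k, l⟩
  have hu : cr (a k - a j) (a i - a j) = cr (a j - a i) (a k - a i) := by
    funext x
    fin_cases x <;> simp [cr] <;> ring
  simp only [triSet, Finset.mem_filter, Finset.mem_univ, true_and, Tri, Equiv.coe_fn_mk]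
  rw [edge_sup_iff a (i := i) (j := j) hu (by simp [ip, cr]; ring), hu]
  exact ⟨fun h => ⟨h.2.2.1.symm, h.1, h.2.1.symm, h.2.2.2⟩,
    fun h => ⟨h.2.1, h.2.2.1.symm, h.1.symm, h.2.2.2⟩⟩

theorem edge_swap {n : ℕ} (a b : Fin n → V3) (g : I4 n → ℝ) :
    ∑ t ∈ crsSet a b, g (t.2.1, t.1, t.2.2.2, t.2.2.1) = ∑ t ∈ crsSet a b, g t := by
  refine Finset.sum_equiv (⟨fun t => (t.2.1, t.1, t.2.2.2, t.2.2.1),
    fun t => (t.2.1, t.1, t.2.2.2, t.2.2.1), fun _ => rfl, fun _ => rfl⟩ : I4 n ≃ I4 n) ?_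
    fun _ _ => rfl
  rintro ⟨i, j, l, m⟩
  have hu : cr (a i - a j) (b l - b m) = cr (a j - a i) (b m - b l) := by
    funext x
    fin_cases x <;> simp [cr] <;> ring
  simp only [crsSet, Finset.mem_filter, Finset.mem_univ, true_and, Crs, Equiv.coe_fn_mk]
  rw [edge_sup_iff a (i := i) (j := j) hu (by simp [ip, cr]; ring),
    edge_sup_iff b (i := l) (j := m) hu (by simp [ip, cr]; ring)]
  exact ⟨fun h => ⟨h.1.symm, h.2.1.symm, h.2.2⟩, fun h => ⟨h.1.symm, h.2.1.symm, h.2.2⟩⟩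

theorem edge_flip {n : ℕ} (a b : Fin n → V3) (g : I4 n → ℝ) :
    ∑ t ∈ crsSet a b, g (t.2.2.2, t.2.2.1, t.1, t.2.1) = ∑ t ∈ crsSet b a, g t := by
  refine Finset.sum_equiv (⟨fun t => (t.2.2.2, t.2.2.1, t.1, t.2.1),
    fun t => (t.2.2.1, t.2.2.2, t.2.1, t.1), fun _ => rfl, fun _ => rfl⟩ : I4 n ≃ I4 n) ?_
    fun _ _ => rfl
  rintro ⟨i, j, l, m⟩
  have hu : cr (b l - b m) (a j - a i) = cr (a j - a i) (b m - b l) := by
    funext x
    fin_cases x <;> simp [cr] <;> ring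
  simp only [crsSet, Finset.mem_filter, Finset.mem_univ, true_and, Crs, Equiv.coe_fn_mk]
  rw [edge_sup_iff b (i := l) (j := m) hu (by simp [ip, cr]; ring), hu]
  exact ⟨fun h => ⟨h.2.1.symm, h.1, h.2.2.2, h.2.2.1⟩, fun h => ⟨h.2.1, h.1.symm, h.2.2.2, h.2.2.1⟩⟩

theorem edge_tri {n : ℕ} (a b : Fin n → V3) (c : V3 → V3 → V3 → ℝ) :
    ∑ t ∈ triSet a b, VT c a b t = 3 * ∑ t ∈ triSet a b, c (a t.1) (a t.2.1) (b t.2.2.2) := by
  have h1 := edge_rot a b fun t => c (a t.1) (a t.2.1) (b t.2.2.2)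
  have h2 := edge_rot a b fun t => c (a t.2.2.1) (a t.1) (b t.2.2.2)
  simp only [VT, Vf, Finset.sum_add_distrib] at h1 h2 ⊢
  linarith

theorem cob_id {n : ℕ} (a b : Fin n → V3) (hG : Gen a b) (hG' : Gen b a) (c : V3 → V3 → V3 → ℝ)
    (hc : ∀ x y z, c y x z = -c x y z) :
    2 * (∑ t ∈ triSet a b, VT c a b t + ∑ t ∈ triSet b a, VT c b a t)
      = 3 * ∑ t ∈ crsSet a b, ST c a b t := by
  have e1 := edge_id a b hG c hc
  have e2 := edge_id b a hG' c hc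
  have h1 := edge_swap a b fun t => c (a t.1) (a t.2.1) (b t.2.2.1)
  have h2 := edge_flip a b fun t => c (b t.1) (b t.2.1) (a t.2.2.1)
  have h3 := edge_swap a b fun t => c (b t.2.2.2) (b t.2.2.1) (a t.1)
  have h4 : ∑ t ∈ crsSet a b, ST c a b t =
      -∑ t ∈ crsSet a b, c (a t.1) (a t.2.1) (b t.2.2.1)
      - ∑ t ∈ crsSet a b, c (a t.2.1) (a t.1) (b t.2.2.2)
      - ∑ t ∈ crsSet a b, c (b t.2.2.1) (b t.2.2.2) (a t.2.1)
      - ∑ t ∈ crsSet a b, c (b t.2.2.2) (b t.2.2.1) (a t.1) := by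
    simp only [← Finset.sum_neg_distrib, ← Finset.sum_sub_distrib]
    refine Finset.sum_congr rfl fun t _ => ?_
    rw [ST, Sf, hc (a t.1) (a t.2.1) (b t.2.2.1), hc (a t.1) (a t.2.1) (b t.2.2.2),
      hc (b t.2.2.1) (b t.2.2.2) (a t.2.1), hc (b t.2.2.1) (b t.2.2.2) (a t.1)]
    ring
  rw [edge_tri, edge_tri, h4]
  simp only at h1 h2 h3
  linarith

end Pool.Agent.MP_90395b_gt.As

end

section

namespace Pool.Agent.MP_90395b_gt.As

open Pool.Agent.MP_90395b_gt.W5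

open Real

/-- spherical coordinates -/
noncomputable def consPt (φ l : ℝ) : V3 := ![cos φ * cos l, cos φ * sin l, sin φ]

lemma cons_ip (φ l φ' l' : ℝ) : ip (consPt φ l) (consPt φ' l') =
    cos (φ - φ') - cos φ * cos φ' * (1 - cos (l - l')) := by
  simp only [ip, consPt, cos_sub, Matrix.cons_val_zero, Matrix.cons_val_one, Matrix.cons_val]
  ring

lemma cons_unit (φ l : ℝ) : ip (consPt φ l) (consPt φ l) = 1 := by
  rw [cons_ip]; simp

lemma cons_le {φ l φ' l' c : ℝ} (h0 : 0 ≤ cos φ') (h1 : cos φ' ≤ c) (h2 : cos φ ≤ c) :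
    1 - ip (consPt φ l) (consPt φ' l') ≤ (φ - φ') ^ 2 / 2 + c ^ 2 * ((l - l') ^ 2 / 2) := by
  rw [cons_ip]
  have a1 := one_sub_sq_div_two_le_cos (x := φ - φ')
  have a2 := one_sub_sq_div_two_le_cos (x := l - l')
  have a3 := cos_le_one (l - l')
  have a4 : cos φ * cos φ' ≤ c ^ 2 := by nlinarith
  have a5 : cos φ * cos φ' * (1 - cos (l - l')) ≤ c ^ 2 * (1 - cos (l - l')) :=
    mul_le_mul_of_nonneg_right a4 (by linarith)
  have a6 : c ^ 2 * (1 - cos (l - l')) ≤ c ^ 2 * ((l - l') ^ 2 / 2) :=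
    mul_le_mul_of_nonneg_left (by linarith) (sq_nonneg c)
  linarith

lemma cons_sph (u : V3) (hu : ip u u = 1) (h2 : 0 ≤ u 2) :
    ∃ φ l : ℝ, 0 ≤ φ ∧ φ ≤ π / 2 ∧ -π ≤ l ∧ l ≤ π ∧ u = consPt φ l := by
  unfold ip at hu
  have h1 : u 2 ≤ 1 := by nlinarith [sq_nonneg (u 0), sq_nonneg (u 1)]
  let z : ℂ := ⟨u 0, u 1⟩
  have hr : cos (arcsin (u 2)) = ‖z‖ := by
    rw [cos_arcsin, Complex.norm_def, Complex.normSq_mk]
    congr 1
    linarith
  refine ⟨arcsin (u 2), z.arg, arcsin_nonneg.2 h2, arcsin_le_pi_div_two _,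
    (Complex.neg_pi_lt_arg z).le, Complex.arg_le_pi z, ?_⟩
  unfold consPt
  rw [hr, Complex.norm_mul_cos_arg, Complex.norm_mul_sin_arg, sin_arcsin (by linarith) h1]
  funext i
  fin_cases i <;> rfl

lemma cons_cell {t w : ℝ} (hw : 0 < w) (ht : 0 ≤ t) :
    ∃ j : ℕ, j * w ≤ t ∧ t ≤ (j + 1) * w := by
  refine ⟨⌊t / w⌋₊, ?_, ?_⟩
  · exact (le_div_iff₀ hw).1 (Nat.floor_le (div_nonneg ht hw.le))
  · exact (div_le_iff₀ hw).1 (Nat.lt_floor_add_one _).le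

lemma cons_two {a w t : ℝ} (h1 : a ≤ t) (h2 : t ≤ a + w) :
    (a - t) ^ 2 + (a + w - t) ^ 2 ≤ w ^ 2 := by
  nlinarith [mul_nonneg (sub_nonneg.2 h1) (sub_nonneg.2 h2)]

/-- the grid of one band -/
noncomputable def consRow (α s : ℝ) (N j l : ℕ) : V3 :=
  consPt (α + j * (s / 2)) (((2 * l + j % 2 : ℕ) : ℝ) * (π / N) - π)

lemma cons_band {α s φ l : ℝ} {N : ℕ} (hα : 0 ≤ α) (h1 : α ≤ φ) (h2 : φ ≤ π / 2) (hs : 0 < s)
    (hs1 : s ≤ 1) (hN : 0 < N) (hc : 2 * π * cos α ≤ N * s) (hl1 : -π ≤ l) (hl2 : l ≤ π) :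
    ∃ j l1 l2 : ℕ, j * (s / 2) ≤ φ - α ∧ l1 ≤ N ∧ l2 ≤ N ∧
      (1 - ip (consRow α s N j l1) (consPt φ l)) +
        (1 - ip (consRow α s N (j + 1) l2) (consPt φ l)) ≤ s ^ 2 / 4 := by
  have hπ := pi_gt_three
  have hN' : (0 : ℝ) < N := by exact_mod_cast hN
  have hw : 0 < π / N := by positivity
  obtain ⟨j, j1, j2⟩ := cons_cell (t := φ - α) (w := s / 2) (by linarith) (by linarith)
  obtain ⟨q, q1, q2⟩ := cons_cell (t := l + π) hw (by linarith)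
  have hq : q ≤ 2 * N := by
    have : (q : ℝ) * (π / N) ≤ (2 * N : ℕ) * (π / N) := by
      push_cast
      have : 2 * (N : ℝ) * (π / N) = 2 * π := by field_simp
      linarith
    exact_mod_cast le_of_mul_le_mul_right this hw
  have hj0 : (0 : ℝ) ≤ j * (s / 2) := by positivity
  have c0 : 0 ≤ cos φ := cos_nonneg_of_neg_pi_div_two_le_of_le (by linarith) h2
  have c1 : cos φ ≤ cos α := cos_le_cos_of_nonneg_of_le_pi hα (by linarith) h1
  have c2 : cos (α + j * (s / 2)) ≤ cos α :=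
    cos_le_cos_of_nonneg_of_le_pi hα (by linarith) (by linarith)
  have c3 : cos (α + ((j + 1 : ℕ) : ℝ) * (s / 2)) ≤ cos α := by
    push_cast
    exact cos_le_cos_of_nonneg_of_le_pi hα (by linarith) (by linarith)
  have e1 : (α + j * (s / 2) - φ) ^ 2 + (α + ((j + 1 : ℕ) : ℝ) * (s / 2) - φ) ^ 2 ≤
      (s / 2) ^ 2 := by
    have := cons_two (a := α + j * (s / 2)) (w := s / 2) (t := φ) (by linarith) (by linarith)
    push_cast
    convert this using 3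
    ring
  have e2 : ((q : ℝ) * (π / N) - π - l) ^ 2 + (((q + 1 : ℕ) : ℝ) * (π / N) - π - l) ^ 2 ≤
      (π / N) ^ 2 := by
    have := cons_two (a := q * (π / N) - π) (w := π / N) (t := l) (by linarith) (by linarith)
    push_cast
    convert this using 3
    ring
  have e3 : cos α ^ 2 * (π / N) ^ 2 ≤ (s / 2) ^ 2 := by
    rw [← mul_pow]
    refine pow_le_pow_left₀ (mul_nonneg (c0.trans c1) hw.le) ?_ 2
    rw [← mul_div_assoc, div_le_iff₀ hN']
    linarith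
  have e4 := mul_le_mul_of_nonneg_left e2 (sq_nonneg (cos α))
  by_cases hp : q % 2 = j % 2
  · refine ⟨j, q / 2, (q + 1) / 2, j1, by omega, by omega, ?_⟩
    unfold consRow
    rw [show 2 * (q / 2) + j % 2 = q by omega,
      show 2 * ((q + 1) / 2) + (j + 1) % 2 = q + 1 by omega]
    have a1 := cons_le (l := (q : ℝ) * (π / N) - π) (l' := l) c0 c1 c2
    have a2 := cons_le (l := ((q + 1 : ℕ) : ℝ) * (π / N) - π) (l' := l) c0 c1 c3
    linarith
  · refine ⟨j, (q + 1) / 2, q / 2, j1, by omega, by omega, ?_⟩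
    unfold consRow
    rw [show 2 * ((q + 1) / 2) + j % 2 = q + 1 by omega,
      show 2 * (q / 2) + (j + 1) % 2 = q by omega]
    have a1 := cons_le (l := ((q + 1 : ℕ) : ℝ) * (π / N) - π) (l' := l) c0 c1 c2
    have a2 := cons_le (l := (q : ℝ) * (π / N) - π) (l' := l) c0 c1 c3
    linarith

lemma cons_sum {h : ℝ} (h0 : 0 < h) (h1 : h ≤ 1) (K : ℕ) (hK : K * h ≤ π / 2) :
    ∑ k ∈ Finset.range (K + 1), h * cos (k * h) ≤ sin ((K + 1) * h) + (K + 1) * h ^ 2 := by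
  have step : ∀ a : ℝ, 0 ≤ a → a ≤ π / 2 → h * cos a ≤ sin (a + h) - sin a + h ^ 2 := by
    intro a a0 a1
    have hπ := pi_gt_three
    have c0 : 0 ≤ cos a := cos_nonneg_of_neg_pi_div_two_le_of_le (by linarith) a1
    have s0 : 0 ≤ sin a := sin_nonneg_of_nonneg_of_le_pi a0 (by linarith)
    have b1 := one_sub_sq_div_two_le_cos (x := h)
    have b2 := sin_gt_sub_cube h0
    have b3 := cos_le_one a
    have b4 := sin_le_one a
    have b5 : h ^ 3 ≤ h ^ 2 := pow_le_pow_of_le_one h0.le h1 (by norm_num)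
    have b6 : sin a * (1 - cos h) ≤ h ^ 2 / 2 := by
      nlinarith [cos_le_one h]
    have b7 : cos a * (h - sin h) ≤ h ^ 3 / 6 := by
      nlinarith [sin_le h0.le]
    rw [sin_add]
    nlinarith [sq_nonneg h]
  induction K with
  | zero => simpa using step 0 le_rfl (by positivity)
  | succ K ih =>
    push_cast at hK ⊢
    rw [Finset.sum_range_succ]
    have i1 := ih (by linarith)
    have i2 := step ((K + 1) * h) (by positivity) hK
    push_cast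
    rw [show ((K : ℝ) + 1 + 1) * h = (K + 1) * h + h by ring]
    linarith

lemma cons_fin {h s : ℝ} (h0 : 0 < h) (h1 : h ≤ 1) (hs : 0 < s) (hs1 : s ≤ 1) :
    ∃ S : Finset V3, (∀ a ∈ S, ip a a = 1) ∧
      (S.card : ℝ) ≤ (2 * h / s + 2) * (2 * π * (1 + 3 * h) / (h * s) + 6 / h) ∧
      ∀ u : V3, ip u u = 1 → ∃ a ∈ S, ∃ b ∈ S, 2 - s ^ 2 / 4 ≤ ip a u - ip b u := by
  classical
  have hπ := pi_gt_three
  have hπ4 := pi_le_four
  let K : ℕ := ⌊π / 2 / h⌋₊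
  let M : ℕ := ⌊2 * h / s⌋₊ + 1
  let N : ℕ → ℕ := fun k => ⌊2 * π * cos (k * h) / s⌋₊ + 1
  let X : ℕ → ℕ × ℕ → V3 := fun k p => ((-1 : ℝ) ^ p.1) • consRow (k * h) s (N k) p.1 p.2
  let S : Finset V3 := (Finset.range (K + 1)).biUnion fun k =>
    (Finset.range (M + 1) ×ˢ Finset.range (N k + 1)).image (X k)
  have hK : K * h ≤ π / 2 := (le_div_iff₀ h0).1 (Nat.floor_le (by positivity))
  have mem : ∀ k j l, k ≤ K → j ≤ M → l ≤ N k → X k (j, l) ∈ S := fun k j l a b c =>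
    Finset.mem_biUnion.2 ⟨k, Finset.mem_range.2 (by omega), Finset.mem_image.2
      ⟨(j, l), Finset.mem_product.2 ⟨Finset.mem_range.2 (by omega), Finset.mem_range.2 (by omega)⟩,
        rfl⟩⟩
  have north : ∀ u : V3, ip u u = 1 → 0 ≤ u 2 →
      ∃ a ∈ S, ∃ b ∈ S, 2 - s ^ 2 / 4 ≤ ip a u - ip b u := by
    intro u hu h2
    obtain ⟨φ, l, p0, p1, l0, l1, rfl⟩ := cons_sph u hu h2
    obtain ⟨k, k1, k2⟩ := cons_cell h0 p0
    have hk : k ≤ K := Nat.le_floor ((le_div_iff₀ h0).2 (by linarith))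
    have hc : 2 * π * cos (k * h) ≤ (N k : ℝ) * s := by
      rw [← div_le_iff₀ hs]
      push_cast [N]
      exact (Nat.lt_floor_add_one _).le
    obtain ⟨j, l1, l2, j1, b1, b2, b3⟩ := cons_band (N := N k) (by positivity) k1 p1 hs hs1
      (Nat.succ_pos _) hc l0 l1
    have hj : j ≤ ⌊2 * h / s⌋₊ := Nat.le_floor ((le_div_iff₀ hs).2 (by linarith))
    have m1 := mem k j l1 hk (by omega) b1
    have m2 := mem k (j + 1) l2 hk (by omega) b2
    rcases Nat.even_or_odd j with hp | hp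
    · refine ⟨_, m1, _, m2, ?_⟩
      simp only [X, smul_ip, pow_succ, hp.neg_one_pow]
      linarith
    · refine ⟨_, m2, _, m1, ?_⟩
      simp only [X, smul_ip, pow_succ, hp.neg_one_pow]
      linarith
  refine ⟨S, ?_, ?_, fun u hu => ?_⟩
  · intro a ha
    obtain ⟨k, -, ha⟩ := Finset.mem_biUnion.1 ha
    obtain ⟨p, -, rfl⟩ := Finset.mem_image.1 ha
    simp only [X, smul_ip, ip_smul, consRow, cons_unit, mul_one, ← mul_pow]
    norm_num
  · have c1 : S.card ≤ ∑ k ∈ Finset.range (K + 1), (M + 1) * (N k + 1) := by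
      refine Finset.card_biUnion_le.trans (Finset.sum_le_sum fun k _ => ?_)
      refine Finset.card_image_le.trans ?_
      rw [Finset.card_product, Finset.card_range, Finset.card_range]
    have c2 : ((M + 1 : ℕ) : ℝ) ≤ 2 * h / s + 2 := by
      push_cast [M]
      have := Nat.floor_le (show 0 ≤ 2 * h / s by positivity)
      linarith
    have c3 : ∀ k ∈ Finset.range (K + 1),
        ((N k + 1 : ℕ) : ℝ) ≤ 2 * π / (h * s) * (h * cos (k * h)) + 2 := by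
      intro k hk
      have hk' : (k : ℝ) ≤ K := by exact_mod_cast Nat.lt_succ_iff.1 (Finset.mem_range.1 hk)
      have hkh : (k : ℝ) * h ≤ K * h := mul_le_mul_of_nonneg_right hk' h0.le
      have hk0 : (0 : ℝ) ≤ k * h := by positivity
      have c0 : 0 ≤ cos (k * h) :=
        cos_nonneg_of_neg_pi_div_two_le_of_le (by linarith) (by linarith)
      push_cast [N]
      have := Nat.floor_le (show 0 ≤ 2 * π * cos (k * h) / s by positivity)
      have e : 2 * π / (h * s) * (h * cos (k * h)) = 2 * π * cos (k * h) / s := by field_simp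
      linarith
    have c4 := cons_sum h0 h1 K hK
    have c5 : ((K : ℝ) + 1) * h ≤ 3 := by linarith
    have c6 : ∑ k ∈ Finset.range (K + 1), h * cos (k * h) ≤ 1 + 3 * h := by
      have := sin_le_one (((K : ℝ) + 1) * h)
      nlinarith
    have c7 : ∑ k ∈ Finset.range (K + 1), ((N k + 1 : ℕ) : ℝ) ≤
        2 * π * (1 + 3 * h) / (h * s) + 6 / h := by
      refine (Finset.sum_le_sum c3).trans ?_
      rw [Finset.sum_add_distrib, ← Finset.mul_sum, Finset.sum_const, Finset.card_range,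
        nsmul_eq_mul]
      have d1 := mul_le_mul_of_nonneg_left c6 (show 0 ≤ 2 * π / (h * s) by positivity)
      have d2 : ((K + 1 : ℕ) : ℝ) * 2 ≤ 6 / h := by
        rw [le_div_iff₀ h0]
        push_cast
        linarith
      have d3 : 2 * π / (h * s) * (1 + 3 * h) = 2 * π * (1 + 3 * h) / (h * s) := by ring
      linarith
    calc (S.card : ℝ) ≤ ((∑ k ∈ Finset.range (K + 1), (M + 1) * (N k + 1) : ℕ) : ℝ) := by
          exact_mod_cast c1
      _ = ((M + 1 : ℕ) : ℝ) * ∑ k ∈ Finset.range (K + 1), ((N k + 1 : ℕ) : ℝ) := by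
          rw [← Finset.mul_sum, Nat.cast_mul, Nat.cast_sum]
      _ ≤ _ := mul_le_mul c2 c7 (by positivity) (by positivity)
  · rcases le_total 0 (u 2) with h2 | h2
    · exact north u hu h2
    · obtain ⟨a, ha, b, hb, hab⟩ := north ((-1 : ℝ) • u)
        (by rw [smul_ip, ip_smul, hu]; norm_num) (by simpa using h2)
      refine ⟨b, hb, a, ha, ?_⟩
      rw [ip_smul, ip_smul] at hab
      linarith

lemma cons_pad (S : Finset V3) (hS : ∀ a ∈ S, ip a a = 1) {n : ℕ} (hn : S.card ≤ n) :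
    ∃ x : Fin n → V3, Function.Injective x ∧ (∀ i, ip (x i) (x i) = 1) ∧
      ∀ a ∈ S, ∃ i, x i = a := by
  classical
  have hinf : {v : V3 | ip v v = 1}.Infinite := by
    refine Set.infinite_of_injOn_mapsTo (s := Set.Icc (0 : ℝ) 1)
      (f := fun t => (![t, √(1 - t ^ 2), 0] : V3)) (fun a _ b _ h => congrFun h 0) ?_
      (Set.Icc_infinite zero_lt_one)
    intro t ht
    have : 0 ≤ 1 - t ^ 2 := by nlinarith [ht.1, ht.2]
    have := Real.mul_self_sqrt this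
    simp only [Set.mem_ofPred_eq, ip, Matrix.cons_val_zero, Matrix.cons_val_one, Matrix.cons_val]
    linarith
  have := hinf.to_subtype
  obtain ⟨T, hT, hc⟩ := Infinite.exists_superset_card_eq
    (S.subtype (· ∈ {v : V3 | ip v v = 1})) n
    ((Finset.card_subtype _ _).trans_le ((Finset.card_filter_le _ _).trans hn))
  let e : T ≃ Fin n := T.equivFinOfCardEq hc
  refine ⟨fun i => ((e.symm i).1 : V3), fun i j h => ?_, fun i => (e.symm i).1.2, fun a ha => ?_⟩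
  · exact e.symm.injective (Subtype.ext (Subtype.ext h))
  · exact ⟨e ⟨⟨a, hS a ha⟩, hT (Finset.mem_subtype.2 ha)⟩, by simp⟩

theorem construction (ε : ℝ) (hε : 0 < ε) : ∃ N : ℕ, ∀ n ≥ N, ∃ x : Fin n → V3,
    Function.Injective x ∧ (∀ i, ip (x i) (x i) = 1) ∧
      ∀ u : V3, ip u u = 1 → ∃ i j, 2 - (Real.pi + ε) / n ≤ ip (x i) u - ip (x j) u := by
  have hπ := pi_gt_three
  have hπ4 := pi_le_four
  obtain ⟨h, h0, h1, h2⟩ : ∃ h : ℝ, 0 < h ∧ h ≤ 1 ∧ h ≤ ε / 24 :=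
    ⟨min 1 (ε / 24), by positivity, min_le_left _ _, min_le_right _ _⟩
  obtain ⟨t, t0, t1, t2⟩ : ∃ t : ℝ, 0 < t ∧ t ≤ 1 ∧ t ≤ 2 * ε / (12 + 76 / h) :=
    ⟨min 1 (2 * ε / (12 + 76 / h)), by positivity, min_le_left _ _, min_le_right _ _⟩
  refine ⟨⌈4 * (π + ε) / t ^ 2⌉₊ + 1, fun n hn => ?_⟩
  have hn0 : (0 : ℝ) < n := by exact_mod_cast (by omega : 0 < n)
  have hn1 : 4 * (π + ε) / t ^ 2 ≤ n :=
    (Nat.le_ceil _).trans (by exact_mod_cast (by omega))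
  obtain ⟨s, s0, s2⟩ : ∃ s : ℝ, 0 < s ∧ s ^ 2 = 4 * (π + ε) / n :=
    ⟨√(4 * (π + ε) / n), by positivity, Real.sq_sqrt (by positivity)⟩
  have st : s ≤ t := by
    refine (pow_le_pow_iff_left₀ s0.le t0.le two_ne_zero).1 ?_
    rw [s2, div_le_iff₀ hn0]
    rw [div_le_iff₀ (by positivity)] at hn1
    linarith
  obtain ⟨S, S1, S2, S3⟩ := cons_fin h0 h1 s0 (st.trans t1)
  have hcard : S.card ≤ n := by
    have e1 : (n : ℝ) * s ^ 2 = 4 * (π + ε) := by rw [s2]; field_simp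
    have e2 : (2 * h / s + 2) * (2 * π * (1 + 3 * h) / (h * s) + 6 / h) * s ^ 2 =
        4 * π * (1 + 3 * h) + s * (12 + 4 * π * (1 + 3 * h) / h + 12 * s / h) := by
      field_simp
      ring
    have e3 : 4 * π * (1 + 3 * h) / h + 12 * s / h ≤ 76 / h := by
      rw [← add_div]
      refine div_le_div_of_nonneg_right ?_ h0.le
      nlinarith
    have e4 : s * (12 + 76 / h) ≤ 2 * ε := (le_div_iff₀ (by positivity)).1 (st.trans t2)
    have e5 : s * (12 + 4 * π * (1 + 3 * h) / h + 12 * s / h) ≤ s * (12 + 76 / h) :=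
      mul_le_mul_of_nonneg_left (by linarith) s0.le
    have e6 : (S.card : ℝ) * s ^ 2 ≤ n * s ^ 2 := by
      have := mul_le_mul_of_nonneg_right S2 (sq_nonneg s)
      nlinarith
    exact_mod_cast le_of_mul_le_mul_right e6 (by positivity)
  obtain ⟨x, x1, x2, x3⟩ := cons_pad S S1 hcard
  refine ⟨x, x1, x2, fun u hu => ?_⟩
  obtain ⟨a, ha, b, hb, hab⟩ := S3 u hu
  obtain ⟨i, rfl⟩ := x3 a ha
  obtain ⟨j, rfl⟩ := x3 b hb
  refine ⟨i, j, ?_⟩
  have : (π + ε) / n = s ^ 2 / 4 := by rw [s2]; ring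
  rw [this]
  exact hab

end Pool.Agent.MP_90395b_gt.As

end

section

/-! Definitions of a Bernstein subdivision checker on packed tensors. -/

namespace Pool.Agent.MP_90395b_gt.Bn

open Finset

/-- number of entries of a tensor with the given degrees -/
def sz : List ℕ → ℕ
  | [] => 1
  | d :: t => (d + 1) * sz t

/-- contraction of a flat tensor with one weight sequence per level, outermost level first -/
def val {R : Type} [CommRing R] : List ℕ → (ℕ → ℕ → R) → (ℕ → R) → R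
  | [], _, f => f 0
  | d :: t, W, f =>
    ∑ a ∈ range (d + 1), W 0 a * val t (fun j => W (j + 1)) (fun i => f (a * sz t + i))

noncomputable def bb (d : ℕ) (x : ℝ) (a : ℕ) : ℝ := (d.choose a : ℝ) * x ^ a * (1 - x) ^ (d - a)

noncomputable def bw (ds : List ℕ) (x : ℕ → ℝ) (j : ℕ) : ℕ → ℝ := bb (ds.getD j 0) (x j)

def Cube (x : ℕ → ℝ) : Prop := ∀ j, 0 ≤ x j ∧ x j ≤ 1

/-- Bernstein value of a tensor of naturals -/
noncomputable def bv (ds : List ℕ) (x : ℕ → ℝ) (f : ℕ → ℕ) : ℝ :=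
  val ds (bw ds x) (fun i => (f i : ℝ))

def Imp (d1 d2 : List ℕ) (K : ℝ) (f1 f2 : ℕ → ℕ) : Prop :=
  ∀ x, Cube x → bv d2 x f2 ≤ K → K ≤ bv d1 x f1

/-- iterated sums of neighbours -/
def st {M : Type} [Add M] (G : ℕ → M) : ℕ → ℕ → M
  | 0, a => G a
  | k + 1, a => st G k a + st G k (a + 1)

noncomputable def an (a b : Bool) : Bool := @Bool.rec (fun _ => Bool) false b a

theorem an_eq (a b : Bool) : an a b = true ↔ a = true ∧ b = true := by
  cases a <;> simp [an]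

/-- evaluate `x` first, then continue -/
noncomputable def frc {α : Type} (x : ℕ) (k : ℕ → α) : α :=
  @Nat.rec (fun _ => α) (k 0) (fun c _ => k c) (Nat.succ x)

theorem frc_eq {α : Type} (x : ℕ) (k : ℕ → α) : frc x k = k x := rfl

/-- the loop of the subdivision step -/
noncomputable def lp (S m d r : ℕ) : ℕ → ℕ → ℕ → (ℕ → ℕ → Bool) → Bool :=
  @Nat.rec (fun _ => ℕ → ℕ → ℕ → (ℕ → ℕ → Bool) → Bool) (fun _ L R c => c L R)
    (fun r ih T L R c => ih (Nat.add T (Nat.shiftRight T S))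
      (Nat.add L (Nat.shiftLeft (Nat.land (Nat.add T (Nat.shiftRight T S)) m)
        (Nat.add (Nat.mul S (Nat.sub d r)) r)))
      (Nat.add (Nat.shiftLeft R 1)
        (Nat.land (Nat.add T (Nat.shiftRight T S)) (Nat.shiftLeft m (Nat.mul S r)))) c) r

/-- entrywise shift by `e` and truncation to `w` bits -/
def flo (B w N e T : ℕ) : ℕ :=
  Nat.land (Nat.shiftRight T e) (Nat.mul (Nat.sub (Nat.shiftLeft 1 w) 1) (geo B N))

noncomputable def spl0 (B w N S m d T : ℕ) (c : ℕ → ℕ → Bool) : Bool :=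
  lp S m d d T (Nat.shiftLeft (Nat.land T m) d) (Nat.land T (Nat.shiftLeft m (Nat.mul S d)))
    (fun L R => c (flo B w N d L) (flo B w N d R))

/-- both halves along level `j` -/
noncomputable def spl (B w : ℕ) (ds : List ℕ) (j T : ℕ) (c : ℕ → ℕ → Bool) : Bool :=
  spl0 B w (sz ds) (Nat.mul B (sz (ds.drop (j + 1))))
    (mk B (sz (ds.drop (j + 1))) (ds.getD j 0) (sz (ds.take j))) (ds.getD j 0) T c

/-- bit `b` is set in every slot -/
def hb (B b N T : ℕ) : Bool :=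
  Nat.beq (Nat.land T (Nat.shiftLeft (geo B N) b)) (Nat.shiftLeft (geo B N) b)

inductive Tr where
  | z : Tr
  | l : ℕ → Tr
  | s : ℕ → Tr → Tr → Tr

noncomputable def chk (B w d : ℕ) (t : List ℕ) (tr : Tr) : ℕ → ℕ → Bool :=
  @Tr.rec (fun _ => ℕ → ℕ → Bool) (fun T _ => hb B (Nat.sub w 1) (sz (d :: t)) T)
    (fun p T U => an (Nat.blt p (Nat.shiftLeft 1 (Nat.sub B w)))
      (hb B (Nat.sub B 1) (sz (d :: t))
        (Nat.add (Nat.mul (Nat.sub (Nat.shiftLeft 1 (Nat.sub B w)) p) T)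
          (Nat.mul (Nat.mul p U) (geo (Nat.mul B (sz t)) (Nat.succ d))))))
    (fun j _ _ ca cb T U => an (Nat.ble j t.length) (an (Nat.ble (Nat.add w ((d :: t).getD j 0)) B)
      (spl B w (d :: t) j T fun L R => spl B w (0 :: t) j U fun L' R' =>
        an (ca L L') (cb R R')))) tr

/-- nested polynomials: a constant, zero, or a coefficient plus the variable times the rest -/
inductive Po where
  | c : ℤ → Po
  | o : Po
  | n : Po → Po → Po

/-- Horner value -/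
noncomputable def H : Po → (ℕ → ℝ) → ℝ
  | .c z, _ => z
  | .o, _ => 0
  | .n p r, y => H p (fun j => y (j + 1)) + y 0 * H r y

/-- value with one table per level; the last table is read at the total degree -/
def ev {R : Type} [CommRing R] : Po → (ℕ → ℕ → R) → ℕ → ℕ → R
  | .c z, b, _, n => (z : R) * b 0 n
  | .o, _, _, _ => 0
  | .n p r, b, a, n => b 0 a * ev p (fun j => b (j + 1)) 0 (n + a) + ev r b (a + 1) n

noncomputable def evZ (p : Po) : (ℕ → ℕ → ℤ) → ℕ → ℕ → ℤ :=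
  @Po.rec (fun _ => (ℕ → ℕ → ℤ) → ℕ → ℕ → ℤ)
    (fun z b _ n => frc n fun n' => Int.mul z (b 0 n')) (fun _ _ _ => Int.ofNat 0)
    (fun _ _ ip ir b a n => Int.add (Int.mul (b 0 a) (ip (fun j => b (Nat.succ j)) 0 (Nat.add n a)))
      (ir b (Nat.succ a) n)) p

noncomputable def evA (p : Po) : (ℕ → ℕ → ℕ) → ℕ → ℕ → ℕ :=
  @Po.rec (fun _ => (ℕ → ℕ → ℕ) → ℕ → ℕ → ℕ)
    (fun z b _ n => frc n fun n' => Nat.mul (Int.natAbs z) (b 0 n')) (fun _ _ _ => 0)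
    (fun _ _ ip ir b a n => Nat.add (Nat.mul (b 0 a) (ip (fun j => b (Nat.succ j)) 0 (Nat.add n a)))
      (ir b (Nat.succ a) n)) p

/-- leaves sit at depth `k` and all exponents are admissible -/
noncomputable def wf (p : Po) : (ℕ → ℕ → Bool) → ℕ → ℕ → ℕ → Bool :=
  @Po.rec (fun _ => (ℕ → ℕ → Bool) → ℕ → ℕ → ℕ → Bool)
    (fun _ ok k _ n => an (Nat.beq k 0) (ok 0 n)) (fun _ _ _ _ => true)
    (fun _ _ ip ir ok k a n => an (Nat.ble 1 k) (an (ok 0 a)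
      (an (ip (fun j => ok (Nat.succ j)) (Nat.pred k) 0 (Nat.add n a)) (ir ok k (Nat.succ a) n)))) p

/-- the coefficient tensor -/
def ten : Po → List ℕ → (ℕ → ℕ → ℕ → ℤ) → ℕ → ℕ → ℕ → ℤ
  | .c z, _, g, _, n, i => z * g 0 n i
  | .o, _, _, _, _, _ => 0
  | .n p r, ds, g, a, n, i => g 0 a (i / sz ds.tail) *
      ten p ds.tail (fun j => g (j + 1)) 0 (n + a) (i % sz ds.tail) + ten r ds g (a + 1) n i

structure Sp where
  d : ℕ
  D : ℕ
  o : ℕ
  lo : ℤ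
  hi : ℤ
  om : ℤ

def ch (n k : ℕ) : ℕ := n.descFactorial k / k.factorial

/-- scaled Bernstein coefficients of a power -/
noncomputable def gam (s : Sp) (a m : ℕ) : ℤ :=
  frc (a - s.o) fun a' => frc (s.D - a') fun b => frc (s.d - m) fun m' =>
    Int.mul (Int.mul (Int.ofNat (Nat.mul m.factorial m'.factorial)) (Int.pow s.om b))
      (∑ i ∈ range (m + 1), frc (m - i) fun j => frc (a' - i) fun k =>
        Int.mul (Int.mul (Int.ofNat (Nat.mul (ch a' i) (ch b j))) (Int.pow s.hi i)) (Int.pow s.lo k))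

theorem gam_eq (s : Sp) (a m : ℕ) : gam s a m =
    ((m.factorial * (s.d - m).factorial : ℕ) : ℤ) * s.om ^ (s.D - (a - s.o)) *
      ∑ i ∈ range (m + 1), ((ch (a - s.o) i * ch (s.D - (a - s.o)) (m - i) : ℕ) : ℤ) * s.hi ^ i *
        s.lo ^ (a - s.o - i) := rfl

def Sp.ok (s : Sp) (a : ℕ) : Bool := Nat.ble s.o a && Nat.ble a (s.D + s.o)

def Sp.gd (s : Sp) : Bool :=
  decide (0 < s.om) && (Nat.beq s.d s.D || (Nat.beq s.d 0 && decide (s.lo = s.hi)))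

/-- data of level `j` -/
def sp (ds Ds : List ℕ) (o : ℕ) (bx : List (ℤ × ℤ × ℤ)) (j : ℕ) : Sp :=
  ⟨ds.getD j 0, Ds.getD j 0, if j + 1 = ds.length then o else 0, (bx.getD j (0, 0, 1)).1,
    (bx.getD j (0, 0, 1)).2.1, (bx.getD j (0, 0, 1)).2.2⟩

noncomputable def tb (s : Sp) (S a : ℕ) : ℤ :=
  ∑ m ∈ range (s.d + 1), gam s a m * ((Nat.shiftLeft 1 (S * m) : ℕ) : ℤ)

noncomputable def tA (s : Sp) (a : ℕ) : ℕ := ∑ m ∈ range (s.d + 1), (gam s a m).natAbs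

/-- packed exact coefficients with an offset -/
noncomputable def rz (C w e : ℕ) (ds : List ℕ) (G : ℕ → Sp) (p : Po) : ℕ :=
  Int.toNat (Int.add (evZ p (fun j a => tb (G j) (C * sz (ds.drop (j + 1))) a) 0 0)
    (Int.ofNat (Nat.mul (Nat.add (Nat.shiftLeft 1 (C - 1)) (Nat.shiftLeft 1 (w - 1 + e)))
      (geo C (sz ds)))))

/-- the outermost level becomes the innermost one -/
def mv (B d n F : ℕ) : ℕ :=
  ∑ a ∈ range (d + 1), Nat.shiftLeft (Nat.land (Nat.shiftRight F ((d + 1) * B * n * a))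
    (Nat.sub (Nat.shiftLeft 1 ((d + 1) * B * n)) 1)) (B * a)

noncomputable def root (B w e d : ℕ) (t : List ℕ) (G : ℕ → Sp) (p : Po) : ℕ :=
  mv B d (sz t) (flo ((d + 1) * B) w (sz (d :: t)) e (rz ((d + 1) * B) w e (d :: t) G p))

noncomputable def rootOk (B w e d : ℕ) (t : List ℕ) (G : ℕ → Sp) (p : Po) : Bool :=
  an ((List.range (t.length + 1)).all fun j => (G j).gd) <|
  an (wf p (fun j a => (G j).ok a) t.length 0 0) <|
  an (Nat.blt (e + w) ((d + 1) * B)) <|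
  an (Nat.blt (evA p (fun j a => tA (G j) a) 0 0 + Nat.shiftLeft 1 (w - 1 + e))
    (Nat.shiftLeft 1 ((d + 1) * B - 1))) <|
  hb ((d + 1) * B) ((d + 1) * B - 1) (sz (d :: t)) (rz ((d + 1) * B) w e (d :: t) G p)

noncomputable def check (B w e1 e2 d0 d1 : ℕ) (t D1 D2 : List ℕ) (o1 o2 : ℕ)
    (bx : List (ℤ × ℤ × ℤ)) (p1 p2 : Po) (tr : Tr) : Bool :=
  an (Nat.blt 0 w) <| an (Nat.blt w B) <|
  an (rootOk B w e1 d0 (d1 :: t) (sp (d0 :: d1 :: t) D1 o1 bx) p1) <|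
  an (rootOk B w e2 d0 (0 :: t) (sp (d0 :: 0 :: t) D2 o2 bx) p2) <|
  chk B w d1 (t ++ [d0]) tr (root B w e1 d0 (d1 :: t) (sp (d0 :: d1 :: t) D1 o1 bx) p1)
    (root B w e2 d0 (0 :: t) (sp (d0 :: 0 :: t) D2 o2 bx) p2)

noncomputable def addc (z : ℤ) (q : Po) : Po :=
  @Po.rec (fun _ => Po) (fun y => if z + y = 0 then Po.o else Po.c (z + y)) (Po.c z)
    (fun _ r ip _ => Po.n ip r) q

noncomputable def add (p : Po) : Po → Po :=
  @Po.rec (fun _ => Po → Po) (fun z q => addc z q) (fun q => q)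
    (fun a r ia ir q => @Po.rec (fun _ => Po) (fun y => Po.n (addc y a) r) (Po.n a r)
      (fun b s _ _ => Po.n (ia b) (ir s)) q) p

/-- shift of the outermost variable by one -/
noncomputable def sh (p : Po) : Po :=
  @Po.rec (fun _ => Po) (fun z => Po.c z) Po.o (fun a _ _ ir => add (Po.n a ir) ir) p

noncomputable def mapc (f : Po → Po) (p : Po) : Po :=
  @Po.rec (fun _ => Po) (fun z => Po.c z) Po.o (fun a _ _ ir => Po.n (f a) ir) p

/-- shift of the variable of level `j` by one -/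
noncomputable def shAt (j : ℕ) : Po → Po :=
  @Nat.rec (fun _ => Po → Po) sh (fun _ f => mapc f) j

end Pool.Agent.MP_90395b_gt.Bn

end

section

namespace Pool.Agent.MP_90395b_gt.Bn

open Finset

theorem sz_pos (ds : List ℕ) : 0 < sz ds := by
  induction ds with
  | nil => exact Nat.one_pos
  | cons d t ih => exact Nat.mul_pos (Nat.succ_pos d) ih

theorem sz_append (p q : List ℕ) : sz (p ++ q) = sz p * sz q := by
  induction p with
  | nil => simp [sz]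
  | cons d t ih => simp only [List.cons_append, sz, ih, mul_assoc]

theorem vl_idx {d s a i : ℕ} (ha : a ∈ range (d + 1)) (hi : i < s) : a * s + i < (d + 1) * s := by
  have h1 : a + 1 ≤ d + 1 := mem_range.1 ha
  have h2 := Nat.mul_le_mul_right s h1
  rw [add_mul a, one_mul] at h2
  omega

section
variable {R : Type} [CommRing R]

theorem val_congr (ds : List ℕ) (W : ℕ → ℕ → R) {f g : ℕ → R} (h : ∀ i < sz ds, f i = g i) :
    val ds W f = val ds W g := by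
  induction ds generalizing W f g with
  | nil => exact h 0 Nat.one_pos
  | cons d t ih =>
    simp only [val]
    refine sum_congr rfl fun a ha => ?_
    rw [ih _ fun i hi => h _ (vl_idx ha hi)]

theorem val_congrW (ds : List ℕ) {W W' : ℕ → ℕ → R} (h : ∀ j < ds.length, W j = W' j)
    (f : ℕ → R) : val ds W f = val ds W' f := by
  induction ds generalizing W W' f with
  | nil => rfl
  | cons d t ih =>
    simp only [val]
    refine sum_congr rfl fun a _ => ?_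
    rw [h 0 (by simp), ih (W := fun j => W (j + 1)) (W' := fun j => W' (j + 1))
      fun j hj => h _ (by simpa using hj)]

theorem val_add (ds : List ℕ) (W : ℕ → ℕ → R) (f g : ℕ → R) :
    val ds W (fun i => f i + g i) = val ds W f + val ds W g := by
  induction ds generalizing W f g with
  | nil => rfl
  | cons d t ih => simp only [val, ih, mul_add, sum_add_distrib]

theorem val_smul (ds : List ℕ) (W : ℕ → ℕ → R) (c : R) (f : ℕ → R) :
    val ds W (fun i => c * f i) = c * val ds W f := by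
  induction ds generalizing W f with
  | nil => rfl
  | cons d t ih => simp only [val, ih, mul_sum, mul_left_comm]

theorem val_sum (ds : List ℕ) (W : ℕ → ℕ → R) (n : ℕ) (f : ℕ → ℕ → R) :
    val ds W (fun i => ∑ a ∈ range n, f a i) = ∑ a ∈ range n, val ds W (f a) := by
  induction n with
  | zero => simpa using val_smul ds W 0 (fun _ => 0)
  | succ n ih => simp only [sum_range_succ, val_add, ih]

theorem val_append (t : List ℕ) (d : ℕ) (W : ℕ → ℕ → R) (g : ℕ → R) : val (t ++ [d]) W g =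
    ∑ a ∈ range (d + 1), W t.length a * val t W (fun i => g (i * (d + 1) + a)) := by
  induction t generalizing W g with
  | nil => simp [val, sz]
  | cons e t ih =>
    simp only [List.cons_append, val, ih, mul_sum, List.length_cons]
    rw [sum_comm]
    refine sum_congr rfl fun a _ => sum_congr rfl fun b _ => ?_
    rw [mul_left_comm]
    congr 3
    funext i
    rw [sz_append]
    congr 1
    simp only [sz]
    ring

end

theorem val_pack (C : ℕ) (ds : List ℕ) (c : ℕ → ℤ) :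
    val ds (fun j a => (2 : ℤ) ^ (C * sz (ds.drop (j + 1)) * a)) c =
      ∑ i ∈ range (sz ds), c i * 2 ^ (C * i) := by
  induction ds generalizing c with
  | nil => simp [val, sz]
  | cons d t ih =>
    simp only [val, sz, List.drop_succ_cons, List.drop_zero, zero_add, ih]
    rw [sum_range_mul']
    refine sum_congr rfl fun a _ => ?_
    rw [mul_sum]
    refine sum_congr rfl fun i _ => ?_
    rw [mul_left_comm, ← pow_add]
    congr 2
    ring

theorem val_mono (ds : List ℕ) {W : ℕ → ℕ → ℝ} (hW : ∀ j a, 0 ≤ W j a) {f g : ℕ → ℝ}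
    (h : ∀ i < sz ds, f i ≤ g i) : val ds W f ≤ val ds W g := by
  induction ds generalizing W f g with
  | nil => exact h 0 Nat.one_pos
  | cons d t ih =>
    simp only [val]
    refine sum_le_sum fun a ha => mul_le_mul_of_nonneg_left ?_ (hW 0 a)
    exact ih (fun j a => hW _ a) fun i hi => h _ (vl_idx ha hi)

theorem bb_nonneg (d : ℕ) {x : ℝ} (h0 : 0 ≤ x) (h1 : x ≤ 1) (a : ℕ) : 0 ≤ bb d x a := by
  have : 0 ≤ 1 - x := sub_nonneg.2 h1
  unfold bb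
  positivity

theorem bb_sum (d : ℕ) (x : ℝ) : ∑ a ∈ range (d + 1), bb d x a = 1 := by
  have := add_pow x (1 - x) d
  rw [add_sub_cancel, one_pow] at this
  rw [this]
  refine sum_congr rfl fun a _ => ?_
  unfold bb
  ring

theorem vl_bw (d : ℕ) (t : List ℕ) (x : ℕ → ℝ) :
    (fun j => bw (d :: t) x (j + 1)) = bw t (fun j => x (j + 1)) := by
  funext j
  simp only [bw, List.getD_cons_succ]

theorem vl_bw0 (d : ℕ) (t : List ℕ) (x : ℕ → ℝ) : bw (d :: t) x 0 = bb d (x 0) := by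
  simp only [bw, List.getD_cons_zero]

theorem val_const (ds : List ℕ) (x : ℕ → ℝ) (c : ℝ) : val ds (bw ds x) (fun _ => c) = c := by
  induction ds generalizing x with
  | nil => rfl
  | cons d t ih =>
    simp only [val]
    rw [vl_bw, ih, ← sum_mul, vl_bw0, bb_sum, one_mul]

theorem val_fiber (pre post : List ℕ) (d : ℕ) {W W' : ℕ → ℕ → ℝ} (hW : ∀ j a, 0 ≤ W j a)
    (hW' : ∀ j, j ≠ pre.length → W' j = W j) {f g : ℕ → ℝ}
    (h : ∀ hi < sz pre, ∀ lo < sz post,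
      ∑ a ∈ range (d + 1), W' pre.length a * g ((hi * (d + 1) + a) * sz post + lo) ≤
        ∑ a ∈ range (d + 1), W pre.length a * f ((hi * (d + 1) + a) * sz post + lo)) :
    val (pre ++ d :: post) W' g ≤ val (pre ++ d :: post) W f := by
  induction pre generalizing W W' f g with
  | nil =>
    simp only [List.nil_append, val]
    have e : (fun j => W' (j + 1)) = fun j => W (j + 1) := funext fun j => hW' _ (by simp)
    rw [e]
    simp only [← val_smul, ← val_sum]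
    refine val_mono post (fun j a => hW _ a) fun i hi => ?_
    simpa using h 0 Nat.one_pos i hi
  | cons e t ih =>
    simp only [List.cons_append, val]
    rw [hW' 0 (by simp)]
    refine sum_le_sum fun a ha => mul_le_mul_of_nonneg_left ?_ (hW 0 a)
    refine ih (fun j a => hW _ a) (fun j hj => hW' _ (by simpa using hj)) fun hi h1 lo h2 => ?_
    have e1 : ∀ b, a * sz (t ++ d :: post) + ((hi * (d + 1) + b) * sz post + lo) =
        ((a * sz t + hi) * (d + 1) + b) * sz post + lo := by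
      intro b
      rw [sz_append]
      simp only [sz]
      ring
    simp only [e1]
    exact h (a * sz t + hi) (vl_idx ha h1) lo h2

theorem bv_rep (d : ℕ) (t : List ℕ) (x : ℕ → ℝ) (f : ℕ → ℕ) :
    bv (d :: t) x (fun i => f (i % sz t)) = bv (0 :: t) x f := by
  simp only [bv, val]
  rw [vl_bw, vl_bw, vl_bw0, vl_bw0]
  have e : ∀ a, val t (bw t fun j => x (j + 1)) (fun i => (f ((a * sz t + i) % sz t) : ℝ)) =
      val t (bw t fun j => x (j + 1)) (fun i => (f i : ℝ)) := fun a =>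
    val_congr t _ fun i hi => by rw [Nat.mul_add_mod_self_right, Nat.mod_eq_of_lt hi]
  simp only [e]
  rw [← sum_mul, bb_sum]
  simp [bb]

theorem bv_move (d : ℕ) (t : List ℕ) (x : ℕ → ℝ) (f : ℕ → ℕ) :
    bv (t ++ [d]) (fun j => if j = t.length then x 0 else x (j + 1))
      (fun i => f (i % (d + 1) * sz t + i / (d + 1))) = bv (d :: t) x f := by
  simp only [bv, val]
  rw [val_append, vl_bw, vl_bw0]
  refine sum_congr rfl fun a ha => ?_
  have ha' : a < d + 1 := mem_range.1 ha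
  congr 1
  · simp [bw]
  · rw [val_congrW t (W' := bw t fun j => x (j + 1))]
    · congr 1
      funext i
      rw [Nat.mul_add_mod_self_right, Nat.mod_eq_of_lt ha', add_comm (i * (d + 1)),
        Nat.add_mul_div_right _ _ (Nat.succ_pos d), Nat.div_eq_of_lt ha', zero_add]
    · intro j hj
      simp only [bw, if_neg hj.ne, List.getD_append _ _ _ _ hj]

open Polynomial in
theorem vl_phi (G : ℕ → ℝ) : ∃ φ : ℝ[X] →ₗ[ℝ] ℝ, ∀ k a, φ ((1 + X) ^ k * X ^ a) = st G k a := by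
  refine ⟨(basisMonomials ℝ).constr ℝ G, fun k => ?_⟩
  induction k with
  | zero =>
    intro a
    have := (basisMonomials ℝ).constr_basis ℝ G a
    rw [coe_basisMonomials] at this
    rw [pow_zero, one_mul, ← monomial_one_right_eq_X_pow]
    exact this
  | succ k ih =>
    intro a
    rw [st, ← ih, ← ih, ← map_add]
    congr 1
    ring

open Polynomial in
theorem vl_pow (φ : ℝ[X] →ₗ[ℝ] ℝ) (u v : ℝ) (p q : ℝ[X]) (d : ℕ) :
    φ ((u • p + v • q) ^ d) =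
      ∑ a ∈ range (d + 1), (d.choose a : ℝ) * u ^ a * v ^ (d - a) * φ (q ^ (d - a) * p ^ a) := by
  rw [add_pow, map_sum]
  refine sum_congr rfl fun a _ => ?_
  rw [← smul_eq_mul (_ * _ * _ : ℝ), ← map_smul]
  congr 1
  simp only [smul_eq_C_mul, map_mul, map_pow, map_natCast]
  ring

open Polynomial in
theorem vl_base (φ : ℝ[X] →ₗ[ℝ] ℝ) {G : ℕ → ℝ} (h : ∀ k a, φ ((1 + X) ^ k * X ^ a) = st G k a)
    (d : ℕ) (x : ℝ) :
    ∑ a ∈ range (d + 1), bb d x a * G a = φ ((x • X + (1 - x) • (1 : ℝ[X])) ^ d) := by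
  rw [vl_pow]
  refine sum_congr rfl fun a _ => ?_
  have := h 0 a
  rw [pow_zero] at this
  rw [one_pow, this]
  rfl

theorem st_left (d : ℕ) (G : ℕ → ℝ) (x : ℝ) :
    ∑ a ∈ range (d + 1), bb d (2 * x) a * (st G a 0 / 2 ^ a) =
      ∑ a ∈ range (d + 1), bb d x a * G a := by
  obtain ⟨φ, h⟩ := vl_phi G
  have e : (x • Polynomial.X + (1 - x) • (1 : Polynomial ℝ)) =
      x • (1 + Polynomial.X) + (1 - 2 * x) • 1 := by module
  rw [vl_base φ h, e, vl_pow]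
  refine sum_congr rfl fun a _ => ?_
  have := h a 0
  rw [pow_zero, mul_one] at this
  rw [one_pow, one_mul, this, bb, mul_pow]
  field_simp

theorem st_right (d : ℕ) (G : ℕ → ℝ) (x : ℝ) :
    ∑ a ∈ range (d + 1), bb d (2 * x - 1) a * (st G (d - a) a / 2 ^ (d - a)) =
      ∑ a ∈ range (d + 1), bb d x a * G a := by
  obtain ⟨φ, h⟩ := vl_phi G
  have e : (x • Polynomial.X + (1 - x) • (1 : Polynomial ℝ)) =
      (2 * x - 1) • Polynomial.X + (1 - x) • (1 + Polynomial.X) := by module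
  rw [vl_base φ h, e, vl_pow]
  refine sum_congr rfl fun a _ => ?_
  rw [h, bb, show 1 - (2 * x - 1) = 2 * (1 - x) by ring, mul_pow]
  field_simp

end Pool.Agent.MP_90395b_gt.Bn

end

section

namespace Pool.Agent.MP_90395b_gt.Bn

open Finset

/-- iterated sums with step `s` -/
def sp_t (s : ℕ) (F : ℕ → ℕ) : ℕ → ℕ → ℕ
  | 0, i => F i
  | k + 1, i => sp_t s F k i + sp_t s F k (i + s)

theorem sp_t_st (s : ℕ) (F : ℕ → ℕ) (i k : ℕ) : ∀ a, (sp_t s F k (i + a * s) : ℝ) =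
    st (fun b => (F (i + b * s) : ℝ)) k a := by
  induction k with
  | zero => intro a; rfl
  | succ k ih =>
    intro a
    rw [sp_t, st, ← ih, ← ih, Nat.cast_add, add_mul a, one_mul, add_assoc]

theorem sp_t_lt {s w : ℕ} {F : ℕ → ℕ} (hF : ∀ i, F i < 2 ^ w) (k : ℕ) :
    ∀ i, sp_t s F k i < 2 ^ (w + k) := by
  induction k with
  | zero => exact hF
  | succ k ih =>
    intro i
    have h1 := ih i
    have h2 := ih (i + s)
    rw [sp_t, ← add_assoc, pow_succ]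
    omega

theorem sp_t_zero {s N : ℕ} {F : ℕ → ℕ} (hF : ∀ i, N ≤ i → F i = 0) (k : ℕ) :
    ∀ i, N ≤ i → sp_t s F k i = 0 := by
  induction k with
  | zero => exact hF
  | succ k ih => intro i hi; rw [sp_t, ih i hi, ih (i + s) (by omega)]

/-- the left half after `k` steps -/
def sp_L (s d : ℕ) (F : ℕ → ℕ) (k i : ℕ) : ℕ :=
  if dg s d i ≤ k then 2 ^ (d - dg s d i) * sp_t s F (dg s d i) (i - dg s d i * s) else 0

/-- the right half after `k` steps -/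
def sp_R (s d : ℕ) (F : ℕ → ℕ) (k i : ℕ) : ℕ :=
  if d - k ≤ dg s d i then 2 ^ (k - (d - dg s d i)) * sp_t s F (d - dg s d i) i else 0

theorem sp_row0 {B s d M : ℕ} (hB : 0 < B) (hs : 0 < s) {g : ℕ → ℕ}
    (hg : Bd (M * (d + 1) * s) (2 ^ B) g) {k : ℕ} (hk : k ≤ d) (r : ℕ) :
    (pk B (M * (d + 1) * s) g &&& mk B s d M) <<< (B * s * k + r) =
      pk B (M * (d + 1) * s) fun i => if dg s d i = k then 2 ^ r * g (i - k * s) else 0 := by
  have h := row_pk hB hs hg (Nat.zero_le d)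
  simp only [mul_zero, Nat.shiftRight_zero, zero_mul, add_zero] at h
  rw [h, Nat.shiftLeft_eq, pow_add, ← mul_assoc, put_pk B s d M g hk, mul_comm, ← pk_mul]
  refine pk_congr fun i _ => ?_
  split_ifs <;> simp

theorem sp_rowk {B s d M : ℕ} (hB : 0 < B) (hs : 0 < s) {g : ℕ → ℕ}
    (hg : Bd (M * (d + 1) * s) (2 ^ B) g) {r : ℕ} (hr : r ≤ d) :
    pk B (M * (d + 1) * s) g &&& (mk B s d M <<< (B * s * r)) =
      pk B (M * (d + 1) * s) fun i => if dg s d i = r then g i else 0 := by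
  have hp : 0 < 2 ^ B := by positivity
  rw [mk_eq hB hs, Nat.shiftLeft_eq, put_pk B s d M (fun _ => 2 ^ B - 1) hr,
    land_pk _ (fun i _ => by split_ifs <;> omega)]
  refine pk_congr fun i hi => ?_
  split_ifs
  · rw [and_full (dig_lt _ _ _), (dig_pk B _ g hg).1, if_pos hi]
  · exact Nat.and_zero _

theorem sp_lp_succ (S m d r T L R : ℕ) (c : ℕ → ℕ → Bool) : lp S m d (r + 1) T L R c =
    lp S m d r (T + T >>> S) (L + ((T + T >>> S) &&& m) <<< (S * (d - r) + r))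
      (R <<< 1 + ((T + T >>> S) &&& (m <<< (S * r)))) c := rfl

theorem sp_loop {B w s d M : ℕ} (hB : 0 < B) (hs : 0 < s) (hw : w + d ≤ B) {F : ℕ → ℕ}
    (hF : ∀ i, F i < 2 ^ w) (hF0 : ∀ i, M * (d + 1) * s ≤ i → F i = 0) (c : ℕ → ℕ → Bool)
    (r : ℕ) : ∀ k, k + r = d →
    lp (B * s) (mk B s d M) d r (pk B (M * (d + 1) * s) (sp_t s F k))
      (pk B (M * (d + 1) * s) (sp_L s d F k)) (pk B (M * (d + 1) * s) (sp_R s d F k)) c =
      c (pk B (M * (d + 1) * s) (sp_L s d F d)) (pk B (M * (d + 1) * s) (sp_R s d F d)) := by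
  have hb : ∀ k ≤ d, Bd (M * (d + 1) * s) (2 ^ B) (sp_t s F k) := fun k hk i _ =>
    (sp_t_lt hF k i).trans_le (Nat.pow_le_pow_right (by norm_num) (by omega))
  induction r with
  | zero =>
    intro k hk
    obtain rfl : k = d := hk
    rfl
  | succ r ih =>
    intro k hk
    have e1 : pk B (M * (d + 1) * s) (sp_t s F k) +
        pk B (M * (d + 1) * s) (sp_t s F k) >>> (B * s) =
        pk B (M * (d + 1) * s) (sp_t s F (k + 1)) := by
      rw [shr_pk (hb k (by omega)), ← pk_add]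
      refine pk_congr fun i _ => ?_
      rw [sp_t]
      split_ifs with h
      · rfl
      · rw [sp_t_zero hF0 k (i + s) (by omega)]
    have e2 : d - r = k + 1 := by omega
    rw [sp_lp_succ, e1, e2, sp_row0 hB hs (hb (k + 1) (by omega)) (by omega),
      sp_rowk hB hs (hb (k + 1) (by omega)) (by omega), Nat.shiftLeft_eq, mul_comm _ (2 ^ 1),
      ← pk_mul, ← pk_add, ← pk_add, ← ih (k + 1) (by omega)]
    congr 1
    · refine pk_congr fun i _ => ?_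
      unfold sp_L
      by_cases h : dg s d i = k + 1
      · rw [if_pos h, if_neg (by omega), if_pos h.le, h, zero_add, show d - (k + 1) = r by omega]
      · rw [if_neg h, add_zero]
        by_cases h' : dg s d i ≤ k
        · rw [if_pos h', if_pos (by omega)]
        · rw [if_neg h', if_neg (by omega)]
    · refine pk_congr fun i _ => ?_
      have hd := dg_le s d i
      unfold sp_R
      by_cases h : dg s d i = r
      · rw [if_pos h, if_neg (by omega), if_pos (by omega), h, e2, Nat.sub_self, pow_zero, one_mul,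
          mul_zero, zero_add]
      · rw [if_neg h, add_zero]
        by_cases h' : d - k ≤ dg s d i
        · rw [if_pos h', if_pos (by omega), ← mul_assoc, ← pow_add]
          congr 2
          omega
        · rw [if_neg h', if_neg (by omega), mul_zero]

theorem sp_flo {B w N e : ℕ} (hB : 0 < B) (hw : e + w ≤ B) {g : ℕ → ℕ} (hg : Bd N (2 ^ B) g) :
    flo B w N e (pk B N g) = pk B N fun i => g i / 2 ^ e % 2 ^ w := by
  rw [← flo_pk hB hg hw, ← Nat.one_shiftLeft w]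
  rfl

theorem sp_spl0 {B w s d M : ℕ} (hB : 0 < B) (hs : 0 < s) (hw : w + d ≤ B) {F : ℕ → ℕ}
    (hF : ∀ i, F i < 2 ^ w) (hF0 : ∀ i, M * (d + 1) * s ≤ i → F i = 0) (c : ℕ → ℕ → Bool) :
    spl0 B w (M * (d + 1) * s) (B * s) (mk B s d M) d (pk B (M * (d + 1) * s) F) c =
      c (pk B (M * (d + 1) * s) fun i => sp_L s d F d i / 2 ^ d % 2 ^ w)
        (pk B (M * (d + 1) * s) fun i => sp_R s d F d i / 2 ^ d % 2 ^ w) := by
  have hb : Bd (M * (d + 1) * s) (2 ^ B) F := fun i _ =>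
    (hF i).trans_le (Nat.pow_le_pow_right (by norm_num) (by omega))
  have key : ∀ p k i, p + k ≤ d → 2 ^ p * sp_t s F k i < 2 ^ B := fun p k i h =>
    calc 2 ^ p * sp_t s F k i < 2 ^ p * 2 ^ (w + k) :=
          Nat.mul_lt_mul_of_pos_left (sp_t_lt hF k i) (by positivity)
      _ ≤ 2 ^ B := by
          rw [← pow_add]
          exact Nat.pow_le_pow_right (by norm_num) (by omega)
  have hL : Bd (M * (d + 1) * s) (2 ^ B) (sp_L s d F d) := fun i _ => by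
    have hd := dg_le s d i
    rw [sp_L, if_pos hd]
    exact key _ _ _ (by omega)
  have hR : Bd (M * (d + 1) * s) (2 ^ B) (sp_R s d F d) := fun i _ => by
    rw [sp_R, if_pos (by omega)]
    exact key _ _ _ (by omega)
  have e1 : (pk B (M * (d + 1) * s) F &&& mk B s d M) <<< d =
      pk B (M * (d + 1) * s) (sp_L s d F 0) := by
    have h := sp_row0 hB hs hb (Nat.zero_le d) d
    rw [mul_zero, zero_add] at h
    rw [h]
    refine pk_congr fun i _ => ?_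
    unfold sp_L
    by_cases h : dg s d i = 0
    · rw [if_pos h, if_pos h.le, h]
      rfl
    · rw [if_neg h, if_neg (by omega)]
  have e2 : pk B (M * (d + 1) * s) F &&& (mk B s d M <<< (B * s * d)) =
      pk B (M * (d + 1) * s) (sp_R s d F 0) := by
    rw [sp_rowk hB hs hb le_rfl]
    refine pk_congr fun i _ => ?_
    have hd := dg_le s d i
    unfold sp_R
    by_cases h : dg s d i = d
    · rw [if_pos h, if_pos (by omega), h, Nat.sub_self, pow_zero, one_mul]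
      rfl
    · rw [if_neg h, if_neg (by omega)]
  rw [← sp_flo hB (by omega) hL, ← sp_flo hB (by omega) hR]
  refine Eq.trans ?_ (sp_loop hB hs hw hF hF0 (fun L R => c (flo B w (M * (d + 1) * s) d L)
    (flo B w (M * (d + 1) * s) d R)) d 0 (zero_add d))
  rw [← e1, ← e2]
  rfl

theorem sp_real {p q d : ℕ} (h : p + q = d) (y w : ℕ) :
    ((2 ^ p * y / 2 ^ d % 2 ^ w : ℕ) : ℝ) ≤ (y : ℝ) / 2 ^ q := by
  subst h
  rw [pow_add, Nat.mul_div_mul_left _ _ (by positivity)]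
  calc ((y / 2 ^ q % 2 ^ w : ℕ) : ℝ) ≤ ((y / 2 ^ q : ℕ) : ℝ) := Nat.cast_le.2 (Nat.mod_le _ _)
    _ ≤ (y : ℝ) / ((2 ^ q : ℕ) : ℝ) := Nat.cast_div_le
    _ = _ := by rw [Nat.cast_pow, Nat.cast_ofNat]

theorem spl_spec {B w j : ℕ} {ds : List ℕ} (hB : 0 < B) (hj : j < ds.length)
    (hw : w + ds.getD j 0 ≤ B) {f : ℕ → ℕ} (hf : Bd (sz ds) (2 ^ w) f) :
    ∃ l r : ℕ → ℕ, Bd (sz ds) (2 ^ w) l ∧ Bd (sz ds) (2 ^ w) r ∧
      (∀ c, spl B w ds j (pk B (sz ds) f) c = c (pk B (sz ds) l) (pk B (sz ds) r)) ∧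
      (∀ x, Cube x → x j ≤ 1 / 2 → bv ds (Function.update x j (2 * x j)) l ≤ bv ds x f) ∧
      (∀ x, Cube x → 1 / 2 ≤ x j → bv ds (Function.update x j (2 * x j - 1)) r ≤ bv ds x f) := by
  obtain ⟨pre, d, post, rfl, rfl⟩ : ∃ pre d post, ds = pre ++ d :: post ∧ j = pre.length :=
    ⟨ds.take j, ds[j], ds.drop (j + 1), by simp, by simp [hj.le]⟩
  have e1 : (pre ++ d :: post).getD pre.length 0 = d := by simp
  have e2 : (pre ++ d :: post).take pre.length = pre := by simp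
  have e3 : (pre ++ d :: post).drop (pre.length + 1) = post := by simp
  have eN : sz (pre ++ d :: post) = sz pre * (d + 1) * sz post := by
    rw [sz_append, sz, mul_assoc]
  rw [e1] at hw
  rw [eN] at hf
  have hs := sz_pos post
  set F : ℕ → ℕ := fun i => if i < sz pre * (d + 1) * sz post then f i else 0 with hFd
  have hF : ∀ i, F i < 2 ^ w := fun i => by
    simp only [hFd]
    split_ifs with h
    · exact hf i h
    · positivity
  have hF0 : ∀ i, sz pre * (d + 1) * sz post ≤ i → F i = 0 := fun i hi => if_neg (by omega)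
  have hW : ∀ x, Cube x → ∀ j a, 0 ≤ bw (pre ++ d :: post) x j a := fun x hx j a =>
    bb_nonneg _ (hx j).1 (hx j).2 a
  have hW' : ∀ (x : ℕ → ℝ) (v : ℝ) j, j ≠ pre.length →
      bw (pre ++ d :: post) (Function.update x pre.length v) j = bw (pre ++ d :: post) x j := by
    intro x v j hj
    rw [bw, bw, Function.update_of_ne hj]
  have hWj : ∀ x : ℕ → ℝ, bw (pre ++ d :: post) x pre.length = bb d (x pre.length) := fun x => by
    rw [bw, e1]
  have hidx : ∀ hi lo a, (hi * (d + 1) + a) * sz post + lo =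
      hi * (d + 1) * sz post + lo + a * sz post := fun hi lo a => by ring
  have hG : ∀ hi < sz pre, ∀ lo < sz post, ∀ x : ℝ,
      ∑ a ∈ range (d + 1), bb d x a * (F (hi * (d + 1) * sz post + lo + a * sz post) : ℝ) =
      ∑ a ∈ range (d + 1), bb d x a * (f ((hi * (d + 1) + a) * sz post + lo) : ℝ) := by
    intro hi h1 lo h2 x
    refine sum_congr rfl fun a ha => ?_
    rw [← hidx, hFd]
    simp only [if_pos (idx_lt h1 (Nat.lt_succ_iff.1 (mem_range.1 ha)) h2)]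
  refine ⟨fun i => sp_L (sz post) d F d i / 2 ^ d % 2 ^ w,
    fun i => sp_R (sz post) d F d i / 2 ^ d % 2 ^ w, fun i _ => Nat.mod_lt _ (by positivity),
    fun i _ => Nat.mod_lt _ (by positivity), fun c => ?_, fun x hx h => ?_, fun x hx h => ?_⟩
  · rw [spl, e1, e2, e3, eN, ← sp_spl0 hB hs hw hF hF0 c,
      pk_congr (f := f) (g := F) fun i hi => (if_pos hi).symm]
    rfl
  · refine val_fiber pre post d (hW x hx) (hW' x _) fun hi h1 lo h2 => ?_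
    rw [hWj, hWj, Function.update_self]
    refine le_of_le_of_eq ?_ ((st_left d _ _).trans (hG hi h1 lo h2 _))
    refine sum_le_sum fun a ha => mul_le_mul_of_nonneg_left ?_
      (bb_nonneg _ (by linarith [(hx pre.length).1]) (by linarith) a)
    have ha' := Nat.lt_succ_iff.1 (mem_range.1 ha)
    beta_reduce
    rw [sp_L, dg_eq hi ha' h2, if_pos ha', hidx, Nat.add_sub_cancel, ← sp_t_st, zero_mul, add_zero]
    exact sp_real (by omega) _ _
  · refine val_fiber pre post d (hW x hx) (hW' x _) fun hi h1 lo h2 => ?_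
    rw [hWj, hWj, Function.update_self]
    refine le_of_le_of_eq ?_ ((st_right d _ _).trans (hG hi h1 lo h2 _))
    refine sum_le_sum fun a ha => mul_le_mul_of_nonneg_left ?_
      (bb_nonneg _ (by linarith) (by linarith [(hx pre.length).2]) a)
    have ha' := Nat.lt_succ_iff.1 (mem_range.1 ha)
    beta_reduce
    rw [sp_R, dg_eq hi ha' h2, if_pos (by omega), hidx, ← sp_t_st]
    exact sp_real (by omega) _ _

end Pool.Agent.MP_90395b_gt.Bn

end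

section

namespace Pool.Agent.MP_90395b_gt.Bn

open Finset

theorem hb_spec {B b N : ℕ} (hb' : b < B) {f : ℕ → ℕ} (hf : Bd N (2 ^ B) f)
    (h : hb B b N (pk B N f) = true) : ∀ i < N, 2 ^ b ≤ f i := by
  have h1 : pk B N f &&& (geo B N <<< b) = geo B N <<< b := Nat.eq_of_beq_eq_true h
  rw [Nat.shiftLeft_eq, mul_comm] at h1
  exact high_pk hb' hf h1

theorem ck_rep {B n : ℕ} (hB : 0 < B) (hn : 0 < n) (m : ℕ) (f : ℕ → ℕ) :
    pk B n f * geo (B * n) m = pk B (m * n) (fun i => f (i % n)) := by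
  rw [geo_eq (by positivity), pk, pk, pk, sum_range_mul', mul_sum]
  refine sum_congr rfl fun a _ => ?_
  rw [sum_mul]
  refine sum_congr rfl fun b hb => ?_
  rw [add_comm, Nat.add_mul_mod_self_right, Nat.mod_eq_of_lt (mem_range.1 hb), one_mul,
    mul_assoc, ← pow_add]
  congr 2
  ring

theorem ck_low {ds : List ℕ} {x : ℕ → ℝ} (hx : Cube x) {f : ℕ → ℕ} {k : ℕ}
    (h : ∀ i < sz ds, 2 ^ k ≤ f i) : (2 : ℝ) ^ k ≤ bv ds x f := by
  rw [← val_const ds x (2 ^ k)]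
  exact val_mono ds (fun j a => bb_nonneg _ (hx j).1 (hx j).2 a) fun i hi => by
    exact_mod_cast h i hi

theorem ck_cube {x : ℕ → ℝ} (hx : Cube x) (j : ℕ) {y : ℝ} (h0 : 0 ≤ y) (h1 : y ≤ 1) :
    Cube (Function.update x j y) := fun i => by
  by_cases h : i = j
  · rw [h, Function.update_self]
    exact ⟨h0, h1⟩
  · rw [Function.update_of_ne h]
    exact hx i

theorem ck_leaf {B w d p : ℕ} {t : List ℕ} (h0 : 0 < w) (hw : w < B) {f1 f2 : ℕ → ℕ}
    (h1 : Bd (sz (d :: t)) (2 ^ w) f1) (h2 : Bd (sz (0 :: t)) (2 ^ w) f2) (hp : p < 2 ^ (B - w))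
    (h : hb B (B - 1) (sz (d :: t)) ((2 ^ (B - w) - p) * pk B (sz (d :: t)) f1 +
      p * pk B (sz (0 :: t)) f2 * geo (B * sz t) (d + 1)) = true) :
    Imp (d :: t) (0 :: t) (2 ^ (w - 1)) f1 f2 := by
  have e0 : sz (0 :: t) = sz t := by rw [sz, zero_add, one_mul]
  have hn := sz_pos t
  obtain ⟨q, hq⟩ := Nat.exists_eq_add_of_lt hp
  have hq' : 2 ^ (B - w) - p = q + 1 := by omega
  rw [e0] at h h2
  rw [hq', mul_assoc, ck_rep (by omega) hn, show (d + 1) * sz t = sz (d :: t) from rfl,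
    ← pk_mul, ← pk_mul, ← pk_add] at h
  have hB : 2 ^ B = (p + q + 1) * 2 ^ w := by
    rw [← hq, ← pow_add]
    congr 1
    omega
  have hB' : (2 : ℝ) ^ (B - 1) = ((p : ℝ) + q + 1) * 2 ^ (w - 1) := by
    have : (2 : ℝ) ^ (B - w) = (p : ℝ) + q + 1 := by exact_mod_cast hq
    rw [← this, ← pow_add]
    congr 1
    omega
  have h3 := hb_spec (by omega) (fun i hi => by
    have a1 := Nat.mul_lt_mul_of_pos_left (k := q + 1) (h1 i hi) (by omega)
    have a2 := Nat.mul_le_mul_left p (h2 _ (Nat.mod_lt i hn)).le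
    rw [hB]
    linarith) h
  intro x hx hK
  have h4 := ck_low hx h3
  have e : bv (d :: t) x (fun i => (q + 1) * f1 i + p * f2 (i % sz t)) =
      ((q : ℝ) + 1) * bv (d :: t) x f1 + p * bv (0 :: t) x f2 := by
    rw [← bv_rep d t x f2]
    unfold bv
    rw [← val_smul, ← val_smul, ← val_add]
    exact val_congr _ _ fun i _ => by push_cast; rfl
  rw [e, hB'] at h4
  have h5 := mul_le_mul_of_nonneg_left hK (Nat.cast_nonneg (α := ℝ) p)
  exact le_of_mul_le_mul_left (a := (q : ℝ) + 1) (by linarith) (by positivity)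

theorem chk_sound {B w d : ℕ} {t : List ℕ} (h0 : 0 < w) (hw : w < B) (tr : Tr) :
    ∀ f1 f2 : ℕ → ℕ, Bd (sz (d :: t)) (2 ^ w) f1 → Bd (sz (0 :: t)) (2 ^ w) f2 →
      chk B w d t tr (pk B (sz (d :: t)) f1) (pk B (sz (0 :: t)) f2) = true →
      Imp (d :: t) (0 :: t) (2 ^ (w - 1)) f1 f2 := by
  induction tr with
  | z =>
    intro f1 f2 h1 _ h x hx _
    exact ck_low hx (hb_spec (B := B) (b := w - 1) (by omega)
      (h1.mono (Nat.pow_le_pow_right two_pos hw.le)) h)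
  | l p =>
    intro f1 f2 h1 h2 h
    obtain ⟨a, b⟩ := (an_eq _ _).1 h
    have a' : p < 1 <<< (B - w) := Nat.blt_eq.mp a
    rw [Nat.one_shiftLeft] at a'
    refine ck_leaf h0 hw h1 h2 a' ?_
    rw [← Nat.one_shiftLeft]
    exact b
  | s j ta tb iha ihb =>
    intro f1 f2 h1 h2 h
    obtain ⟨a, h⟩ := (an_eq _ _).1 h
    obtain ⟨b, h⟩ := (an_eq _ _).1 h
    have a' : j ≤ t.length := Nat.ble_eq.mp a
    have b' : w + (d :: t).getD j 0 ≤ B := Nat.ble_eq.mp b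
    have b'' : w + (0 :: t).getD j 0 ≤ B := by
      refine le_trans ?_ b'
      rcases j with _ | j <;> simp
    obtain ⟨l, r, hl, hr, e, sl, sr⟩ := spl_spec (B := B) (j := j) (ds := d :: t) (by omega)
      (Nat.lt_succ_of_le a') b' h1
    obtain ⟨l', r', hl', hr', e', sl', sr'⟩ := spl_spec (B := B) (j := j) (ds := 0 :: t)
      (by omega) (Nat.lt_succ_of_le a') b'' h2
    rw [e, e', an_eq] at h
    intro x hx hK
    have := hx j
    rcases le_total (x j) (1 / 2) with c | c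
    · exact (iha l l' hl hl' h.1 _ (ck_cube hx j (by linarith) (by linarith))
        ((sl' x hx c).trans hK)).trans (sl x hx c)
    · exact (ihb r r' hr hr' h.2 _ (ck_cube hx j (by linarith) (by linarith))
        ((sr' x hx c).trans hK)).trans (sr x hx c)

end Pool.Agent.MP_90395b_gt.Bn

end

section

namespace Pool.Agent.MP_90395b_gt.Bn

open Finset

theorem po_wf_c {z : ℤ} {ok : ℕ → ℕ → Bool} {k a n : ℕ} (h : wf (.c z) ok k a n = true) :
    k = 0 ∧ ok 0 n = true := by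
  change an (Nat.beq k 0) (ok 0 n) = true at h
  rw [an_eq, Nat.beq_eq] at h
  exact h

theorem po_wf_n {p r : Po} {ok : ℕ → ℕ → Bool} {k a n : ℕ} (h : wf (.n p r) ok k a n = true) :
    ∃ k', k = k' + 1 ∧ ok 0 a = true ∧ wf p (fun j => ok (j + 1)) k' 0 (n + a) = true ∧
      wf r ok k (a + 1) n = true := by
  change an (Nat.ble 1 k) (an (ok 0 a)
    (an (wf p (fun j => ok (j + 1)) (Nat.pred k) 0 (n + a)) (wf r ok k (a + 1) n))) = true at h
  rw [an_eq, an_eq, an_eq, Nat.ble_eq] at h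
  obtain ⟨h1, h2, h3, h4⟩ := h
  obtain ⟨k', rfl⟩ : ∃ k', k = k' + 1 := ⟨k - 1, by omega⟩
  exact ⟨k', rfl, h2, h3, h4⟩

theorem po_div {s i : ℕ} (m : ℕ) (hi : i < s) : (m * s + i) / s = m ∧ (m * s + i) % s = i := by
  have hs : 0 < s := by omega
  constructor
  · rw [add_comm, Nat.add_mul_div_right _ _ hs, Nat.div_eq_of_lt hi, zero_add]
  · rw [add_comm, Nat.add_mul_mod_self_right, Nat.mod_eq_of_lt hi]

theorem evZ_eq (p : Po) (b : ℕ → ℕ → ℤ) (a n : ℕ) : evZ p b a n = ev p b a n := by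
  induction p generalizing b a n with
  | c z => rfl
  | o => rfl
  | n p r ip ir =>
    change b 0 a * evZ p (fun j => b (j + 1)) 0 (n + a) + evZ r b (a + 1) n = _
    rw [ip, ir, ev]

theorem ev_val {R : Type} [CommRing R] (p : Po) (ok : ℕ → ℕ → Bool) (ds : List ℕ)
    (g : ℕ → ℕ → ℕ → ℤ) (W : ℕ → ℕ → R) (k a n : ℕ) (hk : ds.length = k + 1)
    (h : wf p ok k a n = true) :
    ev p (fun j a => ∑ m ∈ range (ds.getD j 0 + 1), (g j a m : R) * W j m) a n =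
      val ds W (fun i => (ten p ds g a n i : R)) := by
  induction p generalizing ok ds g W k a n with
  | c z =>
    obtain ⟨rfl, -⟩ := po_wf_c h
    obtain ⟨d, rfl⟩ := List.length_eq_one_iff.1 hk
    simp only [ev, val, ten, sz, List.getD_cons_zero, mul_sum, mul_one, add_zero, Int.cast_mul]
    exact sum_congr rfl fun m _ => by ring
  | o =>
    have := val_smul ds W 0 (fun _ => 0)
    simp only [zero_mul] at this
    simp only [ev, ten, Int.cast_zero, this]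
  | n p r ip ir =>
    obtain ⟨k', rfl, -, h1, h2⟩ := po_wf_n h
    obtain ⟨d, t, rfl⟩ : ∃ d t, ds = d :: t := by
      cases ds with
      | nil => simp at hk
      | cons d t => exact ⟨d, t, rfl⟩
    have e1 := ip (fun j => ok (j + 1)) t (fun j => g (j + 1)) (fun j => W (j + 1)) k' 0 (n + a)
      (by simpa using hk) h1
    have e2 := ir ok (d :: t) g W (k' + 1) (a + 1) n hk h2
    simp only [ev, ten, List.tail_cons, Int.cast_add, Int.cast_mul, List.getD_cons_succ,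
      List.getD_cons_zero]
    rw [val_add, ← e2, e1, val, sum_mul]
    congr 1
    refine sum_congr rfl fun m _ => ?_
    rw [mul_comm (g 0 a m : R), mul_assoc, ← val_smul t _ (g 0 a m : R)]
    congr 1
    exact val_congr t _ fun i hi => by rw [(po_div m hi).1, (po_div m hi).2]

theorem ten_bound (p : Po) (ok : ℕ → ℕ → Bool) (ds : List ℕ) (g : ℕ → ℕ → ℕ → ℤ) (k a n : ℕ)
    (hk : ds.length = k + 1) (h : wf p ok k a n = true) : ∀ i < sz ds, (ten p ds g a n i).natAbs ≤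
      evA p (fun j a => ∑ m ∈ range (ds.getD j 0 + 1), (g j a m).natAbs) a n := by
  induction p generalizing ok ds g k a n with
  | c z =>
    obtain ⟨rfl, -⟩ := po_wf_c h
    obtain ⟨d, rfl⟩ := List.length_eq_one_iff.1 hk
    intro i hi
    change (z * g 0 n i).natAbs ≤ z.natAbs * ∑ m ∈ range (d + 1), (g 0 n m).natAbs
    rw [Int.natAbs_mul]
    refine Nat.mul_le_mul_left _ (single_le_sum (f := fun m => (g 0 n m).natAbs)
      (fun _ _ => Nat.zero_le _) (mem_range.2 ?_))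
    simpa [sz] using hi
  | o => intro i _; exact Nat.le_refl 0
  | n p r ip ir =>
    obtain ⟨k', rfl, -, h1, h2⟩ := po_wf_n h
    obtain ⟨d, t, rfl⟩ : ∃ d t, ds = d :: t := by
      cases ds with
      | nil => simp at hk
      | cons d t => exact ⟨d, t, rfl⟩
    intro i hi
    have hs := sz_pos t
    have e1 := ip (fun j => ok (j + 1)) t (fun j => g (j + 1)) k' 0 (n + a)
      (by simpa using hk) h1 (i % sz t) (Nat.mod_lt _ hs)
    have e2 := ir ok (d :: t) g (k' + 1) (a + 1) n hk h2 i hi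
    change (g 0 a (i / sz t) * ten p t (fun j => g (j + 1)) 0 (n + a) (i % sz t) +
        ten r (d :: t) g (a + 1) n i).natAbs ≤
      (∑ m ∈ range (d + 1), (g 0 a m).natAbs) *
        evA p (fun j a => ∑ m ∈ range (t.getD j 0 + 1), (g (j + 1) a m).natAbs) 0 (n + a) +
      evA r (fun j a => ∑ m ∈ range ((d :: t).getD j 0 + 1), (g j a m).natAbs) (a + 1) n
    refine (Int.natAbs_add_le _ _).trans (Nat.add_le_add ?_ e2)
    rw [Int.natAbs_mul]
    refine Nat.mul_le_mul (single_le_sum (f := fun m => (g 0 a m).natAbs)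
      (fun _ _ => Nat.zero_le _) (mem_range.2 ?_)) e1
    rw [Nat.div_lt_iff_lt_mul hs]
    exact hi

theorem ev_scale (p : Po) (ok : ℕ → ℕ → Bool) (b b' : ℕ → ℕ → ℝ) (l : ℕ → ℝ) (k a n : ℕ)
    (hb : ∀ j ≤ k, ∀ a, ok j a = true → b j a = l j * b' j a) (h : wf p ok k a n = true) :
    ev p b a n = (∏ j ∈ range (k + 1), l j) * ev p b' a n := by
  induction p generalizing ok b b' l k a n with
  | c z =>
    obtain ⟨rfl, h1⟩ := po_wf_c h
    rw [ev, ev, hb 0 le_rfl n h1, zero_add, prod_range_one]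
    ring
  | o => rw [ev, ev, mul_zero]
  | n p r ip ir =>
    obtain ⟨k', rfl, h0, h1, h2⟩ := po_wf_n h
    have e1 := ip (fun j => ok (j + 1)) (fun j => b (j + 1)) (fun j => b' (j + 1))
      (fun j => l (j + 1)) k' 0 (n + a) (fun j hj => hb (j + 1) (by omega)) h1
    have e2 := ir ok b b' l (k' + 1) (a + 1) n hb h2
    rw [ev, ev, e1, e2, hb 0 (Nat.zero_le _) a h0, prod_range_succ' l (k' + 1)]
    ring

theorem ev_H (p : Po) (ok : ℕ → ℕ → Bool) (y z : ℕ → ℝ) (os : ℕ → ℕ) (s : ℝ) (k a n : ℕ)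
    (hs : y k = s) (hz : ∀ j < k, z j = s * y j) (h0 : ∀ j < k, os j = 0)
    (ho : ∀ a, ok k a = true → os k ≤ a) (ha : k = 0 → a = 0) (h : wf p ok k a n = true) :
    s ^ os k * ev p (fun j a => y j ^ (a - os j)) a n = s ^ n * z 0 ^ a * H p z := by
  induction p generalizing ok y z os k a n with
  | c c =>
    obtain ⟨rfl, h1⟩ := po_wf_c h
    obtain ⟨m, rfl⟩ := Nat.exists_eq_add_of_le (ho n h1)
    rw [ev, H, ha rfl, hs, Nat.add_sub_cancel_left]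
    ring
  | o => rw [ev, H, mul_zero, mul_zero]
  | n p r ip ir =>
    obtain ⟨k', rfl, -, h1, h2⟩ := po_wf_n h
    have e1 := ip (fun j => ok (j + 1)) (fun j => y (j + 1)) (fun j => z (j + 1))
      (fun j => os (j + 1)) k' 0 (n + a) hs (fun j hj => hz (j + 1) (by omega))
      (fun j hj => h0 (j + 1) (by omega)) ho (fun _ => rfl) h1
    have e2 := ir ok y z os (k' + 1) (a + 1) n hs hz h0 ho (fun e => by omega) h2
    rw [ev, H, mul_add, e2, mul_left_comm, e1, h0 0 (by omega), hz 0 (by omega), Nat.sub_zero]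
    ring

end Pool.Agent.MP_90395b_gt.Bn

end

section

namespace Pool.Agent.MP_90395b_gt.Bn

open Finset

theorem gm_addc (z : ℤ) (q : Po) (y : ℕ → ℝ) : H (addc z q) y = z + H q y := by
  induction q generalizing y with
  | c w =>
    change H (if z + w = 0 then Po.o else Po.c (z + w)) y = _
    split_ifs with h
    · have h' : (z : ℝ) + w = 0 := by exact_mod_cast h
      simp only [H]
      linarith
    · simp only [H]
      push_cast
      ring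
  | o =>
    change H (Po.c z) y = _
    simp only [H]
    ring
  | n p r ip _ =>
    change H (Po.n (addc z p) r) y = _
    simp only [H]
    rw [ip]
    ring

theorem gm_add (p q : Po) (y : ℕ → ℝ) : H (add p q) y = H p y + H q y := by
  induction p generalizing q y with
  | c z =>
    change H (addc z q) y = _
    rw [gm_addc]
    simp only [H]
  | o =>
    change H q y = _
    simp only [H]
    ring
  | n a r ia ir =>
    cases q with
    | c w =>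
      change H (Po.n (addc w a) r) y = _
      simp only [H]
      rw [gm_addc]
      ring
    | o =>
      change H (Po.n a r) y = _
      simp only [H]
      ring
    | n b s =>
      change H (Po.n (add a b) (add r s)) y = _
      simp only [H]
      rw [ia, ir]
      ring

theorem gm_sh (p : Po) (y : ℕ → ℝ) : H (sh p) y = H p (Function.update y 0 (y 0 + 1)) := by
  induction p generalizing y with
  | c z =>
    change H (Po.c z) y = _
    simp only [H]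
  | o =>
    change H Po.o y = _
    simp only [H]
  | n a r _ ir =>
    change H (add (Po.n a (sh r)) (sh r)) y = _
    rw [gm_add]
    simp only [H]
    rw [ir]
    have h1 : (fun j => Function.update y 0 (y 0 + 1) (j + 1)) = fun j => y (j + 1) := by
      funext j
      rw [Function.update_of_ne (by omega)]
    rw [h1, Function.update_self]
    ring

theorem gm_mapc (f : Po → Po) (j : ℕ)
    (hf : ∀ (p : Po) (y : ℕ → ℝ), H (f p) y = H p (Function.update y j (y j + 1)))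
    (p : Po) (y : ℕ → ℝ) :
    H (mapc f p) y = H p (Function.update y (j + 1) (y (j + 1) + 1)) := by
  induction p generalizing y with
  | c z =>
    change H (Po.c z) y = _
    simp only [H]
  | o =>
    change H Po.o y = _
    simp only [H]
  | n a r _ ir =>
    change H (Po.n (f a) (mapc f r)) y = _
    simp only [H]
    rw [ir, hf]
    have h1 : (fun i => Function.update y (j + 1) (y (j + 1) + 1) (i + 1)) =
        Function.update (fun i => y (i + 1)) j (y (j + 1) + 1) := by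
      funext i
      by_cases h : i = j
      · subst h
        simp
      · rw [Function.update_of_ne (by omega), Function.update_of_ne h]
    rw [h1, Function.update_of_ne (by omega : (0 : ℕ) ≠ j + 1)]

theorem H_shAt (j : ℕ) (p : Po) (y : ℕ → ℝ) :
    H (shAt j p) y = H p (Function.update y j (y j + 1)) := by
  induction j generalizing p y with
  | zero => exact gm_sh p y
  | succ j ih => exact gm_mapc (shAt j) j ih p y

theorem gm_ch (n k : ℕ) : ch n k = n.choose k := by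
  unfold ch
  rw [Nat.choose_eq_descFactorial_div_factorial]

theorem gm_conv (a b : ℕ) (f g : ℕ → ℝ) (hf : ∀ i, a < i → f i = 0) (hg : ∀ j, b < j → g j = 0) :
    ∑ m ∈ range (a + b + 1), ∑ i ∈ range (m + 1), f i * g (m - i) =
      (∑ i ∈ range (a + 1), f i) * ∑ j ∈ range (b + 1), g j := by
  rw [Finset.sum_range_diag_flip (a + b + 1) (fun i k => f i * g k)]
  have h1 : ∑ i ∈ range (a + 1), f i = ∑ i ∈ range (a + b + 1), f i := by
    apply Finset.sum_subset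
    · intro i hi
      simp only [mem_range] at hi ⊢
      omega
    · intro i _ hi
      simp only [mem_range] at hi
      exact hf i (by omega)
  rw [h1, Finset.sum_mul]
  refine Finset.sum_congr rfl fun i hi => ?_
  rw [← Finset.mul_sum]
  by_cases hia : a < i
  · rw [hf i hia]
    ring
  · congr 1
    symm
    apply Finset.sum_subset
    · intro k hk
      simp only [mem_range] at hk ⊢
      omega
    · intro k _ hk
      simp only [mem_range] at hk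
      exact hg k (by omega)

theorem gm_id (a b : ℕ) (hi lo x z : ℝ) :
    ∑ m ∈ range (a + b + 1), (∑ i ∈ range (m + 1),
      ((a.choose i : ℝ) * (b.choose (m - i) : ℝ)) * hi ^ i * lo ^ (a - i)) *
        (x ^ m * z ^ (a + b - m)) = (hi * x + lo * z) ^ a * (x + z) ^ b := by
  have h := gm_conv a b (fun i => (hi * x) ^ i * (lo * z) ^ (a - i) * (a.choose i : ℝ))
    (fun j => x ^ j * z ^ (b - j) * (b.choose j : ℝ))
    (fun i h => by simp [Nat.choose_eq_zero_of_lt h])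
    (fun i h => by simp [Nat.choose_eq_zero_of_lt h])
  rw [add_pow, add_pow, ← h]
  refine Finset.sum_congr rfl fun m hm => ?_
  rw [Finset.sum_mul]
  refine Finset.sum_congr rfl fun i hi => ?_
  simp only [mem_range] at hm hi
  by_cases h1 : a < i
  · simp [Nat.choose_eq_zero_of_lt h1]
  by_cases h2 : b < m - i
  · simp [Nat.choose_eq_zero_of_lt h2]
  have e1 : x ^ m = x ^ i * x ^ (m - i) := by
    rw [← pow_add]
    congr 1
    omega
  have e2 : z ^ (a + b - m) = z ^ (a - i) * z ^ (b - (m - i)) := by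
    rw [← pow_add]
    congr 1
    omega
  rw [e1, e2, mul_pow, mul_pow]
  ring

theorem gam_spec (s : Sp) (hg : s.gd = true) (a : ℕ) (ha : s.ok a = true) (x y : ℝ)
    (hy : (s.om : ℝ) * y = s.lo * (1 - x) + s.hi * x) :
    ∑ m ∈ range (s.d + 1), (gam s a m : ℝ) * bb s.d x m =
      (s.d.factorial * (s.om : ℝ) ^ s.D) * y ^ (a - s.o) := by
  simp only [Sp.ok, Bool.and_eq_true, Nat.ble_eq] at ha
  simp only [Sp.gd, Bool.and_eq_true, Bool.or_eq_true, Nat.beq_eq, decide_eq_true_eq] at hg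
  obtain ⟨h1, h2⟩ := ha
  obtain ⟨b, hb⟩ : ∃ b, s.D = (a - s.o) + b := ⟨s.D - (a - s.o), by omega⟩
  have hb' : s.D - (a - s.o) = b := by omega
  simp only [gam_eq, hb', gm_ch]
  generalize a - s.o = a' at hb
  rcases hg.2 with hd | ⟨hd, hl⟩
  · have key := gm_id a' b s.hi s.lo x (1 - x)
    have e1 : (s.hi : ℝ) * x + s.lo * (1 - x) = s.om * y := by linarith
    have e2 : x + (1 - x) = 1 := by ring
    rw [e1, e2, one_pow, mul_one] at key
    rw [hd, hb]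
    have e3 : ((a' + b).factorial * (s.om : ℝ) ^ (a' + b)) * y ^ a' =
        ((a' + b).factorial * (s.om : ℝ) ^ b) * ((s.om : ℝ) * y) ^ a' := by
      rw [mul_pow, pow_add]
      ring
    rw [e3, ← key, Finset.mul_sum]
    refine Finset.sum_congr rfl fun m hm => ?_
    simp only [mem_range] at hm
    have e4 : ((a' + b).factorial : ℝ) =
        ((a' + b).choose m : ℝ) * (m.factorial : ℝ) * ((a' + b - m).factorial : ℝ) := by
      exact_mod_cast (Nat.choose_mul_factorial_mul_factorial (by omega : m ≤ a' + b)).symm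
    rw [e4]
    unfold bb
    push_cast
    ring
  · rw [hd, hb]
    have hl' : (s.lo : ℝ) = s.hi := by exact_mod_cast hl
    have e1 : (s.lo : ℝ) = s.om * y := by
      rw [hy, ← hl']
      ring
    simp only [zero_add, range_one, sum_singleton, bb]
    push_cast
    rw [e1, mul_pow, pow_add]
    simp
    ring

end Pool.Agent.MP_90395b_gt.Bn

end

section

namespace Pool.Agent.MP_90395b_gt.Bn

open Finset

theorem rt_group (C m n : ℕ) (f : ℕ → ℕ) :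
    pk C (m * n) f = pk (C * n) m (fun a => pk C n (fun j => f (a * n + j))) := by
  unfold pk
  rw [sum_range_mul']
  refine sum_congr rfl fun a _ => ?_
  rw [sum_mul]
  refine sum_congr rfl fun j _ => ?_
  rw [mul_assoc, ← pow_add]
  congr 2
  ring

theorem rt_mv (B d n F : ℕ) :
    mv B d n F = ∑ a ∈ range (d + 1), dig ((d + 1) * B * n) F a * 2 ^ (B * a) := by
  unfold mv
  refine sum_congr rfl fun a _ => ?_
  change ((F >>> ((d + 1) * B * n * a)) &&& (1 <<< ((d + 1) * B * n) - 1)) <<< (B * a) = _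
  rw [Nat.one_shiftLeft, Nat.and_two_pow_sub_one_eq_mod, Nat.shiftRight_eq_div_pow,
    Nat.shiftLeft_eq]
  rfl

theorem mv_pk {B d n : ℕ} (hB : 0 < B) {f : ℕ → ℕ} (hf : Bd ((d + 1) * n) (2 ^ B) f) :
    mv B d n (pk ((d + 1) * B) ((d + 1) * n) f) =
      pk B ((d + 1) * n) (fun i => f (i % (d + 1) * n + i / (d + 1))) := by
  have _ := hB
  have hle : 2 ^ B ≤ 2 ^ ((d + 1) * B) :=
    Nat.pow_le_pow_right (by norm_num) (Nat.le_mul_of_pos_left _ (by omega))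
  have hb : Bd (d + 1) (2 ^ ((d + 1) * B * n))
      (fun a => pk ((d + 1) * B) n (fun j => f (a * n + j))) := by
    intro a ha
    refine (dig_pk _ _ _ fun j hj => lt_of_lt_of_le (hf _ ?_) hle).2
    have := Nat.mul_le_mul_right n (Nat.succ_le_of_lt ha)
    rw [Nat.succ_mul] at this
    omega
  rw [rt_mv, rt_group, mul_comm (d + 1) n]
  conv_rhs => unfold pk
  rw [sum_range_mul', sum_comm]
  refine sum_congr rfl fun a ha => ?_
  have ha' := mem_range.1 ha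
  rw [(dig_pk _ _ _ hb).1, if_pos ha', pk, sum_mul]
  refine sum_congr rfl fun j _ => ?_
  beta_reduce
  rw [add_comm (j * (d + 1)) a, Nat.add_mul_mod_self_right, Nat.mod_eq_of_lt ha',
    Nat.add_mul_div_right _ _ (by omega : 0 < d + 1), Nat.div_eq_of_lt ha', zero_add, mul_assoc,
    ← pow_add]
  congr 2
  ring

theorem rt_flo (B w N e T : ℕ) : flo B w N e T = (T >>> e) &&& ((2 ^ w - 1) * geo B N) := by
  change (T >>> e) &&& ((1 <<< w - 1) * geo B N) = _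
  rw [Nat.one_shiftLeft]

theorem rt_trunc {C e w r : ℕ} (h : e + w ≤ C) : (2 ^ C + r) / 2 ^ e % 2 ^ w * 2 ^ e ≤ r := by
  obtain ⟨c, rfl⟩ : ∃ c, C = e + (w + c) := ⟨C - e - w, by omega⟩
  rw [pow_add, pow_add, add_comm, Nat.add_mul_div_left _ _ (by positivity),
    Nat.add_mul_mod_self_left]
  exact (Nat.mul_le_mul_right _ (Nat.mod_le _ _)).trans (Nat.div_mul_le_self _ _)

theorem rt_rz {C w e k : ℕ} {ds : List ℕ} {G : ℕ → Sp} {p : Po} {ok : ℕ → ℕ → Bool} (hC : 0 < C)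
    (hG : ∀ j, (G j).d = ds.getD j 0) (hk : ds.length = k + 1) (h : wf p ok k 0 0 = true)
    {g : ℕ → ℕ} (hg : ∀ i < sz ds, (g i : ℤ) =
      ten p ds (fun j => gam (G j)) 0 0 i + (2 ^ (C - 1) + 2 ^ (w - 1 + e) : ℕ)) :
    rz C w e ds G p = pk C (sz ds) g := by
  have e1 : evZ p (fun j a => tb (G j) (C * sz (ds.drop (j + 1))) a) 0 0 =
      ∑ i ∈ range (sz ds), ten p ds (fun j => gam (G j)) 0 0 i * 2 ^ (C * i) := by
    rw [evZ_eq, ← val_pack]
    have := ev_val (R := ℤ) p ok ds (fun j => gam (G j))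
      (fun j a => (2 : ℤ) ^ (C * sz (ds.drop (j + 1)) * a)) k 0 0 hk h
    simp only [Int.cast_id] at this
    rw [← this]
    congr 1
    funext j a
    unfold tb
    rw [hG]
    refine sum_congr rfl fun m _ => ?_
    congr 1
    change (((1 <<< (C * sz (ds.drop (j + 1)) * m) : ℕ)) : ℤ) = _
    rw [Nat.one_shiftLeft]
    push_cast
    rfl
  change Int.toNat (evZ p (fun j a => tb (G j) (C * sz (ds.drop (j + 1))) a) 0 0 +
    (((1 <<< (C - 1) + 1 <<< (w - 1 + e)) * geo C (sz ds) : ℕ) : ℤ)) = _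
  rw [e1, Nat.one_shiftLeft, Nat.one_shiftLeft, const_pk hC, ← Int.toNat_natCast (pk C (sz ds) g)]
  congr 1
  unfold pk
  rw [Nat.cast_sum, Nat.cast_sum, ← sum_add_distrib]
  refine sum_congr rfl fun i hi => ?_
  rw [Nat.cast_mul, Nat.cast_mul, hg i (mem_range.1 hi), add_mul]
  push_cast
  rfl

theorem root_spec {B w e d : ℕ} {t : List ℕ} {G : ℕ → Sp} {p : Po} (h0 : 0 < w) (hw : w < B)
    (hG : ∀ j, (G j).d = (d :: t).getD j 0) (h : rootOk B w e d t G p = true) :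
    ∃ f : ℕ → ℕ, Bd (sz (t ++ [d])) (2 ^ w) f ∧ root B w e d t G p = pk B (sz (t ++ [d])) f ∧
      ∃ L : ℝ, 0 < L ∧ ∀ x y : ℕ → ℝ, Cube x →
        (∀ j ≤ t.length, ((G j).om : ℝ) * y j = (G j).lo * (1 - x j) + (G j).hi * x j) →
        bv (t ++ [d]) (fun j => if j = t.length then x 0 else x (j + 1)) f - 2 ^ (w - 1) ≤
          L * ev p (fun j a => y j ^ (a - (G j).o)) 0 0 := by
  have _ := h0
  unfold rootOk at h
  simp only [an_eq, List.all_eq_true, List.mem_range, Nat.blt_eq] at h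
  obtain ⟨hgd, hwf, hew, hA, hhb⟩ := h
  set C := (d + 1) * B with hC
  set c : ℕ → ℤ := ten p (d :: t) (fun j => gam (G j)) 0 0 with hc
  have hA' : evA p (fun j a => tA (G j) a) 0 0 + 2 ^ (w - 1 + e) < 2 ^ (C - 1) := by
    rw [← Nat.one_shiftLeft, ← Nat.one_shiftLeft]
    exact hA
  have hcb : ∀ i < sz (d :: t), (c i).natAbs + 2 ^ (w - 1 + e) < 2 ^ (C - 1) := by
    intro i hi
    have := ten_bound p _ (d :: t) (fun j => gam (G j)) t.length 0 0 rfl hwf i hi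
    simp only [← hG] at this
    exact lt_of_le_of_lt (Nat.add_le_add_right this _) hA'
  have hC0 : 0 < C := by omega
  have h2C : 2 ^ C = 2 * 2 ^ (C - 1) := by
    rw [← pow_succ']
    congr 1
    omega
  set g : ℕ → ℕ := fun i => (c i + (2 ^ (C - 1) + 2 ^ (w - 1 + e) : ℕ)).toNat with hgdef
  have hg : ∀ i < sz (d :: t), (g i : ℤ) = c i + (2 ^ (C - 1) + 2 ^ (w - 1 + e) : ℕ) := by
    intro i hi
    have := hcb i hi
    refine Int.toNat_of_nonneg ?_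
    generalize 2 ^ (w - 1 + e) = X at this ⊢
    generalize 2 ^ (C - 1) = Y at this ⊢
    omega
  have hgb : Bd (sz (d :: t)) (2 ^ C) g := by
    intro i hi
    have h1 := hcb i hi
    have h2 := hg i hi
    omega
  have hrz : rz C w e (d :: t) G p = pk C (sz (d :: t)) g := rt_rz hC0 hG rfl hwf hg
  rw [hrz] at hhb
  have hhi := hb_spec (by omega) hgb hhb
  set f0 : ℕ → ℕ := fun i => g i / 2 ^ e % 2 ^ w with hf0
  have hf0b : ∀ i, f0 i < 2 ^ w := fun i => Nat.mod_lt _ (by positivity)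
  have hf0le : ∀ i < sz (d :: t), (f0 i : ℝ) ≤ (2 ^ e)⁻¹ * (c i : ℝ) + 2 ^ (w - 1) := by
    intro i hi
    obtain ⟨r, hr⟩ := Nat.exists_eq_add_of_le (hhi i hi)
    have h1 : f0 i * 2 ^ e ≤ r := by
      change g i / 2 ^ e % 2 ^ w * 2 ^ e ≤ r
      rw [hr]
      exact rt_trunc (by omega)
    have h2 : (r : ℤ) = c i + (2 ^ (w - 1 + e) : ℕ) := by
      have := hg i hi
      omega
    have h3 : (f0 i : ℝ) * 2 ^ e ≤ c i + 2 ^ (w - 1) * 2 ^ e := by
      have h4 : ((f0 i * 2 ^ e : ℕ) : ℤ) ≤ c i + (2 ^ (w - 1 + e) : ℕ) := by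
        rw [← h2]
        exact_mod_cast h1
      rw [← pow_add]
      exact_mod_cast h4
    have hp : (0 : ℝ) < 2 ^ e := by positivity
    rw [← le_div_iff₀ hp] at h3
    refine h3.trans_eq ?_
    field_simp
  have hsz : sz (t ++ [d]) = (d + 1) * sz t := by
    rw [sz_append, mul_comm]
    simp [sz]
  have hom : ∀ j ≤ t.length, 0 < (G j).om := by
    intro j hj
    have := hgd j (by omega)
    unfold Sp.gd at this
    rw [Bool.and_eq_true, decide_eq_true_eq] at this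
    exact this.1
  refine ⟨fun i => f0 (i % (d + 1) * sz t + i / (d + 1)), fun i _ => hf0b _, ?_,
    (2 ^ e)⁻¹ * ∏ j ∈ range (t.length + 1), (((G j).d.factorial : ℝ) * ((G j).om : ℝ) ^ (G j).D),
    ?_, fun x y hx hy => ?_⟩
  · unfold root
    rw [← hC, hrz, rt_flo, flo_pk hC0 hgb hew.le, hsz]
    exact mv_pk (by omega) fun i _ =>
      lt_of_lt_of_le (hf0b i) (Nat.pow_le_pow_right (by norm_num) hw.le)
  · refine mul_pos (by positivity) (prod_pos fun j hj => ?_)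
    have : (0 : ℝ) < (G j).om := by exact_mod_cast hom j (Nat.lt_succ_iff.1 (mem_range.1 hj))
    positivity
  · rw [bv_move, sub_le_iff_le_add]
    unfold bv
    refine (val_mono (W := bw (d :: t) x) _ (fun j a => bb_nonneg _ (hx j).1 (hx j).2 a)
      hf0le).trans_eq ?_
    rw [val_add, val_smul, val_const, mul_assoc]
    congr 2
    rw [← ev_val p _ (d :: t) (fun j => gam (G j)) (bw (d :: t) x) t.length 0 0 rfl hwf]
    refine ev_scale p _ _ _ _ t.length 0 0 (fun j hj a ha => ?_) hwf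
    have := gam_spec (G j) (hgd j (by omega)) a ha (x j) (y j) (hy j hj)
    rw [← this]
    unfold bw
    rw [← hG]

end Pool.Agent.MP_90395b_gt.Bn

end

section

namespace Pool.Agent.MP_90395b_gt.Bn

open Finset

theorem sd_par {l u v : ℝ} (h1 : l ≤ v) (h2 : v ≤ u) :
    ∃ x : ℝ, (0 ≤ x ∧ x ≤ 1) ∧ v = l * (1 - x) + u * x := by
  rcases eq_or_lt_of_le (h1.trans h2) with h | h
  · exact ⟨0, ⟨le_rfl, zero_le_one⟩, by linarith⟩
  · have h3 : 0 < u - l := sub_pos.2 h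
    refine ⟨(v - l) / (u - l), ⟨div_nonneg (sub_nonneg.2 h1) h3.le, ?_⟩, ?_⟩
    · rw [div_le_one h3]
      linarith
    · field_simp
      ring

theorem sd_ev {B w e d0 d1 o : ℕ} {t D : List ℕ} {bx : List (ℤ × ℤ × ℤ)} {p : Po}
    (h : rootOk B w e d0 (d1 :: t) (sp (d0 :: d1 :: t) D o bx) p = true) (y z : ℕ → ℝ)
    (hz : ∀ j ≤ t.length, z j = y (t.length + 1) * y j) :
    y (t.length + 1) ^ (sp (d0 :: d1 :: t) D o bx (t.length + 1)).o *
      ev p (fun j a => y j ^ (a - (sp (d0 :: d1 :: t) D o bx j).o)) 0 0 = H p z := by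
  have h1 : wf p (fun j a => (sp (d0 :: d1 :: t) D o bx j).ok a) (t.length + 1) 0 0 = true :=
    ((an_eq _ _).1 ((an_eq _ _).1 h).2).1
  have h2 := ev_H p (fun j a => (sp (d0 :: d1 :: t) D o bx j).ok a) y z
    (fun j => (sp (d0 :: d1 :: t) D o bx j).o) (y (t.length + 1)) (t.length + 1) 0 0 rfl
    (fun j hj => hz j (by omega))
    (fun j hj => by
      show (if j + 1 = (d0 :: d1 :: t).length then o else 0) = 0
      rw [if_neg (by simp only [List.length_cons]; omega)])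
    (fun a ha => by
      simp only [Sp.ok, Bool.and_eq_true, Nat.ble_eq] at ha
      exact ha.1)
    (fun _ => rfl) h1
  simpa using h2

theorem sound {B w e1 e2 d0 d1 : ℕ} {t D1 D2 : List ℕ} {o1 o2 : ℕ} {bx : List (ℤ × ℤ × ℤ)}
    {p1 p2 : Po} {tr : Tr} (h : check B w e1 e2 d0 d1 t D1 D2 o1 o2 bx p1 p2 tr = true)
    (y z : ℕ → ℝ) (hy : ∀ j < t.length + 2,
      ((bx.getD j (0, 0, 1)).1 : ℝ) ≤ (bx.getD j (0, 0, 1)).2.2 * y j ∧
        (bx.getD j (0, 0, 1)).2.2 * y j ≤ ((bx.getD j (0, 0, 1)).2.1 : ℝ))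
    (hs : 0 < y (t.length + 1)) (hz : ∀ j ≤ t.length, z j = y (t.length + 1) * y j)
    (h2 : H p2 z ≤ 0) : 0 ≤ H p1 z := by
  obtain ⟨h0, h⟩ := (an_eq _ _).1 h
  obtain ⟨hw, h⟩ := (an_eq _ _).1 h
  obtain ⟨r1, h⟩ := (an_eq _ _).1 h
  obtain ⟨r2, h⟩ := (an_eq _ _).1 h
  rw [Nat.blt_eq] at h0 hw
  obtain ⟨f1, b1, q1, L1, hL1, s1⟩ := root_spec h0 hw (fun _ => rfl) r1
  obtain ⟨f2, b2, q2, L2, hL2, s2⟩ := root_spec h0 hw (fun _ => rfl) r2
  rw [q1, q2] at h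
  have hI := chk_sound (d := d1) (t := t ++ [d0]) h0 hw tr f1 f2 b1 b2 h
  have hx : ∀ j, ∃ x : ℝ, (0 ≤ x ∧ x ≤ 1) ∧ (j < t.length + 2 →
      ((bx.getD j (0, 0, 1)).2.2 : ℝ) * y j =
        (bx.getD j (0, 0, 1)).1 * (1 - x) + (bx.getD j (0, 0, 1)).2.1 * x) := by
    intro j
    by_cases hj : j < t.length + 2
    · obtain ⟨x, hx1, hx2⟩ := sd_par (hy j hj).1 (hy j hj).2
      exact ⟨x, hx1, fun _ => hx2⟩
    · exact ⟨0, ⟨le_rfl, zero_le_one⟩, fun q => absurd q hj⟩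
  choose x hx1 hx2 using hx
  have u1 := s1 x y hx1 fun j hj => hx2 j (Nat.lt_succ_of_le hj)
  have u2 := s2 x y hx1 fun j hj => hx2 j (Nat.lt_succ_of_le hj)
  have v1 := sd_ev r1 y z hz
  have v2 := sd_ev r2 y z hz
  have hc : Cube fun j => if j = t.length + 1 then x 0 else x (j + 1) := fun j => by
    show 0 ≤ (if j = t.length + 1 then x 0 else x (j + 1)) ∧
      (if j = t.length + 1 then x 0 else x (j + 1)) ≤ 1
    split_ifs
    · exact hx1 _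
    · exact hx1 _
  have w2 : ev p2 (fun j a => y j ^ (a - (sp (d0 :: 0 :: t) D2 o2 bx j).o)) 0 0 ≤ 0 := by
    rw [← v2] at h2
    exact le_of_mul_le_mul_left (by rwa [mul_zero]) (pow_pos hs _)
  have w3 := hI _ hc (sub_nonpos.1 (u2.trans (mul_nonpos_of_nonneg_of_nonpos hL2.le w2)))
  have w4 : 0 ≤ L1 * ev p1 (fun j a => y j ^ (a - (sp (d0 :: d1 :: t) D1 o1 bx j).o)) 0 0 :=
    (sub_nonneg.2 w3).trans u1
  rw [← v1]
  exact mul_nonneg (pow_pos hs _).le (nonneg_of_mul_nonneg_right w4 hL1)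

/-- value at five given coordinates -/
noncomputable def P5 (p : Po) (a b c d e : ℝ) : ℝ := H p (fun j => [a, b, c, d, e].getD j 0)

theorem sound5 {B w e1 e2 d0 d1 d2 d3 d4 d5 : ℕ} {D1 D2 : List ℕ} {o1 o2 : ℕ}
    {l0 h0 m0 l1 h1 m1 l2 h2 m2 l3 h3 m3 l4 h4 m4 l5 h5 m5 : ℤ} {p1 p2 : Po} {tr : Tr}
    (h : check B w e1 e2 d0 d1 [d2, d3, d4, d5] D1 D2 o1 o2
      [(l0, h0, m0), (l1, h1, m1), (l2, h2, m2), (l3, h3, m3), (l4, h4, m4), (l5, h5, m5)]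
      p1 p2 tr = true) (s y0 y1 y2 y3 y4 : ℝ)
    (a0 : (l0 : ℝ) ≤ m0 * y0) (b0 : m0 * y0 ≤ (h0 : ℝ)) (a1 : (l1 : ℝ) ≤ m1 * y1)
    (b1 : m1 * y1 ≤ (h1 : ℝ)) (a2 : (l2 : ℝ) ≤ m2 * y2) (b2 : m2 * y2 ≤ (h2 : ℝ))
    (a3 : (l3 : ℝ) ≤ m3 * y3) (b3 : m3 * y3 ≤ (h3 : ℝ)) (a4 : (l4 : ℝ) ≤ m4 * y4)
    (b4 : m4 * y4 ≤ (h4 : ℝ)) (a5 : (l5 : ℝ) ≤ m5 * s) (b5 : m5 * s ≤ (h5 : ℝ)) (hs : 0 < s)
    (hc : P5 p2 (s * y0) (s * y1) (s * y2) (s * y3) (s * y4) ≤ 0) :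
    0 ≤ P5 p1 (s * y0) (s * y1) (s * y2) (s * y3) (s * y4) := by
  refine sound h (fun j => [y0, y1, y2, y3, y4, s].getD j 0) _ (fun j hj => ?_) hs
    (fun j hj => ?_) hc
  · have hj' : j < 6 := hj
    interval_cases j
    exacts [⟨a0, b0⟩, ⟨a1, b1⟩, ⟨a2, b2⟩, ⟨a3, b3⟩, ⟨a4, b4⟩, ⟨a5, b5⟩]
  · have hj' : j ≤ 4 := hj
    interval_cases j <;> rfl

end Pool.Agent.MP_90395b_gt.Bn

end

section

namespace Pool.Agent.MP_90395b_gt.Bn

set_option maxRecDepth 4000 in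
def pVA : Po :=
  (.n (.n (.n (.n (.n (.c 1000) .o) .o) .o) (.n .o (.n (.n (.n (.n (.c 4000) .o) .o) .o) (.n .o (.n
  (.n (.n (.n (.c 6000) .o) .o) .o) (.n .o (.n (.n (.n (.n (.c 4000) .o) .o) .o) (.n .o (.n (.n (.n
  (.n (.c 1000) .o) .o) .o) .o))))))))) (.n (.n .o (.n .o (.n (.n .o (.n (.n (.n (.c (-5572)) (.n
  .o (.n (.c 4876) (.n .o (.n (.c 444) (.n .o (.n (.c (-2112)) .o))))))) (.n .o (.n (.n (.c 4876)
  (.n .o (.n (.c 888) (.n .o (.n (.c (-6336)) .o))))) (.n .o (.n (.n (.c 444) (.n .o (.n (.c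
  (-6336)) .o))) (.n .o (.n (.n (.c (-2112)) .o) .o))))))) (.n (.n (.n .o (.n (.c (-2211)) (.n .o
  (.n (.c 9898) (.n .o (.n (.c (-14916)) .o)))))) (.n .o (.n (.n .o (.n (.c 8244) (.n .o (.n (.c
  (-29334)) .o)))) (.n .o (.n (.n .o (.n (.c (-14418)) .o)) .o))))) (.n (.n (.n (.c (-7087)) (.n .o
  (.n (.c 27030) (.n .o (.n (.c (-42900)) .o))))) (.n .o (.n (.n (.c 7356) (.n .o (.n (.c (-49986))
  .o))) (.n .o (.n (.n (.c (-8082)) .o) .o))))) (.n (.n (.n .o (.n (.c 26142) (.n .o (.n (.c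
  (-64680)) .o)))) (.n .o (.n (.n .o (.n (.c (-37314)) .o)) .o))) (.n (.n (.n (.c 8566) (.n .o (.n
  (.c (-54120)) .o))) (.n .o (.n (.n (.c (-10326)) .o) .o))) (.n (.n (.n .o (.n (.c (-23892)) .o))
  .o) (.n (.n (.n (.c (-4356)) .o) .o) .o)))))))) (.n (.n .o (.n .o (.n (.n .o (.n (.n (.c 1474)
  (.n .o (.n (.c (-8804)) (.n .o (.n (.c 10608) .o))))) (.n .o (.n (.n (.c (-5496)) (.n .o (.n (.c
  20220) .o))) (.n .o (.n (.n (.c 9612) .o) .o)))))) (.n (.n .o (.n (.n .o (.n (.c (-26232)) (.n .o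
  (.n (.c 47752) .o)))) (.n .o (.n (.n .o (.n (.c 45096) .o)) .o)))) (.n (.n .o (.n (.n (.c
  (-17428)) (.n .o (.n (.c 79608) .o))) (.n .o (.n (.n (.c 24876) .o) .o)))) (.n (.n .o (.n (.n .o
  (.n (.c 58392) .o)) .o)) (.n (.n .o (.n (.n (.c 15928) .o) .o)) .o))))))) (.n (.n .o (.n (.n (.n
  (.c (-16716)) (.n .o (.n (.c 14628) (.n .o (.n (.c 1332) (.n .o (.n (.c (-6336)) .o))))))) (.n .o
  (.n (.n (.c 14628) (.n .o (.n (.c 2664) (.n .o (.n (.c (-19008)) .o))))) (.n .o (.n (.n (.c 1332)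
  (.n .o (.n (.c (-19008)) .o))) (.n .o (.n (.n (.c (-6336)) .o) .o))))))) (.n (.n (.n .o (.n (.c
  (-5159)) (.n .o (.n (.c 22544) (.n .o (.n (.c (-34638)) .o)))))) (.n .o (.n (.n .o (.n (.c 20890)
  (.n .o (.n (.c (-68778)) .o)))) (.n .o (.n (.n .o (.n (.c (-34140)) .o)) .o))))) (.n (.n (.n (.c
  (-8561)) (.n .o (.n (.c 39676) (.n .o (.n (.c (-72234)) .o))))) (.n .o (.n (.n (.c 20002) (.n .o
  (.n (.c (-110646)) .o))) (.n .o (.n (.n (.c (-37416)) .o) .o))))) (.n (.n (.n .o (.n (.c 31458)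
  (.n .o (.n (.c (-78678)) .o)))) (.n .o (.n (.n .o (.n (.c (-104002)) .o)) .o))) (.n (.n (.n (.c
  12994) (.n .o (.n (.c (-53970)) .o))) (.n .o (.n (.n (.c (-43126)) .o) .o))) (.n (.n (.n .o (.n
  (.c (-25668)) .o)) .o) (.n (.n (.n (.c (-6444)) .o) .o) .o)))))))) (.n (.n .o (.n .o (.n (.n .o
  (.n (.n (.c 2948) (.n .o (.n (.c (-17608)) (.n .o (.n (.c 21216) .o))))) (.n .o (.n (.n (.c
  (-10992)) (.n .o (.n (.c 40440) .o))) (.n .o (.n (.n (.c 19224) .o) .o)))))) (.n (.n .o (.n (.n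
  .o (.n (.c (-26232)) (.n .o (.n (.c 47752) .o)))) (.n .o (.n (.n .o (.n (.c 45096) .o)) .o))))
  (.n (.n .o (.n (.n (.c (-11224)) (.n .o (.n (.c 24416) .o))) (.n .o (.n (.n (.c 41408) .o) .o))))
  (.n (.n .o (.n (.n .o (.n (.c 5672) .o)) .o)) (.n (.n .o (.n (.n (.c 7792) .o) .o)) .o))))))) (.n
  (.n .o (.n (.n (.n (.c (-16716)) (.n .o (.n (.c 14628) (.n .o (.n (.c 1332) (.n .o (.n (.c
  (-6336)) .o))))))) (.n .o (.n (.n (.c 14628) (.n .o (.n (.c 2664) (.n .o (.n (.c (-19008))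
  .o))))) (.n .o (.n (.n (.c 1332) (.n .o (.n (.c (-19008)) .o))) (.n .o (.n (.n (.c (-6336)) .o)
  .o))))))) (.n (.n (.n .o (.n (.c (-3685)) (.n .o (.n (.c 15394) (.n .o (.n (.c (-24528)) .o))))))
  (.n .o (.n (.n .o (.n (.c 17048) (.n .o (.n (.c (-49554)) .o)))) (.n .o (.n (.n .o (.n (.c
  (-25026)) .o)) .o))))) (.n (.n (.n (.c 4139) (.n .o (.n (.c 11378) (.n .o (.n (.c (-39312))
  .o))))) (.n .o (.n (.n (.c 4820) (.n .o (.n (.c (-69342)) .o))) (.n .o (.n (.n (.c (-27706)) .o)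
  .o))))) (.n (.n (.n .o (.n (.c 8122) (.n .o (.n (.c (-45426)) .o)))) (.n .o (.n (.n .o (.n (.c
  (-9564)) .o)) .o))) (.n (.n (.n (.c 2066) (.n .o (.n (.c (-30642)) .o))) (.n .o (.n (.n (.c
  (-2864)) .o) .o))) (.n (.n (.n .o (.n (.c (-4424)) .o)) .o) (.n (.n (.n (.c 1912) .o) .o)
  .o)))))))) (.n (.n .o (.n .o (.n (.n .o (.n (.n (.c 1474) (.n .o (.n (.c (-8804)) (.n .o (.n (.c
  10608) .o))))) (.n .o (.n (.n (.c (-5496)) (.n .o (.n (.c 20220) .o))) (.n .o (.n (.n (.c 9612)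
  .o) .o)))))) (.n .o (.n (.n .o (.n (.n (.c 6204) (.n .o (.n (.c 8036) .o))) (.n .o (.n (.n (.c
  (-4544)) .o) .o)))) (.n .o (.n (.n .o (.n (.n (.c (-7536)) .o) .o)) .o))))))) (.n (.n .o (.n (.n
  (.n (.c (-5572)) (.n .o (.n (.c 4876) (.n .o (.n (.c 444) (.n .o (.n (.c (-2112)) .o))))))) (.n
  .o (.n (.n (.c 4876) (.n .o (.n (.c 888) (.n .o (.n (.c (-6336)) .o))))) (.n .o (.n (.n (.c 444)
  (.n .o (.n (.c (-6336)) .o))) (.n .o (.n (.n (.c (-2112)) .o) .o))))))) (.n (.n (.n .o (.n (.c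
  (-737)) (.n .o (.n (.c 2748) (.n .o (.n (.c (-4806)) .o)))))) (.n .o (.n (.n .o (.n (.c 4402) (.n
  .o (.n (.c (-10110)) .o)))) (.n .o (.n (.n .o (.n (.c (-5304)) .o)) .o))))) (.n (.n (.n (.c 5613)
  (.n .o (.n (.c (-1268)) (.n .o (.n (.c (-9978)) .o))))) (.n .o (.n (.n (.c (-7826)) (.n .o (.n
  (.c (-8682)) .o))) (.n .o (.n (.n (.c 1628) .o) .o))))) (.n (.n (.n .o (.n (.c 2806) (.n .o (.n
  (.c (-10352)) .o)))) (.n .o (.n (.n .o (.n (.c (-6104)) .o)) .o))) (.n (.n (.n (.c (-2362)) (.n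
  .o (.n (.c (-4432)) .o))) (.n .o (.n (.n (.c 3576) .o) .o))) (.n (.n (.n .o (.n (.c (-2048)) .o))
  .o) (.n (.n (.n (.c (-64)) .o) .o) .o)))))))) .o))))))))) (.n (.n .o (.n (.n (.n (.n (.c (-5572))
  (.n .o (.n (.c 4876) (.n .o (.n (.c 444) (.n .o (.n (.c (-2112)) .o))))))) (.n .o (.n (.n (.c
  4876) (.n .o (.n (.c 888) (.n .o (.n (.c (-6336)) .o))))) (.n .o (.n (.n (.c 444) (.n .o (.n (.c
  (-6336)) .o))) (.n .o (.n (.n (.c (-2112)) .o) .o))))))) (.n (.n (.n .o (.n (.c (-2211)) (.n .o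
  (.n (.c 9898) (.n .o (.n (.c (-14916)) .o)))))) (.n .o (.n (.n .o (.n (.c 8244) (.n .o (.n (.c
  (-29334)) .o)))) (.n .o (.n (.n .o (.n (.c (-14418)) .o)) .o))))) (.n (.n (.n (.c (-7087)) (.n .o
  (.n (.c 27030) (.n .o (.n (.c (-42900)) .o))))) (.n .o (.n (.n (.c 7356) (.n .o (.n (.c (-49986))
  .o))) (.n .o (.n (.n (.c (-8082)) .o) .o))))) (.n (.n (.n .o (.n (.c 26142) (.n .o (.n (.c
  (-64680)) .o)))) (.n .o (.n (.n .o (.n (.c (-37314)) .o)) .o))) (.n (.n (.n (.c 8566) (.n .o (.n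
  (.c (-54120)) .o))) (.n .o (.n (.n (.c (-10326)) .o) .o))) (.n (.n (.n .o (.n (.c (-23892)) .o))
  .o) (.n (.n (.n (.c (-4356)) .o) .o) .o))))))) (.n (.n .o (.n (.n .o (.n (.n (.c 2211) (.n .o (.n
  (.c (-13206)) (.n .o (.n (.c 15912) .o))))) (.n .o (.n (.n (.c (-8244)) (.n .o (.n (.c 30330)
  .o))) (.n .o (.n (.n (.c 14418) .o) .o)))))) (.n (.n .o (.n (.n .o (.n (.c (-39348)) (.n .o (.n
  (.c 71628) .o)))) (.n .o (.n (.n .o (.n (.c 67644) .o)) .o)))) (.n (.n .o (.n (.n (.c (-26142))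
  (.n .o (.n (.c 119412) .o))) (.n .o (.n (.n (.c 37314) .o) .o)))) (.n (.n .o (.n (.n .o (.n (.c
  87588) .o)) .o)) (.n (.n .o (.n (.n (.c 23892) .o) .o)) .o)))))) (.n (.n (.n (.n (.c (-16716))
  (.n .o (.n (.c 14628) (.n .o (.n (.c 1332) (.n .o (.n (.c (-6336)) .o))))))) (.n .o (.n (.n (.c
  14628) (.n .o (.n (.c 2664) (.n .o (.n (.c (-19008)) .o))))) (.n .o (.n (.n (.c 1332) (.n .o (.n
  (.c (-19008)) .o))) (.n .o (.n (.n (.c (-6336)) .o) .o))))))) (.n (.n (.n .o (.n (.c (-3685)) (.n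
  .o (.n (.c 15394) (.n .o (.n (.c (-24528)) .o)))))) (.n .o (.n (.n .o (.n (.c 17048) (.n .o (.n
  (.c (-49554)) .o)))) (.n .o (.n (.n .o (.n (.c (-25026)) .o)) .o))))) (.n (.n (.n (.c 4139) (.n
  .o (.n (.c (-1738)) (.n .o (.n (.c (-15768)) .o))))) (.n .o (.n (.n (.c 17936) (.n .o (.n (.c
  (-71334)) .o))) (.n .o (.n (.n (.c (-50586)) .o) .o))))) (.n (.n (.n .o (.n (.c (-15510)) (.n .o
  (.n (.c 36684) .o)))) (.n .o (.n (.n .o (.n (.c (-96062)) .o)) .o))) (.n (.n (.n (.c 290) (.n .o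
  (.n (.c 54420) .o))) (.n .o (.n (.n (.c (-55274)) .o) .o))) (.n (.n (.n .o (.n (.c 20340) .o))
  .o) (.n (.n (.n (.c 180) .o) .o) .o))))))) (.n (.n .o (.n (.n .o (.n (.n (.c 3685) (.n .o (.n (.c
  (-22010)) (.n .o (.n (.c 26520) .o))))) (.n .o (.n (.n (.c (-13740)) (.n .o (.n (.c 50550) .o)))
  (.n .o (.n (.n (.c 24030) .o) .o)))))) (.n .o (.n (.n .o (.n (.n (.c 15510) (.n .o (.n (.c
  (-137980)) .o))) (.n .o (.n (.n (.c 41330) .o) .o)))) (.n (.n .o (.n (.n .o (.n (.c (-131800))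
  .o)) .o)) (.n (.n .o (.n (.n (.c (-20340)) .o) .o)) .o)))))) (.n (.n (.n (.n (.c (-16716)) (.n .o
  (.n (.c 14628) (.n .o (.n (.c 1332) (.n .o (.n (.c (-6336)) .o))))))) (.n .o (.n (.n (.c 14628)
  (.n .o (.n (.c 2664) (.n .o (.n (.c (-19008)) .o))))) (.n .o (.n (.n (.c 1332) (.n .o (.n (.c
  (-19008)) .o))) (.n .o (.n (.n (.c (-6336)) .o) .o))))))) (.n (.n (.n .o (.n (.c (-737)) (.n .o
  (.n (.c 1094) (.n .o (.n (.c (-4308)) .o)))))) (.n .o (.n (.n .o (.n (.c 9364) (.n .o (.n (.c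
  (-11106)) .o)))) (.n .o (.n (.n .o (.n (.c (-6798)) .o)) .o))))) (.n (.n (.n (.c 29539) (.n .o
  (.n (.c (-45218)) (.n .o (.n (.c 26532) .o))))) (.n .o (.n (.n (.c (-25544)) (.n .o (.n (.c
  13266) .o))) (.n .o (.n (.n (.c (-8286)) .o) .o))))) (.n (.n (.n .o (.n (.c (-38550)) (.n .o (.n
  (.c 21078) .o)))) (.n .o (.n (.n .o (.n (.c 179312) .o)) .o))) (.n (.n (.n (.c (-19790)) (.n .o
  (.n (.c 16014) .o))) (.n .o (.n (.n (.c 77660) .o) .o))) (.n (.n (.n .o (.n (.c 38064) .o)) .o)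
  (.n (.n (.n (.c 18624) .o) .o) .o))))))) (.n (.n .o (.n (.n .o (.n (.n (.c 737) (.n .o (.n (.c
  (-4402)) (.n .o (.n (.c 5304) .o))))) (.n .o (.n (.n (.c (-2748)) (.n .o (.n (.c 10110) .o))) (.n
  .o (.n (.n (.c 4806) .o) .o)))))) (.n (.n .o (.n (.n .o (.n (.c 39348) (.n .o (.n (.c (-71628))
  .o)))) (.n .o (.n (.n .o (.n (.c (-67644)) .o)) .o)))) (.n (.n .o (.n (.n (.c 38550) (.n .o (.n
  (.c (-8498)) .o))) (.n .o (.n (.n (.c (-78016)) .o) .o)))) (.n (.n .o (.n (.n .o (.n (.c (-8508))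
  .o)) .o)) (.n (.n .o (.n (.n (.c (-38064)) .o) .o)) .o)))))) (.n (.n (.n (.n (.c (-5572)) (.n .o
  (.n (.c 4876) (.n .o (.n (.c 444) (.n .o (.n (.c (-2112)) .o))))))) (.n .o (.n (.n (.c 4876) (.n
  .o (.n (.c 888) (.n .o (.n (.c (-6336)) .o))))) (.n .o (.n (.n (.c 444) (.n .o (.n (.c (-6336))
  .o))) (.n .o (.n (.n (.c (-2112)) .o) .o))))))) (.n (.n (.n .o (.n (.c 737) (.n .o (.n (.c
  (-4402)) (.n .o (.n (.c 5304) .o)))))) (.n .o (.n (.n .o (.n (.c 560) (.n .o (.n (.c 9114) .o))))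
  (.n .o (.n (.n .o (.n (.c 3810) .o)) .o))))) (.n (.n (.n (.c 18313) (.n .o (.n (.c (-16450)) (.n
  .o (.n (.c (-600)) .o))))) (.n .o (.n (.n (.c (-36124)) (.n .o (.n (.c 34614) .o))) (.n .o (.n
  (.n (.c 34218) .o) .o))))) (.n (.n (.n .o (.n (.c 3102) (.n .o (.n (.c 4018) .o)))) (.n .o (.n
  (.n .o (.n (.c (-14852)) .o)) .o))) (.n (.n (.n (.c (-11514)) (.n .o (.n (.c 12914) .o))) (.n .o
  (.n (.n (.c 17168) .o) .o))) (.n (.n (.n .o (.n (.c (-3768)) .o)) .o) (.n (.n (.n (.c (-2168))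
  .o) .o) .o))))))) (.n (.n .o (.n (.n .o (.n (.n (.c (-737)) (.n .o (.n (.c 4402) (.n .o (.n (.c
  (-5304)) .o))))) (.n .o (.n (.n (.c 2748) (.n .o (.n (.c (-10110)) .o))) (.n .o (.n (.n (.c
  (-4806)) .o) .o)))))) (.n .o (.n (.n .o (.n (.n (.c (-3102)) (.n .o (.n (.c (-4018)) .o))) (.n .o
  (.n (.n (.c 2272) .o) .o)))) (.n .o (.n (.n .o (.n (.n (.c 3768) .o) .o)) .o)))))) .o)))))))))
  (.n (.n .o (.n (.n (.n .o (.n (.n (.c 737) (.n .o (.n (.c (-4402)) (.n .o (.n (.c 5304) .o)))))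
  (.n .o (.n (.n (.c (-2748)) (.n .o (.n (.c 10110) .o))) (.n .o (.n (.n (.c 4806) .o) .o)))))) (.n
  (.n .o (.n (.n .o (.n (.c (-13116)) (.n .o (.n (.c 23876) .o)))) (.n .o (.n (.n .o (.n (.c 22548)
  .o)) .o)))) (.n (.n .o (.n (.n (.c (-8714)) (.n .o (.n (.c 39804) .o))) (.n .o (.n (.n (.c 12438)
  .o) .o)))) (.n (.n .o (.n (.n .o (.n (.c 29196) .o)) .o)) (.n (.n .o (.n (.n (.c 7964) .o) .o))
  .o))))) (.n (.n (.n (.n .o (.n (.c 1474) (.n .o (.n (.c (-7150)) (.n .o (.n (.c 10110) .o))))))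
  (.n .o (.n (.n .o (.n (.c (-3842)) (.n .o (.n (.c 19224) .o)))) (.n .o (.n (.n .o (.n (.c 9114)
  .o)) .o))))) (.n (.n (.n (.c 18313) (.n .o (.n (.c (-49240)) (.n .o (.n (.c 58094) .o))))) (.n .o
  (.n (.n (.c (-3334)) (.n .o (.n (.c 30630) .o))) (.n .o (.n (.n (.c (-23148)) .o) .o))))) (.n (.n
  (.n .o (.n (.c (-50366)) (.n .o (.n (.c 113802) .o)))) (.n .o (.n (.n .o (.n (.c (-18944)) .o))
  .o))) (.n (.n (.n (.c (-8276)) (.n .o (.n (.c 93942) .o))) (.n .o (.n (.n (.c (-30350)) .o) .o)))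
  (.n (.n (.n .o (.n (.c 28304) .o)) .o) (.n (.n (.n (.c 180) .o) .o) .o)))))) (.n (.n (.n .o (.n
  (.n (.c 737) (.n .o (.n (.c (-4402)) (.n .o (.n (.c 5304) .o))))) (.n .o (.n (.n (.c (-2748)) (.n
  .o (.n (.c 10110) .o))) (.n .o (.n (.n (.c 4806) .o) .o)))))) (.n (.n .o (.n (.n .o (.n (.c
  39348) (.n .o (.n (.c (-71628)) .o)))) (.n .o (.n (.n .o (.n (.c (-67644)) .o)) .o)))) (.n (.n .o
  (.n (.n (.c 32938) (.n .o (.n (.c (-217588)) .o))) (.n .o (.n (.n (.c 16454) .o) .o)))) (.n (.n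
  .o (.n (.n .o (.n (.c (-160996)) .o)) .o)) (.n (.n .o (.n (.n (.c (-20340)) .o) .o)) .o))))) (.n
  (.n (.n (.n .o (.n (.c 2948) (.n .o (.n (.c (-14300)) (.n .o (.n (.c 20220) .o)))))) (.n .o (.n
  (.n .o (.n (.c (-7684)) (.n .o (.n (.c 38448) .o)))) (.n .o (.n (.n .o (.n (.c 18228) .o))
  .o))))) (.n (.n (.n (.c 42239) (.n .o (.n (.c (-66958)) (.n .o (.n (.c 47184) .o))))) (.n .o (.n
  (.n (.c (-47284)) (.n .o (.n (.c 58554) .o))) (.n .o (.n (.n (.c 12366) .o) .o))))) (.n (.n (.n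
  .o (.n (.c (-32938)) (.n .o (.n (.c (-16454)) .o)))) (.n .o (.n (.n .o (.n (.c 217588) .o)) .o)))
  (.n (.n (.n (.c (-15948)) (.n .o (.n (.c (-52142)) .o))) (.n .o (.n (.n (.c 79658) .o) .o))) (.n
  (.n (.n .o (.n (.c 7100) .o)) .o) (.n (.n (.n (.c 15824) .o) .o) .o)))))) (.n (.n (.n .o (.n (.n
  (.c (-737)) (.n .o (.n (.c 4402) (.n .o (.n (.c (-5304)) .o))))) (.n .o (.n (.n (.c 2748) (.n .o
  (.n (.c (-10110)) .o))) (.n .o (.n (.n (.c (-4806)) .o) .o)))))) (.n (.n .o (.n (.n .o (.n (.c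
  39348) (.n .o (.n (.c (-71628)) .o)))) (.n .o (.n (.n .o (.n (.c (-67644)) .o)) .o)))) (.n (.n .o
  (.n (.n (.c 21122) (.n .o (.n (.c 134338) .o))) (.n .o (.n (.n (.c (-74216)) .o) .o)))) (.n (.n
  .o (.n (.n .o (.n (.c 128964) .o)) .o)) (.n (.n .o (.n (.n (.c (-12944)) .o) .o)) .o))))) (.n (.n
  (.n (.n .o (.n (.c 1474) (.n .o (.n (.c (-7150)) (.n .o (.n (.c 10110) .o)))))) (.n .o (.n (.n .o
  (.n (.c (-3842)) (.n .o (.n (.c 19224) .o)))) (.n .o (.n (.n .o (.n (.c 9114) .o)) .o))))) (.n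
  (.n (.n (.c 29539) (.n .o (.n (.c (-25544)) (.n .o (.n (.c (-9282)) .o))))) (.n .o (.n (.n (.c
  (-45218)) (.n .o (.n (.c 19242) .o))) (.n .o (.n (.n (.c 25536) .o) .o))))) (.n (.n (.n .o (.n
  (.c 14326) (.n .o (.n (.c (-1528)) .o)))) (.n .o (.n (.n .o (.n (.c (-146854)) .o)) .o))) (.n (.n
  (.n (.c (-12988)) (.n .o (.n (.c 16662) .o))) (.n .o (.n (.n (.c (-43566)) .o) .o))) (.n (.n (.n
  .o (.n (.c (-15584)) .o)) .o) (.n (.n (.n (.c (-10864)) .o) .o) .o)))))) (.n (.n (.n .o (.n (.n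
  (.c (-737)) (.n .o (.n (.c 4402) (.n .o (.n (.c (-5304)) .o))))) (.n .o (.n (.n (.c 2748) (.n .o
  (.n (.c (-10110)) .o))) (.n .o (.n (.n (.c (-4806)) .o) .o)))))) (.n (.n .o (.n (.n .o (.n (.c
  (-13116)) (.n .o (.n (.c 23876) .o)))) (.n .o (.n (.n .o (.n (.c 22548) .o)) .o)))) (.n (.n .o
  (.n (.n (.c (-20530)) (.n .o (.n (.c 12362) .o))) (.n .o (.n (.n (.c 48224) .o) .o)))) (.n (.n .o
  (.n (.n .o (.n (.c 2836) .o)) .o)) (.n (.n .o (.n (.n (.c 11560) .o) .o)) .o))))) (.n (.n .o (.n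
  (.n (.n (.c 5613) (.n .o (.n (.c (-7826)) (.n .o (.n (.c 1628) .o))))) (.n .o (.n (.n (.c
  (-1268)) (.n .o (.n (.c (-8682)) .o))) (.n .o (.n (.n (.c (-9978)) .o) .o))))) (.n (.n (.n .o (.n
  (.c (-3102)) (.n .o (.n (.c 2272) .o)))) (.n .o (.n (.n .o (.n (.c (-4018)) .o)) .o))) (.n (.n
  (.n (.c (-5316)) (.n .o (.n (.c 4586) .o))) (.n .o (.n (.n (.c 4586) .o) .o))) (.n (.n (.n .o (.n
  (.c 1820) .o)) .o) (.n (.n (.n (.c 1940) .o) .o) .o)))))) .o))))))))) (.n (.n .o (.n (.n (.n (.n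
  (.c 5613) (.n .o (.n (.c (-7826)) (.n .o (.n (.c 1628) .o))))) (.n .o (.n (.n (.c (-1268)) (.n .o
  (.n (.c (-8682)) .o))) (.n .o (.n (.n (.c (-9978)) .o) .o))))) (.n (.n (.n .o (.n (.c (-3398))
  (.n .o (.n (.c (-1560)) .o)))) (.n .o (.n (.n .o (.n (.c (-26884)) .o)) .o))) (.n (.n (.n (.c
  4428) (.n .o (.n (.c (-14448)) .o))) (.n .o (.n (.n (.c (-18202)) .o) .o))) (.n (.n (.n .o (.n
  (.c (-17704)) .o)) .o) (.n (.n (.n (.c (-6444)) .o) .o) .o))))) (.n (.n (.n .o (.n (.n .o (.n (.c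
  13116) (.n .o (.n (.c (-23876)) .o)))) (.n .o (.n (.n .o (.n (.c (-22548)) .o)) .o)))) (.n (.n .o
  (.n (.n (.c 3398) (.n .o (.n (.c (-49088)) .o))) (.n .o (.n (.n (.c 26884) .o) .o)))) (.n (.n .o
  (.n (.n .o (.n (.c (-7508)) .o)) .o)) (.n (.n .o (.n (.n (.c 17704) .o) .o)) .o)))) (.n (.n (.n
  (.n (.c 16839) (.n .o (.n (.c (-10362)) (.n .o (.n (.c (-18660)) .o))))) (.n .o (.n (.n (.c
  (-16920)) (.n .o (.n (.c (-24054)) .o))) (.n .o (.n (.n (.c (-7054)) .o) .o))))) (.n (.n (.n .o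
  (.n (.c 14030) (.n .o (.n (.c (-79126)) .o)))) (.n .o (.n (.n .o (.n (.c 51578) .o)) .o))) (.n
  (.n (.n (.c (-3244)) (.n .o (.n (.c (-69190)) .o))) (.n .o (.n (.n (.c 464) .o) .o))) (.n (.n (.n
  .o (.n (.c 7100) .o)) .o) (.n (.n (.n (.c 15824) .o) .o) .o))))) (.n (.n .o (.n (.n .o (.n (.n
  (.c (-14030)) (.n .o (.n (.c 188590) .o))) (.n .o (.n (.n (.c (-930)) .o) .o)))) (.n (.n .o (.n
  (.n .o (.n (.c 131800) .o)) .o)) (.n (.n .o (.n (.n (.c (-7100)) .o) .o)) .o)))) (.n (.n (.n (.n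
  (.c 16839) (.n .o (.n (.c (-10362)) (.n .o (.n (.c (-18660)) .o))))) (.n .o (.n (.n (.c (-16920))
  (.n .o (.n (.c (-24054)) .o))) (.n .o (.n (.n (.c (-7054)) .o) .o))))) (.n (.n (.n .o (.n (.c
  14622) (.n .o (.n (.c 12842) .o)))) (.n .o (.n (.n .o (.n (.c (-155602)) .o)) .o))) (.n (.n (.n
  (.c (-23324)) (.n .o (.n (.c 63744) .o))) (.n .o (.n (.n (.c (-37942)) .o) .o))) (.n (.n (.n .o
  (.n (.c 26184) .o)) .o) (.n (.n (.n (.c (-4184)) .o) .o) .o))))) (.n (.n (.n .o (.n (.n .o (.n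
  (.c (-13116)) (.n .o (.n (.c 23876) .o)))) (.n .o (.n (.n .o (.n (.c 22548) .o)) .o)))) (.n (.n
  .o (.n (.n (.c (-14622)) (.n .o (.n (.c (-21338)) .o))) (.n .o (.n (.n (.c 46138) .o) .o)))) (.n
  (.n .o (.n (.n .o (.n (.c (-71572)) .o)) .o)) (.n (.n .o (.n (.n (.c (-26184)) .o) .o)) .o))))
  (.n (.n (.n (.n (.c 5613) (.n .o (.n (.c (-7826)) (.n .o (.n (.c 1628) .o))))) (.n .o (.n (.n (.c
  (-1268)) (.n .o (.n (.c (-8682)) .o))) (.n .o (.n (.n (.c (-9978)) .o) .o))))) (.n (.n (.n .o (.n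
  (.c (-2806)) (.n .o (.n (.c 6104) .o)))) (.n .o (.n (.n .o (.n (.c 18848) .o)) .o))) (.n (.n (.n
  (.c (-15652)) (.n .o (.n (.c 13046) .o))) (.n .o (.n (.n (.c 48832) .o) .o))) (.n (.n (.n .o (.n
  (.c (-1820)) .o)) .o) (.n (.n (.n (.c 6060) .o) .o) .o))))) (.n (.n .o (.n (.n .o (.n (.n (.c
  2806) (.n .o (.n (.c (-6104)) .o))) (.n .o (.n (.n (.c (-10352)) .o) .o)))) (.n .o (.n (.n .o (.n
  (.n (.c 1820) .o) .o)) .o)))) .o))))))))) (.n (.n .o (.n (.n (.n .o (.n (.n (.c (-2806)) (.n .o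
  (.n (.c 6104) .o))) (.n .o (.n (.n (.c 10352) .o) .o)))) (.n (.n .o (.n (.n .o (.n (.c 16016)
  .o)) .o)) (.n (.n .o (.n (.n (.c 9912) .o) .o)) .o))) (.n (.n (.n (.n .o (.n (.c 296) (.n .o (.n
  (.c 3832) .o)))) (.n .o (.n (.n .o (.n (.c 22866) .o)) .o))) (.n (.n (.n (.c (-11514)) (.n .o (.n
  (.c 33184) .o))) (.n .o (.n (.n (.c (-3102)) .o) .o))) (.n (.n (.n .o (.n (.c 47976) .o)) .o) (.n
  (.n (.n (.c 18624) .o) .o) .o)))) (.n (.n (.n .o (.n (.n (.c (-2806)) (.n .o (.n (.c 37718) .o)))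
  (.n .o (.n (.n (.c (-186)) .o) .o)))) (.n (.n .o (.n (.n .o (.n (.c (-21688)) .o)) .o)) (.n (.n
  .o (.n (.n (.c (-32220)) .o) .o)) .o))) (.n (.n (.n (.n .o (.n (.c 592) (.n .o (.n (.c 28740)
  .o)))) (.n .o (.n (.n .o (.n (.c (-17496)) .o)) .o))) (.n (.n (.n (.c (-27166)) (.n .o (.n (.c
  64582) .o))) (.n .o (.n (.n (.c 27378) .o) .o))) (.n (.n (.n .o (.n (.c 32028) .o)) .o) (.n (.n
  (.n (.c (-4184)) .o) .o) .o)))) (.n (.n (.n .o (.n (.n (.c 2806) (.n .o (.n (.c (-37718)) .o)))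
  (.n .o (.n (.n (.c 186) .o) .o)))) (.n (.n .o (.n (.n .o (.n (.c (-74408)) .o)) .o)) (.n (.n .o
  (.n (.n (.c (-26184)) .o) .o)) .o))) (.n (.n (.n (.n .o (.n (.c 296) (.n .o (.n (.c 3832) .o))))
  (.n .o (.n (.n .o (.n (.c 22866) .o)) .o))) (.n (.n (.n (.c (-18014)) (.n .o (.n (.c 8614) .o)))
  (.n .o (.n (.n (.c 52408) .o) .o))) (.n (.n (.n .o (.n (.c (-13980)) .o)) .o) (.n (.n (.n (.c
  7580) .o) .o) .o)))) (.n (.n (.n .o (.n (.n (.c 2806) (.n .o (.n (.c (-6104)) .o))) (.n .o (.n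
  (.n (.c (-10352)) .o) .o)))) (.n (.n .o (.n (.n .o (.n (.c 16016) .o)) .o)) (.n (.n .o (.n (.n
  (.c 17748) .o) .o)) .o))) (.n (.n .o (.n (.n (.n (.c (-2362)) (.n .o (.n (.c 3576) .o))) (.n .o
  (.n (.n (.c (-4432)) .o) .o))) (.n (.n (.n .o (.n (.c 3768) .o)) .o) (.n (.n (.n (.c 1940) .o)
  .o) .o)))) .o))))))))) (.n (.n .o (.n (.n (.n (.n (.c (-2362)) (.n .o (.n (.c 3576) .o))) (.n .o
  (.n (.n (.c (-4432)) .o) .o))) (.n (.n (.n .o (.n (.c 5488) .o)) .o) (.n (.n (.n (.c 1912) .o)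
  .o) .o))) (.n (.n (.n .o (.n (.n .o (.n (.c (-16016)) .o)) .o)) (.n (.n .o (.n (.n (.c (-5488))
  .o) .o)) .o)) (.n (.n (.n (.n (.c (-7678)) (.n .o (.n (.c 154) .o))) (.n .o (.n (.n (.c 8162) .o)
  .o))) (.n (.n (.n .o (.n (.c (-9740)) .o)) .o) (.n (.n (.n (.c (-10864)) .o) .o) .o))) (.n (.n .o
  (.n (.n .o (.n (.n (.c 9740) .o) .o)) .o)) (.n (.n (.n (.n (.c (-7678)) (.n .o (.n (.c 154) .o)))
  (.n .o (.n (.n (.c 8162) .o) .o))) (.n (.n (.n .o (.n (.c (-13980)) .o)) .o) (.n (.n (.n (.c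
  7580) .o) .o) .o))) (.n (.n (.n .o (.n (.n .o (.n (.c 16016) .o)) .o)) (.n (.n .o (.n (.n (.c
  13980) .o) .o)) .o)) (.n (.n (.n (.n (.c (-2362)) (.n .o (.n (.c 3576) .o))) (.n .o (.n (.n (.c
  (-4432)) .o) .o))) (.n (.n (.n .o (.n (.c 2048) .o)) .o) (.n (.n (.n (.c 4100) .o) .o) .o))) (.n
  (.n .o (.n (.n .o (.n (.n (.c (-2048)) .o) .o)) .o)) .o))))))))) (.n (.n .o (.n (.n (.n .o (.n
  (.n (.c 2048) .o) .o)) .o) (.n (.n (.n (.n .o (.n (.c (-1720)) .o)) .o) (.n (.n (.n (.c (-2168))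
  .o) .o) .o)) (.n (.n (.n .o (.n (.n (.c 1948) .o) .o)) .o) (.n (.n (.n (.n .o (.n (.c (-3640))
  .o)) .o) (.n (.n (.n (.c 6060) .o) .o) .o)) (.n (.n (.n .o (.n (.n (.c (-1948)) .o) .o)) .o) (.n
  (.n (.n (.n .o (.n (.c (-1720)) .o)) .o) (.n (.n (.n (.c 4100) .o) .o) .o)) (.n (.n (.n .o (.n
  (.n (.c (-2048)) .o) .o)) .o) (.n (.n .o (.n (.n (.n (.c (-64)) .o) .o) .o)) .o))))))))) (.n (.n
  .o (.n (.n (.n (.n (.c (-64)) .o) .o) .o) (.n .o (.n (.n (.n (.n (.c 1940) .o) .o) .o) (.n .o (.n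
  (.n (.n (.n (.c 1940) .o) .o) .o) (.n .o (.n (.n (.n (.n (.c (-64)) .o) .o) .o) .o))))))))
  .o)))))))))

set_option maxRecDepth 4000 in
def pVB : Po :=
  (.n (.n (.n (.n (.n (.c 1000) .o) .o) .o) (.n (.n .o (.n .o (.n (.n (.n (.c (-5572)) (.n .o (.n
  (.c 4876) (.n .o (.n (.c 444) (.n .o (.n (.c (-2112)) .o))))))) (.n .o (.n (.n (.c 4876) (.n .o
  (.n (.c 888) (.n .o (.n (.c (-6336)) .o))))) (.n .o (.n (.n (.c 444) (.n .o (.n (.c (-6336))
  .o))) (.n .o (.n (.n (.c (-2112)) .o) .o))))))) (.n (.n .o (.n (.n (.c 737) (.n .o (.n (.c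
  (-4402)) (.n .o (.n (.c 5304) .o))))) (.n .o (.n (.n (.c (-2748)) (.n .o (.n (.c 10110) .o))) (.n
  .o (.n (.n (.c 4806) .o) .o)))))) (.n (.n (.n (.c 5613) (.n .o (.n (.c (-7826)) (.n .o (.n (.c
  1628) .o))))) (.n .o (.n (.n (.c (-1268)) (.n .o (.n (.c (-8682)) .o))) (.n .o (.n (.n (.c
  (-9978)) .o) .o))))) (.n (.n .o (.n (.n (.c (-2806)) (.n .o (.n (.c 6104) .o))) (.n .o (.n (.n
  (.c 10352) .o) .o)))) (.n (.n (.n (.c (-2362)) (.n .o (.n (.c 3576) .o))) (.n .o (.n (.n (.c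
  (-4432)) .o) .o))) (.n (.n .o (.n (.n (.c 2048) .o) .o)) (.n (.n (.n (.c (-64)) .o) .o)
  .o))))))))) (.n (.n (.n (.n (.c 4000) .o) .o) (.n .o (.n .o (.n (.n (.n .o (.n (.c 1474) (.n .o
  (.n (.c (-7150)) (.n .o (.n (.c 10110) .o)))))) (.n .o (.n (.n .o (.n (.c (-3842)) (.n .o (.n (.c
  19224) .o)))) (.n .o (.n (.n .o (.n (.c 9114) .o)) .o))))) (.n (.n .o (.n (.n .o (.n (.c 13116)
  (.n .o (.n (.c (-23876)) .o)))) (.n .o (.n (.n .o (.n (.c (-22548)) .o)) .o)))) (.n (.n (.n .o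
  (.n (.c 296) (.n .o (.n (.c 3832) .o)))) (.n .o (.n (.n .o (.n (.c 22866) .o)) .o))) (.n (.n .o
  (.n (.n .o (.n (.c (-16016)) .o)) .o)) (.n (.n (.n .o (.n (.c (-1720)) .o)) .o) .o)))))))) (.n
  (.n .o (.n .o (.n (.n (.n (.c (-16716)) (.n .o (.n (.c 14628) (.n .o (.n (.c 1332) (.n .o (.n (.c
  (-6336)) .o))))))) (.n .o (.n (.n (.c 14628) (.n .o (.n (.c 2664) (.n .o (.n (.c (-19008))
  .o))))) (.n .o (.n (.n (.c 1332) (.n .o (.n (.c (-19008)) .o))) (.n .o (.n (.n (.c (-6336)) .o)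
  .o))))))) (.n (.n .o (.n (.n (.c 737) (.n .o (.n (.c (-4402)) (.n .o (.n (.c 5304) .o))))) (.n .o
  (.n (.n (.c (-2748)) (.n .o (.n (.c 10110) .o))) (.n .o (.n (.n (.c 4806) .o) .o)))))) (.n (.n
  (.n (.c 16839) (.n .o (.n (.c (-10362)) (.n .o (.n (.c (-18660)) .o))))) (.n .o (.n (.n (.c
  (-16920)) (.n .o (.n (.c (-24054)) .o))) (.n .o (.n (.n (.c (-7054)) .o) .o))))) (.n (.n .o (.n
  (.n (.c (-2806)) (.n .o (.n (.c 37718) .o))) (.n .o (.n (.n (.c (-186)) .o) .o)))) (.n (.n (.n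
  (.c (-7678)) (.n .o (.n (.c 154) .o))) (.n .o (.n (.n (.c 8162) .o) .o))) (.n (.n .o (.n (.n (.c
  1948) .o) .o)) (.n (.n (.n (.c 1940) .o) .o) .o))))))))) (.n (.n (.n (.n (.c 6000) .o) .o) (.n .o
  (.n .o (.n (.n (.n .o (.n (.c 2948) (.n .o (.n (.c (-14300)) (.n .o (.n (.c 20220) .o)))))) (.n
  .o (.n (.n .o (.n (.c (-7684)) (.n .o (.n (.c 38448) .o)))) (.n .o (.n (.n .o (.n (.c 18228) .o))
  .o))))) (.n .o (.n (.n (.n .o (.n (.c 592) (.n .o (.n (.c 28740) .o)))) (.n .o (.n (.n .o (.n (.c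
  (-17496)) .o)) .o))) (.n .o (.n (.n (.n .o (.n (.c (-3640)) .o)) .o) .o)))))))) (.n (.n .o (.n .o
  (.n (.n (.n (.c (-16716)) (.n .o (.n (.c 14628) (.n .o (.n (.c 1332) (.n .o (.n (.c (-6336))
  .o))))))) (.n .o (.n (.n (.c 14628) (.n .o (.n (.c 2664) (.n .o (.n (.c (-19008)) .o))))) (.n .o
  (.n (.n (.c 1332) (.n .o (.n (.c (-19008)) .o))) (.n .o (.n (.n (.c (-6336)) .o) .o))))))) (.n
  (.n .o (.n (.n (.c (-737)) (.n .o (.n (.c 4402) (.n .o (.n (.c (-5304)) .o))))) (.n .o (.n (.n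
  (.c 2748) (.n .o (.n (.c (-10110)) .o))) (.n .o (.n (.n (.c (-4806)) .o) .o)))))) (.n (.n (.n (.c
  16839) (.n .o (.n (.c (-10362)) (.n .o (.n (.c (-18660)) .o))))) (.n .o (.n (.n (.c (-16920)) (.n
  .o (.n (.c (-24054)) .o))) (.n .o (.n (.n (.c (-7054)) .o) .o))))) (.n (.n .o (.n (.n (.c 2806)
  (.n .o (.n (.c (-37718)) .o))) (.n .o (.n (.n (.c 186) .o) .o)))) (.n (.n (.n (.c (-7678)) (.n .o
  (.n (.c 154) .o))) (.n .o (.n (.n (.c 8162) .o) .o))) (.n (.n .o (.n (.n (.c (-1948)) .o) .o))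
  (.n (.n (.n (.c 1940) .o) .o) .o))))))))) (.n (.n (.n (.n (.c 4000) .o) .o) (.n .o (.n .o (.n (.n
  (.n .o (.n (.c 1474) (.n .o (.n (.c (-7150)) (.n .o (.n (.c 10110) .o)))))) (.n .o (.n (.n .o (.n
  (.c (-3842)) (.n .o (.n (.c 19224) .o)))) (.n .o (.n (.n .o (.n (.c 9114) .o)) .o))))) (.n (.n .o
  (.n (.n .o (.n (.c (-13116)) (.n .o (.n (.c 23876) .o)))) (.n .o (.n (.n .o (.n (.c 22548) .o))
  .o)))) (.n (.n (.n .o (.n (.c 296) (.n .o (.n (.c 3832) .o)))) (.n .o (.n (.n .o (.n (.c 22866)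
  .o)) .o))) (.n (.n .o (.n (.n .o (.n (.c 16016) .o)) .o)) (.n (.n (.n .o (.n (.c (-1720)) .o))
  .o) .o)))))))) (.n (.n .o (.n .o (.n (.n (.n (.c (-5572)) (.n .o (.n (.c 4876) (.n .o (.n (.c
  444) (.n .o (.n (.c (-2112)) .o))))))) (.n .o (.n (.n (.c 4876) (.n .o (.n (.c 888) (.n .o (.n
  (.c (-6336)) .o))))) (.n .o (.n (.n (.c 444) (.n .o (.n (.c (-6336)) .o))) (.n .o (.n (.n (.c
  (-2112)) .o) .o))))))) (.n (.n .o (.n (.n (.c (-737)) (.n .o (.n (.c 4402) (.n .o (.n (.c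
  (-5304)) .o))))) (.n .o (.n (.n (.c 2748) (.n .o (.n (.c (-10110)) .o))) (.n .o (.n (.n (.c
  (-4806)) .o) .o)))))) (.n (.n (.n (.c 5613) (.n .o (.n (.c (-7826)) (.n .o (.n (.c 1628) .o)))))
  (.n .o (.n (.n (.c (-1268)) (.n .o (.n (.c (-8682)) .o))) (.n .o (.n (.n (.c (-9978)) .o) .o)))))
  (.n (.n .o (.n (.n (.c 2806) (.n .o (.n (.c (-6104)) .o))) (.n .o (.n (.n (.c (-10352)) .o)
  .o)))) (.n (.n (.n (.c (-2362)) (.n .o (.n (.c 3576) .o))) (.n .o (.n (.n (.c (-4432)) .o) .o)))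
  (.n (.n .o (.n (.n (.c (-2048)) .o) .o)) (.n (.n (.n (.c (-64)) .o) .o) .o))))))))) (.n (.n (.n
  (.n (.c 1000) .o) .o) .o) .o))))))))) (.n (.n .o (.n (.n .o (.n .o (.n (.n (.n .o (.n (.c
  (-2211)) (.n .o (.n (.c 9898) (.n .o (.n (.c (-14916)) .o)))))) (.n .o (.n (.n .o (.n (.c 8244)
  (.n .o (.n (.c (-29334)) .o)))) (.n .o (.n (.n .o (.n (.c (-14418)) .o)) .o))))) (.n (.n .o (.n
  (.n .o (.n (.c (-13116)) (.n .o (.n (.c 23876) .o)))) (.n .o (.n (.n .o (.n (.c 22548) .o))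
  .o)))) (.n (.n (.n .o (.n (.c (-3398)) (.n .o (.n (.c (-1560)) .o)))) (.n .o (.n (.n .o (.n (.c
  (-26884)) .o)) .o))) (.n (.n .o (.n (.n .o (.n (.c 16016) .o)) .o)) (.n (.n (.n .o (.n (.c 5488)
  .o)) .o) .o))))))) (.n (.n .o (.n (.n (.n (.c (-5572)) (.n .o (.n (.c 4876) (.n .o (.n (.c 444)
  (.n .o (.n (.c (-2112)) .o))))))) (.n .o (.n (.n (.c 4876) (.n .o (.n (.c 888) (.n .o (.n (.c
  (-6336)) .o))))) (.n .o (.n (.n (.c 444) (.n .o (.n (.c (-6336)) .o))) (.n .o (.n (.n (.c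
  (-2112)) .o) .o))))))) (.n (.n .o (.n (.n (.c 2211) (.n .o (.n (.c (-13206)) (.n .o (.n (.c
  15912) .o))))) (.n .o (.n (.n (.c (-8244)) (.n .o (.n (.c 30330) .o))) (.n .o (.n (.n (.c 14418)
  .o) .o)))))) (.n (.n (.n (.c 18313) (.n .o (.n (.c (-49240)) (.n .o (.n (.c 58094) .o))))) (.n .o
  (.n (.n (.c (-3334)) (.n .o (.n (.c 30630) .o))) (.n .o (.n (.n (.c (-23148)) .o) .o))))) (.n (.n
  .o (.n (.n (.c 3398) (.n .o (.n (.c (-49088)) .o))) (.n .o (.n (.n (.c 26884) .o) .o)))) (.n (.n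
  (.n (.c (-11514)) (.n .o (.n (.c 33184) .o))) (.n .o (.n (.n (.c (-3102)) .o) .o))) (.n (.n .o
  (.n (.n (.c (-5488)) .o) .o)) (.n (.n (.n (.c (-2168)) .o) .o) .o)))))))) (.n (.n .o (.n .o (.n
  (.n (.n .o (.n (.c (-3685)) (.n .o (.n (.c 15394) (.n .o (.n (.c (-24528)) .o)))))) (.n .o (.n
  (.n .o (.n (.c 17048) (.n .o (.n (.c (-49554)) .o)))) (.n .o (.n (.n .o (.n (.c (-25026)) .o))
  .o))))) (.n (.n .o (.n (.n .o (.n (.c 39348) (.n .o (.n (.c (-71628)) .o)))) (.n .o (.n (.n .o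
  (.n (.c (-67644)) .o)) .o)))) (.n (.n (.n .o (.n (.c 14030) (.n .o (.n (.c (-79126)) .o)))) (.n
  .o (.n (.n .o (.n (.c 51578) .o)) .o))) (.n (.n .o (.n (.n .o (.n (.c (-21688)) .o)) .o)) (.n (.n
  (.n .o (.n (.c (-9740)) .o)) .o) .o))))))) (.n (.n .o (.n (.n (.n (.c (-16716)) (.n .o (.n (.c
  14628) (.n .o (.n (.c 1332) (.n .o (.n (.c (-6336)) .o))))))) (.n .o (.n (.n (.c 14628) (.n .o
  (.n (.c 2664) (.n .o (.n (.c (-19008)) .o))))) (.n .o (.n (.n (.c 1332) (.n .o (.n (.c (-19008))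
  .o))) (.n .o (.n (.n (.c (-6336)) .o) .o))))))) (.n (.n .o (.n (.n (.c 3685) (.n .o (.n (.c
  (-22010)) (.n .o (.n (.c 26520) .o))))) (.n .o (.n (.n (.c (-13740)) (.n .o (.n (.c 50550) .o)))
  (.n .o (.n (.n (.c 24030) .o) .o)))))) (.n (.n (.n (.c 42239) (.n .o (.n (.c (-66958)) (.n .o (.n
  (.c 47184) .o))))) (.n .o (.n (.n (.c (-47284)) (.n .o (.n (.c 58554) .o))) (.n .o (.n (.n (.c
  12366) .o) .o))))) (.n (.n .o (.n (.n (.c (-14030)) (.n .o (.n (.c 188590) .o))) (.n .o (.n (.n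
  (.c (-930)) .o) .o)))) (.n (.n (.n (.c (-27166)) (.n .o (.n (.c 64582) .o))) (.n .o (.n (.n (.c
  27378) .o) .o))) (.n (.n .o (.n (.n (.c 9740) .o) .o)) (.n (.n (.n (.c 6060) .o) .o) .o))))))))
  (.n (.n .o (.n .o (.n (.n (.n .o (.n (.c (-737)) (.n .o (.n (.c 1094) (.n .o (.n (.c (-4308))
  .o)))))) (.n .o (.n (.n .o (.n (.c 9364) (.n .o (.n (.c (-11106)) .o)))) (.n .o (.n (.n .o (.n
  (.c (-6798)) .o)) .o))))) (.n (.n .o (.n (.n .o (.n (.c 39348) (.n .o (.n (.c (-71628)) .o))))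
  (.n .o (.n (.n .o (.n (.c (-67644)) .o)) .o)))) (.n (.n (.n .o (.n (.c 14622) (.n .o (.n (.c
  12842) .o)))) (.n .o (.n (.n .o (.n (.c (-155602)) .o)) .o))) (.n (.n .o (.n (.n .o (.n (.c
  (-74408)) .o)) .o)) (.n (.n (.n .o (.n (.c (-13980)) .o)) .o) .o))))))) (.n (.n .o (.n (.n (.n
  (.c (-16716)) (.n .o (.n (.c 14628) (.n .o (.n (.c 1332) (.n .o (.n (.c (-6336)) .o))))))) (.n .o
  (.n (.n (.c 14628) (.n .o (.n (.c 2664) (.n .o (.n (.c (-19008)) .o))))) (.n .o (.n (.n (.c 1332)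
  (.n .o (.n (.c (-19008)) .o))) (.n .o (.n (.n (.c (-6336)) .o) .o))))))) (.n (.n .o (.n (.n (.c
  737) (.n .o (.n (.c (-4402)) (.n .o (.n (.c 5304) .o))))) (.n .o (.n (.n (.c (-2748)) (.n .o (.n
  (.c 10110) .o))) (.n .o (.n (.n (.c 4806) .o) .o)))))) (.n (.n (.n (.c 29539) (.n .o (.n (.c
  (-25544)) (.n .o (.n (.c (-9282)) .o))))) (.n .o (.n (.n (.c (-45218)) (.n .o (.n (.c 19242)
  .o))) (.n .o (.n (.n (.c 25536) .o) .o))))) (.n (.n .o (.n (.n (.c (-14622)) (.n .o (.n (.c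
  (-21338)) .o))) (.n .o (.n (.n (.c 46138) .o) .o)))) (.n (.n (.n (.c (-18014)) (.n .o (.n (.c
  8614) .o))) (.n .o (.n (.n (.c 52408) .o) .o))) (.n (.n .o (.n (.n (.c 13980) .o) .o)) (.n (.n
  (.n (.c 4100) .o) .o) .o)))))))) (.n (.n .o (.n .o (.n (.n (.n .o (.n (.c 737) (.n .o (.n (.c
  (-4402)) (.n .o (.n (.c 5304) .o)))))) (.n .o (.n (.n .o (.n (.c 560) (.n .o (.n (.c 9114) .o))))
  (.n .o (.n (.n .o (.n (.c 3810) .o)) .o))))) (.n (.n .o (.n (.n .o (.n (.c (-13116)) (.n .o (.n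
  (.c 23876) .o)))) (.n .o (.n (.n .o (.n (.c 22548) .o)) .o)))) (.n (.n (.n .o (.n (.c (-2806))
  (.n .o (.n (.c 6104) .o)))) (.n .o (.n (.n .o (.n (.c 18848) .o)) .o))) (.n (.n .o (.n (.n .o (.n
  (.c 16016) .o)) .o)) (.n (.n (.n .o (.n (.c 2048) .o)) .o) .o))))))) (.n (.n .o (.n (.n (.n (.c
  (-5572)) (.n .o (.n (.c 4876) (.n .o (.n (.c 444) (.n .o (.n (.c (-2112)) .o))))))) (.n .o (.n
  (.n (.c 4876) (.n .o (.n (.c 888) (.n .o (.n (.c (-6336)) .o))))) (.n .o (.n (.n (.c 444) (.n .o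
  (.n (.c (-6336)) .o))) (.n .o (.n (.n (.c (-2112)) .o) .o))))))) (.n (.n .o (.n (.n (.c (-737))
  (.n .o (.n (.c 4402) (.n .o (.n (.c (-5304)) .o))))) (.n .o (.n (.n (.c 2748) (.n .o (.n (.c
  (-10110)) .o))) (.n .o (.n (.n (.c (-4806)) .o) .o)))))) (.n (.n (.n (.c 5613) (.n .o (.n (.c
  (-7826)) (.n .o (.n (.c 1628) .o))))) (.n .o (.n (.n (.c (-1268)) (.n .o (.n (.c (-8682)) .o)))
  (.n .o (.n (.n (.c (-9978)) .o) .o))))) (.n (.n .o (.n (.n (.c 2806) (.n .o (.n (.c (-6104))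
  .o))) (.n .o (.n (.n (.c (-10352)) .o) .o)))) (.n (.n (.n (.c (-2362)) (.n .o (.n (.c 3576) .o)))
  (.n .o (.n (.n (.c (-4432)) .o) .o))) (.n (.n .o (.n (.n (.c (-2048)) .o) .o)) (.n (.n (.n (.c
  (-64)) .o) .o) .o)))))))) .o))))))))) (.n (.n .o (.n (.n .o (.n .o (.n (.n (.n (.c (-7087)) (.n
  .o (.n (.c 27030) (.n .o (.n (.c (-42900)) .o))))) (.n .o (.n (.n (.c 7356) (.n .o (.n (.c
  (-49986)) .o))) (.n .o (.n (.n (.c (-8082)) .o) .o))))) (.n (.n .o (.n (.n (.c (-8714)) (.n .o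
  (.n (.c 39804) .o))) (.n .o (.n (.n (.c 12438) .o) .o)))) (.n (.n (.n (.c 4428) (.n .o (.n (.c
  (-14448)) .o))) (.n .o (.n (.n (.c (-18202)) .o) .o))) (.n (.n .o (.n (.n (.c 9912) .o) .o)) (.n
  (.n (.n (.c 1912) .o) .o) .o))))))) (.n (.n .o (.n (.n (.n .o (.n (.c (-2211)) (.n .o (.n (.c
  9898) (.n .o (.n (.c (-14916)) .o)))))) (.n .o (.n (.n .o (.n (.c 8244) (.n .o (.n (.c (-29334))
  .o)))) (.n .o (.n (.n .o (.n (.c (-14418)) .o)) .o))))) (.n (.n .o (.n (.n .o (.n (.c (-39348))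
  (.n .o (.n (.c 71628) .o)))) (.n .o (.n (.n .o (.n (.c 67644) .o)) .o)))) (.n (.n (.n .o (.n (.c
  (-50366)) (.n .o (.n (.c 113802) .o)))) (.n .o (.n (.n .o (.n (.c (-18944)) .o)) .o))) (.n (.n .o
  (.n (.n .o (.n (.c (-7508)) .o)) .o)) (.n (.n (.n .o (.n (.c 47976) .o)) .o) .o)))))) (.n (.n .o
  (.n (.n .o (.n (.n (.c 1474) (.n .o (.n (.c (-8804)) (.n .o (.n (.c 10608) .o))))) (.n .o (.n (.n
  (.c (-5496)) (.n .o (.n (.c 20220) .o))) (.n .o (.n (.n (.c 9612) .o) .o)))))) (.n (.n (.n (.c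
  4139) (.n .o (.n (.c (-1738)) (.n .o (.n (.c (-15768)) .o))))) (.n .o (.n (.n (.c 17936) (.n .o
  (.n (.c (-71334)) .o))) (.n .o (.n (.n (.c (-50586)) .o) .o))))) (.n (.n .o (.n (.n (.c 32938)
  (.n .o (.n (.c (-217588)) .o))) (.n .o (.n (.n (.c 16454) .o) .o)))) (.n (.n (.n (.c (-3244)) (.n
  .o (.n (.c (-69190)) .o))) (.n .o (.n (.n (.c 464) .o) .o))) (.n (.n .o (.n (.n (.c (-32220)) .o)
  .o)) (.n (.n (.n (.c (-10864)) .o) .o) .o))))))) (.n (.n .o (.n (.n (.n .o (.n (.c (-5159)) (.n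
  .o (.n (.c 22544) (.n .o (.n (.c (-34638)) .o)))))) (.n .o (.n (.n .o (.n (.c 20890) (.n .o (.n
  (.c (-68778)) .o)))) (.n .o (.n (.n .o (.n (.c (-34140)) .o)) .o))))) (.n .o (.n (.n (.n .o (.n
  (.c (-32938)) (.n .o (.n (.c (-16454)) .o)))) (.n .o (.n (.n .o (.n (.c 217588) .o)) .o))) (.n
  (.n .o (.n (.n .o (.n (.c 131800) .o)) .o)) (.n (.n (.n .o (.n (.c 32028) .o)) .o) .o)))))) (.n
  (.n .o (.n (.n .o (.n (.n (.c 2948) (.n .o (.n (.c (-17608)) (.n .o (.n (.c 21216) .o))))) (.n .o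
  (.n (.n (.c (-10992)) (.n .o (.n (.c 40440) .o))) (.n .o (.n (.n (.c 19224) .o) .o)))))) (.n (.n
  (.n (.c 29539) (.n .o (.n (.c (-45218)) (.n .o (.n (.c 26532) .o))))) (.n .o (.n (.n (.c
  (-25544)) (.n .o (.n (.c 13266) .o))) (.n .o (.n (.n (.c (-8286)) .o) .o))))) (.n (.n .o (.n (.n
  (.c 21122) (.n .o (.n (.c 134338) .o))) (.n .o (.n (.n (.c (-74216)) .o) .o)))) (.n (.n (.n (.c
  (-23324)) (.n .o (.n (.c 63744) .o))) (.n .o (.n (.n (.c (-37942)) .o) .o))) (.n (.n .o (.n (.n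
  (.c (-26184)) .o) .o)) (.n (.n (.n (.c 7580) .o) .o) .o))))))) (.n (.n .o (.n (.n (.n .o (.n (.c
  (-3685)) (.n .o (.n (.c 15394) (.n .o (.n (.c (-24528)) .o)))))) (.n .o (.n (.n .o (.n (.c 17048)
  (.n .o (.n (.c (-49554)) .o)))) (.n .o (.n (.n .o (.n (.c (-25026)) .o)) .o))))) (.n (.n .o (.n
  (.n .o (.n (.c 39348) (.n .o (.n (.c (-71628)) .o)))) (.n .o (.n (.n .o (.n (.c (-67644)) .o))
  .o)))) (.n (.n (.n .o (.n (.c 14326) (.n .o (.n (.c (-1528)) .o)))) (.n .o (.n (.n .o (.n (.c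
  (-146854)) .o)) .o))) (.n (.n .o (.n (.n .o (.n (.c (-71572)) .o)) .o)) (.n (.n (.n .o (.n (.c
  (-13980)) .o)) .o) .o)))))) (.n (.n .o (.n (.n .o (.n (.n (.c 1474) (.n .o (.n (.c (-8804)) (.n
  .o (.n (.c 10608) .o))))) (.n .o (.n (.n (.c (-5496)) (.n .o (.n (.c 20220) .o))) (.n .o (.n (.n
  (.c 9612) .o) .o)))))) (.n (.n (.n (.c 18313) (.n .o (.n (.c (-16450)) (.n .o (.n (.c (-600))
  .o))))) (.n .o (.n (.n (.c (-36124)) (.n .o (.n (.c 34614) .o))) (.n .o (.n (.n (.c 34218) .o)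
  .o))))) (.n (.n .o (.n (.n (.c (-20530)) (.n .o (.n (.c 12362) .o))) (.n .o (.n (.n (.c 48224)
  .o) .o)))) (.n (.n (.n (.c (-15652)) (.n .o (.n (.c 13046) .o))) (.n .o (.n (.n (.c 48832) .o)
  .o))) (.n (.n .o (.n (.n (.c 17748) .o) .o)) (.n (.n (.n (.c 4100) .o) .o) .o))))))) (.n (.n .o
  (.n (.n (.n .o (.n (.c (-737)) (.n .o (.n (.c 2748) (.n .o (.n (.c (-4806)) .o)))))) (.n .o (.n
  (.n .o (.n (.c 4402) (.n .o (.n (.c (-10110)) .o)))) (.n .o (.n (.n .o (.n (.c (-5304)) .o))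
  .o))))) (.n .o (.n (.n (.n .o (.n (.c (-3102)) (.n .o (.n (.c 2272) .o)))) (.n .o (.n (.n .o (.n
  (.c (-4018)) .o)) .o))) (.n .o (.n (.n (.n .o (.n (.c 3768) .o)) .o) .o)))))) .o))))))))) (.n (.n
  .o (.n (.n .o (.n .o (.n (.n (.n .o (.n (.c 26142) (.n .o (.n (.c (-64680)) .o)))) (.n .o (.n (.n
  .o (.n (.c (-37314)) .o)) .o))) (.n (.n .o (.n (.n .o (.n (.c 29196) .o)) .o)) (.n (.n (.n .o (.n
  (.c (-17704)) .o)) .o) .o))))) (.n (.n .o (.n (.n (.n (.c (-7087)) (.n .o (.n (.c 27030) (.n .o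
  (.n (.c (-42900)) .o))))) (.n .o (.n (.n (.c 7356) (.n .o (.n (.c (-49986)) .o))) (.n .o (.n (.n
  (.c (-8082)) .o) .o))))) (.n (.n .o (.n (.n (.c (-26142)) (.n .o (.n (.c 119412) .o))) (.n .o (.n
  (.n (.c 37314) .o) .o)))) (.n (.n (.n (.c (-8276)) (.n .o (.n (.c 93942) .o))) (.n .o (.n (.n (.c
  (-30350)) .o) .o))) (.n (.n .o (.n (.n (.c 17704) .o) .o)) (.n (.n (.n (.c 18624) .o) .o)
  .o)))))) (.n (.n .o (.n (.n .o (.n (.n .o (.n (.c (-26232)) (.n .o (.n (.c 47752) .o)))) (.n .o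
  (.n (.n .o (.n (.c 45096) .o)) .o)))) (.n (.n (.n .o (.n (.c (-15510)) (.n .o (.n (.c 36684)
  .o)))) (.n .o (.n (.n .o (.n (.c (-96062)) .o)) .o))) (.n (.n .o (.n (.n .o (.n (.c (-160996))
  .o)) .o)) (.n (.n (.n .o (.n (.c 7100) .o)) .o) .o))))) (.n (.n .o (.n (.n (.n (.c (-8561)) (.n
  .o (.n (.c 39676) (.n .o (.n (.c (-72234)) .o))))) (.n .o (.n (.n (.c 20002) (.n .o (.n (.c
  (-110646)) .o))) (.n .o (.n (.n (.c (-37416)) .o) .o))))) (.n (.n .o (.n (.n (.c 15510) (.n .o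
  (.n (.c (-137980)) .o))) (.n .o (.n (.n (.c 41330) .o) .o)))) (.n (.n (.n (.c (-15948)) (.n .o
  (.n (.c (-52142)) .o))) (.n .o (.n (.n (.c 79658) .o) .o))) (.n (.n .o (.n (.n (.c (-7100)) .o)
  .o)) (.n (.n (.n (.c (-4184)) .o) .o) .o)))))) (.n (.n .o (.n (.n .o (.n (.n .o (.n (.c (-26232))
  (.n .o (.n (.c 47752) .o)))) (.n .o (.n (.n .o (.n (.c 45096) .o)) .o)))) (.n (.n (.n .o (.n (.c
  (-38550)) (.n .o (.n (.c 21078) .o)))) (.n .o (.n (.n .o (.n (.c 179312) .o)) .o))) (.n (.n .o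
  (.n (.n .o (.n (.c 128964) .o)) .o)) (.n (.n (.n .o (.n (.c 26184) .o)) .o) .o))))) (.n (.n .o
  (.n (.n (.n (.c 4139) (.n .o (.n (.c 11378) (.n .o (.n (.c (-39312)) .o))))) (.n .o (.n (.n (.c
  4820) (.n .o (.n (.c (-69342)) .o))) (.n .o (.n (.n (.c (-27706)) .o) .o))))) (.n (.n .o (.n (.n
  (.c 38550) (.n .o (.n (.c (-8498)) .o))) (.n .o (.n (.n (.c (-78016)) .o) .o)))) (.n (.n (.n (.c
  (-12988)) (.n .o (.n (.c 16662) .o))) (.n .o (.n (.n (.c (-43566)) .o) .o))) (.n (.n .o (.n (.n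
  (.c (-26184)) .o) .o)) (.n (.n (.n (.c 7580) .o) .o) .o)))))) (.n (.n .o (.n .o (.n (.n (.n .o
  (.n (.c 3102) (.n .o (.n (.c 4018) .o)))) (.n .o (.n (.n .o (.n (.c (-14852)) .o)) .o))) (.n (.n
  .o (.n (.n .o (.n (.c 2836) .o)) .o)) (.n (.n (.n .o (.n (.c (-1820)) .o)) .o) .o))))) (.n (.n .o
  (.n (.n (.n (.c 5613) (.n .o (.n (.c (-1268)) (.n .o (.n (.c (-9978)) .o))))) (.n .o (.n (.n (.c
  (-7826)) (.n .o (.n (.c (-8682)) .o))) (.n .o (.n (.n (.c 1628) .o) .o))))) (.n (.n .o (.n (.n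
  (.c (-3102)) (.n .o (.n (.c (-4018)) .o))) (.n .o (.n (.n (.c 2272) .o) .o)))) (.n (.n (.n (.c
  (-5316)) (.n .o (.n (.c 4586) .o))) (.n .o (.n (.n (.c 4586) .o) .o))) (.n (.n .o (.n (.n (.c
  1820) .o) .o)) (.n (.n (.n (.c 1940) .o) .o) .o)))))) .o))))))))) (.n (.n .o (.n (.n .o (.n .o
  (.n (.n (.n (.c 8566) (.n .o (.n (.c (-54120)) .o))) (.n .o (.n (.n (.c (-10326)) .o) .o))) (.n
  (.n .o (.n (.n (.c 7964) .o) .o)) (.n (.n (.n (.c (-6444)) .o) .o) .o))))) (.n (.n .o (.n (.n (.n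
  .o (.n (.c 26142) (.n .o (.n (.c (-64680)) .o)))) (.n .o (.n (.n .o (.n (.c (-37314)) .o)) .o)))
  (.n (.n .o (.n (.n .o (.n (.c 87588) .o)) .o)) (.n (.n (.n .o (.n (.c 28304) .o)) .o) .o)))) (.n
  (.n .o (.n (.n .o (.n (.n (.c (-17428)) (.n .o (.n (.c 79608) .o))) (.n .o (.n (.n (.c 24876) .o)
  .o)))) (.n (.n (.n (.c 290) (.n .o (.n (.c 54420) .o))) (.n .o (.n (.n (.c (-55274)) .o) .o)))
  (.n (.n .o (.n (.n (.c (-20340)) .o) .o)) (.n (.n (.n (.c 15824) .o) .o) .o))))) (.n (.n .o (.n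
  (.n (.n .o (.n (.c 31458) (.n .o (.n (.c (-78678)) .o)))) (.n .o (.n (.n .o (.n (.c (-104002))
  .o)) .o))) (.n (.n .o (.n (.n .o (.n (.c (-131800)) .o)) .o)) (.n (.n (.n .o (.n (.c 7100) .o))
  .o) .o)))) (.n (.n .o (.n (.n .o (.n (.n (.c (-11224)) (.n .o (.n (.c 24416) .o))) (.n .o (.n (.n
  (.c 41408) .o) .o)))) (.n (.n (.n (.c (-19790)) (.n .o (.n (.c 16014) .o))) (.n .o (.n (.n (.c
  77660) .o) .o))) (.n (.n .o (.n (.n (.c (-12944)) .o) .o)) (.n (.n (.n (.c (-4184)) .o) .o)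
  .o))))) (.n (.n .o (.n (.n (.n .o (.n (.c 8122) (.n .o (.n (.c (-45426)) .o)))) (.n .o (.n (.n .o
  (.n (.c (-9564)) .o)) .o))) (.n (.n .o (.n (.n .o (.n (.c (-8508)) .o)) .o)) (.n (.n (.n .o (.n
  (.c (-15584)) .o)) .o) .o)))) (.n (.n .o (.n (.n .o (.n (.n (.c 6204) (.n .o (.n (.c 8036) .o)))
  (.n .o (.n (.n (.c (-4544)) .o) .o)))) (.n (.n (.n (.c (-11514)) (.n .o (.n (.c 12914) .o))) (.n
  .o (.n (.n (.c 17168) .o) .o))) (.n (.n .o (.n (.n (.c 11560) .o) .o)) (.n (.n (.n (.c 6060) .o)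
  .o) .o))))) (.n (.n .o (.n (.n (.n .o (.n (.c 2806) (.n .o (.n (.c (-10352)) .o)))) (.n .o (.n
  (.n .o (.n (.c (-6104)) .o)) .o))) (.n .o (.n (.n (.n .o (.n (.c 1820) .o)) .o) .o))))
  .o))))))))) (.n (.n .o (.n (.n .o (.n .o (.n (.n (.n .o (.n (.c (-23892)) .o)) .o) .o))) (.n (.n
  .o (.n (.n (.n (.c 8566) (.n .o (.n (.c (-54120)) .o))) (.n .o (.n (.n (.c (-10326)) .o) .o)))
  (.n (.n .o (.n (.n (.c 23892) .o) .o)) (.n (.n (.n (.c 180) .o) .o) .o)))) (.n (.n .o (.n (.n .o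
  (.n (.n .o (.n (.c 58392) .o)) .o)) (.n (.n (.n .o (.n (.c 20340) .o)) .o) .o))) (.n (.n .o (.n
  (.n (.n (.c 12994) (.n .o (.n (.c (-53970)) .o))) (.n .o (.n (.n (.c (-43126)) .o) .o))) (.n (.n
  .o (.n (.n (.c (-20340)) .o) .o)) (.n (.n (.n (.c 15824) .o) .o) .o)))) (.n (.n .o (.n (.n .o (.n
  (.n .o (.n (.c 5672) .o)) .o)) (.n (.n (.n .o (.n (.c 38064) .o)) .o) .o))) (.n (.n .o (.n (.n
  (.n (.c 2066) (.n .o (.n (.c (-30642)) .o))) (.n .o (.n (.n (.c (-2864)) .o) .o))) (.n (.n .o (.n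
  (.n (.c (-38064)) .o) .o)) (.n (.n (.n (.c (-10864)) .o) .o) .o)))) (.n (.n .o (.n .o (.n (.n (.n
  .o (.n (.c (-3768)) .o)) .o) .o))) (.n (.n .o (.n (.n (.n (.c (-2362)) (.n .o (.n (.c (-4432))
  .o))) (.n .o (.n (.n (.c 3576) .o) .o))) (.n (.n .o (.n (.n (.c 3768) .o) .o)) (.n (.n (.n (.c
  1940) .o) .o) .o)))) .o))))))))) (.n (.n .o (.n (.n .o (.n .o (.n (.n (.n (.c (-4356)) .o) .o)
  .o))) (.n (.n .o (.n (.n (.n .o (.n (.c (-23892)) .o)) .o) .o)) (.n (.n .o (.n (.n .o (.n (.n (.c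
  15928) .o) .o)) (.n (.n (.n (.c 180) .o) .o) .o))) (.n (.n .o (.n (.n (.n .o (.n (.c (-25668))
  .o)) .o) .o)) (.n (.n .o (.n (.n .o (.n (.n (.c 7792) .o) .o)) (.n (.n (.n (.c 18624) .o) .o)
  .o))) (.n (.n .o (.n (.n (.n .o (.n (.c (-4424)) .o)) .o) .o)) (.n (.n .o (.n (.n .o (.n (.n (.c
  (-7536)) .o) .o)) (.n (.n (.n (.c (-2168)) .o) .o) .o))) (.n (.n .o (.n (.n (.n .o (.n (.c
  (-2048)) .o)) .o) .o)) .o))))))))) (.n (.n .o (.n .o (.n (.n .o (.n (.n (.n (.c (-4356)) .o) .o)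
  .o)) (.n .o (.n (.n .o (.n (.n (.n (.c (-6444)) .o) .o) .o)) (.n .o (.n (.n .o (.n (.n (.n (.c
  1912) .o) .o) .o)) (.n .o (.n (.n .o (.n (.n (.n (.c (-64)) .o) .o) .o)) .o))))))))) .o))))))))

set_option maxRecDepth 4000 in
def pCA : Po :=
  (.n (.n (.n (.n (.n (.c (-1)) (.n .o (.n (.c 1) .o))) (.n .o (.n (.n (.c 1) .o) .o))) (.n .o (.n
  (.n (.n (.c 1) .o) .o) .o))) .o) (.n .o (.n (.n (.n (.n (.n (.c 1) .o) .o) .o) .o) .o)))

set_option maxRecDepth 4000 in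
def pCB : Po :=
  (.n (.n (.n (.n (.n (.c (-1)) (.n .o (.n (.c 1) .o))) (.n .o (.n (.n (.c 1) .o) .o))) (.n .o (.n
  (.n (.n (.c 1) .o) .o) .o))) .o) (.n .o (.n (.n (.n (.n (.n (.c 1) .o) .o) .o) .o) .o)))

set_option maxRecDepth 4000 in
def pXA : Po :=
  (.n (.n (.n (.n (.n (.c 3572) (.n .o (.n (.c (-4876)) (.n .o (.n (.c (-444)) (.n .o (.n (.c 2112)
  .o))))))) (.n (.n (.c (-5613)) (.n .o (.n (.c 7826) (.n .o (.n (.c (-1628)) .o))))) (.n (.n (.c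
  2362) (.n .o (.n (.c (-3576)) .o))) (.n (.n (.c 64) .o) .o)))) (.n (.n (.n (.c (-5613)) (.n .o
  (.n (.c 1268) (.n .o (.n (.c 9978) .o))))) (.n (.n (.c 5316) (.n .o (.n (.c (-4586)) .o))) (.n
  (.n (.c (-1940)) .o) .o))) (.n (.n (.n (.c 2362) (.n .o (.n (.c 4432) .o))) (.n (.n (.c (-1940))
  .o) .o)) (.n (.n (.n (.c 64) .o) .o) .o)))) (.n .o (.n (.n .o (.n (.n (.n .o (.n .o (.n (.c 2246)
  (.n .o (.n (.c (-8946)) .o))))) (.n (.n (.c (-1300)) (.n .o (.n (.c 3158) .o))) (.n (.n (.c 1566)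
  .o) .o))) (.n (.n (.n .o (.n .o (.n (.c (-4200)) .o))) (.n (.n (.c 1566) .o) .o)) .o))) .o))) (.n
  (.n .o (.n (.n (.n (.n .o (.n (.c 9752) (.n .o (.n (.c 1776) (.n .o (.n (.c (-12672)) .o))))))
  (.n (.n .o (.n (.c (-11340)) (.n .o (.n (.c 3852) .o)))) (.n (.n .o (.n (.c 3344) .o)) .o))) (.n
  (.n (.n .o (.n (.c (-11340)) (.n .o (.n (.c (-19692)) .o)))) (.n (.n .o (.n (.c 22408) .o)) .o))
  (.n (.n (.n .o (.n (.c 3344) .o)) .o) .o))) (.n .o (.n (.n .o (.n (.n (.n .o (.n .o (.n .o (.n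
  (.c 18224) .o)))) (.n (.n .o (.n (.c (-19552)) .o)) .o)) .o)) .o)))) (.n (.n (.n (.n (.n (.c
  (-4876)) (.n .o (.n (.c (-888)) (.n .o (.n (.c 6336) .o))))) (.n (.n (.c 1268) (.n .o (.n (.c
  8682) .o))) (.n (.n (.c 4432) .o) .o))) (.n (.n (.n (.c 7826) (.n .o (.n (.c 8682) .o))) (.n (.n
  (.c (-4586)) .o) .o)) (.n (.n (.n (.c (-3576)) .o) .o) .o))) (.n .o (.n (.n (.n (.n .o (.n .o (.n
  (.c (-1776)) (.n .o (.n (.c 25344) .o))))) (.n (.n (.c 2246) (.n .o (.n (.c (-10470)) .o))) (.n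
  (.n (.c (-4200)) .o) .o))) (.n (.n (.n .o (.n .o (.n (.c (-10470)) .o))) (.n (.n (.c 3158) .o)
  .o)) .o)) .o))) (.n (.n .o (.n (.n (.n (.n .o (.n (.c 1776) (.n .o (.n (.c (-25344)) .o)))) (.n
  (.n .o (.n (.c (-19692)) .o)) .o)) (.n (.n (.n .o (.n (.c 3852) .o)) .o) .o)) (.n .o (.n (.n (.n
  (.n .o (.n .o (.n .o (.n (.c (-16896)) .o)))) (.n (.n .o (.n (.c 18224) .o)) .o)) .o) .o)))) (.n
  (.n (.n (.n (.n (.c (-444)) (.n .o (.n (.c 6336) .o))) (.n (.n (.c 9978) .o) .o)) (.n (.n (.n (.c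
  (-1628)) .o) .o) .o)) (.n .o (.n (.n (.n (.n .o (.n .o (.n (.c 25344) .o))) (.n (.n (.c (-8946))
  .o) .o)) .o) .o))) (.n (.n .o (.n (.n (.n (.n .o (.n (.c (-12672)) .o)) .o) .o) .o)) (.n (.n (.n
  (.n (.n (.c 2112) .o) .o) .o) .o) .o)))))))

set_option maxRecDepth 4000 in
def pDA : Po :=
  (.n (.n (.n (.n (.n (.c (-1)) (.n .o (.n (.c 1) .o))) (.n (.n (.c 1) .o) .o)) (.n (.n (.n (.c 1)
  .o) .o) .o)) .o) (.n .o (.n (.n (.n (.n (.n (.c 1) .o) .o) .o) .o) .o)))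

set_option maxRecDepth 4000 in
def pQA : Po :=
  (.n (.n (.n (.n (.n .o (.n .o (.n (.c 1477) (.n .o (.n (.c 11462) (.n .o (.n (.c 4224) .o)))))))
  (.n (.n .o (.n .o (.n (.c 11914) (.n .o (.n (.c (-3256)) .o))))) (.n (.n (.c 6976) (.n .o (.n (.c
  (-7152)) .o))) (.n (.n (.c 128) .o) .o)))) (.n (.n (.n .o (.n .o (.n (.c 14814) (.n .o (.n (.c
  19956) .o))))) (.n (.n (.c 10872) (.n .o (.n (.c (-9172)) .o))) (.n (.n (.c (-3880)) .o) .o)))
  (.n (.n (.n (.c 6976) (.n .o (.n (.c 8864) .o))) (.n (.n (.c (-3880)) .o) .o)) (.n (.n (.n (.c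
  128) .o) .o) .o)))) (.n .o (.n (.n (.n (.n (.c 133) (.n .o (.n (.c 1725) (.n .o (.n (.c (-8946))
  .o))))) (.n (.n (.c 1049) (.n .o (.n (.c 3158) .o))) (.n (.n (.c 1566) .o) .o))) (.n (.n (.n (.c
  1049) (.n .o (.n (.c (-750)) (.n .o (.n (.c (-17892)) .o))))) (.n (.n (.c 3664) (.n .o (.n (.c
  6316) .o))) (.n (.n (.c 3132) .o) .o))) (.n (.n (.n (.c 1566) (.n .o (.n (.c (-8400)) .o))) (.n
  (.n (.c 3132) .o) .o)) .o))) .o))) (.n (.n .o (.n (.n (.n (.n .o (.n (.c 11372) (.n .o (.n (.c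
  (-12288)) (.n .o (.n (.c (-25344)) .o)))))) (.n (.n .o (.n (.c 6416) (.n .o (.n (.c 7704) .o))))
  (.n (.n .o (.n (.c 6688) .o)) .o))) (.n (.n (.n .o (.n (.c 6416) (.n .o (.n (.c (-39384)) .o))))
  (.n (.n .o (.n (.c 44816) .o)) .o)) (.n (.n (.n .o (.n (.c 6688) .o)) .o) .o))) (.n .o (.n (.n
  (.n (.n .o (.n (.c (-9776)) (.n .o (.n (.c 18224) .o)))) (.n (.n .o (.n (.c (-19552)) .o)) .o))
  (.n (.n (.n .o (.n (.c (-19552)) (.n .o (.n (.c 36448) .o)))) (.n (.n .o (.n (.c (-39104)) .o))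
  .o)) .o)) .o)))) (.n (.n (.n (.n (.n (.c 1477) (.n .o (.n (.c 23588) (.n .o (.n (.c 12672)
  .o))))) (.n (.n (.c 14814) (.n .o (.n (.c 17364) .o))) (.n (.n (.c 8864) .o) .o))) (.n (.n (.n
  (.c 11914) (.n .o (.n (.c 17364) .o))) (.n (.n (.c (-9172)) .o) .o)) (.n (.n (.n (.c (-7152)) .o)
  .o) .o))) (.n .o (.n (.n (.n (.n (.c 1725) (.n .o (.n (.c (-24492)) (.n .o (.n (.c 50688) .o)))))
  (.n (.n (.c (-750)) (.n .o (.n (.c (-20940)) .o))) (.n (.n (.c (-8400)) .o) .o))) (.n (.n (.n (.c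
  3158) (.n .o (.n (.c (-20940)) .o))) (.n (.n (.c 6316) .o) .o)) .o)) .o))) (.n (.n .o (.n (.n (.n
  (.n .o (.n (.c (-12288)) (.n .o (.n (.c (-50688)) .o)))) (.n (.n .o (.n (.c (-39384)) .o)) .o))
  (.n (.n (.n .o (.n (.c 7704) .o)) .o) .o)) (.n .o (.n (.n (.n (.n .o (.n (.c 18224) (.n .o (.n
  (.c (-33792)) .o)))) (.n (.n .o (.n (.c 36448) .o)) .o)) .o) .o)))) (.n (.n (.n (.n (.n (.c
  11462) (.n .o (.n (.c 12672) .o))) (.n (.n (.c 19956) .o) .o)) (.n (.n (.n (.c (-3256)) .o) .o)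
  .o)) (.n .o (.n (.n (.n (.n (.c (-8946)) (.n .o (.n (.c 50688) .o))) (.n (.n (.c (-17892)) .o)
  .o)) .o) .o))) (.n (.n .o (.n (.n (.n (.n .o (.n (.c (-25344)) .o)) .o) .o) .o)) (.n (.n (.n (.n
  (.n (.c 4224) .o) .o) .o) .o) .o)))))))

set_option maxRecDepth 4000 in
def pQB : Po :=
  (.n (.n (.n (.n (.n .o (.n .o (.n (.c 1477) (.n .o (.n (.c 11462) (.n .o (.n (.c 4224) .o)))))))
  (.n (.n .o (.n .o (.n (.c 14814) (.n .o (.n (.c 19956) .o))))) (.n (.n (.c 6976) (.n .o (.n (.c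
  8864) .o))) (.n (.n (.c 128) .o) .o)))) (.n (.n (.n .o (.n .o (.n (.c 11914) (.n .o (.n (.c
  (-3256)) .o))))) (.n (.n (.c 10872) (.n .o (.n (.c (-9172)) .o))) (.n (.n (.c (-3880)) .o) .o)))
  (.n (.n (.n (.c 6976) (.n .o (.n (.c (-7152)) .o))) (.n (.n (.c (-3880)) .o) .o)) (.n (.n (.n (.c
  128) .o) .o) .o)))) (.n .o (.n (.n (.n (.n (.c 133) (.n .o (.n (.c 1725) (.n .o (.n (.c (-8946))
  .o))))) (.n (.n (.c 1049) (.n .o (.n (.c (-750)) (.n .o (.n (.c (-17892)) .o))))) (.n (.n (.c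
  1566) (.n .o (.n (.c (-8400)) .o))) .o))) (.n (.n (.n (.c 1049) (.n .o (.n (.c 3158) .o))) (.n
  (.n (.c 3664) (.n .o (.n (.c 6316) .o))) (.n (.n (.c 3132) .o) .o))) (.n (.n (.n (.c 1566) .o)
  (.n (.n (.c 3132) .o) .o)) .o))) .o))) (.n (.n .o (.n (.n (.n (.n .o (.n (.c 11372) (.n .o (.n
  (.c (-12288)) (.n .o (.n (.c (-25344)) .o)))))) (.n (.n .o (.n (.c 6416) (.n .o (.n (.c (-39384))
  .o)))) (.n (.n .o (.n (.c 6688) .o)) .o))) (.n (.n (.n .o (.n (.c 6416) (.n .o (.n (.c 7704)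
  .o)))) (.n (.n .o (.n (.c 44816) .o)) .o)) (.n (.n (.n .o (.n (.c 6688) .o)) .o) .o))) (.n .o (.n
  (.n (.n (.n .o (.n (.c (-9776)) (.n .o (.n (.c 18224) .o)))) (.n (.n .o (.n (.c (-19552)) (.n .o
  (.n (.c 36448) .o)))) .o)) (.n (.n (.n .o (.n (.c (-19552)) .o)) (.n (.n .o (.n (.c (-39104))
  .o)) .o)) .o)) .o)))) (.n (.n (.n (.n (.n (.c 1477) (.n .o (.n (.c 23588) (.n .o (.n (.c 12672)
  .o))))) (.n (.n (.c 11914) (.n .o (.n (.c 17364) .o))) (.n (.n (.c (-7152)) .o) .o))) (.n (.n (.n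
  (.c 14814) (.n .o (.n (.c 17364) .o))) (.n (.n (.c (-9172)) .o) .o)) (.n (.n (.n (.c 8864) .o)
  .o) .o))) (.n .o (.n (.n (.n (.n (.c 1725) (.n .o (.n (.c (-24492)) (.n .o (.n (.c 50688) .o)))))
  (.n (.n (.c 3158) (.n .o (.n (.c (-20940)) .o))) .o)) (.n (.n (.n (.c (-750)) (.n .o (.n (.c
  (-20940)) .o))) (.n (.n (.c 6316) .o) .o)) (.n (.n (.n (.c (-8400)) .o) .o) .o))) .o))) (.n (.n
  .o (.n (.n (.n (.n .o (.n (.c (-12288)) (.n .o (.n (.c (-50688)) .o)))) (.n (.n .o (.n (.c 7704)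
  .o)) .o)) (.n (.n (.n .o (.n (.c (-39384)) .o)) .o) .o)) (.n .o (.n (.n (.n (.n .o (.n (.c 18224)
  (.n .o (.n (.c (-33792)) .o)))) .o) (.n (.n (.n .o (.n (.c 36448) .o)) .o) .o)) .o)))) (.n (.n
  (.n (.n (.n (.c 11462) (.n .o (.n (.c 12672) .o))) (.n (.n (.c (-3256)) .o) .o)) (.n (.n (.n (.c
  19956) .o) .o) .o)) (.n .o (.n (.n (.n (.n (.c (-8946)) (.n .o (.n (.c 50688) .o))) .o) (.n (.n
  (.n (.c (-17892)) .o) .o) .o)) .o))) (.n (.n .o (.n (.n (.n (.n .o (.n (.c (-25344)) .o)) .o) .o)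
  .o)) (.n (.n (.n (.n (.n (.c 4224) .o) .o) .o) .o) .o)))))))

end Pool.Agent.MP_90395b_gt.Bn

end

section

namespace Pool.Agent.MP_90395b_gt.Bn

open Pool.Agent.MP_90395b_gt.As

theorem sound6 {B w e1 e2 d0 d1 d2 d3 d4 d5 : ℕ} {D1 D2 : List ℕ} {o1 o2 : ℕ}
    {l0 h0 m0 l1 h1 m1 l2 h2 m2 l3 h3 m3 l4 h4 m4 l5 h5 m5 : ℤ} {p1 p2 : Po} {tr : Tr}
    (h : check B w e1 e2 d0 d1 [d2, d3, d4, d5] D1 D2 o1 o2
      [(l0, h0, m0), (l1, h1, m1), (l2, h2, m2), (l3, h3, m3), (l4, h4, m4), (l5, h5, m5)]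
      p1 p2 tr = true) (s : ℝ) {z0 z1 z2 z3 z4 : ℝ} (hs : 0 < s) (hc : P5 p2 z0 z1 z2 z3 z4 ≤ 0)
    (a0 : l0 * s ≤ m0 * z0) (b0 : m0 * z0 ≤ h0 * s) (a1 : l1 * s ≤ m1 * z1)
    (b1 : m1 * z1 ≤ h1 * s) (a2 : l2 * s ≤ m2 * z2) (b2 : m2 * z2 ≤ h2 * s)
    (a3 : l3 * s ≤ m3 * z3) (b3 : m3 * z3 ≤ h3 * s) (a4 : l4 * s ≤ m4 * z4)
    (b4 : m4 * z4 ≤ h4 * s) (a5 : (l5 : ℝ) ≤ m5 * s) (b5 : m5 * s ≤ (h5 : ℝ)) :
    0 ≤ P5 p1 z0 z1 z2 z3 z4 := by
  have e : ∀ z : ℝ, s * (z / s) = z := fun z => mul_div_cancel₀ z hs.ne'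
  have lo : ∀ {l m z : ℝ}, l * s ≤ m * z → l ≤ m * (z / s) := fun h => by
    rw [← mul_div_assoc, le_div_iff₀ hs]; exact h
  have hi : ∀ {l m z : ℝ}, m * z ≤ l * s → m * (z / s) ≤ l := fun h => by
    rw [← mul_div_assoc, div_le_iff₀ hs]; exact h
  have := sound5 h s (z0 / s) (z1 / s) (z2 / s) (z3 / s) (z4 / s) (lo a0) (hi b0) (lo a1) (hi b1)
    (lo a2) (hi b2) (lo a3) (hi b3) (lo a4) (hi b4) a5 b5 hs (by simpa only [e] using hc)
  simpa only [e] using this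

theorem P5_sh01 (p : Po) (a b c d e : ℝ) :
    P5 (shAt 1 (shAt 0 p)) a b c d e = P5 p (a + 1) (b + 1) c d e := by
  unfold P5
  rw [H_shAt, H_shAt]
  congr 1
  funext j
  rcases j with _ | _ | j <;> simp [Function.update]

theorem P5_sh12 (p : Po) (a b c d e : ℝ) :
    P5 (shAt 1 (shAt 2 p)) a b c d e = P5 p a (b + 1) (c + 1) d e := by
  unfold P5
  rw [H_shAt, H_shAt]
  congr 1
  funext j
  rcases j with _ | _ | _ | j <;> simp [Function.update]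

theorem P5_o (a b c d e : ℝ) : P5 Po.o a b c d e ≤ 0 := le_of_eq rfl

theorem P5_CA (h s k u v : ℝ) : P5 pCA h s k u v = h ^ 2 + k ^ 2 + u ^ 2 + v ^ 2 - 1 := by
  simp only [P5, pCA, H, List.getD_cons_zero, List.getD_cons_succ]
  push_cast
  ring

theorem P5_CB (h s k u v : ℝ) : P5 pCB k s h u v = h ^ 2 + k ^ 2 + u ^ 2 + v ^ 2 - 1 := by
  simp only [P5, pCB, H, List.getD_cons_zero, List.getD_cons_succ]
  push_cast
  ring

theorem P5_DA (x y t u c : ℝ) : P5 pDA t c x y u = x + y + t ^ 2 + u ^ 2 - 1 := by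
  simp only [P5, pDA, H, List.getD_cons_zero, List.getD_cons_succ]
  push_cast
  ring

theorem P5_XA (x y t u c : ℝ) : P5 pXA t c x y u = 2000 * (Jt x y t u c 1 1 0 - 1) := by
  simp only [P5, pXA, H, List.getD_cons_zero, List.getD_cons_succ, Jt, Jl0, Jm0]
  push_cast
  ring

theorem P5_QA (x y t u c : ℝ) : P5 pQA t c (x - 1 / 2) (y - 1 / 2) u =
    4000 * (Jt x y t u c 1 1 0 - 1 - (1 - x - y - t ^ 2 - u ^ 2)
      + (1 - x - y - t ^ 2 - u ^ 2) ^ 2) := by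
  simp only [P5, pQA, H, List.getD_cons_zero, List.getD_cons_succ, Jt, Jl0, Jm0]
  push_cast
  ring

theorem P5_QB (x y t u c : ℝ) : P5 pQB u c x y t = P5 pQA t c x y u := by
  simp only [P5, pQA, pQB, H, List.getD_cons_zero, List.getD_cons_succ]
  push_cast
  ring

end Pool.Agent.MP_90395b_gt.Bn

end

section

namespace Pool.Agent.MP_90395b_gt.Bn

set_option maxRecDepth 100000 in
theorem P5_VB (h s k u v : ℝ) : P5 pVB k s h u v = P5 pVA h s k u v := by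
  simp only [P5, pVA, pVB, H, List.getD_cons_zero, List.getD_cons_succ]
  push_cast
  ring

end Pool.Agent.MP_90395b_gt.Bn

end
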