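import Pool.Agent.Mg.F90395b.G8570e2

namespace Pool.Agent.MP_90395b_gt.Bn

set_option maxRecDepth 4000
set_option deprecated.oldSectionVars true

theorem vb_v0 : check 36 22 236 183 8 8 [7, 6, 0, 14] [8, 8, 7, 6, 6, 14] [8, 0, 7, 6, 6, 14] 2 1
    [(-2, 0, 7), (-2, 2, 7), (-2, 1, 7), (-2, 2, 7), (-2, -2, 7), (-1, 15, 15)] (shAt 1 (shAt 0
      pVA)) (shAt 1 (shAt 0 pCA))
    (.s 5 .z (.s 4 .z (.s 5 (.s 1 (.s 2 (.l 762) (.s 2 .z (.s 2 (.l 996) (.s 0 (.s 5 .z (.s 2 (.l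
      1452) (.l 2313))) (.l 2138))))) (.l 304)) (.s 2 (.s 2 (.l 1474) (.l 861)) (.s 4 (.s 2 .z (.l
      1263)) (.s 5 (.s 2 (.l 1269) (.s 2 (.s 1 (.l 2576) (.l 1410)) (.s 5 (.s 1 (.s 2 (.l 2836)
      (.l 4314)) (.l 3801)) (.l 6488)))) (.s 2 (.l 2029) (.l 7488)))))))) = true := by
  decide +kernel

theorem vb_v1 : check 36 22 236 183 8 8 [7, 6, 0, 14] [8, 8, 7, 6, 6, 14] [8, 0, 7, 6, 6, 14] 2 1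
    [(-2, 0, 7), (-2, 2, 7), (-2, 1, 7), (-2, 2, 7), (2, 2, 7), (-1, 15, 15)] (shAt 1 (shAt 0
      pVA)) (shAt 1 (shAt 0 pCA))
    .z = true := by
  decide +kernel

theorem vb_h0 : check 36 22 230 177 7 8 [0, 6, 6, 14] [7, 8, 8, 6, 6, 14] [7, 0, 8, 6, 6, 14] 2 1
    [(-2, 1, 7), (-2, 2, 7), (-2, -2, 7), (-2, 2, 7), (-2, 2, 7), (-1, 15, 15)] (shAt 1 (shAt 2
      pVB)) (shAt 1 (shAt 2 pCB))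
    .z = true := by
  decide +kernel

theorem vm_dL : check 26 18 132 101 8 8 [7, 6, 6, 0] [8, 8, 7, 6, 6, 16] [8, 0, 7, 6, 6, 16] 0 0
    [(12, 13, 16), (0, 1, 1), (-3, -1, 4), (-3, 3, 4), (-3, 3, 4), (1, 1, 1)] pVA pCA
    (.s 3 (.s 3 (.s 2 (.s 3 (.s 2 (.l 111) (.s 3 (.l 95) (.s 3 (.l 75) (.s 0 (.s 2 (.l 41) (.l
      41)) (.s 5 (.s 3 (.l 44) (.l 40)) (.l 54)))))) (.s 1 (.s 3 (.l 57) (.s 0 (.l 34) (.l 39)))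
      (.s 2 (.s 2 (.l 71) (.s 3 (.l 55) (.s 0 (.l 25) (.s 2 (.l 32) (.l 26))))) (.s 3 (.s 0 (.s 0
      (.l 9) (.s 1 (.l 29) (.s 3 (.l 25) (.s 2 (.l 21) (.l 12))))) (.s 0 (.s 3 (.s 5 (.s 3 (.l 29)
      (.l 26)) (.s 3 (.l 39) (.l 34))) (.s 1 (.l 29) (.s 5 (.l 19) (.s 2 (.l 28) (.l 22))))) (.l
      38))) (.s 0 (.s 1 (.s 2 (.l 20) (.l 15)) (.s 2 (.s 2 (.l 16) (.l 11)) .z)) (.s 0 (.s 3 (.s 1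
      (.l 23) (.s 2 (.s 2 (.l 20) (.l 15)) (.l 7))) (.s 2 (.l 16) (.l 10))) (.l 14))))))) (.s 3
      (.s 2 (.s 3 (.l 131) (.s 3 (.l 114) (.s 1 (.l 90) (.s 0 (.l 29) (.s 5 (.s 2 (.s 3 (.l 55)
      (.s 2 (.l 41) (.l 48))) (.s 2 (.l 67) (.l 86))) (.s 2 (.l 71) (.l 102))))))) (.l 160)) (.s 2
      (.s 1 (.s 3 (.l 82) (.s 0 (.l 30) (.s 2 (.l 34) (.l 52)))) (.s 0 (.s 1 (.s 3 (.l 24) (.l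
      15)) (.l 13)) (.s 3 (.s 2 (.s 0 (.s 1 (.s 5 (.s 3 (.l 38) (.l 26)) (.l 48)) (.s 3 (.s 5 (.s
      2 (.l 21) (.l 30)) (.s 1 (.l 43) (.l 36))) (.s 0 (.l 19) (.s 0 (.l 26) (.l 31))))) (.s 3 (.s
      3 (.s 2 (.l 44) (.l 53)) (.l 45)) (.s 2 (.l 31) (.l 39)))) (.s 5 (.s 1 (.s 2 (.l 51) (.l
      67)) (.s 3 (.s 2 (.s 3 (.l 50) (.l 40)) (.l 68)) (.s 0 (.s 2 (.l 23) (.l 34)) (.s 2 (.l 24)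
      (.l 46))))) (.s 1 (.l 88) (.s 2 (.s 3 (.l 70) (.s 1 (.l 53) (.s 0 (.l 31) (.l 47)))) (.s 3
      (.l 90) (.l 74)))))) (.s 2 (.s 0 (.s 1 (.s 1 (.l 26) (.s 3 (.l 22) (.l 2))) (.l 9)) (.l 25))
      (.s 0 (.s 1 (.s 5 (.s 2 (.l 21) (.l 31)) (.s 3 (.l 42) (.l 32))) (.s 0 (.l 17) (.s 5 (.l 20)
      (.s 3 (.s 2 (.l 25) (.l 35)) (.l 23))))) (.s 5 (.l 32) (.s 1 (.l 52) (.s 2 (.l 29) (.s 3 (.l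
      52) (.l 30)))))))))) (.s 2 (.s 3 (.l 117) (.s 2 (.s 0 (.l 32) (.s 1 (.l 68) (.s 1 (.l 77)
      (.s 0 (.s 3 (.l 42) (.l 33)) (.s 5 (.l 51) (.s 2 (.l 68) (.l 79))))))) (.l 98))) (.l
      137))))) (.s 2 (.s 2 (.s 1 (.l 31) (.s 3 (.s 2 (.l 40) (.s 0 (.s 2 (.l 17) (.l 14)) (.s 2
      (.l 19) (.l 15)))) (.s 2 (.l 17) (.l 7)))) (.s 3 (.s 1 (.s 0 (.l 17) (.l 17)) (.s 0 (.s 2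
      (.l 10) .z) (.s 2 (.l 11) .z))) (.l 7))) (.s 2 (.s 3 (.s 0 (.s 1 (.s 2 (.l 17) (.l 21)) (.l
      5)) (.s 1 (.s 3 (.s 2 (.l 20) (.l 30)) (.l 16)) (.s 3 (.s 1 (.s 0 (.s 0 (.l 15) (.l 21)) (.l
      21)) (.l 10)) .z))) (.s 0 (.l 4) (.l 5))) (.s 2 (.s 1 (.s 3 (.l 64) (.l 27)) (.s 0 (.l 12)
      (.s 3 (.s 3 (.s 2 (.s 0 (.s 1 (.l 32) (.l 23)) (.l 39)) (.s 5 (.l 43) (.l 70))) (.s 2 (.l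
      14) (.s 2 (.l 23) (.l 33)))) (.l 9)))) (.s 3 (.s 2 (.l 91) (.l 106)) (.s 2 (.l 42) (.l
      65))))))) (.s 0 (.s 2 (.l 5) (.l 6)) (.s 2 (.l 3) (.s 2 .z (.l 14))))) = true := by
  decide +kernel

theorem vm_hR : check 26 18 147 97 8 8 [7, 6, 6, 0] [8, 8, 7, 6, 6, 16] [8, 0, 7, 6, 6, 16] 0 0
    [(3, 4, 4), (3, 5, 4), (-2, 1, 8), (3, 6, 8), (-3, 3, 4), (1, 1, 1)] pVA pCA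
    (.s 3 (.s 5 (.s 3 (.s 3 (.l 98) (.s 2 (.s 5 (.s 0 (.s 3 (.s 2 (.s 5 (.s 3 (.l 15) (.s 2 (.l 9)
      (.l 12))) (.l 19)) (.l 23)) (.s 2 (.s 1 (.s 5 (.s 2 (.l 2) (.l 7)) (.s 3 (.s 0 (.l 8) (.l
      13)) (.s 2 (.l 5) (.l 10)))) (.l 4)) (.s 5 (.s 2 (.l 11) (.l 13)) (.l 17)))) (.s 3 (.s 2 (.s
      3 (.s 2 (.l 35) (.l 40)) (.s 5 (.s 2 (.l 10) (.l 21)) (.s 2 (.l 28) (.l 35)))) (.l 49)) (.s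
      2 (.s 5 (.l 8) (.s 3 (.s 2 (.l 17) (.l 27)) (.s 2 (.l 5) (.l 16)))) (.s 2 (.s 5 (.l 20) (.l
      34)) (.l 39))))) (.s 3 (.l 62) (.s 2 (.s 5 (.s 2 (.s 3 (.s 1 (.s 2 (.l 27) (.l 31)) (.l 27))
      (.s 0 (.s 3 (.l 12) (.l 10)) (.s 5 (.l 14) (.s 2 (.l 20) (.l 25))))) (.s 0 (.l 17) (.s 3 (.l
      38) (.l 32)))) (.s 2 (.l 39) (.l 44))) (.l 53)))) (.l 79))) (.s 2 (.s 3 (.s 5 (.s 3 (.s 2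
      (.s 3 (.s 2 .z (.l 5)) .z) (.s 0 (.s 0 (.l 6) (.s 2 (.l 8) (.l 11))) (.s 5 (.l 6) (.s 2 (.l
      16) (.l 26))))) (.s 2 .z (.l 4))) (.s 2 (.s 3 (.s 0 (.s 1 (.s 5 (.s 0 (.s 2 (.l 5) (.l 6))
      (.s 3 (.s 2 (.l 8) (.l 11)) (.l 7))) (.s 2 (.s 3 (.l 12) (.s 2 (.l 7) (.l 9))) (.l 14))) (.s
      2 (.l 4) (.l 6))) (.s 5 (.s 3 (.s 2 (.l 10) (.s 2 (.l 18) (.l 24))) (.l 9)) (.s 2 (.s 3 (.s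
      5 (.s 3 (.l 22) (.l 16)) (.l 28)) (.s 5 (.l 7) (.s 2 (.l 12) (.l 19)))) (.s 3 (.l 33) (.s 1
      (.l 25) (.l 22)))))) (.s 5 (.l 2) (.s 3 (.s 5 (.s 2 (.l 1) (.l 7)) (.s 2 (.l 6) (.s 2 (.l
      11) (.l 18)))) (.s 2 .z (.l 5))))) (.s 0 (.s 3 (.s 0 (.l 10) (.l 18)) (.s 5 (.s 2 (.l 6) (.l
      9)) (.l 12))) (.s 3 (.s 5 (.s 3 (.l 36) (.s 2 (.l 23) (.l 30))) (.l 43)) (.s 2 (.s 5 (.l 11)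
      (.s 2 (.l 22) (.l 26))) (.s 3 (.l 32) (.l 25))))))) (.s 2 .z (.s 5 .z (.s 2 (.l 6) (.s 0 (.l
      7) (.l 18)))))) (.s 2 (.s 5 (.s 3 (.s 0 (.s 3 (.l 16) (.l 10)) (.s 3 (.s 2 (.l 33) (.l 38))
      (.s 2 (.l 17) (.l 26)))) (.s 2 .z (.l 9))) (.s 0 (.l 21) (.s 2 (.l 47) (.l 52)))) (.l 61))))
      (.s 3 (.l 125) (.s 2 (.s 5 (.s 2 (.s 3 (.s 5 (.s 3 (.s 3 (.l 39) (.s 2 (.s 1 (.l 27) (.l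
      24)) (.l 33))) (.s 2 (.s 0 (.s 3 (.l 9) (.l 6)) (.s 3 (.s 5 (.s 2 (.l 8) (.l 15)) (.l 21))
      (.l 11))) (.s 0 (.l 11) (.s 2 (.l 24) (.l 27))))) (.l 43)) (.s 3 (.s 5 (.s 2 (.l 3) (.s 2
      (.l 5) (.l 11))) (.s 2 (.s 2 (.l 9) (.l 13)) (.l 20))) (.s 2 (.l 1) (.l 6)))) (.s 3 (.l 53)
      (.s 2 (.l 26) (.l 32)))) (.l 62)) (.l 84)))) (.s 5 (.s 2 .z (.s 2 (.l 8) (.l 23))) (.s 2 (.s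
      2 (.s 0 (.l 4) (.l 10)) (.l 21)) (.l 45)))) = true := by
  decide +kernel

theorem vm_bRRLLL : check 26 18 118 86 8 8 [7, 6, 6, 0] [8, 8, 7, 6, 6, 16] [8, 0, 7, 6, 6, 16] 0
  0
    [(36, 39, 64), (0, 1, 1), (0, 1, 2), (-1, 1, 1), (-1, 1, 1), (1, 1, 1)] pVA pCA
    (.s 0 (.s 2 (.s 2 (.s 3 (.s 2 (.s 2 (.l 19) (.l 15)) (.s 0 (.l 2) (.s 0 (.s 2 (.l 6) (.l 4))
      (.s 3 (.l 12) (.l 5))))) (.s 2 (.s 3 (.s 1 (.l 10) (.l 25)) (.l 41)) (.s 3 (.s 1 .z (.s 0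
      (.l 4) (.s 1 (.s 2 (.l 6) .z) (.s 2 (.s 2 (.l 14) (.l 12)) (.s 2 (.s 2 (.l 9) (.l 8)) (.l
      6)))))) (.s 3 (.s 1 (.l 4) (.s 1 (.l 12) (.l 21))) (.l 30))))) (.s 3 (.s 3 (.s 3 (.l 6) .z)
      .z) (.s 3 (.l 2) (.s 3 (.s 2 (.s 1 .z (.s 3 (.s 2 (.l 7) (.l 1)) (.l 11))) (.l 3)) (.s 2 (.l
      20) (.l 13)))))) (.s 3 (.s 2 .z (.s 2 (.l 2) (.l 7))) (.s 3 (.l 2) (.s 3 (.s 2 .z (.l 7))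
      (.l 15))))) (.s 2 (.s 2 (.s 2 (.s 3 (.s 3 (.l 106) (.s 2 (.l 72) (.s 0 (.s 2 (.l 26) (.l
      20)) (.s 2 (.l 52) (.l 41))))) (.s 3 (.s 2 (.l 88) (.s 1 (.l 8) (.s 1 (.s 2 (.l 39) (.l 27))
      (.l 69)))) (.l 134))) (.s 3 (.s 3 (.s 3 (.l 71) (.s 2 (.l 48) (.s 3 (.l 28) (.l 16)))) (.s 2
      (.s 1 (.l 1) (.s 0 (.s 2 (.l 14) (.l 7)) (.s 2 (.l 30) (.l 17)))) (.l 3))) (.s 3 (.s 1 .z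
      (.s 1 (.s 2 (.s 2 (.l 14) (.l 4)) .z) (.s 2 (.s 3 (.s 2 (.s 2 (.l 29) (.l 22)) (.s 2 (.l 17)
      (.l 11))) (.s 3 (.s 1 (.l 21) (.s 2 (.l 38) (.l 26))) (.l 49))) (.s 3 (.l 5) (.s 1 (.l 8)
      (.s 3 (.s 2 (.l 14) (.l 3)) (.s 2 (.l 28) (.l 15)))))))) (.s 3 (.s 1 (.l 7) (.s 2 (.l 75)
      (.s 1 (.l 22) (.s 1 (.l 41) (.l 59))))) (.l 106))))) (.s 3 (.s 3 (.s 3 (.s 2 (.l 40) (.l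
      22)) (.l 7)) .z) (.s 3 (.s 1 .z (.s 1 .z (.s 1 .z (.s 1 .z (.s 1 (.l 1) (.s 2 (.l 5)
      .z)))))) (.s 1 (.l 6) (.s 3 (.s 1 (.l 3) (.s 2 (.s 3 (.s 2 (.s 3 (.l 12) (.l 24)) (.l 3))
      (.s 1 (.l 23) (.l 43))) (.s 3 .z (.l 13)))) (.s 1 (.l 43) (.l 80))))))) (.s 0 (.s 2 (.s 3
      (.s 3 (.s 3 (.l 9) .z) .z) (.s 3 .z (.s 3 (.l 3) (.l 22)))) (.s 2 (.s 3 (.s 3 (.l 18) .z)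
      (.s 3 .z (.s 3 (.l 11) (.l 29)))) (.s 3 (.s 2 (.l 24) (.l 30)) (.s 3 (.l 7) (.l 39))))) (.s
      2 (.s 3 (.s 3 (.s 3 (.l 40) .z) .z) (.s 3 .z (.s 3 (.l 11) (.l 55)))) (.s 2 (.s 3 (.s 3 (.s
      3 (.l 61) (.l 21)) .z) (.s 3 .z (.s 3 (.l 32) (.l 70)))) (.s 3 (.s 3 (.l 84) (.l 24)) (.s 3
      (.l 25) (.l 91)))))))) = true := by
  decide +kernel

theorem vm_aLRR : check 26 18 91 59 8 8 [7, 6, 6, 0] [8, 8, 7, 6, 6, 16] [8, 0, 7, 6, 6, 16] 0 0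
    [(0, 3, 4), (0, 1, 1), (-1, 0, 1), (-1, 2, 2), (-1, 0, 2), (1, 1, 1)] pVA pCA
    (.s 5 (.l 2) (.s 2 (.s 5 (.s 0 (.s 1 (.s 1 (.l 4) (.l 1)) .z) .z) (.s 1 (.s 1 (.s 5 (.s 3 (.l
      13) (.l 3)) (.l 22)) (.s 0 (.s 3 (.s 5 (.s 3 (.l 6) (.l 2)) (.s 3 (.s 1 (.l 12) (.s 2 (.s 2
      (.l 11) (.l 9)) (.l 9))) (.s 2 (.l 7) (.l 5)))) (.l 3)) (.s 3 (.s 3 (.s 3 (.s 3 (.l 14) (.l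
      12)) (.l 9)) (.l 6)) (.l 1)))) (.s 3 (.s 5 (.l 3) (.s 3 (.s 0 (.s 1 (.s 2 (.s 5 (.l 5) (.s 2
      (.s 2 (.l 9) (.l 8)) (.l 6))) (.l 3)) (.l 4)) (.s 1 (.s 3 (.s 2 (.s 2 (.l 10) (.l 6)) (.l
      8)) (.l 6)) (.l 5))) (.s 0 (.l 3) (.l 2)))) .z))) (.s 5 (.s 5 (.s 0 (.s 2 (.l 2) (.l 4)) (.l
      2)) (.s 2 (.s 0 (.s 1 (.s 2 (.l 4) (.l 6)) .z) (.l 4)) (.s 1 (.s 2 (.l 11) (.l 15)) (.s 2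
      (.l 5) (.s 2 (.l 11) (.l 23)))))) (.s 2 (.s 3 (.s 5 (.s 1 (.s 0 (.s 1 (.l 11) (.s 2 (.l 6)
      (.l 9))) (.l 11)) (.s 0 (.l 3) (.s 2 .z (.l 7)))) (.s 1 (.s 1 (.l 34) (.s 2 (.s 0 (.s 3 (.l
      14) (.l 8)) (.s 3 (.s 2 (.l 16) (.l 20)) (.l 9))) (.s 0 (.l 17) (.s 2 (.l 28) (.l 37)))))
      (.s 0 (.s 3 (.s 2 (.s 2 (.l 5) (.l 6)) (.s 2 (.l 8) (.l 10))) (.l 4)) (.s 2 (.s 3 (.s 1 (.s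
      0 (.s 5 (.l 5) (.s 3 (.s 1 (.l 17) (.l 11)) (.l 9))) (.l 18)) .z) (.l 1)) (.s 3 (.s 5 (.s 2
      (.s 2 (.l 10) (.l 13)) (.s 2 (.l 18) (.l 24))) (.s 2 (.s 3 (.s 1 (.l 32) (.s 2 (.l 13) (.l
      28))) (.s 1 (.l 18) .z)) (.s 0 (.l 27) (.s 2 (.l 44) (.l 51))))) (.s 2 (.s 2 (.l 5) (.l 9))
      (.s 0 (.s 2 (.l 11) (.l 14)) (.l 20)))))))) (.s 1 (.s 0 (.s 5 (.l 4) (.s 2 (.l 6) (.l 9)))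
      (.l 9)) (.s 0 .z (.l 3)))) (.s 2 (.s 1 (.s 3 (.l 58) (.l 28)) (.s 0 (.s 5 (.l 7) (.s 2 (.l
      11) (.l 13))) (.s 5 (.s 3 (.s 2 (.s 2 (.l 11) (.l 17)) (.s 2 (.l 26) (.l 35))) .z) (.s 2 (.s
      3 (.s 3 (.l 62) (.s 0 (.l 20) (.l 41))) (.l 13)) (.s 3 (.l 72) (.l 34)))))) (.s 3 (.l 98)
      (.l 68))))))) = true := by
  decide +kernel

theorem vm_eR : check 26 18 138 91 8 8 [7, 6, 6, 0] [8, 8, 7, 6, 6, 16] [8, 0, 7, 6, 6, 16] 0 0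
    [(3, 4, 4), (0, 3, 4), (-2, 1, 8), (0, 3, 4), (-3, 3, 4), (1, 1, 1)] pVA pCA
    (.s 3 (.s 0 (.s 3 (.s 3 (.l 14) (.l 6)) (.l 1)) (.s 3 (.s 5 (.s 3 (.s 2 (.s 3 (.l 74) (.s 5
      (.s 0 (.l 16) (.s 3 (.l 50) (.s 5 (.s 2 (.l 21) (.l 35)) (.l 43)))) (.l 60))) (.l 95)) (.s 2
      (.s 1 (.s 0 (.s 3 (.l 13) (.l 2)) (.s 3 (.s 5 (.s 0 (.l 18) (.s 1 (.s 2 (.l 24) (.s 3 (.l
      36) (.l 26))) (.l 14))) (.s 0 (.s 2 (.l 26) (.l 27)) (.s 1 (.s 2 (.s 3 (.l 41) (.s 3 (.l 33)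
      (.l 28))) (.s 2 (.l 43) (.l 47))) (.s 2 (.l 25) (.l 30))))) (.s 5 (.l 11) (.s 1 (.s 0 (.l
      15) (.s 2 (.s 5 .z (.s 2 (.l 18) (.l 23))) (.s 3 (.s 2 (.l 28) (.l 33)) (.s 2 (.l 17) (.l
      25))))) (.l 14))))) (.l 10)) (.s 2 (.s 0 (.l 18) (.s 1 (.s 5 (.s 3 (.l 46) (.s 2 (.l 24) (.l
      33))) (.l 57)) (.l 23))) (.l 70)))) (.s 3 (.l 114) (.s 2 (.s 3 (.l 58) (.s 5 (.s 2 (.s 5 (.s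
      3 (.l 29) (.l 20)) (.l 31)) (.l 39)) (.l 43))) (.l 87)))) (.s 2 (.s 1 (.s 0 (.l 3) (.s 3 (.s
      5 (.s 3 (.s 2 .z (.s 0 .z (.s 2 .z (.l 15)))) .z) (.s 0 (.s 3 (.l 14) (.l 6)) (.s 3 (.s 5
      (.s 2 (.s 3 (.l 16) (.l 6)) (.s 2 (.l 21) (.l 26))) (.l 29)) (.s 2 (.l 7) (.s 2 (.l 12) (.l
      18)))))) (.s 2 .z (.l 8)))) .z) (.s 2 (.s 0 (.l 10) (.s 1 (.s 5 (.s 3 (.s 5 (.l 16) (.s 3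
      (.s 2 (.l 24) (.l 31)) (.l 18))) (.l 4)) (.s 3 (.l 44) (.l 22))) (.l 13))) (.s 5 (.s 5 (.s 2
      (.l 27) (.l 36)) (.l 46)) (.l 62)))))) (.s 2 .z (.s 2 (.l 7) (.l 23)))) = true := by
  decide +kernel

theorem vm_bRRLLRR : check 26 18 131 86 8 8 [7, 6, 6, 0] [8, 8, 7, 6, 6, 16] [8, 0, 7, 6, 6, 16] 0
  0
    [(36, 39, 64), (3, 4, 2), (0, 1, 2), (-1, 1, 1), (-1, 1, 1), (1, 1, 1)] pVA pCA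
    (.s 0 (.s 3 (.s 3 (.s 3 (.s 2 (.s 2 (.l 55) (.l 19)) (.s 2 (.l 24) (.l 61))) (.s 2 (.s 2 (.s 2
      (.l 35) (.l 13)) .z) (.s 2 .z (.s 2 (.s 2 (.l 6) (.l 20)) (.l 43))))) (.s 2 (.s 2 (.s 2 (.l
      20) (.l 2)) .z) (.s 2 .z (.s 2 .z (.l 27))))) (.s 3 (.s 2 (.s 2 (.s 2 (.l 34) (.s 2 (.l 12)
      (.l 2))) .z) (.s 2 .z (.s 2 (.l 5) (.l 25)))) (.s 3 (.s 2 (.s 2 (.s 2 (.l 54) (.s 2 (.l 32)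
      (.l 23))) (.s 3 (.l 3) (.s 2 (.l 15) (.l 2)))) (.s 2 (.s 3 .z (.l 11)) (.s 2 (.s 2 (.l 18)
      (.l 26)) (.l 45)))) (.s 2 (.s 2 (.l 78) (.s 2 (.l 41) (.l 31))) (.s 2 (.s 2 (.l 29) (.l 37))
      (.l 70)))))) (.s 3 (.s 3 (.s 3 (.s 2 (.s 2 (.l 89) (.l 33)) (.s 2 (.l 47) (.l 108))) (.s 2
      (.s 2 (.s 2 (.l 56) (.l 17)) .z) (.s 2 .z (.s 2 (.l 43) (.l 82))))) (.s 2 (.s 2 (.s 2 (.l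
      29) .z) .z) (.s 2 .z (.s 2 .z (.l 57))))) (.s 3 (.s 2 (.s 2 (.s 2 (.l 60) (.s 2 (.l 19) .z))
      .z) (.s 2 .z (.s 2 (.l 15) (.l 56)))) (.s 3 (.s 2 (.s 2 (.s 2 (.l 92) (.s 2 (.l 59) (.l
      43))) (.s 3 (.l 2) (.l 29))) (.s 2 (.s 3 .z (.l 27)) (.s 2 (.s 2 (.l 41) (.l 56)) (.l 88))))
      (.s 2 (.s 2 (.l 124) (.s 2 (.l 76) (.l 60))) (.s 2 (.l 74) (.l 122))))))) = true := by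
  decide +kernel

theorem vm_aLLL : check 26 18 94 60 8 8 [7, 6, 6, 0] [8, 8, 7, 6, 6, 16] [8, 0, 7, 6, 6, 16] 0 0
    [(0, 3, 4), (0, 1, 1), (-2, -1, 2), (-1, 1, 1), (-2, -1, 2), (1, 1, 1)] pVA pCA
    (.s 5 (.s 0 (.s 0 (.s 5 .z (.s 0 (.s 2 (.l 1) (.l 1)) (.s 0 (.s 2 (.l 1) (.l 1)) (.s 0 (.s 0
      (.s 2 (.l 1) (.l 1)) (.s 5 (.l 1) (.s 3 (.l 2) (.l 1)))) (.s 5 (.l 1) (.s 3 (.l 2) (.l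
      1))))))) (.l 1)) (.l 1)) (.s 5 (.s 2 (.s 3 (.l 7) (.s 0 (.s 1 (.l 4) (.s 2 (.l 3) (.s 3 (.l
      2) (.l 1)))) (.l 3))) (.s 3 (.s 2 (.l 8) (.l 15)) (.s 1 (.l 6) (.s 2 (.s 0 (.s 5 (.l 1) (.s
      1 (.l 3) (.s 3 (.l 2) (.l 1)))) (.l 2)) (.s 0 (.l 4) (.l 7)))))) (.s 2 (.s 3 (.l 27) (.s 2
      (.l 15) (.s 1 (.l 11) (.s 3 (.s 0 (.l 7) (.l 10)) (.s 5 (.s 3 (.s 3 (.l 4) (.l 3)) (.s 0 (.l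
      2) (.l 2))) (.s 5 (.s 0 (.l 4) (.l 4)) (.l 8))))))) (.s 2 (.s 3 (.l 35) (.s 1 (.l 15) (.s 3
      (.s 5 (.s 2 (.l 7) (.l 10)) (.l 20)) (.s 5 (.s 0 (.s 1 (.l 4) (.s 2 (.l 2) (.l 3))) (.l 4))
      (.s 2 (.s 0 (.s 2 (.l 5) (.l 6)) (.s 2 (.l 6) (.l 8))) (.l 14)))))) (.l 52))))) = true := by
  decide +kernel

theorem vm_aR : check 26 18 78 47 8 8 [7, 6, 6, 0] [8, 8, 7, 6, 6, 16] [8, 0, 7, 6, 6, 16] 0 0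
    [(0, 3, 4), (0, 1, 1), (-1, 0, 1), (-1, 1, 1), (0, 1, 1), (1, 1, 1)] pVA pCA
    (.s 5 .z (.s 5 (.s 1 (.l 4) (.s 1 .z (.s 1 (.l 1) (.s 5 (.l 2) (.s 3 (.s 2 .z .z) (.s 3 (.l 1)
      (.s 2 (.l 14) (.l 14)))))))) (.s 0 (.s 2 (.s 2 (.s 2 (.l 19) (.l 5)) (.l 1)) (.s 2 (.l 1)
      (.s 2 (.l 7) (.l 14)))) (.s 2 (.s 2 (.s 2 (.s 2 (.l 53) (.l 23)) (.l 5)) .z) (.s 2 .z (.s 2
      (.l 7) (.s 2 (.l 26) (.l 65)))))))) = true := by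
  decide +kernel

theorem vm_cRRL : check 26 18 141 98 8 8 [7, 6, 6, 0] [8, 8, 7, 6, 6, 16] [8, 0, 7, 6, 6, 16] 0 0
    [(3, 4, 4), (3, 4, 2), (1, 4, 8), (-6, -3, 8), (-3, 3, 4), (1, 1, 1)] pVA pCA
    (.s 3 (.s 3 (.s 3 (.l 101) (.l 40)) (.s 2 (.l 18) .z)) (.s 3 (.s 2 (.s 2 (.l 82) (.l 46)) (.l
      8)) (.s 2 (.l 150) (.s 3 (.l 50) (.l 109))))) = true := by
  decide +kernel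

theorem xm_b : check 32 24 57 42 6 3 [3, 3, 6, 0] [6, 3, 3, 3, 6, 9] [6, 0, 3, 3, 6, 9] 0 0
    [(-8, 8, 8), (-1, 1, 1), (5, 8, 8), (0, 3, 8), (-1, 1, 1), (1, 1, 1)] pXA pDA
    (.s 3 (.s 5 (.s 0 (.s 0 (.s 3 (.s 5 .z (.s 3 (.l 11) (.s 5 (.s 3 .z (.s 5 .z (.s 1 (.s 3 .z
      (.s 1 (.l 10) (.l 3))) .z))) (.s 3 (.l 25) (.s 5 (.s 3 (.l 14) (.s 1 (.l 12) (.l 1))) (.l
      12)))))) (.s 5 (.s 3 (.s 3 .z (.l 26)) (.l 37)) (.s 1 (.s 3 (.s 2 (.s 5 (.s 0 (.s 0 (.s 0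
      (.s 3 (.s 0 (.s 5 (.s 1 (.s 3 .z (.l 13)) (.l 10)) (.s 1 (.s 3 (.s 5 (.l 8) (.l 9)) (.s 2
      (.l 10) (.l 13))) (.l 18))) (.l 14)) (.s 5 (.s 3 (.s 5 (.l 16) (.l 18)) (.l 18)) (.l 17)))
      (.l 22)) (.l 20)) (.l 18)) (.l 15)) (.l 55)) (.s 2 (.l 29) (.l 57))) (.l 65)))) (.s 3 (.l 2)
      (.s 3 (.l 59) (.l 65)))) (.l 75)) (.s 0 (.l 75) (.s 0 (.s 3 (.l 2) (.s 3 (.l 59) (.l 65)))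
      (.s 3 (.s 5 (.s 3 (.l 11) (.s 5 (.s 3 (.l 25) (.s 5 (.l 12) (.s 3 (.l 14) (.s 1 (.l 12) (.l
      1))))) (.s 3 .z (.s 5 (.s 1 (.s 3 .z (.s 1 (.l 10) (.l 3))) .z) .z)))) .z) (.s 5 (.s 1 (.s 3
      (.s 2 (.s 5 (.l 15) (.s 0 (.l 18) (.s 0 (.l 20) (.s 0 (.l 22) (.s 3 (.s 0 (.l 14) (.s 5 (.s
      1 (.s 3 (.s 5 (.l 9) (.l 8)) (.s 2 (.l 10) (.l 13))) (.l 18)) (.s 1 (.s 3 .z (.l 13)) (.l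
      10)))) (.s 5 (.l 17) (.s 3 (.s 5 (.l 18) (.l 16)) (.l 18)))))))) (.l 55)) (.s 2 (.l 29) (.l
      57))) (.l 65)) (.s 3 (.s 3 .z (.l 26)) (.l 37))))))) (.s 5 (.s 0 (.l 75) (.s 0 (.s 3 (.s 3
      (.l 65) (.l 59)) (.l 2)) (.s 3 (.s 5 (.s 3 (.l 37) (.s 3 (.l 26) .z)) (.s 1 (.s 3 (.s 2 (.l
      29) (.l 57)) (.s 2 (.s 5 (.s 0 (.l 18) (.s 0 (.l 20) (.s 0 (.l 22) (.s 3 (.s 5 (.s 3 (.l 18)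
      (.s 5 (.l 16) (.l 18))) (.l 17)) (.s 0 (.l 14) (.s 5 (.s 1 (.s 3 (.l 13) .z) (.l 10)) (.s 1
      (.s 3 (.s 2 (.l 10) (.l 13)) (.s 5 (.l 8) (.l 9))) (.l 18)))))))) (.l 15)) (.l 55))) (.l
      65))) (.s 5 .z (.s 3 (.s 5 (.s 3 (.s 5 .z (.s 1 (.s 3 (.s 1 (.l 10) (.l 3)) .z) .z)) .z) (.s
      3 (.s 5 (.s 3 (.s 1 (.l 12) (.l 1)) (.l 14)) (.l 12)) (.l 25))) (.l 11)))))) (.s 0 (.s 0 (.s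
      3 (.s 5 (.s 1 (.s 3 (.s 2 (.l 29) (.l 57)) (.s 2 (.s 5 (.l 15) (.s 0 (.s 0 (.s 0 (.s 3 (.s 5
      (.l 17) (.s 3 (.l 18) (.s 5 (.l 18) (.l 16)))) (.s 0 (.s 5 (.s 1 (.s 3 (.s 2 (.l 10) (.l
      13)) (.s 5 (.l 9) (.l 8))) (.l 18)) (.s 1 (.s 3 (.l 13) .z) (.l 10))) (.l 14))) (.l 22)) (.l
      20)) (.l 18))) (.l 55))) (.l 65)) (.s 3 (.l 37) (.s 3 (.l 26) .z))) (.s 5 (.s 3 (.s 5 (.s 3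
      (.s 5 (.l 12) (.s 3 (.s 1 (.l 12) (.l 1)) (.l 14))) (.l 25)) (.s 3 (.s 5 (.s 1 (.s 3 (.s 1
      (.l 10) (.l 3)) .z) .z) .z) .z)) (.l 11)) .z)) (.s 3 (.s 3 (.l 65) (.l 59)) (.l 2))) (.l
      75)))) = true := by
  decide +kernel

theorem xb_c0 : check 32 24 86 0 6 0 [3, 3, 6, 7] [6, 3, 3, 3, 6, 7] [6, 0, 3, 3, 6, 7] 2 0
    [(-1, 1, 8), (-1, -1, 8), (-1, 1, 8), (-1, 1, 8), (-1, 1, 8), (0, 1, 1)] pQA Po.o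
    (.s 1 (.s 2 (.s 1 .z (.s 2 .z (.s 3 (.s 5 .z .z) (.s 5 .z .z)))) (.s 1 (.s 2 .z .z) (.s 2 (.s
      5 (.s 3 (.s 1 .z (.s 2 .z .z)) (.s 1 .z (.s 1 .z .z))) (.s 3 (.s 1 .z (.s 1 .z .z)) (.s 1 .z
      (.s 2 .z .z)))) .z))) (.s 2 (.s 2 (.s 1 .z .z) (.s 1 (.s 3 (.s 5 (.s 2 .z (.s 1 .z .z)) (.s
      2 .z (.s 1 .z .z))) (.s 5 (.s 2 .z (.s 1 .z .z)) (.s 2 .z (.s 1 .z .z)))) .z)) (.s 1 (.s 2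
      (.s 3 (.s 5 .z .z) (.s 5 .z .z)) .z) .z))) = true := by
  decide +kernel

theorem xm_j : check 32 24 76 57 6 3 [3, 3, 6, 0] [6, 3, 3, 3, 6, 9] [6, 0, 3, 3, 6, 9] 0 0
    [(-1, 1, 8), (1, 8, 8), (3, 5, 8), (3, 5, 8), (-1, 1, 8), (1, 1, 1)] pXA pDA
    (.s 1 (.s 0 (.s 2 (.s 0 (.s 3 (.s 5 (.l 223) (.l 233)) (.s 5 (.l 233) (.l 223))) (.l 233)) (.s
      1 (.l 235) (.s 2 (.s 0 (.s 5 (.s 3 (.l 236) (.l 236)) (.s 3 (.l 236) (.l 236))) (.l 235))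
      (.l 236)))) (.l 234)) (.s 0 (.s 2 (.s 2 (.l 235) (.s 1 (.s 0 (.s 3 (.s 5 (.l 236) (.l 236))
      (.s 5 (.l 236) (.l 236))) (.l 235)) (.l 236))) (.s 0 (.s 1 (.s 2 (.s 1 (.s 2 (.s 1 (.s 2 (.s
      1 (.s 2 (.s 3 (.s 5 (.l 235) (.l 236)) (.s 5 (.l 236) (.l 235))) (.l 246)) (.l 246)) (.l
      239)) (.l 239)) (.l 237)) (.l 237)) (.l 236)) (.l 236)) (.l 235))) (.l 234))) = true := by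
  decide +kernel

theorem xb_u1 : check 32 24 79 0 6 3 [3, 3, 0, 7] [6, 3, 3, 3, 6, 7] [6, 0, 3, 3, 6, 7] 2 0
    [(-1, 1, 8), (-1, 1, 8), (-1, 1, 8), (-1, 1, 8), (1, 1, 8), (0, 1, 1)] pQA Po.o
    (.s 2 (.s 1 .z (.s 1 .z .z)) (.s 1 (.s 1 .z .z) .z)) = true := by
  decide +kernel

theorem xb_x1 : check 32 24 86 0 6 3 [0, 3, 6, 7] [6, 3, 3, 3, 6, 7] [6, 0, 3, 3, 6, 7] 2 0
    [(-1, 1, 8), (-1, 1, 8), (1, 1, 8), (-1, 1, 8), (-1, 1, 8), (0, 1, 1)] pQA Po.o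
    .z = true := by
  decide +kernel

end Pool.Agent.MP_90395b_gt.Bn
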