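import Pool.Agent.Mg.F90395b.G8570e2

section

namespace Pool.Agent.MP_90395b_gt.As

open Pool.Agent.MP_90395b_gt.W5

/-- oriented facet of the hull of `a` -/
def CntT {n : ℕ} (a : Fin n → V3) (i j k : Fin n) : Prop :=
  i ≠ j ∧ k ≠ i ∧ k ≠ j ∧ ∀ z, dt (a j - a i) (a k - a i) (a z - a i) ≤ 0

/-- oriented facet whose first vertex has the middle height -/
def CntM {n : ℕ} (a : Fin n → V3) (σ : ℝ) (v p q : Fin n) : Prop :=
  CntT a v p q ∧ 0 < σ * (a p 0 - a v 0) ∧ σ * (a q 0 - a v 0) < 0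

lemma cnt_sub (x y P Q : V3) : ip x (cr P Q) - ip y (cr P Q) = dt P Q (x - y) := by
  rw [ip_cr, ip_cr]; simp only [dt, Pi.sub_apply]; ring

lemma CntT.rot {n : ℕ} {a : Fin n → V3} {i j k : Fin n} (h : CntT a i j k) : CntT a j k i := by
  refine ⟨h.2.2.1.symm, h.1, h.2.1.symm, fun z => le_of_eq_of_le ?_ (h.2.2.2 z)⟩
  simp only [dt, Pi.sub_apply]; ring

lemma cnt_key {n : ℕ} {a b : Fin n → V3} (hG : Gen a b) {σ : ℝ} {v p q p' q' : Fin n}
    (h : CntM a σ v p q) (h' : CntM a σ v p' q') : p = p' ∧ q = q' := by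
  obtain ⟨⟨n1, n2, n3, t⟩, s1, s2⟩ := h
  obtain ⟨⟨m1, m2, -, t'⟩, r1, r2⟩ := h'
  have e : σ * (a p 0 - a v 0) * dt (a p' - a v) (a q' - a v) (a q - a v)
      + -(σ * (a q 0 - a v 0)) * dt (a p' - a v) (a q' - a v) (a p - a v)
      + σ * (a p' 0 - a v 0) * dt (a p - a v) (a q - a v) (a q' - a v)
      + -(σ * (a q' 0 - a v 0)) * dt (a p - a v) (a q - a v) (a p' - a v) = 0 := by
    simp only [dt, Pi.sub_apply]; ring
  have b1 := mul_nonpos_of_nonneg_of_nonpos s1.le (t' q)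
  have b2 := mul_nonpos_of_nonneg_of_nonpos (neg_pos.2 s2).le (t' p)
  have b3 := mul_nonpos_of_nonneg_of_nonpos r1.le (t q')
  have b4 := mul_nonpos_of_nonneg_of_nonpos (neg_pos.2 r2).le (t p')
  constructor
  · by_contra hn
    refine mul_ne_zero (neg_pos.2 r2).ne' (hG.aaa v p q p' n1 n2.symm m1 n3.symm hn ?_)
      (by linarith)
    rintro rfl
    linarith
  · by_contra hn
    refine mul_ne_zero r1.ne' (hG.aaa v p q q' n1 n2.symm m2.symm n3.symm ?_ hn) (by linarith)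
    rintro rfl
    linarith

theorem card_tri {n : ℕ} (a b : Fin n → V3) (hG : Gen a b) : (triSet a b).card ≤ 6 * n := by
  classical
  have hT : ∀ t ∈ triSet a b, CntT a t.1 t.2.1 t.2.2.1 := fun t ht => by
    obtain ⟨h1, h2, h3, h4, -⟩ := (Finset.mem_filter.1 ht).2
    exact ⟨h1, h2, h3, fun z => by rw [← cnt_sub]; exact sub_nonpos.2 (h4 z)⟩
  have key := Finset.card_le_card_of_forall_subsingleton
    (s := triSet a b) (t := (Finset.univ : Finset (Fin n × Bool × Fin 3)))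
    (fun t c => ∃ p q, CntM a (if c.2.1 then 1 else -1) c.1 p q ∧
      (t.1, t.2.1, t.2.2.1) = ![(c.1, p, q), (q, c.1, p), (p, q, c.1)] c.2.2)
    (fun t ht => ?_) fun c _ t ht t' ht' => ?_
  · simpa [mul_comm] using key
  · obtain ⟨i, j, k, l⟩ := t
    have h0 : CntT a i j k := hT _ ht
    have h1 := h0.rot
    have h2 := h1.rot
    rcases (hG.ht i j h0.1).lt_or_gt with x | x <;>
      rcases (hG.ht k i h0.2.1).lt_or_gt with y | y <;>
      rcases (hG.ht k j h0.2.2.1).lt_or_gt with z | z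
    · exact ⟨(i, true, 0), Finset.mem_univ _, j, k, ⟨h0, by simpa, by simpa⟩, rfl⟩
    · linarith
    · exact ⟨(k, false, 2), Finset.mem_univ _, i, j, ⟨h2, by simpa, by simpa⟩, rfl⟩
    · exact ⟨(j, true, 1), Finset.mem_univ _, k, i, ⟨h1, by simpa, by simpa⟩, rfl⟩
    · exact ⟨(j, false, 1), Finset.mem_univ _, k, i, ⟨h1, by simpa, by simpa⟩, rfl⟩
    · exact ⟨(k, true, 2), Finset.mem_univ _, i, j, ⟨h2, by simpa, by simpa⟩, rfl⟩
    · linarith
    · exact ⟨(i, false, 0), Finset.mem_univ _, j, k, ⟨h0, by simpa, by simpa⟩, rfl⟩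
  · obtain ⟨m, p, q, h1, e1⟩ := ht
    obtain ⟨m', p', q', h2, e2⟩ := ht'
    obtain ⟨rfl, rfl⟩ := cnt_key hG h1 h2
    obtain ⟨i, j, k, l⟩ := t
    obtain ⟨i', j', k', l'⟩ := t'
    obtain ⟨rfl, rfl, rfl⟩ : i = i' ∧ j = j' ∧ k = k' := by simpa using e1.trans e2.symm
    obtain ⟨n1, n2, n3, -, u1⟩ := (Finset.mem_filter.1 m).2
    obtain ⟨-, -, -, -, u2⟩ := (Finset.mem_filter.1 m').2
    obtain rfl : l = l' := by
      by_contra hn
      refine hG.aab i j k l l' n1 n2.symm n3.symm hn ?_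
      rw [← cnt_sub]
      exact sub_eq_zero.2 (le_antisymm (u1 l') (u2 l))
    rfl

end Pool.Agent.MP_90395b_gt.As

end

section

namespace Pool.Agent.MP_90395b_gt.As

open Pool.Agent.MP_90395b_gt.W5 MeasureTheory

namespace Vol

/-- open standard simplex -/
def simp3 : Set V3 := {y | (∀ i, 0 < y i) ∧ ∑ i, y i < 1}

lemma simp3_open : IsOpen simp3 := by
  have h1 : IsOpen {y : V3 | ∀ i, 0 < y i} := by
    rw [Set.ofPred_forall]
    exact isOpen_iInter_of_finite fun i => isOpen_lt continuous_const (continuous_apply i)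
  have h2 : IsOpen {y : V3 | ∑ i, y i < 1} := isOpen_lt (by fun_prop) continuous_const
  exact h1.inter h2

/-- sign change -/
def sgn3 (e : Fin 3 → Bool) (y : V3) : V3 := fun i => if e i then y i else - y i

lemma sgn3_mp (e : Fin 3 → Bool) : MeasurePreserving (sgn3 e) := by
  have h : ∀ i : Fin 3, MeasurePreserving (fun t : ℝ => if e i then t else - t) := by
    intro i
    cases e i
    · simpa using Measure.measurePreserving_neg (volume : Measure ℝ)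
    · exact MeasurePreserving.id (volume : Measure ℝ)
  exact volume_preserving_pi h

lemma vol_simp3 : volume simp3 ≤ ENNReal.ofReal (1 / 6) := by
  have hoct := volume_sum_rpow_lt_one (Fin 3) (p := 1) le_rfl
  have hval : (2 * Real.Gamma (1 / 1 + 1)) ^ Fintype.card (Fin 3) /
      Real.Gamma ((Fintype.card (Fin 3) : ℝ) / 1 + 1) = 8 * (1 / 6) := by
    have h1 : Real.Gamma (1 / 1 + 1) = 1 := by
      have := Real.Gamma_nat_eq_factorial 1
      norm_num at this ⊢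
    have h3 : Real.Gamma ((Fintype.card (Fin 3) : ℝ) / 1 + 1) = 6 := by
      have := Real.Gamma_nat_eq_factorial 3
      simp only [Fintype.card_fin, div_one]
      rw [this]; norm_num [Nat.factorial]
    rw [h1, h3]; simp; norm_num
  rw [hval] at hoct
  have hm : ∀ e : Fin 3 → Bool, MeasurableSet (sgn3 e ⁻¹' simp3) := fun e =>
    (sgn3_mp e).measurable simp3_open.measurableSet
  have hd : Pairwise (Function.onFun Disjoint fun e : Fin 3 → Bool => sgn3 e ⁻¹' simp3) := by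
    intro e e' hne
    rw [Function.onFun, Set.disjoint_left]
    intro y hy hy'
    apply hne
    funext i
    have h1 := hy.1 i
    have h2 := hy'.1 i
    simp only [sgn3] at h1 h2
    cases h3 : e i <;> cases h4 : e' i <;> simp [h3, h4] at h1 h2 ⊢ <;> linarith
  have hU := measure_iUnion (μ := (volume : Measure V3)) hd hm
  have hsub : (⋃ e : Fin 3 → Bool, sgn3 e ⁻¹' simp3) ⊆ {x : V3 | ∑ i, |x i| ^ (1 : ℝ) < 1} := by
    intro y hy
    obtain ⟨e, he⟩ := Set.mem_iUnion.mp hy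
    have h2 : ∑ i, sgn3 e y i < 1 := he.2
    have h3 : ∀ i, |y i| ^ (1 : ℝ) = sgn3 e y i := by
      intro i
      have h1 := he.1 i
      rw [Real.rpow_one]
      simp only [sgn3] at h1 ⊢
      cases h3 : e i <;> simp [h3] at h1 ⊢
      · exact h1.le
      · exact h1.le
    simp only [Set.mem_ofPred_eq, h3]
    exact h2
  have hle := measure_mono (μ := (volume : Measure V3)) hsub
  rw [hU, hoct, tsum_fintype] at hle
  have he : ∀ e : Fin 3 → Bool, volume (sgn3 e ⁻¹' simp3) = volume simp3 := fun e =>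
    (sgn3_mp e).measure_preimage simp3_open.measurableSet.nullMeasurableSet
  simp only [he, Finset.sum_const, Finset.card_univ, Fintype.card_pi, Fintype.card_bool,
    Finset.prod_const, Fintype.card_fin, nsmul_eq_mul] at hle
  rw [ENNReal.ofReal_mul (by norm_num)] at hle
  have h8 : ENNReal.ofReal 8 = ((2 ^ 3 : ℕ) : ENNReal) := by norm_num
  rw [h8] at hle
  exact (ENNReal.mul_le_mul_iff_right (by norm_num) (by simp)).mp hle

/-- open tetrahedron with apex `0` -/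
def tet (p q w : V3) : Set V3 :=
  {x | ∃ s t v : ℝ, 0 < s ∧ 0 < t ∧ 0 < v ∧ s + t + v < 1 ∧ x = s • p + t • q + v • w}

lemma vol_tet (p q w : V3) (h : 0 ≤ dt p q w) :
    volume (tet p q w) ≤ ENNReal.ofReal (dt p q w / 6) := by
  have hsub : tet p q w ⊆ Matrix.toLin' (Matrix.of ![p, q, w]).transpose '' simp3 := by
    rintro x ⟨s, t, v, hs, ht, hv, h1, rfl⟩
    refine ⟨![s, t, v], ⟨fun i => ?_, ?_⟩, ?_⟩
    · fin_cases i <;> simpa
    · simpa [Fin.sum_univ_three] using h1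
    · funext i
      simp [Matrix.toLin'_apply, Matrix.mulVec, dotProduct, Fin.sum_univ_three]
      ring
  refine (measure_mono hsub).trans ?_
  rw [Measure.addHaar_image_linearMap, LinearMap.det_toLin', Matrix.det_transpose]
  have hdet : (Matrix.of ![p, q, w]).det = dt p q w := by
    rw [Matrix.det_fin_three]; simp; unfold dt; ring
  rw [hdet, abs_of_nonneg h, div_eq_mul_one_div, ENNReal.ofReal_mul h]
  exact mul_le_mul_right vol_simp3 _

lemma vol_ball (r : ℝ) (hr : 0 < r) :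
    volume {x : V3 | ip x x < r ^ 2} = ENNReal.ofReal (r ^ 3 * (Real.pi * 4 / 3)) := by
  have h := EuclideanSpace.volume_ball_fin_three 0 r
  rw [← (PiLp.volume_preserving_toLp (Fin 3)).measure_preimage
    measurableSet_ball.nullMeasurableSet] at h
  rw [ENNReal.ofReal_mul (by positivity), ENNReal.ofReal_pow hr.le, ← h]
  congr 1
  ext x
  simp only [Set.mem_ofPred_eq, Set.mem_preimage, mem_ball_zero_iff, EuclideanSpace.norm_eq,
    Real.norm_eq_abs, sq_abs, Fin.sum_univ_three]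
  rw [Real.sqrt_lt' hr]
  unfold ip
  constructor <;> intro h <;> nlinarith

lemma vol_plane (v : V3) (hv : 0 < ip v v) : volume {x : V3 | ip x v = 0} = 0 := by
  let f : V3 →ₗ[ℝ] ℝ :=
    { toFun := fun x => ip x v
      map_add' := fun x y => add_ip v x y
      map_smul' := fun t x => smul_ip v x t }
  have h : (LinearMap.ker f) ≠ ⊤ := by
    intro h
    have : v ∈ LinearMap.ker f := h ▸ Submodule.mem_top
    exact hv.ne' this
  exact Measure.addHaar_submodule volume (LinearMap.ker f) h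

lemma inr_scale {n : ℕ} {a : Fin n → V3} {r : ℝ} (ha : Inr a r) (u : V3) :
    ∃ z, r * Real.sqrt (ip u u) ≤ ip (a z) u := by
  rcases (ip_nonneg u).lt_or_eq with h | h
  · have hs : 0 < Real.sqrt (ip u u) := Real.sqrt_pos.mpr h
    have hs2 := Real.mul_self_sqrt h.le
    obtain ⟨z, hz⟩ := ha ((Real.sqrt (ip u u))⁻¹ • u) (by
      rw [ip_smul, smul_ip]; field_simp; nlinarith)
    refine ⟨z, ?_⟩
    rw [ip_smul, ← div_eq_inv_mul, le_div_iff₀ hs] at hz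
    exact hz
  · obtain ⟨z, -⟩ := ha ![1, 0, 0] (by simp [ip])
    refine ⟨z, ?_⟩
    have h1 := ip_cs (a z) u
    rw [← h] at h1 ⊢
    have h2 : ip (a z) u = 0 := by nlinarith [sq_nonneg (ip (a z) u)]
    simp [h2]

lemma DT_nonneg {n : ℕ} {a b : Fin n → V3} {r : ℝ} (hr : 0 < r) (ha : Inr a r) (t : I4 n)
    (ht : Tri a b t) : 0 ≤ DT a t := by
  obtain ⟨z, hz⟩ := inr_scale ha (cr (a t.2.1 - a t.1) (a t.2.2.1 - a t.1))
  have h1 := ht.2.2.2.1 z
  have h2 : ip (a t.1) (cr (a t.2.1 - a t.1) (a t.2.2.1 - a t.1)) = DT a t := by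
    simp [ip, cr, DT, dt]; ring
  have h3 : 0 ≤ r * Real.sqrt (ip (cr (a t.2.1 - a t.1) (a t.2.2.1 - a t.1))
    (cr (a t.2.1 - a t.1) (a t.2.2.1 - a t.1))) := by positivity
  linarith

/-- the dual linear programme has an optimum -/
lemma ex_opt {n : ℕ} {a : Fin n → V3} {r : ℝ} (hr : 0 < r) (ha : Inr a r) (x : V3) :
    ∃ u : V3, (∀ z, ip (a z) u ≤ 1) ∧ r ^ 2 * ip u u ≤ 1 ∧
      ∀ v : V3, (∀ z, ip (a z) u = 1 → ip (a z) v ≤ 0) → ip x v ≤ 0 := by
  have hb : ∀ u : V3, (∀ z, ip (a z) u ≤ 1) → r ^ 2 * ip u u ≤ 1 := by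
    intro u hu
    obtain ⟨z, hz⟩ := inr_scale ha u
    have h1 := hz.trans (hu z)
    have h2 := Real.mul_self_sqrt (ip_nonneg u)
    have h3 : 0 ≤ r * Real.sqrt (ip u u) := by positivity
    nlinarith
  have hcont : ∀ y : V3, Continuous fun u : V3 => ip y u := fun y => by unfold ip; fun_prop
  have hK : IsCompact {u : V3 | ∀ z, ip (a z) u ≤ 1} := by
    apply Metric.isCompact_of_isClosed_isBounded
    · rw [Set.ofPred_forall]
      exact isClosed_iInter fun z => isClosed_le (hcont _) continuous_const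
    · rw [isBounded_iff_forall_norm_le]
      refine ⟨1 / r, fun u hu => ?_⟩
      have h1 := hb u hu
      rw [pi_norm_le_iff_of_nonneg (by positivity)]
      intro i
      rw [Real.norm_eq_abs, le_div_iff₀ hr]
      have h2 : u i ^ 2 ≤ ip u u := by
        unfold ip
        fin_cases i <;> simp <;> nlinarith [sq_nonneg (u 0), sq_nonneg (u 1), sq_nonneg (u 2)]
      have h3 : (|u i| * r) ^ 2 ≤ 1 ^ 2 := by
        rw [mul_pow, sq_abs]; nlinarith [mul_le_mul_of_nonneg_left h2 (sq_nonneg r)]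
      exact (abs_le_of_sq_le_sq' h3 zero_le_one).2
  obtain ⟨u, hu, hmax⟩ := hK.exists_isMaxOn ⟨0, fun z => by simp [ip]⟩ (hcont x).continuousOn
  refine ⟨u, hu, hb u hu, fun v hv => ?_⟩
  have hev : ∀ᶠ e in nhdsWithin (0 : ℝ) (Set.Ioi 0), ∀ z, ip (a z) (u + e • v) ≤ 1 := by
    rw [Filter.eventually_all]
    intro z
    rcases (hu z).lt_or_eq with h | h
    · apply Filter.Eventually.filter_mono nhdsWithin_le_nhds
      have hc : Continuous fun e : ℝ => ip (a z) (u + e • v) := (hcont _).comp (by fun_prop)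
      have := hc.continuousAt (x := 0).eventually_lt (continuousAt_const (y := (1 : ℝ)))
        (by simpa using h)
      exact this.mono fun e he => he.le
    · filter_upwards [self_mem_nhdsWithin] with e he
      rw [ip_add, ip_smul, h]
      have := mul_nonpos_of_nonneg_of_nonpos (le_of_lt he) (hv z h)
      linarith
  obtain ⟨e, he1, he2⟩ := (hev.and self_mem_nhdsWithin).exists
  have h1 : ip x (u + e • v) ≤ ip x u := hmax he1
  rw [ip_add, ip_smul] at h1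
  have he3 : 0 < e := he2
  by_contra h
  push Not at h
  have := mul_pos he3 h
  linarith

lemma eq_zero_of_ip (p q w u : V3) (h : dt p q w ≠ 0) (h1 : ip p u = 0) (h2 : ip q u = 0)
    (h3 : ip w u = 0) (y : V3) : ip y u = 0 := by
  have : dt p q w * ip y u = dt y q w * ip p u + dt p y w * ip q u + dt p q y * ip w u := by
    unfold dt ip; ring
  rw [h1, h2, h3] at this
  simpa [h] using this

/-- three tight constraints with positive orientation give three rotated facets -/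
lemma tri_of_tight {n : ℕ} (a b : Fin n → V3) (u : V3) (hu : ∀ z, ip (a z) u ≤ 1) (i j k : Fin n)
    (hij : i ≠ j) (hik : i ≠ k) (hjk : j ≠ k) (hi : ip (a i) u = 1) (hj : ip (a j) u = 1)
    (hk : ip (a k) u = 1) (hd : 0 < dt (a i) (a j) (a k)) : ∃ l, Tri a b (i, j, k, l) := by
  obtain ⟨l, -, hl⟩ := Finset.exists_max_image Finset.univ
    (fun z => ip (b z) (cr (a j - a i) (a k - a i))) ⟨i, Finset.mem_univ _⟩
  refine ⟨l, hij, hik.symm, hjk.symm, fun z => ?_, fun z => hl z (Finset.mem_univ _)⟩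
  have key : ∀ y : V3, ip y (cr (a j - a i) (a k - a i)) = dt (a i) (a j) (a k) * ip y u := by
    intro y
    have : dt (a i) (a j) (a k) * ip y u = dt y (a j) (a k) * ip (a i) u
        + dt (a i) y (a k) * ip (a j) u + dt (a i) (a j) y * ip (a k) u := by
      unfold dt ip; ring
    rw [this, hi, hj, hk]
    simp [ip, cr, dt]; ring
  show ip (a z) (cr (a j - a i) (a k - a i)) ≤ ip (a i) (cr (a j - a i) (a k - a i))
  rw [key, key, hi]
  exact mul_le_mul_of_nonneg_left (hu z) hd.le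

lemma tet_rot (p q w x : V3) (h : x ∈ tet p q w) : x ∈ tet q w p := by
  obtain ⟨s, t, v, hs, ht, hv, h1, rfl⟩ := h
  exact ⟨t, v, s, ht, hv, hs, by linarith, by abel⟩

lemma dt_rot (p q w : V3) : dt q w p = dt p q w := by unfold dt; ring

/-- a generic point of the ball lies in the tetrahedron of a facet -/
lemma cover {n : ℕ} (a b : Fin n → V3) (hG : Gen a b) (r : ℝ) (hr : 0 < r) (ha : Inr a r)
    (V : Fin n → Fin n → V3) (hV1 : ∀ i j, ip (V i j) (a i) = 0)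
    (hV2 : ∀ i j, ip (V i j) (a j) = 0) (x : V3) (hx : ip x x < r ^ 2)
    (hg : ∀ i j, ip x (V i j) ≠ 0) :
    ∃ i j k, x ∈ tet (a i) (a j) (a k) ∧ (∃ l, Tri a b (i, j, k, l)) ∧
      (∃ l, Tri a b (j, k, i, l)) ∧ (∃ l, Tri a b (k, i, j, l)) := by
  obtain ⟨u, hu, hub, hopt⟩ := ex_opt hr ha x
  obtain ⟨z0, -⟩ := inr_scale ha u
  have hthird : ∀ i j, ∃ k, ip (a k) u = 1 ∧ k ≠ i ∧ k ≠ j := by
    intro i j
    by_contra hcon
    push Not at hcon
    have h0 : ∀ z, ip (a z) u = 1 → ip (a z) (V i j) = 0 := by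
      intro z hz
      by_cases hzi : z = i
      · rw [hzi, ip_comm, hV1]
      · rw [hcon z hz hzi, ip_comm, hV2]
    have h1 := hopt (V i j) fun z hz => (h0 z hz).le
    have h2 := hopt ((-1 : ℝ) • V i j) fun z hz => by rw [ip_smul, h0 z hz]; simp
    rw [ip_smul] at h2
    exact hg i j (by linarith)
  have main : ∀ i j k, i ≠ j → i ≠ k → j ≠ k → ip (a i) u = 1 → ip (a j) u = 1 →
      ip (a k) u = 1 → 0 < dt (a i) (a j) (a k) →
      x ∈ tet (a i) (a j) (a k) ∧ (∃ l, Tri a b (i, j, k, l)) ∧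
      (∃ l, Tri a b (j, k, i, l)) ∧ (∃ l, Tri a b (k, i, j, l)) := by
    intro i j k hij hik hjk hi hj hk hd
    refine ⟨?_, tri_of_tight a b u hu i j k hij hik hjk hi hj hk hd,
      tri_of_tight a b u hu j k i hjk hij.symm hik.symm hj hk hi (by rwa [dt_rot]),
      tri_of_tight a b u hu k i j hik.symm hjk.symm hij hk hi hj (by rwa [← dt_rot])⟩
    have hA : ∀ z, ip (a z) u = 1 → z = i ∨ z = j ∨ z = k := by
      intro z hz
      by_contra hcon
      push Not at hcon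
      have h4 := hG.aaa i j k z hij hik (Ne.symm hcon.1) hjk (Ne.symm hcon.2.1)
        (Ne.symm hcon.2.2)
      have := eq_zero_of_ip _ _ _ u h4 (by rw [sub_ip, hj, hi]; simp)
        (by rw [sub_ip, hk, hi]; simp) (by rw [sub_ip, hz, hi]; simp) (a i)
      rw [hi] at this
      exact one_ne_zero this
    have pos : ∀ i' j' k', (∀ z, ip (a z) u = 1 → z = i' ∨ z = j' ∨ z = k') →
        0 < dt (a i') (a j') (a k') → 0 < dt x (a j') (a k') := by
      intro i' j' k' hA' hd'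
      have h1 := hopt ((-1 : ℝ) • cr (a j') (a k')) fun z hz => by
        rw [ip_smul, ip_cr]
        rcases hA' z hz with h | h | h <;> rw [h]
        · rw [← dt_rot] at hd'; linarith
        · have : dt (a j') (a k') (a j') = 0 := by unfold dt; ring
          rw [this]; simp
        · have : dt (a j') (a k') (a k') = 0 := by unfold dt; ring
          rw [this]; simp
      rw [ip_smul, ip_cr, dt_rot] at h1
      rcases (show 0 ≤ dt x (a j') (a k') by linarith).lt_or_eq with h2 | h2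
      · exact h2
      · exfalso
        have h3 : dt (a i') (a j') (a k') * ip x (V j' k') =
            dt x (a j') (a k') * ip (V j' k') (a i') + dt (a i') x (a k') * ip (V j' k') (a j')
              + dt (a i') (a j') x * ip (V j' k') (a k') := by
          unfold dt ip; ring
        rw [hV1, hV2, ← h2] at h3
        apply hg j' k'
        simpa [hd'.ne'] using h3
    have p1 := pos i j k hA hd
    have p2 := pos j k i (fun z hz => by have := hA z hz; tauto) (by rwa [dt_rot])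
    have p3 := pos k i j (fun z hz => by have := hA z hz; tauto) (by rwa [← dt_rot])
    refine ⟨dt x (a j) (a k) / dt (a i) (a j) (a k), dt x (a k) (a i) / dt (a i) (a j) (a k),
      dt x (a i) (a j) / dt (a i) (a j) (a k), by positivity, by positivity, by positivity, ?_, ?_⟩
    · rw [← add_div, ← add_div, div_lt_one hd]
      have h1 : dt (a i) (a j) (a k) * ip x u = dt x (a j) (a k) * ip (a i) u
          + dt x (a k) (a i) * ip (a j) u + dt x (a i) (a j) * ip (a k) u := by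
        unfold dt ip; ring
      rw [hi, hj, hk] at h1
      have h2 := ip_cs x u
      have h3 : ip x x * ip u u < 1 := by
        rcases (ip_nonneg u).lt_or_eq with h4 | h4
        · nlinarith [mul_lt_mul_of_pos_right hx h4]
        · rw [← h4]; simp
      have h4 : ip x u < 1 := by nlinarith
      nlinarith [mul_lt_mul_of_pos_left h4 hd]
    · funext c
      have hd' := hd.ne'
      simp only [Pi.add_apply, Pi.smul_apply, smul_eq_mul]
      field_simp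
      fin_cases c <;> simp [dt] <;> ring
  obtain ⟨i, hi, -, -⟩ := hthird z0 z0
  obtain ⟨j, hj, hji, -⟩ := hthird i i
  obtain ⟨k, hk, hki, hkj⟩ := hthird i j
  have hne : dt (a i) (a j) (a k) ≠ 0 := by
    intro h0
    have h1 := hG.aab i j k i j hji.symm hki.symm hkj.symm hji.symm
    apply h1
    have key : ∀ y : V3, ip y (cr (a j - a i) (a k - a i)) = dt (a i) (a j) (a k) * ip y u := by
      intro y
      have : dt (a i) (a j) (a k) * ip y u = dt y (a j) (a k) * ip (a i) u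
          + dt (a i) y (a k) * ip (a j) u + dt (a i) (a j) y * ip (a k) u := by
        unfold dt ip; ring
      rw [this, hi, hj, hk]
      simp [ip, cr, dt]; ring
    rw [← ip_cr, key, h0, zero_mul]
  rcases hne.lt_or_gt with h | h
  · refine ⟨i, k, j, main i k j hki.symm hji.symm hkj hi hk hj ?_⟩
    have : dt (a i) (a k) (a j) = - dt (a i) (a j) (a k) := by unfold dt; ring
    linarith
  · exact ⟨i, j, k, main i j k hji.symm hki.symm hkj.symm hi hj hk h⟩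

/-- position of the least index -/
def posm {n : ℕ} (t : I4 n) : Fin 3 :=
  if t.1 < t.2.1 ∧ t.1 < t.2.2.1 then 0 else if t.2.1 < t.2.2.1 then 1 else 2

lemma posm_all {n : ℕ} (i j k l1 l2 l3 : Fin n) (hij : i ≠ j) (hki : k ≠ i) (hkj : k ≠ j)
    (p : Fin 3) :
    posm (i, j, k, l1) = p ∨ posm (j, k, i, l2) = p ∨ posm (k, i, j, l3) = p := by
  unfold posm
  simp only
  fin_cases p <;> split_ifs <;> simp <;> omega

end Vol

open Vol

theorem vol_tri {n : ℕ} (a b : Fin n → V3) (hG : Gen a b) (r : ℝ) (hr : 0 < r) (ha : Inr a r) :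
    24 * Real.pi * r ^ 3 ≤ ∑ t ∈ triSet a b, DT a t := by
  have hV : ∀ i j, ∃ v : V3, 0 < ip v v ∧ ip v (a i) = 0 ∧ ip v (a j) = 0 := by
    intro i j
    obtain ⟨v, h0, h1, h2, -⟩ := exZ (a i) (a j) (a j) (by unfold dt; ring)
    exact ⟨v, h0, h1, h2⟩
  choose V hV0 hV1 hV2 using hV
  have hmem : ∀ t, t ∈ triSet a b ↔ Tri a b t := fun t => by simp [triSet]
  have hp : ∀ p : Fin 3, 8 * Real.pi * r ^ 3 ≤
      ∑ t ∈ (triSet a b).filter (fun t => posm t = p), DT a t := by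
    intro p
    have hsub : {x : V3 | ip x x < r ^ 2} ⊆ (⋃ i, ⋃ j, {x : V3 | ip x (V i j) = 0}) ∪
        ⋃ t ∈ (triSet a b).filter (fun t => posm t = p), tet (a t.1) (a t.2.1) (a t.2.2.1) := by
      intro x hx
      by_cases hg : ∀ i j, ip x (V i j) ≠ 0
      · right
        obtain ⟨i, j, k, hx1, ⟨l1, h1⟩, ⟨l2, h2⟩, ⟨l3, h3⟩⟩ :=
          cover a b hG r hr ha V hV1 hV2 x hx hg
        simp only [Set.mem_iUnion, Finset.mem_filter, hmem]
        rcases posm_all i j k l1 l2 l3 h1.1 h1.2.1 h1.2.2.1 p with h | h | h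
        · exact ⟨_, ⟨h1, h⟩, hx1⟩
        · exact ⟨_, ⟨h2, h⟩, tet_rot _ _ _ _ hx1⟩
        · exact ⟨_, ⟨h3, h⟩, tet_rot _ _ _ _ (tet_rot _ _ _ _ hx1)⟩
      · left
        push Not at hg
        simpa using hg
    have h0 : volume (⋃ i, ⋃ j, {x : V3 | ip x (V i j) = 0}) = 0 :=
      measure_iUnion_null fun i => measure_iUnion_null fun j => vol_plane _ (hV0 i j)
    have h1 := (measure_mono (μ := (volume : Measure V3)) hsub).trans (measure_union_le _ _)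
    rw [h0, zero_add, vol_ball r hr] at h1
    have hnn : ∀ t ∈ (triSet a b).filter (fun t => posm t = p), 0 ≤ DT a t := fun t ht =>
      DT_nonneg hr ha t ((hmem t).mp (Finset.mem_filter.mp ht).1)
    have h2 : ENNReal.ofReal (r ^ 3 * (Real.pi * 4 / 3)) ≤
        ∑ t ∈ (triSet a b).filter (fun t => posm t = p), ENNReal.ofReal (DT a t / 6) :=
      h1.trans ((measure_biUnion_finset_le _ _).trans
        (Finset.sum_le_sum fun t ht => vol_tet _ _ _ (hnn t ht)))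
    rw [← ENNReal.ofReal_sum_of_nonneg (fun t ht => div_nonneg (hnn t ht) (by norm_num)),
      ENNReal.ofReal_le_ofReal_iff
        (Finset.sum_nonneg fun t ht => div_nonneg (hnn t ht) (by norm_num)),
      ← Finset.sum_div] at h2
    linarith
  rw [← Finset.sum_fiberwise (triSet a b) posm (DT a), Fin.sum_univ_three]
  linarith [hp 0, hp 1, hp 2]

end Pool.Agent.MP_90395b_gt.As

end

section

namespace Pool.Agent.MP_90395b_gt.As

open Pool.Agent.MP_90395b_gt.W5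

/-- pairs of configurations -/
abbrev DenE (n : ℕ) := (Fin n → V3) × (Fin n → V3)

/-- open and dense -/
def DenOD {n : ℕ} (s : Set (DenE n)) : Prop := IsOpen s ∧ Dense s

theorem den_an {n : ℕ} (F : DenE n → ℝ) (hF : ∀ x, AnalyticAt ℝ F x) (p : DenE n) (hp : F p ≠ 0) :
    DenOD {x | F x ≠ 0} := by
  have hc : Continuous F := continuous_iff_continuousAt.2 fun x => (hF x).continuousAt
  refine ⟨isOpen_ne_fun hc continuous_const, dense_iff_inter_open.2 ?_⟩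
  rintro U hU ⟨x, hx⟩
  by_contra h
  have h0 : F =ᶠ[nhds x] 0 := by
    filter_upwards [hU.mem_nhds hx] with y hy
    by_contra h1
    exact h ⟨y, hy, h1⟩
  exact hp (AnalyticOnNhd.eqOn_zero_of_preconnected_of_eventuallyEq_zero (U := Set.univ)
    (fun y _ => hF y) isPreconnected_univ (Set.mem_univ x) h0 (Set.mem_univ p))

theorem den_inter {n : ℕ} {s t : Set (DenE n)} (hs : DenOD s) (ht : DenOD t) : DenOD (s ∩ t) :=
  ⟨hs.1.inter ht.1, hs.2.inter_of_isOpen_left ht.2 hs.1⟩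

theorem den_all {n : ℕ} {P : Fin n → DenE n → Prop} (h : ∀ i, DenOD {x | P i x}) :
    DenOD {x | ∀ i, P i x} := by
  rw [Set.ofPred_forall]
  exact ⟨isOpen_iInter_of_finite fun i => (h i).1,
    dense_iInter_of_isOpen (fun i => (h i).1) fun i => (h i).2⟩

theorem den_imp {n : ℕ} {Q : Prop} {P : DenE n → Prop} (h : Q → DenOD {x | P x}) :
    DenOD {x | Q → P x} := by
  by_cases hQ : Q
  · simpa [hQ] using h hQ
  · simp only [hQ, false_imp_iff, Set.ofPred_true]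
    exact ⟨isOpen_univ, dense_univ⟩

theorem den_fst {n : ℕ} (i : Fin n) (c : Fin 3) (x : DenE n) :
    AnalyticAt ℝ (fun p : DenE n => p.1 i c) x :=
  ((ContinuousLinearMap.proj (R := ℝ) (φ := fun _ : Fin 3 => ℝ) c).comp
    ((ContinuousLinearMap.proj (R := ℝ) (φ := fun _ : Fin n => V3) i).comp
      (ContinuousLinearMap.fst ℝ _ _))).analyticAt x

theorem den_snd {n : ℕ} (i : Fin n) (c : Fin 3) (x : DenE n) :
    AnalyticAt ℝ (fun p : DenE n => p.2 i c) x :=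
  ((ContinuousLinearMap.proj (R := ℝ) (φ := fun _ : Fin 3 => ℝ) c).comp
    ((ContinuousLinearMap.proj (R := ℝ) (φ := fun _ : Fin n => V3) i).comp
      (ContinuousLinearMap.snd ℝ _ _))).analyticAt x

theorem den_dt {n : ℕ} {f g h : DenE n → V3} {x : DenE n}
    (hf : ∀ c, AnalyticAt ℝ (fun p => f p c) x) (hg : ∀ c, AnalyticAt ℝ (fun p => g p c) x)
    (hh : ∀ c, AnalyticAt ℝ (fun p => h p c) x) :
    AnalyticAt ℝ (fun p => dt (f p) (g p) (h p)) x :=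
  (((hf 0).mul (((hg 1).mul (hh 2)).sub ((hg 2).mul (hh 1)))).sub
    ((hf 1).mul (((hg 0).mul (hh 2)).sub ((hg 2).mul (hh 0))))).add
    ((hf 2).mul (((hg 0).mul (hh 1)).sub ((hg 1).mul (hh 0))))

theorem den_gen (n : ℕ) : DenOD {p : DenE n | Gen p.1 p.2} := by
  have a1 : ∀ (i j : Fin n) (x : DenE n) c, AnalyticAt ℝ (fun p : DenE n => (p.1 j - p.1 i) c) x :=
    fun i j x c => (den_fst j c x).sub (den_fst i c x)
  have a2 : ∀ (i j : Fin n) (x : DenE n) c, AnalyticAt ℝ (fun p : DenE n => (p.2 j - p.2 i) c) x :=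
    fun i j x c => (den_snd j c x).sub (den_snd i c x)
  have h1 : DenOD {p : DenE n | ∀ i j k l, i ≠ j → i ≠ k → i ≠ l → j ≠ k → j ≠ l → k ≠ l →
      dt (p.1 j - p.1 i) (p.1 k - p.1 i) (p.1 l - p.1 i) ≠ 0} :=
    den_all fun i => den_all fun j => den_all fun k => den_all fun l => den_imp fun h1 =>
      den_imp fun h2 => den_imp fun h3 => den_imp fun h4 => den_imp fun h5 => den_imp fun h6 =>
        den_an _ (fun x => den_dt (a1 i j x) (a1 i k x) (a1 i l x))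
          (fun z => if z = j then ![1, 0, 0] else if z = k then ![0, 1, 0] else
            if z = l then ![0, 0, 1] else 0, 0)
          (by simp [dt, h1, h2, h3, h4.symm, h5.symm, h6.symm])
  have h2 : DenOD {p : DenE n | ∀ i j k l m, i ≠ j → i ≠ k → j ≠ k → l ≠ m →
      dt (p.1 j - p.1 i) (p.1 k - p.1 i) (p.2 m - p.2 l) ≠ 0} :=
    den_all fun i => den_all fun j => den_all fun k => den_all fun l => den_all fun m =>
      den_imp fun h1 => den_imp fun h2 => den_imp fun h3 => den_imp fun h4 =>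
        den_an _ (fun x => den_dt (a1 i j x) (a1 i k x) (a2 l m x))
          (fun z => if z = j then ![1, 0, 0] else if z = k then ![0, 1, 0] else 0,
            fun z => if z = m then ![0, 0, 1] else 0)
          (by simp [dt, h1, h2, h3.symm, h4])
  have h3 : DenOD {p : DenE n | ∀ i j l m q, i ≠ j → l ≠ m → l ≠ q → m ≠ q →
      dt (p.1 j - p.1 i) (p.2 m - p.2 l) (p.2 q - p.2 l) ≠ 0} :=
    den_all fun i => den_all fun j => den_all fun l => den_all fun m => den_all fun q =>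
      den_imp fun h1 => den_imp fun h2 => den_imp fun h3 => den_imp fun h4 =>
        den_an _ (fun x => den_dt (a1 i j x) (a2 l m x) (a2 l q x))
          (fun z => if z = j then ![1, 0, 0] else 0,
            fun z => if z = m then ![0, 1, 0] else if z = q then ![0, 0, 1] else 0)
          (by simp [dt, h1, h2, h3, h4.symm])
  have h4 : DenOD {p : DenE n | ∀ i j, i ≠ j → (p.1 i - p.1 j) 0 ≠ 0} :=
    den_all fun i => den_all fun j => den_imp fun h1 =>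
      den_an _ (fun x => a1 j i x 0) (fun z => if z = i then ![1, 0, 0] else 0, 0)
        (by simp [h1.symm])
  convert den_inter h1 (den_inter h2 (den_inter h3 h4)) using 1
  ext p
  exact ⟨fun h => ⟨h.aaa, h.aab, h.abb, fun i j hij => sub_ne_zero.2 (h.ht i j hij)⟩,
    fun h => ⟨h.1, h.2.1, h.2.2.1, fun i j hij => sub_ne_zero.1 (h.2.2.2 i j hij)⟩⟩

theorem dense_gen (n : ℕ) :
    Dense {p : (Fin n → V3) × (Fin n → V3) | Gen p.1 p.2 ∧ Gen p.2 p.1} := by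
  have h := den_gen n
  have h2 : Dense {p : DenE n | Gen p.2 p.1} :=
    h.2.preimage (Homeomorph.prodComm (Fin n → V3) (Fin n → V3)).isOpenMap
  exact h.2.inter_of_isOpen_left h2 h.1

end Pool.Agent.MP_90395b_gt.As

end

section

namespace Pool.Agent.MP_90395b_gt.As

open Pool.Agent.MP_90395b_gt.W5

lemma unit_abs_le_cmb (u : V3) (hu : ip u u = 1) (k : Fin 3) : |u k| ≤ 1 := by
  unfold ip at hu
  rw [abs_le]
  fin_cases k <;> simp only [Fin.zero_eta, Fin.mk_one, Fin.reduceFinMk, Fin.isValue] <;>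
    constructor <;> nlinarith [sq_nonneg (u 0), sq_nonneg (u 1), sq_nonneg (u 2),
      sq_nonneg (u 0 - 1), sq_nonneg (u 1 - 1), sq_nonneg (u 2 - 1), sq_nonneg (u 0 + 1),
      sq_nonneg (u 1 + 1), sq_nonneg (u 2 + 1)]

lemma cont_ip_cmb {α : Type} [TopologicalSpace α] {f g : α → V3} (hf : Continuous f)
    (hg : Continuous g) : Continuous fun x => ip (f x) (g x) := by
  unfold ip
  fun_prop

lemma cont_dt_cmb {α : Type} [TopologicalSpace α] {f g h : α → V3} (hf : Continuous f)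
    (hg : Continuous g) (hh : Continuous h) : Continuous fun x => dt (f x) (g x) (h x) := by
  unfold dt
  fun_prop

lemma sphere_compact_cmb : IsCompact {u : V3 | ip u u = 1} := by
  apply Metric.isCompact_of_isClosed_isBounded
  · exact isClosed_eq (cont_ip_cmb continuous_id continuous_id) continuous_const
  · refine (Metric.isBounded_closedBall (x := (0 : V3)) (r := 1)).subset ?_
    intro u hu
    rw [mem_closedBall_zero_iff, pi_norm_le_iff_of_nonneg zero_le_one]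
    intro k
    exact unit_abs_le_cmb u hu k

lemma closed_ex_cmb {α : Type} [TopologicalSpace α] (P : α → V3 → Prop)
    (h : IsClosed {q : α × V3 | P q.1 q.2}) : IsClosed {x | ∃ u, ip u u = 1 ∧ P x u} := by
  have : CompactSpace {u : V3 | ip u u = 1} := isCompact_iff_compactSpace.1 sphere_compact_cmb
  have h1 : IsClosed {q : α × {u : V3 | ip u u = 1} | P q.1 q.2.1} :=
    h.preimage (f := fun q : α × {u : V3 | ip u u = 1} => (q.1, q.2.1)) (by fun_prop)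
  have h2 := isClosedMap_fst_of_compactSpace _ h1
  convert h2 using 1
  ext x
  constructor
  · rintro ⟨u, hu, hP⟩
    exact ⟨(x, ⟨u, hu⟩), hP, rfl⟩
  · rintro ⟨⟨y, u⟩, hP, rfl⟩
    exact ⟨u.1, u.2, hP⟩

lemma closed_sup_cmb {α : Type} [TopologicalSpace α] {n : ℕ} {f : α → Fin n → V3} {g : α → V3}
    (hf : Continuous f) (hg : Continuous g) (i : Fin n) : IsClosed {x | Sup (f x) i (g x)} := by
  unfold Sup
  rw [Set.ofPred_forall]
  exact isClosed_iInter fun z => isClosed_le (cont_ip_cmb (by fun_prop) hg)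
    (cont_ip_cmb (by fun_prop) hg)

lemma closed_wtri_cmb {α : Type} [TopologicalSpace α] {n : ℕ} {f g : α → Fin n → V3}
    (hf : Continuous f) (hg : Continuous g) (t : I4 n) : IsClosed {x | WTri (f x) (g x) t} := by
  unfold WTri
  apply closed_ex_cmb (fun x u => Sup (f x) t.1 u ∧ ip (f x t.2.1) u = ip (f x t.1) u ∧
    ip (f x t.2.2.1) u = ip (f x t.1) u ∧ Sup (g x) t.2.2.2 u ∧
    0 ≤ dt (f x t.2.1 - f x t.1) (f x t.2.2.1 - f x t.1) u)
  refine IsClosed.inter (closed_sup_cmb (f := fun q : α × V3 => f q.1) (by fun_prop)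
    continuous_snd _) (IsClosed.inter ?_ (IsClosed.inter ?_ (IsClosed.inter
      (closed_sup_cmb (f := fun q : α × V3 => g q.1) (by fun_prop) continuous_snd _) ?_)))
  · exact isClosed_eq (cont_ip_cmb (by fun_prop) continuous_snd)
      (cont_ip_cmb (by fun_prop) continuous_snd)
  · exact isClosed_eq (cont_ip_cmb (by fun_prop) continuous_snd)
      (cont_ip_cmb (by fun_prop) continuous_snd)
  · exact isClosed_le continuous_const (cont_dt_cmb (by fun_prop) (by fun_prop) continuous_snd)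

lemma closed_wcrs_cmb {α : Type} [TopologicalSpace α] {n : ℕ} {f g : α → Fin n → V3}
    (hf : Continuous f) (hg : Continuous g) (t : I4 n) : IsClosed {x | WCrs (f x) (g x) t} := by
  unfold WCrs
  apply closed_ex_cmb (fun x u => Sup (f x) t.1 u ∧ ip (f x t.2.1) u = ip (f x t.1) u ∧
    Sup (g x) t.2.2.1 u ∧ ip (g x t.2.2.2) u = ip (g x t.2.2.1) u ∧
    0 ≤ dt (f x t.2.1 - f x t.1) (g x t.2.2.2 - g x t.2.2.1) u)
  refine IsClosed.inter (closed_sup_cmb (f := fun q : α × V3 => f q.1) (by fun_prop)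
    continuous_snd _) (IsClosed.inter ?_ (IsClosed.inter
      (closed_sup_cmb (f := fun q : α × V3 => g q.1) (by fun_prop) continuous_snd _)
      (IsClosed.inter ?_ ?_)))
  · exact isClosed_eq (cont_ip_cmb (by fun_prop) continuous_snd)
      (cont_ip_cmb (by fun_prop) continuous_snd)
  · exact isClosed_eq (cont_ip_cmb (by fun_prop) continuous_snd)
      (cont_ip_cmb (by fun_prop) continuous_snd)
  · exact isClosed_le continuous_const (cont_dt_cmb (by fun_prop) (by fun_prop) continuous_snd)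

lemma normalise_cmb (N d : V3) (h : ip d N ≠ 0) :
    ∃ s : ℝ, 0 < s ∧ ip (s • N) (s • N) = 1 := by
  have hN : 0 < ip N N := (pos_of_ip d N h).1
  refine ⟨1 / Real.sqrt (ip N N), by positivity, ?_⟩
  rw [ip_smul, smul_ip]
  have h1 : Real.sqrt (ip N N) * Real.sqrt (ip N N) = ip N N := Real.mul_self_sqrt hN.le
  have h2 : 0 < Real.sqrt (ip N N) := Real.sqrt_pos.2 hN
  field_simp
  nlinarith

lemma sup_smul_cmb {n : ℕ} {a : Fin n → V3} {i : Fin n} {N : V3} (h : Sup a i N) {s : ℝ}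
    (hs : 0 < s) : Sup a i (s • N) := by
  intro z
  rw [ip_smul, ip_smul]
  exact mul_le_mul_of_nonneg_left (h z) hs.le

lemma perp_left_cmb (x y e : V3) (s : ℝ) : ip y (s • cr (y - x) e) = ip x (s • cr (y - x) e) := by
  simp [ip, cr]; ring

lemma perp_right_cmb (x y e : V3) (s : ℝ) :
    ip y (s • cr e (y - x)) = ip x (s • cr e (y - x)) := by
  simp [ip, cr]; ring

lemma dt_pos_cmb (d e : V3) {s : ℝ} (hs : 0 < s) : 0 ≤ dt d e (s • cr d e) := by
  rw [← ip_cr, smul_ip]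
  exact mul_nonneg hs.le (ip_nonneg _)

lemma third_cmb {n : ℕ} (hn : 3 ≤ n) (i j : Fin n) : ∃ k : Fin n, k ≠ i ∧ k ≠ j := by
  by_contra hcon
  have hsub : (Finset.univ : Finset (Fin n)) ⊆ {i, j} := by
    intro k _
    by_contra hk
    simp only [Finset.mem_insert, Finset.mem_singleton, not_or] at hk
    exact hcon ⟨k, hk⟩
  have h1 := Finset.card_le_card hsub
  have h2 : ({i, j} : Finset (Fin n)).card ≤ 2 := Finset.card_le_two
  simp only [Finset.card_univ, Fintype.card_fin] at h1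
  omega

lemma tri_wtri_cmb {n : ℕ} (hn : 3 ≤ n) {a b : Fin n → V3} (hG : Gen a b) (t : I4 n)
    (h : Tri a b t) : WTri a b t := by
  obtain ⟨h1, h2, h3, h4, h5⟩ := h
  obtain ⟨k, hk, -⟩ := third_cmb hn t.1 t.1
  have h6 := hG.aab t.1 t.2.1 t.2.2.1 t.1 k h1 h2.symm h3.symm hk.symm
  rw [← ip_cr] at h6
  obtain ⟨s, hs, hu⟩ := normalise_cmb _ _ h6
  exact ⟨_, hu, sup_smul_cmb h4 hs, perp_left_cmb _ _ _ _, perp_right_cmb _ _ _ _,
    sup_smul_cmb h5 hs, dt_pos_cmb _ _ hs⟩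

lemma crs_wcrs_cmb {n : ℕ} (hn : 3 ≤ n) {a b : Fin n → V3} (hG : Gen a b) (t : I4 n)
    (h : Crs a b t) : WCrs a b t := by
  obtain ⟨h1, h2, h4, h5⟩ := h
  obtain ⟨k, hk, hk'⟩ := third_cmb hn t.1 t.2.1
  have h6 := hG.aab t.1 t.2.1 k t.2.2.1 t.2.2.2 h1 hk.symm hk'.symm h2
  have h7 : ip (a k - a t.1) (cr (a t.2.1 - a t.1) (b t.2.2.2 - b t.2.2.1)) ≠ 0 := by
    intro h0
    apply h6
    rw [ip_cr] at h0
    have e : ∀ x y z : V3, dt x y z = - dt x z y := fun x y z => by unfold dt; ring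
    rw [e, h0, neg_zero]
  obtain ⟨s, hs, hu⟩ := normalise_cmb _ _ h7
  exact ⟨_, hu, sup_smul_cmb h4 hs, perp_left_cmb _ _ _ _, sup_smul_cmb h5 hs,
    perp_right_cmb _ _ _ _, dt_pos_cmb _ _ hs⟩

lemma inr_near_cmb {n : ℕ} {a a' : Fin n → V3} {r r' : ℝ} (ha : Inr a r)
    (h : dist a' a < (r - r') / 3) : Inr a' r' := by
  intro u hu
  obtain ⟨i, hi⟩ := ha u hu
  refine ⟨i, ?_⟩
  have hk : ∀ k, (a i k - a' i k) * u k ≤ (r - r') / 3 := by
    intro k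
    have h1 : dist (a' i k) (a i k) < (r - r') / 3 :=
      lt_of_le_of_lt ((dist_le_pi_dist (a' i) (a i) k).trans (dist_le_pi_dist a' a i)) h
    rw [Real.dist_eq, abs_sub_comm] at h1
    have h2 := unit_abs_le_cmb u hu k
    calc (a i k - a' i k) * u k ≤ |(a i k - a' i k) * u k| := le_abs_self _
      _ = |a i k - a' i k| * |u k| := abs_mul _ _
      _ ≤ |a i k - a' i k| * 1 := mul_le_mul_of_nonneg_left h2 (abs_nonneg _)
      _ ≤ (r - r') / 3 := by linarith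
  have h0 := hk 0
  have h1 := hk 1
  have h2 := hk 2
  unfold ip at hi ⊢
  linarith

/-- the eight conclusions for a fixed triple of index sets -/
def CS_cmb {n : ℕ} (c : V3 → V3 → V3 → ℝ) (r' : ℝ)
    (τ : Finset (I4 n) × Finset (I4 n) × Finset (I4 n)) : Set ((Fin n → V3) × (Fin n → V3)) :=
  {p | (∀ t ∈ τ.1, WTri p.1 p.2 t) ∧ (∀ t ∈ τ.2.1, WTri p.2 p.1 t) ∧
      (∀ t ∈ τ.2.2, WCrs p.1 p.2 t) ∧ τ.1.card ≤ 6 * n ∧ τ.2.1.card ≤ 6 * n ∧
      24 * Real.pi * r' ^ 3 ≤ ∑ t ∈ τ.1, DT p.1 t ∧ 24 * Real.pi * r' ^ 3 ≤ ∑ t ∈ τ.2.1, DT p.2 t ∧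
      2 * (∑ t ∈ τ.1, VT c p.1 p.2 t + ∑ t ∈ τ.2.1, VT c p.2 p.1 t)
        = 3 * ∑ t ∈ τ.2.2, ST c p.1 p.2 t}

lemma closed_CS_cmb {n : ℕ} (c : V3 → V3 → V3 → ℝ)
    (hcont : Continuous fun p : V3 × V3 × V3 => c p.1 p.2.1 p.2.2) (r' : ℝ)
    (τ : Finset (I4 n) × Finset (I4 n) × Finset (I4 n)) : IsClosed (CS_cmb c r' τ) := by
  have hc3 : ∀ f g h : (Fin n → V3) × (Fin n → V3) → V3, Continuous f → Continuous g →
      Continuous h → Continuous fun p => c (f p) (g p) (h p) := fun f g h hf hg hh =>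
    hcont.comp (hf.prodMk (hg.prodMk hh))
  have hall : ∀ (T : Finset (I4 n)) (P : (Fin n → V3) × (Fin n → V3) → I4 n → Prop),
      (∀ t, IsClosed {p | P p t}) → IsClosed {p | ∀ t ∈ T, P p t} := by
    intro T P hP
    have : {p | ∀ t ∈ T, P p t} = ⋂ t ∈ T, {p | P p t} := by ext p; simp
    rw [this]
    exact isClosed_biInter fun t _ => hP t
  have hVT : ∀ t : I4 n, Continuous fun p : (Fin n → V3) × (Fin n → V3) => VT c p.1 p.2 t := by
    intro t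
    unfold VT Vf
    refine ((hc3 _ _ _ ?_ ?_ ?_).add (hc3 _ _ _ ?_ ?_ ?_)).add (hc3 _ _ _ ?_ ?_ ?_) <;> fun_prop
  have hVT' : ∀ t : I4 n, Continuous fun p : (Fin n → V3) × (Fin n → V3) => VT c p.2 p.1 t :=
    fun t => (hVT t).comp continuous_swap
  have hST : ∀ t : I4 n, Continuous fun p : (Fin n → V3) × (Fin n → V3) => ST c p.1 p.2 t := by
    intro t
    unfold ST Sf
    refine (((hc3 _ _ _ ?_ ?_ ?_).add (hc3 _ _ _ ?_ ?_ ?_)).add (hc3 _ _ _ ?_ ?_ ?_)).add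
      (hc3 _ _ _ ?_ ?_ ?_) <;> fun_prop
  have hDT : ∀ t : I4 n, Continuous fun p : (Fin n → V3) × (Fin n → V3) => DT p.1 t := by
    intro t
    unfold DT
    exact cont_dt_cmb (by fun_prop) (by fun_prop) (by fun_prop)
  have hDT' : ∀ t : I4 n, Continuous fun p : (Fin n → V3) × (Fin n → V3) => DT p.2 t :=
    fun t => (hDT t).comp continuous_swap
  unfold CS_cmb
  refine IsClosed.inter (hall _ _ fun t => closed_wtri_cmb continuous_fst continuous_snd t)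
    (IsClosed.inter (hall _ _ fun t => closed_wtri_cmb continuous_snd continuous_fst t)
    (IsClosed.inter (hall _ _ fun t => closed_wcrs_cmb continuous_fst continuous_snd t)
    (IsClosed.inter isClosed_const (IsClosed.inter isClosed_const (IsClosed.inter ?_
    (IsClosed.inter ?_ ?_))))))
  · exact isClosed_le continuous_const (continuous_finsetSum _ fun t _ => hDT t)
  · exact isClosed_le continuous_const (continuous_finsetSum _ fun t _ => hDT' t)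
  · exact isClosed_eq (continuous_const.mul ((continuous_finsetSum _ fun t _ => hVT t).add
      (continuous_finsetSum _ fun t _ => hVT' t)))
      (continuous_const.mul (continuous_finsetSum _ fun t _ => hST t))

theorem comb {n : ℕ} (hn : 3 ≤ n) (a b : Fin n → V3) (c : V3 → V3 → V3 → ℝ)
    (hc : ∀ x y z, c y x z = -c x y z)
    (hcont : Continuous fun p : V3 × V3 × V3 => c p.1 p.2.1 p.2.2)
    (r r' : ℝ) (h0 : 0 < r') (hr : r' < r) (ha : Inr a r) (hb : Inr b r) :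
    ∃ TA TB X : Finset (I4 n), (∀ t ∈ TA, WTri a b t) ∧ (∀ t ∈ TB, WTri b a t) ∧
      (∀ t ∈ X, WCrs a b t) ∧ TA.card ≤ 6 * n ∧ TB.card ≤ 6 * n ∧
      24 * Real.pi * r' ^ 3 ≤ ∑ t ∈ TA, DT a t ∧ 24 * Real.pi * r' ^ 3 ≤ ∑ t ∈ TB, DT b t ∧
      2 * (∑ t ∈ TA, VT c a b t + ∑ t ∈ TB, VT c b a t) = 3 * ∑ t ∈ X, ST c a b t := by
  have hcl : IsClosed (⋃ τ, CS_cmb (n := n) c r' τ) :=
    isClosed_iUnion_of_finite fun τ => closed_CS_cmb c hcont r' τ
  have hmem : (a, b) ∈ ⋃ τ, CS_cmb (n := n) c r' τ := by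
    rw [← hcl.closure_eq, Metric.mem_closure_iff]
    intro ε hε
    have hδ : 0 < min ε ((r - r') / 3) := lt_min hε (by linarith)
    obtain ⟨p, hp, hG, hG'⟩ := Metric.dense_iff.1 (dense_gen n) (a, b) _ hδ
    rw [Metric.mem_ball] at hp
    refine ⟨p, ?_, by rw [dist_comm]; exact lt_of_lt_of_le hp (min_le_left _ _)⟩
    have hp' : dist p (a, b) < (r - r') / 3 := lt_of_lt_of_le hp (min_le_right _ _)
    rw [Prod.dist_eq, max_lt_iff] at hp'
    have ha' : Inr p.1 r' := inr_near_cmb ha hp'.1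
    have hb' : Inr p.2 r' := inr_near_cmb hb hp'.2
    refine Set.mem_iUnion.2 ⟨(triSet p.1 p.2, triSet p.2 p.1, crsSet p.1 p.2), ?_, ?_, ?_,
      card_tri _ _ hG, card_tri _ _ hG', vol_tri _ _ hG r' h0 ha', vol_tri _ _ hG' r' h0 hb',
      cob_id _ _ hG hG' c hc⟩
    · intro t ht
      exact tri_wtri_cmb hn hG t (by simpa [triSet] using ht)
    · intro t ht
      exact tri_wtri_cmb hn hG' t (by simpa [triSet] using ht)
    · intro t ht
      exact crs_wcrs_cmb hn hG t (by simpa [crsSet] using ht)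
  obtain ⟨τ, hτ⟩ := Set.mem_iUnion.1 hmem
  exact ⟨τ.1, τ.2.1, τ.2.2, hτ⟩

end Pool.Agent.MP_90395b_gt.As

end

section

namespace Pool.Agent.MP_90395b_gt.As

open Pool.Agent.MP_90395b_gt.W5

theorem vp_c2 (D x r r' : ℝ) : c2 (-D) x r' r = - c2 D x r r' := by
  unfold c2
  rw [add_comm r' r, show (r' - r) ^ 2 = (r - r') ^ 2 by ring]
  ring

theorem vp_swap (a1 a2 p1 p2 b1 b2 : ℝ) : cp p1 p2 a1 a2 b1 b2 = - cp a1 a2 p1 p2 b1 b2 := by
  unfold cp
  rw [← vp_c2]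
  congr 1 <;> ring

theorem vp_refl (a1 a2 p1 p2 b1 b2 : ℝ) :
    cp p1 (-p2) a1 (-a2) b1 (-b2) = cp a1 a2 p1 p2 b1 b2 := by
  rw [← neg_neg (cp a1 a2 p1 p2 b1 b2), ← vp_swap]
  unfold cp
  rw [← vp_c2]
  unfold c2
  congr 2 <;> ring

theorem vp_self (a1 a2 b1 b2 : ℝ) : cp a1 a2 a1 a2 b1 b2 = 0 := by
  have := vp_swap a1 a2 a1 a2 b1 b2
  linarith

theorem vp_rot {c s : ℝ} (h : c ^ 2 + s ^ 2 = 1) (a1 a2 p1 p2 b1 b2 : ℝ) :
    cp (c * a1 + s * a2) (c * a2 - s * a1) (c * p1 + s * p2) (c * p2 - s * p1)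
      (c * b1 + s * b2) (c * b2 - s * b1) = cp a1 a2 p1 p2 b1 b2 := by
  unfold cp
  congr 1
  · linear_combination ((a1 - b1) * (p2 - b2) - (a2 - b2) * (p1 - b1)) * h
  · linear_combination ((a1 - p1) ^ 2 + (a2 - p2) ^ 2) / 4 * h
  · linear_combination ((a1 - b1) ^ 2 + (a2 - b2) ^ 2) * h
  · linear_combination ((p1 - b1) ^ 2 + (p2 - b2) ^ 2) * h

theorem vp_core (hB : BoxV) {h k p q u v : ℝ} (hh : 0 < h) (hp : 0 ≤ p) (hq : 0 ≤ q + k)
    (hR : p ^ 2 + q ^ 2 = h ^ 2 + k ^ 2) (hl : (p + h) ^ 2 + (q + k) ^ 2 ≤ 4 * h ^ 2)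
    (h3 : h ^ 2 + k ^ 2 + u ^ 2 + v ^ 2 ≤ 1) : Vp (-h) (-k) h (-k) p q u v ≤ 1 / 2 := by
  have hph : 0 < p + h := by linarith
  obtain ⟨s, hs⟩ : ∃ s, s * (p + h) = q + k := ⟨(q + k) / (p + h), div_mul_cancel₀ _ hph.ne'⟩
  have hs0 : 0 ≤ s := by
    by_contra a
    have := mul_pos_of_neg_of_neg (not_le.1 a) (neg_neg_of_pos hph)
    linarith
  have e1 : p - h = (k - q) * s :=
    mul_right_cancel₀ hph.ne' (by linear_combination hR - (k - q) * hs)
  have e2 : p * (1 + s ^ 2) = h * (1 - s ^ 2) + 2 * k * s := by linear_combination e1 + s * hs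
  have e3 : q * (1 + s ^ 2) = 2 * h * s - k * (1 - s ^ 2) := by
    linear_combination s * e2 - (1 + s ^ 2) * hs
  have hs1 : 0 < 1 + s ^ 2 := by positivity
  rcases hs0.eq_or_lt with rfl | hs0'
  · obtain rfl : p = h := by linarith
    obtain rfl : q = -k := by linarith
    unfold Vp
    rw [vp_self, vp_swap (-p) (-k) p (-k)]
    linarith
  have f1 : h * s ^ 2 ≤ h + 2 * k * s := by nlinarith [mul_nonneg hp hs1.le]
  have f2 : 2 * h * k ≤ s * (h ^ 2 - k ^ 2) := by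
    have g1 : (p + h) ^ 2 * (1 + s ^ 2) ≤ 4 * h ^ 2 := by
      rw [← hs] at hl; linarith
    have g2 : (p + h) * (1 + s ^ 2) = 2 * (h + k * s) := by linear_combination e2
    have g3 : (2 * (h + k * s)) ^ 2 ≤ 4 * h ^ 2 * (1 + s ^ 2) := by
      rw [← g2]
      have := mul_le_mul_of_nonneg_right g1 hs1.le
      linarith
    refine le_of_mul_le_mul_left ?_ hs0'
    linarith
  have f3 : 0 < k → 3 * k ^ 2 ≤ h ^ 2 := fun hk => by
    have hk' := mul_pos hh hk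
    have hD : 0 < h ^ 2 - k ^ 2 := by
      by_contra a
      have := mul_nonneg hs0 (neg_nonneg.2 (not_lt.1 a))
      linarith
    have g1 : 2 * k ^ 3 ≤ (h * s - 2 * k) * (h ^ 2 - k ^ 2) := by
      have := mul_le_mul_of_nonneg_left f2 hh.le
      linarith
    have g2 : 2 * h * k * (2 * k ^ 3) ≤
        s * (h ^ 2 - k ^ 2) * ((h * s - 2 * k) * (h ^ 2 - k ^ 2)) :=
      mul_le_mul f2 g1 (by positivity) (mul_pos hs0' hD).le
    have g3 := mul_le_mul_of_nonneg_right f1 (sq_nonneg (h ^ 2 - k ^ 2))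
    have g4 : (2 * k ^ 2) ^ 2 ≤ (h ^ 2 - k ^ 2) ^ 2 := le_of_mul_le_mul_left (by linarith) hh
    linarith [(pow_le_pow_iff_left₀ (by positivity : 0 ≤ 2 * k ^ 2) hD.le two_ne_zero).1 g4]
  have := hB h k u v s hh.le ?_ hs0 ?_ ?_ ?_ h3
  · rwa [← e2, ← e3, mul_div_cancel_right₀ _ hs1.ne', mul_div_cancel_right₀ _ hs1.ne'] at this
  · by_contra a
    have := f3 (by linarith)
    nlinarith [sq_nonneg u, sq_nonneg v]
  · by_contra a
    have g1 : k ≤ 3 / 5 * h := by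
      by_contra b
      have := f3 (by linarith)
      nlinarith
    have := mul_le_mul_of_nonneg_right g1 hs0
    nlinarith [mul_pos hh (by nlinarith : 0 < s ^ 2 - 6 / 5 * s - 1)]
  · intro hk
    by_contra a
    have := mul_nonneg (neg_nonneg.2 hk) hs0
    nlinarith [mul_pos hh (by nlinarith : 0 < s ^ 2 - 1)]
  · intro a b
    by_contra c
    have g1 : k ≤ 1 / 6 * h := by linarith
    have := mul_le_mul_of_nonneg_right g1 hs0
    nlinarith [mul_pos hh (by nlinarith : 0 < s ^ 2 - 1 / 3 * s - 1)]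

theorem vp_one (hB : BoxV) (a1 a2 p1 p2 q1 q2 b1 b2 : ℝ)
    (h1 : p1 ^ 2 + p2 ^ 2 = a1 ^ 2 + a2 ^ 2) (h2 : q1 ^ 2 + q2 ^ 2 = a1 ^ 2 + a2 ^ 2)
    (h3 : a1 ^ 2 + a2 ^ 2 + b1 ^ 2 + b2 ^ 2 ≤ 1)
    (h4 : 0 ≤ (p1 - a1) * (q2 - a2) - (p2 - a2) * (q1 - a1))
    (h5 : (q1 - a1) ^ 2 + (q2 - a2) ^ 2 ≤ (p1 - a1) ^ 2 + (p2 - a2) ^ 2)
    (h6 : (q1 - p1) ^ 2 + (q2 - p2) ^ 2 ≤ (q1 - a1) ^ 2 + (q2 - a2) ^ 2) :
    Vp a1 a2 p1 p2 q1 q2 b1 b2 ≤ 1 / 2 := by
  rcases (by positivity : 0 ≤ (p1 - a1) ^ 2 + (p2 - a2) ^ 2).eq_or_lt with h0 | h0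
  · obtain rfl : p1 = a1 := by nlinarith [sq_nonneg (p1 - a1), sq_nonneg (p2 - a2)]
    obtain rfl : p2 = a2 := by nlinarith [sq_nonneg (p2 - a2)]
    unfold Vp
    rw [vp_self, vp_swap p1 p2 q1 q2]
    linarith
  obtain ⟨L, hL, hL2⟩ : ∃ L : ℝ, 0 < L ∧ L ^ 2 = (p1 - a1) ^ 2 + (p2 - a2) ^ 2 :=
    ⟨_, Real.sqrt_pos.2 h0, Real.sq_sqrt h0.le⟩
  obtain ⟨c, hc⟩ : ∃ c, L * c = p1 - a1 := ⟨(p1 - a1) / L, mul_div_cancel₀ _ hL.ne'⟩
  obtain ⟨s, hs⟩ : ∃ s, L * s = p2 - a2 := ⟨(p2 - a2) / L, mul_div_cancel₀ _ hL.ne'⟩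
  obtain rfl : p1 = a1 + L * c := by linarith
  obtain rfl : p2 = a2 + L * s := by linarith
  have hcs : c ^ 2 + s ^ 2 = 1 :=
    mul_left_cancel₀ (pow_ne_zero 2 hL.ne') (by linear_combination -hL2)
  have e1 : c * a1 + s * a2 = -(L / 2) :=
    mul_left_cancel₀ hL.ne' (by linear_combination h1 / 2 - L ^ 2 / 2 * hcs)
  have e2 : c * (a1 + L * c) + s * (a2 + L * s) = L / 2 := by linear_combination e1 + L * hcs
  have e3 : c * (a2 + L * s) - s * (a1 + L * c) = -(s * a1 - c * a2) := by ring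
  have e4 : c * a2 - s * a1 = -(s * a1 - c * a2) := by ring
  have e5 : (L / 2) ^ 2 + (s * a1 - c * a2) ^ 2 = a1 ^ 2 + a2 ^ 2 := by
    linear_combination (a1 ^ 2 + a2 ^ 2) * hcs - (c * a1 + s * a2 - L / 2) * e1
  have := vp_core hB (h := L / 2) (k := s * a1 - c * a2) (p := c * q1 + s * q2)
    (q := c * q2 - s * q1) (u := c * b1 + s * b2) (v := c * b2 - s * b1) (by linarith)
    (le_of_mul_le_mul_left (by nlinarith) hL) (le_of_mul_le_mul_left (by linarith) hL)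
    (by linear_combination (q1 ^ 2 + q2 ^ 2) * hcs + h2 - e5) ?_ ?_
  · unfold Vp at this ⊢
    rw [← vp_rot hcs a1, ← vp_rot hcs _ _ q1, ← vp_rot hcs q1, e1, e2, e3, e4]
    exact this
  · have : (c * q1 + s * q2 + L / 2) ^ 2 + (c * q2 - s * q1 + (s * a1 - c * a2)) ^ 2 =
        (q1 - a1) ^ 2 + (q2 - a2) ^ 2 := by
      rw [show L / 2 = -(c * a1 + s * a2) by linarith]
      linear_combination ((q1 - a1) ^ 2 + (q2 - a2) ^ 2) * hcs
    linarith
  · have : (c * b1 + s * b2) ^ 2 + (c * b2 - s * b1) ^ 2 = b1 ^ 2 + b2 ^ 2 := by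
      linear_combination (b1 ^ 2 + b2 ^ 2) * hcs
    linarith

theorem vp_two (hB : BoxV) (a1 a2 p1 p2 q1 q2 b1 b2 : ℝ)
    (h1 : p1 ^ 2 + p2 ^ 2 = a1 ^ 2 + a2 ^ 2) (h2 : q1 ^ 2 + q2 ^ 2 = a1 ^ 2 + a2 ^ 2)
    (h3 : a1 ^ 2 + a2 ^ 2 + b1 ^ 2 + b2 ^ 2 ≤ 1)
    (h4 : 0 ≤ (p1 - a1) * (q2 - a2) - (p2 - a2) * (q1 - a1))
    (h5 : (q1 - a1) ^ 2 + (q2 - a2) ^ 2 ≤ (p1 - a1) ^ 2 + (p2 - a2) ^ 2)
    (h6 : (q1 - p1) ^ 2 + (q2 - p2) ^ 2 ≤ (p1 - a1) ^ 2 + (p2 - a2) ^ 2) :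
    Vp a1 a2 p1 p2 q1 q2 b1 b2 ≤ 1 / 2 := by
  rcases le_total ((q1 - p1) ^ 2 + (q2 - p2) ^ 2) ((q1 - a1) ^ 2 + (q2 - a2) ^ 2) with h | h
  · exact vp_one hB _ _ _ _ _ _ _ _ h1 h2 h3 h4 h5 h
  · have := vp_one hB p1 (-p2) a1 (-a2) q1 (-q2) b1 (-b2) (by linarith) (by linarith) (by linarith)
      (by linarith) (by linarith) (by linarith)
    unfold Vp at this ⊢
    simp only [vp_refl] at this
    linarith

theorem vplane (hB : BoxV) (a1 a2 p1 p2 q1 q2 b1 b2 : ℝ)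
    (h1 : p1 ^ 2 + p2 ^ 2 = a1 ^ 2 + a2 ^ 2) (h2 : q1 ^ 2 + q2 ^ 2 = a1 ^ 2 + a2 ^ 2)
    (h3 : a1 ^ 2 + a2 ^ 2 + b1 ^ 2 + b2 ^ 2 ≤ 1)
    (h4 : 0 ≤ (p1 - a1) * (q2 - a2) - (p2 - a2) * (q1 - a1)) :
    Vp a1 a2 p1 p2 q1 q2 b1 b2 ≤ 1 / 2 := by
  by_cases c1 : (q1 - a1) ^ 2 + (q2 - a2) ^ 2 ≤ (p1 - a1) ^ 2 + (p2 - a2) ^ 2 ∧
      (q1 - p1) ^ 2 + (q2 - p2) ^ 2 ≤ (p1 - a1) ^ 2 + (p2 - a2) ^ 2
  · exact vp_two hB _ _ _ _ _ _ _ _ h1 h2 h3 h4 c1.1 c1.2
  rw [not_and_or, not_le, not_le] at c1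
  rcases le_total ((q1 - p1) ^ 2 + (q2 - p2) ^ 2) ((q1 - a1) ^ 2 + (q2 - a2) ^ 2) with h | h
  · have := vp_two hB q1 q2 a1 a2 p1 p2 b1 b2 (by linarith) (by linarith) (by linarith)
      (by linarith) (by linarith) (by rcases c1 with c | c <;> linarith)
    unfold Vp at this ⊢
    linarith
  · have := vp_two hB p1 p2 q1 q2 a1 a2 b1 b2 (by linarith) (by linarith) (by linarith)
      (by linarith) (by rcases c1 with c | c <;> linarith) (by linarith)
    unfold Vp at this ⊢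
    linarith

end Pool.Agent.MP_90395b_gt.As

end

section

namespace Pool.Agent.MP_90395b_gt.As

open Pool.Agent.MP_90395b_gt.W5

namespace V3h

/-- deformed planar cochain -/
noncomputable def cq (a1 a2 p1 p2 b1 b2 l m e : ℝ) : ℝ :=
  c2 (m * (a1 * p2 - a2 * p1) + l * (p1 * b2 - p2 * b1 + a2 * b1 - a1 * b2))
    (((a1 - p1) ^ 2 + (a2 - p2) ^ 2) / 4)
    ((a1 - b1) ^ 2 + (a2 - b2) ^ 2 + e) ((p1 - b1) ^ 2 + (p2 - b2) ^ 2 + e)

lemma cq_one (a1 a2 p1 p2 b1 b2 : ℝ) : cq a1 a2 p1 p2 b1 b2 1 1 0 = cp a1 a2 p1 p2 b1 b2 := by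
  unfold cq cp
  congr 1 <;> ring

/-- deformed coboundary -/
noncomputable def Fq (z : (Fin 8 → ℝ) × ℝ × ℝ × ℝ) : ℝ :=
  cq (z.1 0) (z.1 1) (z.1 2) (z.1 3) (z.1 6) (z.1 7) z.2.1 z.2.2.1 z.2.2.2
    + cq (z.1 2) (z.1 3) (z.1 4) (z.1 5) (z.1 6) (z.1 7) z.2.1 z.2.2.1 z.2.2.2
    + cq (z.1 4) (z.1 5) (z.1 0) (z.1 1) (z.1 6) (z.1 7) z.2.1 z.2.2.1 z.2.2.2

lemma cont_g : Continuous fun z : ℝ × ℝ × ℝ => g z.1 z.2.1 z.2.2 := by
  unfold g; fun_prop

lemma cont_c2 {α : Type} [TopologicalSpace α] {D x r r' : α → ℝ} (h1 : Continuous D)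
    (h2 : Continuous x) (h3 : Continuous r) (h4 : Continuous r') :
    Continuous fun z => c2 (D z) (x z) (r z) (r' z) := by
  unfold c2
  have h5 : Continuous fun z => (x z, (r z + r' z) / 2 - x z, (r z - r' z) ^ 2 / 16) := by
    fun_prop
  have h6 := cont_g.comp h5
  exact (h1.div_const 2).mul h6

lemma cont_Fq : Continuous Fq := by
  unfold Fq cq
  refine ((cont_c2 ?_ ?_ ?_ ?_).add (cont_c2 ?_ ?_ ?_ ?_)).add (cont_c2 ?_ ?_ ?_ ?_) <;> fun_prop

/-- the compact parameter set -/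
def Kq : Set (Fin 8 → ℝ) :=
  {p | p 2 ^ 2 + p 3 ^ 2 = p 0 ^ 2 + p 1 ^ 2 ∧ p 4 ^ 2 + p 5 ^ 2 = p 0 ^ 2 + p 1 ^ 2 ∧
    p 0 ^ 2 + p 1 ^ 2 + p 6 ^ 2 + p 7 ^ 2 ≤ 1 ∧
    0 ≤ (p 2 - p 0) * (p 5 - p 1) - (p 3 - p 1) * (p 4 - p 0)}

lemma Kq_compact : IsCompact Kq := by
  have hc : IsClosed Kq := by
    unfold Kq
    simp only [Set.setOf_and]
    refine (isClosed_eq ?_ ?_).inter ((isClosed_eq ?_ ?_).inter
      ((isClosed_le ?_ ?_).inter (isClosed_le ?_ ?_))) <;> fun_prop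
  refine (isCompact_Icc (a := fun _ : Fin 8 => (-1 : ℝ)) (b := fun _ => 1)).of_isClosed_subset hc ?_
  rintro p ⟨h1, h2, h3, -⟩
  have h : ∀ i, p i ^ 2 ≤ 1 := by
    intro i
    have := sq_nonneg (p 0)
    have := sq_nonneg (p 1)
    have := sq_nonneg (p 2)
    have := sq_nonneg (p 3)
    have := sq_nonneg (p 4)
    have := sq_nonneg (p 5)
    have := sq_nonneg (p 6)
    have := sq_nonneg (p 7)
    fin_cases i <;> simp only [Fin.reduceFinMk, Fin.zero_eta, Fin.mk_one] <;> linarith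
  constructor
  · intro i
    exact (abs_le.mp ((sq_le_one_iff_abs_le_one _).mp (h i))).1
  · intro i
    exact (abs_le.mp ((sq_le_one_iff_abs_le_one _).mp (h i))).2

lemma cg_eq (u e1 e2 : V3) (s : ℝ) (hs : 0 < s)
    (hi : ∀ x y, ip x y = ip x e1 * ip y e1 + ip x e2 * ip y e2 + ip x u * ip y u)
    (hd : ∀ x y z, dt x y z =
      ip x e1 * (ip y e2 * ip z u - ip y u * ip z e2) - ip x e2 * (ip y e1 * ip z u - ip y u * ip z e1)
        + ip x u * (ip y e1 * ip z e2 - ip y e2 * ip z e1))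
    (a a' b : V3) (l m : ℝ) (ha : ip a u = l) (ha' : ip a' u = l) (hb : ip b u = m) :
    cg (s ^ 2) a a' b = cq (ip a e1 / s) (ip a e2 / s) (ip a' e1 / s) (ip a' e2 / s)
      (ip b e1 / s) (ip b e2 / s) l m ((l - m) ^ 2 / s ^ 2) := by
  have hs' := hs.ne'
  unfold cg cq
  congr 1
  · rw [hd, ha, ha', hb]; field_simp; ring
  · rw [hi]; simp only [sub_ip, ha, ha']; field_simp; ring
  · rw [hi]; simp only [sub_ip, ha, hb]; field_simp
  · rw [hi]; simp only [sub_ip, ha', hb]; field_simp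

lemma ip_le_one (a u : V3) (ha : ip a a = 1) (hu : ip u u = 1) : ip a u ≤ 1 := by
  have h := ip_cs a u
  rw [ha, hu] at h
  nlinarith

end V3h

open V3h in
theorem v3 (hB : BoxV) (ε : ℝ) (hε : 0 < ε) : ∃ T0 > 0, ∀ T, 0 < T → T ≤ T0 →
    ∀ a1 a2 a3 b u : V3, ip a1 a1 = 1 → ip a2 a2 = 1 → ip a3 a3 = 1 → ip b b = 1 → ip u u = 1 →
      ip a2 u = ip a1 u → ip a3 u = ip a1 u → (1 - ip a1 u) + (1 - ip b u) ≤ T / 2 →
      0 ≤ dt (a2 - a1) (a3 - a1) u → Vf (cg T) a1 a2 a3 b ≤ 1 / 2 + ε := by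
  obtain ⟨δ, hδ, H⟩ := unif Kq_compact Fq cont_Fq (1 / 2) ε hε (by
    rintro p ⟨h1, h2, h3, h4⟩
    have := vplane hB (p 0) (p 1) (p 2) (p 3) (p 4) (p 5) (p 6) (p 7) h1 h2 h3 h4
    unfold Vp at this
    simpa only [Fq, cq_one] using this)
  refine ⟨δ, hδ, fun T hT hTδ a1 a2 a3 b u h1 h2 h3 hb hu k2 k3 hs hdt => ?_⟩
  obtain ⟨e1, e2, hi, hd, hu1, hu2⟩ := frame u hu
  obtain ⟨s, hs0, rfl⟩ : ∃ s : ℝ, 0 < s ∧ T = s ^ 2 :=
    ⟨Real.sqrt T, Real.sqrt_pos.mpr hT, (Real.sq_sqrt hT.le).symm⟩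
  have hl := ip_le_one a1 u h1 hu
  have hm := ip_le_one b u hb hu
  obtain ⟨l, hl0⟩ : ∃ l, ip a1 u = l := ⟨_, rfl⟩
  obtain ⟨m, hm0⟩ : ∃ m, ip b u = m := ⟨_, rfl⟩
  rw [hl0] at k2 k3 hs hl
  rw [hm0] at hs hm
  have hs' := hs0.ne'
  have hK : (![ip a1 e1 / s, ip a1 e2 / s, ip a2 e1 / s, ip a2 e2 / s, ip a3 e1 / s, ip a3 e2 / s,
      ip b e1 / s, ip b e2 / s] : Fin 8 → ℝ) ∈ Kq := by
    have g1 := hi a1 a1
    have g2 := hi a2 a2
    have g3 := hi a3 a3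
    have g4 := hi b b
    rw [h1, hl0] at g1
    rw [h2, k2] at g2
    rw [h3, k3] at g3
    rw [hb, hm0] at g4
    rw [hd, hu1, hu2, hu] at hdt
    simp only [sub_ip, k2, k3, hl0] at hdt
    refine ⟨?_, ?_, ?_, ?_⟩
    · show (ip a2 e1 / s) ^ 2 + (ip a2 e2 / s) ^ 2 = (ip a1 e1 / s) ^ 2 + (ip a1 e2 / s) ^ 2
      field_simp; linarith
    · show (ip a3 e1 / s) ^ 2 + (ip a3 e2 / s) ^ 2 = (ip a1 e1 / s) ^ 2 + (ip a1 e2 / s) ^ 2
      field_simp; linarith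
    · show (ip a1 e1 / s) ^ 2 + (ip a1 e2 / s) ^ 2 + (ip b e1 / s) ^ 2 + (ip b e2 / s) ^ 2 ≤ 1
      simp only [div_pow, ← add_div]
      rw [div_le_one hT]
      nlinarith [sq_nonneg (1 - l), sq_nonneg (1 - m)]
    · show 0 ≤ (ip a2 e1 / s - ip a1 e1 / s) * (ip a3 e2 / s - ip a1 e2 / s)
        - (ip a2 e2 / s - ip a1 e2 / s) * (ip a3 e1 / s - ip a1 e1 / s)
      have : (ip a2 e1 / s - ip a1 e1 / s) * (ip a3 e2 / s - ip a1 e2 / s)
        - (ip a2 e2 / s - ip a1 e2 / s) * (ip a3 e1 / s - ip a1 e1 / s)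
        = ((ip a2 e1 - ip a1 e1) * (ip a3 e2 - ip a1 e2)
          - (ip a2 e2 - ip a1 e2) * (ip a3 e1 - ip a1 e1)) / s ^ 2 := by
        field_simp
      rw [this]
      apply div_nonneg _ hT.le
      linarith
  have he : |(l - m) ^ 2 / s ^ 2| ≤ δ := by
    rw [abs_of_nonneg (by positivity), div_le_iff₀ hT]
    have h5 : (l - m) ^ 2 ≤ (s ^ 2 / 2) ^ 2 := by
      apply sq_le_sq'
      · linarith
      · linarith
    nlinarith
  have key := H _ hK l m ((l - m) ^ 2 / s ^ 2) (by rw [abs_le]; constructor <;> linarith)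
    (by rw [abs_le]; constructor <;> linarith) he
  unfold Vf
  rw [cg_eq u e1 e2 s hs0 hi hd a1 a2 b l m hl0 k2 hm0,
    cg_eq u e1 e2 s hs0 hi hd a2 a3 b l m k2 k3 hm0,
    cg_eq u e1 e2 s hs0 hi hd a3 a1 b l m k3 hl0 hm0]
  exact key

end Pool.Agent.MP_90395b_gt.As

end

section

/-! The algebraic identity behind the parallelogram inequality. -/

namespace Pool.Agent.MP_90395b_gt.As

/-- even part of the weight polynomial -/
noncomputable def gEv (x α β q0 q1 S : ℝ) : ℝ :=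
  g x α q0 + (-79 / 500 - 121 / 500 * (x - 1 / 2)) * (β ^ 2 * S) + 33 / 250 * (3 * α * β ^ 2 * S)
    + 611 / 1000 * (β * q1 * S)

/-- odd part of the weight polynomial -/
noncomputable def gOd (x α β q0 q1 S : ℝ) : ℝ :=
  (-127 / 1000 + 601 / 1000 * (x - 1 / 2) - 91 / 125 * (x - 1 / 2) ^ 2) * β
    + (-79 / 500 - 121 / 500 * (x - 1 / 2)) * (2 * α * β) + 33 / 250 * (3 * α ^ 2 * β + β ^ 3 * S)
    + (-239 / 1000 + 43 / 250 * (x - 1 / 2)) * q1 + 611 / 1000 * (α * q1 + β * q0)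

lemma c2_par {D x r r' : ℝ} (D' x' α β q0 q1 s S : ℝ) (h : s ^ 2 = S) (h0 : D = D') (hx : x = x')
    (h1 : (r + r') / 2 - x = α + β * s) (h2 : (r - r') ^ 2 / 16 = q0 + q1 * s) :
    c2 D x r r' = D' / 2 * (gEv x' α β q0 q1 S + s * gOd x' α β q0 q1 S) := by
  rw [c2, h1, h2, h0, hx]
  congr 1
  unfold gEv gOd g
  linear_combination ((-79 / 500 - 121 / 500 * (x' - 1 / 2)) * β ^ 2
    + 33 / 250 * (3 * α * β ^ 2 + β ^ 3 * s) + 611 / 1000 * (β * q1)) * h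

lemma core_l (h k t w c e : ℝ) :
    h * k * gEv (h ^ 2) (t ^ 2 + k ^ 2 + w ^ 2 - 2 * t * w * c + e) (2 * t * k)
        (h ^ 2 * (k ^ 2 * c ^ 2 + w ^ 2 * (1 - c ^ 2))) (2 * h ^ 2 * k * w * c) (1 - c ^ 2)
      - h * w * c * gOd (h ^ 2) (t ^ 2 + k ^ 2 + w ^ 2 - 2 * t * w * c + e) (2 * t * k)
        (h ^ 2 * (k ^ 2 * c ^ 2 + w ^ 2 * (1 - c ^ 2))) (2 * h ^ 2 * k * w * c) (1 - c ^ 2)
      + k * w * gOd (k ^ 2) (h ^ 2 + t ^ 2 + w ^ 2 - 2 * t * w * c + e) (2 * h * w)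
        (k ^ 2 * (h ^ 2 * c ^ 2 + t ^ 2 * (1 - c ^ 2))) (2 * k ^ 2 * h * t * c) (1 - c ^ 2)
    = h * k * (Jl0 (h ^ 2) (k ^ 2) t w c + e * Jl1 (h ^ 2) (k ^ 2) t w c
      + e ^ 2 * Jl2 (h ^ 2) (k ^ 2) t w c + e ^ 3 * Jl3 (h ^ 2) (k ^ 2) t w c) := by
  unfold gEv gOd g Jl0 Jl1 Jl2 Jl3
  ring

lemma core_m (h k t w c e : ℝ) :
    h * k * gEv (k ^ 2) (h ^ 2 + t ^ 2 + w ^ 2 - 2 * t * w * c + e) (2 * h * w)
        (k ^ 2 * (h ^ 2 * c ^ 2 + t ^ 2 * (1 - c ^ 2))) (2 * k ^ 2 * h * t * c) (1 - c ^ 2)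
      - t * k * c * gOd (k ^ 2) (h ^ 2 + t ^ 2 + w ^ 2 - 2 * t * w * c + e) (2 * h * w)
        (k ^ 2 * (h ^ 2 * c ^ 2 + t ^ 2 * (1 - c ^ 2))) (2 * k ^ 2 * h * t * c) (1 - c ^ 2)
      + h * t * gOd (h ^ 2) (t ^ 2 + k ^ 2 + w ^ 2 - 2 * t * w * c + e) (2 * t * k)
        (h ^ 2 * (k ^ 2 * c ^ 2 + w ^ 2 * (1 - c ^ 2))) (2 * h ^ 2 * k * w * c) (1 - c ^ 2)
    = h * k * (Jm0 (h ^ 2) (k ^ 2) t w c + e * Jm1 (h ^ 2) (k ^ 2) t w c
      + e ^ 2 * Jm2 (h ^ 2) (k ^ 2) t w c + e ^ 3 * Jm3 (h ^ 2) (k ^ 2) t w c) := by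
  unfold gEv gOd g Jm0 Jm1 Jm2 Jm3
  ring

lemma gEv_neg (x α β q0 q1 S : ℝ) : gEv x α (-β) q0 (-q1) S = gEv x α β q0 q1 S := by
  unfold gEv; ring

lemma gOd_neg (x α β q0 q1 S : ℝ) : gOd x α (-β) q0 (-q1) S = -gOd x α β q0 q1 S := by
  unfold gOd; ring

lemma polar (v1 v2 : ℝ) : ∃ n1 n2 k : ℝ, n1 ^ 2 + n2 ^ 2 = 1 ∧ 0 ≤ k ∧ v1 = k * n1 ∧ v2 = k * n2 := by
  by_cases h : v1 ^ 2 + v2 ^ 2 = 0
  · exact ⟨1, 0, 0, by norm_num, le_rfl, by nlinarith [sq_nonneg v1, sq_nonneg v2],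
      by nlinarith [sq_nonneg v1, sq_nonneg v2]⟩
  · have h0 : 0 < v1 ^ 2 + v2 ^ 2 := lt_of_le_of_ne (by positivity) (Ne.symm h)
    have h1 := Real.sq_sqrt h0.le
    have h2 := (Real.sqrt_pos.2 h0).ne'
    refine ⟨v1 / √(v1 ^ 2 + v2 ^ 2), v2 / √(v1 ^ 2 + v2 ^ 2), √(v1 ^ 2 + v2 ^ 2), ?_,
      Real.sqrt_nonneg _, by field_simp, by field_simp⟩
    rw [div_pow, div_pow, h1]
    field_simp

/-- two points at the same distance from the origin -/
lemma chord (A1 A2 P1 P2 : ℝ) (hA : A1 ^ 2 + A2 ^ 2 = P1 ^ 2 + P2 ^ 2) :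
    ∃ n1 n2 h t : ℝ, n1 ^ 2 + n2 ^ 2 = 1 ∧ A1 = -h * n1 - t * n2 ∧ A2 = -h * n2 + t * n1 ∧
      P1 = h * n1 - t * n2 ∧ P2 = h * n2 + t * n1 := by
  have key : ∀ n1 n2 h : ℝ, n1 ^ 2 + n2 ^ 2 = 1 → P1 - A1 = 2 * h * n1 → P2 - A2 = 2 * h * n2 →
      (A1 + P1) * n1 + (A2 + P2) * n2 = 0 →
      ∃ n1 n2 h t : ℝ, n1 ^ 2 + n2 ^ 2 = 1 ∧ A1 = -h * n1 - t * n2 ∧ A2 = -h * n2 + t * n1 ∧
        P1 = h * n1 - t * n2 ∧ P2 = h * n2 + t * n1 := fun n1 n2 h a b c d =>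
    ⟨n1, n2, h, (-(A1 + P1) * n2 + (A2 + P2) * n1) / 2, a,
      by linear_combination (-1 / 2) * b + n1 / 2 * d - (A1 + P1) / 2 * a,
      by linear_combination (-1 / 2) * c + n2 / 2 * d - (A2 + P2) / 2 * a,
      by linear_combination (1 / 2) * b + n1 / 2 * d - (A1 + P1) / 2 * a,
      by linear_combination (1 / 2) * c + n2 / 2 * d - (A2 + P2) / 2 * a⟩
  obtain ⟨n1, n2, k, a, -, b, c⟩ := polar (P1 - A1) (P2 - A2)
  by_cases hk : k = 0
  · obtain ⟨p1, p2, j, a', -, b', c'⟩ := polar (A2 + P2) (-(A1 + P1))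
    refine key p1 p2 0 a' (by rw [b, hk]; ring) (by rw [c, hk]; ring) ?_
    linear_combination p2 * b' - p1 * c'
  · refine key n1 n2 (k / 2) a (by rw [b]; ring) (by rw [c]; ring) (mul_left_cancel₀ hk ?_)
    linear_combination (-(A1 + P1)) * b - (A2 + P2) * c - hA

lemma contJ : Continuous fun z : (ℝ × ℝ × ℝ × ℝ × ℝ) × ℝ × ℝ × ℝ =>
    -Jt z.1.1 z.1.2.1 z.1.2.2.1 z.1.2.2.2.1 z.1.2.2.2.2 z.2.1 z.2.2.1 z.2.2.2 := by
  have a0 : Continuous fun p : ℝ × ℝ × ℝ × ℝ × ℝ => Jl0 p.1 p.2.1 p.2.2.1 p.2.2.2.1 p.2.2.2.2 := by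
    unfold Jl0; fun_prop
  have a1 : Continuous fun p : ℝ × ℝ × ℝ × ℝ × ℝ => Jl1 p.1 p.2.1 p.2.2.1 p.2.2.2.1 p.2.2.2.2 := by
    unfold Jl1; fun_prop
  have a2 : Continuous fun p : ℝ × ℝ × ℝ × ℝ × ℝ => Jl2 p.1 p.2.1 p.2.2.1 p.2.2.2.1 p.2.2.2.2 := by
    unfold Jl2; fun_prop
  have a3 : Continuous fun p : ℝ × ℝ × ℝ × ℝ × ℝ => Jl3 p.1 p.2.1 p.2.2.1 p.2.2.2.1 p.2.2.2.2 := by
    unfold Jl3; fun_prop
  have b0 : Continuous fun p : ℝ × ℝ × ℝ × ℝ × ℝ => Jm0 p.1 p.2.1 p.2.2.1 p.2.2.2.1 p.2.2.2.2 := by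
    unfold Jm0; fun_prop
  have b1 : Continuous fun p : ℝ × ℝ × ℝ × ℝ × ℝ => Jm1 p.1 p.2.1 p.2.2.1 p.2.2.2.1 p.2.2.2.2 := by
    unfold Jm1; fun_prop
  have b2 : Continuous fun p : ℝ × ℝ × ℝ × ℝ × ℝ => Jm2 p.1 p.2.1 p.2.2.1 p.2.2.2.1 p.2.2.2.2 := by
    unfold Jm2; fun_prop
  have b3 : Continuous fun p : ℝ × ℝ × ℝ × ℝ × ℝ => Jm3 p.1 p.2.1 p.2.2.1 p.2.2.2.1 p.2.2.2.2 := by
    unfold Jm3; fun_prop
  have c1 : Continuous fun z : (ℝ × ℝ × ℝ × ℝ × ℝ) × ℝ × ℝ × ℝ => z.2.1 := by fun_prop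
  have c2 : Continuous fun z : (ℝ × ℝ × ℝ × ℝ × ℝ) × ℝ × ℝ × ℝ => z.2.2.1 := by fun_prop
  have c3 : Continuous fun z : (ℝ × ℝ × ℝ × ℝ × ℝ) × ℝ × ℝ × ℝ => z.2.2.2 := by fun_prop
  exact ((c1.mul ((((a0.comp continuous_fst).add (c3.mul (a1.comp continuous_fst))).add
    ((c3.pow 2).mul (a2.comp continuous_fst))).add ((c3.pow 3).mul (a3.comp continuous_fst)))).add
    (c2.mul ((((b0.comp continuous_fst).add (c3.mul (b1.comp continuous_fst))).add
    ((c3.pow 2).mul (b2.comp continuous_fst))).add ((c3.pow 3).mul (b3.comp continuous_fst))))).neg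

lemma unifJ (hB : BoxX) (ε : ℝ) (hε : 0 < ε) : ∃ δ > 0, ∀ x y t u c l m e : ℝ, 0 ≤ x → 0 ≤ y →
    -1 ≤ c → c ≤ 1 → x + y + t ^ 2 + u ^ 2 ≤ 1 → |l - 1| ≤ δ → |m - 1| ≤ δ → |e| ≤ δ →
    1 - ε ≤ Jt x y t u c l m e := by
  have hK : IsCompact {p : ℝ × ℝ × ℝ × ℝ × ℝ | 0 ≤ p.1 ∧ 0 ≤ p.2.1 ∧ -1 ≤ p.2.2.2.2 ∧
      p.2.2.2.2 ≤ 1 ∧ p.1 + p.2.1 + p.2.2.1 ^ 2 + p.2.2.2.1 ^ 2 ≤ 1} := by
    refine (isCompact_Icc (a := (0, 0, -1, -1, -1)) (b := (1, 1, 1, 1, 1))).of_isClosed_subset ?_ ?_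
    · simp only [Set.ofPred_and]
      refine (isClosed_le ?_ ?_).inter ((isClosed_le ?_ ?_).inter ((isClosed_le ?_ ?_).inter
        ((isClosed_le ?_ ?_).inter (isClosed_le ?_ ?_)))) <;> fun_prop
    · rintro ⟨x, y, t, u, c⟩ ⟨h1, h2, h3, h4, h5⟩
      simp only [Set.mem_Icc, Prod.mk_le_mk] at *
      refine ⟨⟨h1, h2, ?_, ?_, h3⟩, ?_, ?_, ?_, ?_, h4⟩ <;>
        nlinarith [sq_nonneg t, sq_nonneg u, sq_nonneg (t - 1), sq_nonneg (u - 1),
          sq_nonneg (t + 1), sq_nonneg (u + 1)]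
  obtain ⟨δ, h0, h1⟩ := unif hK _ contJ (-1) ε hε fun p hp =>
    neg_le_neg (hB _ _ _ _ _ hp.1 hp.2.1 hp.2.2.1 hp.2.2.2.1 hp.2.2.2.2)
  refine ⟨δ, h0, fun x y t u c l m e a1 a2 a3 a4 a5 a6 a7 a8 => ?_⟩
  have := h1 (x, y, t, u, c) ⟨a1, a2, a3, a4, a5⟩ l m e a6 a7 a8
  dsimp only at this
  linarith

end Pool.Agent.MP_90395b_gt.As

end

section

namespace Pool.Agent.MP_90395b_gt.As

open Pool.Agent.MP_90395b_gt.W5

/-- planar form of the cochain -/
noncomputable def cqX (T x1 x2 x3 y1 y2 y3 z1 z2 z3 : ℝ) : ℝ :=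
  c2 (z3 * (x1 * y2 - x2 * y1) + y3 * (z1 * x2 - z2 * x1) + x3 * (y1 * z2 - y2 * z1))
    (((x1 - y1) ^ 2 + (x2 - y2) ^ 2 + (x3 - y3) ^ 2 / T) / 4)
    ((x1 - z1) ^ 2 + (x2 - z2) ^ 2 + (x3 - z3) ^ 2 / T)
    ((y1 - z1) ^ 2 + (y2 - z2) ^ 2 + (y3 - z3) ^ 2 / T)

lemma cqX_sum (T h k t w n1 n2 p1 p2 l m : ℝ) (hn : n1 ^ 2 + n2 ^ 2 = 1) (hp : p1 ^ 2 + p2 ^ 2 = 1) :
    cqX T (h * n1 - t * n2) (h * n2 + t * n1) l (-h * n1 - t * n2) (-h * n2 + t * n1) l
        (-k * p1 - w * p2) (-k * p2 + w * p1) m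
      + cqX T (-h * n1 - t * n2) (-h * n2 + t * n1) l (h * n1 - t * n2) (h * n2 + t * n1) l
        (k * p1 - w * p2) (k * p2 + w * p1) m
      + cqX T (k * p1 - w * p2) (k * p2 + w * p1) m (-k * p1 - w * p2) (-k * p2 + w * p1) m
        (h * n1 - t * n2) (h * n2 + t * n1) l
      + cqX T (-k * p1 - w * p2) (-k * p2 + w * p1) m (k * p1 - w * p2) (k * p2 + w * p1) m
        (-h * n1 - t * n2) (-h * n2 + t * n1) l
    = 2 * h * k * (n1 * p2 - n2 * p1) *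
      Jt (h ^ 2) (k ^ 2) t w (n1 * p1 + n2 * p2) l m ((l - m) ^ 2 / T) := by
  obtain ⟨c, hc⟩ : ∃ c, c = n1 * p1 + n2 * p2 := ⟨_, rfl⟩
  obtain ⟨s, hs⟩ : ∃ s, s = n1 * p2 - n2 * p1 := ⟨_, rfl⟩
  obtain ⟨e, he⟩ : ∃ e, e = (l - m) ^ 2 / T := ⟨_, rfl⟩
  have he' : (m - l) ^ 2 / T = e := by rw [he]; ring
  have h2 : s ^ 2 = 1 - c ^ 2 := by
    rw [hs, hc]; linear_combination (p1 ^ 2 + p2 ^ 2) * hn + hp
  unfold cqX
  rw [← he, ← hc, ← hs, he', sub_self l, sub_self m,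
    c2_par (2 * h * t * m + l * (2 * h * k * s - 2 * h * w * c)) (h ^ 2)
      (t ^ 2 + k ^ 2 + w ^ 2 - 2 * t * w * c + e) (2 * t * k)
      (h ^ 2 * (k ^ 2 * c ^ 2 + w ^ 2 * (1 - c ^ 2))) (2 * h ^ 2 * k * w * c) s _ h2
      (by rw [hs, hc]; linear_combination (2 * h * t * m) * hn)
      (by linear_combination (h ^ 2) * hn)
      (by rw [hs, hc]; linear_combination (t ^ 2) * hn + (k ^ 2 + w ^ 2) * hp)
      (by rw [← h2, hs, hc]; ring),
    c2_par (-(2 * h * t * m) + l * (2 * h * k * s + 2 * h * w * c)) (h ^ 2)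
      (t ^ 2 + k ^ 2 + w ^ 2 - 2 * t * w * c + e) (-(2 * t * k))
      (h ^ 2 * (k ^ 2 * c ^ 2 + w ^ 2 * (1 - c ^ 2))) (-(2 * h ^ 2 * k * w * c)) s _ h2
      (by rw [hs, hc]; linear_combination (-(2 * h * t * m)) * hn)
      (by linear_combination (h ^ 2) * hn)
      (by rw [hs, hc]; linear_combination (t ^ 2) * hn + (k ^ 2 + w ^ 2) * hp)
      (by rw [← h2, hs, hc]; ring),
    c2_par (2 * k * w * l + m * (2 * h * k * s - 2 * t * k * c)) (k ^ 2)
      (h ^ 2 + t ^ 2 + w ^ 2 - 2 * t * w * c + e) (2 * h * w)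
      (k ^ 2 * (h ^ 2 * c ^ 2 + t ^ 2 * (1 - c ^ 2))) (2 * k ^ 2 * h * t * c) s _ h2
      (by rw [hs, hc]; linear_combination (2 * k * w * l) * hp)
      (by linear_combination (k ^ 2) * hp)
      (by rw [hs, hc]; linear_combination (w ^ 2) * hp + (h ^ 2 + t ^ 2) * hn)
      (by rw [← h2, hs, hc]; ring),
    c2_par (-(2 * k * w * l) + m * (2 * h * k * s + 2 * t * k * c)) (k ^ 2)
      (h ^ 2 + t ^ 2 + w ^ 2 - 2 * t * w * c + e) (-(2 * h * w))
      (k ^ 2 * (h ^ 2 * c ^ 2 + t ^ 2 * (1 - c ^ 2))) (-(2 * k ^ 2 * h * t * c)) s _ h2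
      (by rw [hs, hc]; linear_combination (-(2 * k * w * l)) * hp)
      (by linear_combination (k ^ 2) * hp)
      (by rw [hs, hc]; linear_combination (w ^ 2) * hp + (h ^ 2 + t ^ 2) * hn)
      (by rw [← h2, hs, hc]; ring),
    gEv_neg, gOd_neg, gEv_neg, gOd_neg, Jt]
  linear_combination (2 * s * l) * core_l h k t w c e + (2 * s * m) * core_m h k t w c e

theorem x3 (hB : BoxX) (ε : ℝ) (hε : 0 < ε) (hε1 : ε ≤ 1) : ∃ T0 > 0, ∀ T, 0 < T → T ≤ T0 →
    ∀ a a' b b' u : V3, ip a a = 1 → ip a' a' = 1 → ip b b = 1 → ip b' b' = 1 → ip u u = 1 →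
      ip a' u = ip a u → ip b' u = ip b u → (1 - ip a u) + (1 - ip b u) ≤ T / 2 →
      0 ≤ dt (a' - a) (b' - b) u →
      (1 - ε) / 2 * Sf (c0 T) a a' b b' ≤ Sf (cg T) a a' b b' := by
  obtain ⟨δ, hδ, hJ⟩ := unifJ hB ε hε
  refine ⟨δ, hδ, fun T hT hTδ a a' b b' u ha ha' hb hb' hu hl hm hlm hd => ?_⟩
  obtain ⟨e1, e2, hip, hdt, hu1, hu2⟩ := frame u hu
  obtain ⟨r, hr, rfl⟩ : ∃ r : ℝ, 0 < r ∧ T = r ^ 2 :=
    ⟨√T, Real.sqrt_pos.2 hT, (Real.sq_sqrt hT.le).symm⟩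
  have hr' := hr.ne'
  have hcg : ∀ x y z : V3, cg (r ^ 2) x y z = cqX (r ^ 2) (ip x e1 / r) (ip x e2 / r) (ip x u)
      (ip y e1 / r) (ip y e2 / r) (ip y u) (ip z e1 / r) (ip z e2 / r) (ip z u) := by
    intro x y z
    unfold cg cqX
    rw [hdt, hip (x - y), hip (x - z), hip (y - z)]
    simp only [sub_ip]
    congr 1 <;> field_simp <;> ring
  have hc0 : ∀ x y z : V3, c0 (r ^ 2) x y z =
      (ip z u * (ip x e1 / r * (ip y e2 / r) - ip x e2 / r * (ip y e1 / r))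
        + ip y u * (ip z e1 / r * (ip x e2 / r) - ip z e2 / r * (ip x e1 / r))
        + ip x u * (ip y e1 / r * (ip z e2 / r) - ip y e2 / r * (ip z e1 / r))) / 2 := by
    intro x y z
    unfold c0
    rw [hdt]
    field_simp
    ring
  have hn : ∀ x : V3, ip x x = 1 →
      (ip x e1 / r) ^ 2 + (ip x e2 / r) ^ 2 = (1 - ip x u ^ 2) / r ^ 2 := fun x hx => by
    rw [hip] at hx
    field_simp
    linear_combination hx
  have hd' : 0 ≤ (ip a' e1 / r - ip a e1 / r) * (ip b' e2 / r - ip b e2 / r)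
      - (ip a' e2 / r - ip a e2 / r) * (ip b' e1 / r - ip b e1 / r) := by
    rw [hdt] at hd
    simp only [sub_ip, hl, hm, hu, hu1, hu2] at hd
    have := div_nonneg hd hT.le
    refine this.trans_eq ?_
    field_simp
    ring
  have na := hn a ha
  have nb := hn b hb
  obtain ⟨n1, n2, h, t, hn1, A1, A2, A3, A4⟩ := chord _ _ _ _ (na.trans (hl ▸ hn a' ha').symm)
  obtain ⟨p1, p2, k, w, hp1, B1, B2, B3, B4⟩ := chord _ _ _ _ (nb.trans (hm ▸ hn b' hb').symm)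
  unfold Sf
  simp only [hcg, hc0]
  rw [A1, A2] at na
  rw [B1, B2] at nb
  rw [A1, A2, A3, A4, B1, B2, B3, B4] at hd' ⊢
  rw [hl, hm, cqX_sum _ h k t w n1 n2 p1 p2 _ _ hn1 hp1]
  generalize ip a u = l at *
  generalize ip b u = m at *
  have e1 : (h ^ 2 + t ^ 2) * r ^ 2 = 1 - l ^ 2 := by
    rw [eq_div_iff hT.ne'] at na
    linear_combination na - (h ^ 2 + t ^ 2) * r ^ 2 * hn1
  have e2 : (k ^ 2 + w ^ 2) * r ^ 2 = 1 - m ^ 2 := by
    rw [eq_div_iff hT.ne'] at nb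
    linear_combination nb - (k ^ 2 + w ^ 2) * r ^ 2 * hp1
  have l0 : ∀ x : ℝ, 0 ≤ 1 - x ^ 2 → x ≤ 1 ∧ -1 ≤ x := fun x hx =>
    (abs_le.1 ((sq_le_one_iff_abs_le_one x).1 (sub_nonneg.1 hx))).symm
  have l1 : l ≤ 1 := (l0 l (e1 ▸ by positivity)).1
  have m1 : m ≤ 1 := (l0 m (e2 ▸ by positivity)).1
  have hcs : (n1 * p1 + n2 * p2) ^ 2 + (n1 * p2 - n2 * p1) ^ 2 = 1 := by
    linear_combination (p1 ^ 2 + p2 ^ 2) * hn1 + hp1
  have hc := (l0 (n1 * p1 + n2 * p2)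
    (by linear_combination sq_nonneg (n1 * p2 - n2 * p1) + hcs)).symm
  have hs : h ^ 2 + k ^ 2 + t ^ 2 + w ^ 2 ≤ 1 := by
    refine le_of_mul_le_mul_right ?_ hT
    linear_combination e1 + e2 + 2 * hlm + sq_nonneg (1 - l) + sq_nonneg (1 - m)
  have he : (l - m) ^ 2 / r ^ 2 ≤ δ := by
    rw [div_le_iff₀ hT]
    have : (l - m) ^ 2 ≤ (r ^ 2) ^ 2 := sq_le_sq' (by linarith) (by linarith)
    linear_combination this + r ^ 2 * hTδ
  have hj := hJ (h ^ 2) (k ^ 2) t w _ l m ((l - m) ^ 2 / r ^ 2) (sq_nonneg _) (sq_nonneg _) hc.1 hc.2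
    hs (abs_le.2 ⟨by linarith, by linarith⟩) (abs_le.2 ⟨by linarith, by linarith⟩)
    (by rwa [abs_of_nonneg (by positivity)])
  have h0 : 0 ≤ 2 * h * k * (n1 * p2 - n2 * p1) := by linear_combination (1 / 2) * hd'
  refine le_trans (le_of_eq (b := (1 - ε) * ((l + m) / 2) * (2 * h * k * (n1 * p2 - n2 * p1)))
    (by ring)) ?_
  rw [mul_comm (2 * h * k * _)]
  refine mul_le_mul_of_nonneg_right (le_trans ?_ hj) h0
  exact mul_le_of_le_one_right (sub_nonneg.2 hε1) (by linarith)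

end Pool.Agent.MP_90395b_gt.As

end

section

namespace Pool.Agent.MP_90395b_gt.As

open Pool.Agent.MP_90395b_gt.W5

lemma up_le_one {a u : V3} (ha : ip a a = 1) (hu : ip u u = 1) : ip a u ≤ 1 := by
  have h := ip_cs a u
  rw [ha, hu] at h
  nlinarith

lemma up_neg (a u : V3) : ip (-a) u = -ip a u := by simp [ip]; ring

lemma up_neg2 (a : V3) : ip (-a) (-a) = ip a a := by simp [ip]

lemma up_dt (p q b u : V3) (hu : ip u u = 1) (hp : ip p u = 0) (hq : ip q u = 0) :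
    dt p q b = dt p q u * ip b u := by
  have h : dt p q b * ip u u = dt p q u * ip b u - dt p b u * ip q u + dt q b u * ip p u := by
    unfold dt ip; ring
  rw [hu, hp, hq] at h
  linarith

lemma up_sub (a b u : V3) : ip (a - b) u = ip a u - ip b u := by simp [ip]; ring

/-- the corrected cochain -/
noncomputable def upc (T e : ℝ) (p q z : V3) : ℝ := cg T p q z - (1 - e) / 2 * c0 T p q z

lemma upc_anti (T e : ℝ) (x y z : V3) : upc T e y x z = -upc T e x y z := by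
  have h1 : dt y x z = -dt x y z := by unfold dt; ring
  have h2 : ip (y - x) (y - x) = ip (x - y) (x - y) := by simp [ip]; ring
  unfold upc cg c0 c2
  rw [h1, h2, add_comm (ip (y - z) (y - z) / T),
    show (ip (y - z) (y - z) / T - ip (x - z) (x - z) / T) ^ 2
      = (ip (x - z) (x - z) / T - ip (y - z) (y - z) / T) ^ 2 by ring]
  ring

lemma upc_cont (T e : ℝ) : Continuous fun p : V3 × V3 × V3 => upc T e p.1 p.2.1 p.2.2 := by
  unfold upc cg c0 c2 g dt ip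
  fun_prop

lemma up_tri {n : ℕ} (a b : Fin n → V3) (ha : ∀ i, ip (a i) (a i) = 1)
    (hb : ∀ i, ip (b i) (b i) = 1) (T e : ℝ) (hT : 0 < T) (hT1 : T ≤ 1) (he : e ≤ 1)
    (H : ∀ u : V3, ip u u = 1 → ∃ i j, 2 - T / 2 < ip (a i) u + ip (b j) u)
    (hv : ∀ a1 a2 a3 b u : V3, ip a1 a1 = 1 → ip a2 a2 = 1 → ip a3 a3 = 1 → ip b b = 1 →
      ip u u = 1 → ip a2 u = ip a1 u → ip a3 u = ip a1 u →
      (1 - ip a1 u) + (1 - ip b u) ≤ T / 2 → 0 ≤ dt (a2 - a1) (a3 - a1) u →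
      Vf (cg T) a1 a2 a3 b ≤ 1 / 2 + e)
    (t : I4 n) (ht : WTri a b t) :
    VT (upc T e) a b t ≤ (1 / 2 + e) - (1 - e) * (1 - T / 2) / (4 * T) * DT a t := by
  obtain ⟨u, hu, s1, k2, k3, s4, hd⟩ := ht
  obtain ⟨i, j, hij⟩ := H u hu
  have hs : (1 - ip (a t.1) u) + (1 - ip (b t.2.2.2) u) ≤ T / 2 := by
    linarith [s1 i, s4 j]
  have h1 := hv _ _ _ _ u (ha t.1) (ha t.2.1) (ha t.2.2.1) (hb t.2.2.2) hu k2 k3 hs hd
  have hp : ip (a t.2.1 - a t.1) u = 0 := by rw [up_sub, k2, sub_self]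
  have hq : ip (a t.2.2.1 - a t.1) u = 0 := by rw [up_sub, k3, sub_self]
  have e1 := up_dt _ _ (b t.2.2.2) u hu hp hq
  have e2 := up_dt _ _ (a t.1) u hu hp hq
  have l1 := up_le_one (ha t.1) hu
  have e3 : DT a t = dt (a t.2.1 - a t.1) (a t.2.2.1 - a t.1) (a t.1) := by
    simp [DT, dt]; ring
  have e4 : VT (upc T e) a b t = Vf (cg T) (a t.1) (a t.2.1) (a t.2.2.1) (b t.2.2.2)
      - (1 - e) / (4 * T) * dt (a t.2.1 - a t.1) (a t.2.2.1 - a t.1) (b t.2.2.2) := by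
    simp only [VT, Vf, upc, c0, dt, Pi.sub_apply]
    field_simp
    ring
  rw [e4, e3, e1, e2]
  generalize dt (a t.2.1 - a t.1) (a t.2.2.1 - a t.1) u = ν at hd ⊢
  have hk : 0 ≤ (1 - e) / (4 * T) := div_nonneg (by linarith) (by linarith)
  have h2 : (1 - T / 2) * ip (a t.1) u ≤ ip (b t.2.2.2) u := by nlinarith
  have h3 : (1 - e) / (4 * T) * (ν * ((1 - T / 2) * ip (a t.1) u))
      ≤ (1 - e) / (4 * T) * (ν * ip (b t.2.2.2) u) :=
    mul_le_mul_of_nonneg_left (mul_le_mul_of_nonneg_left h2 hd) hk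
  have h4 : (1 - e) * (1 - T / 2) / (4 * T) * (ν * ip (a t.1) u)
      = (1 - e) / (4 * T) * (ν * ((1 - T / 2) * ip (a t.1) u)) := by ring
  rw [h4]
  linarith

lemma up_sum {n : ℕ} (a b : Fin n → V3) (T e K D : ℝ) (he : 0 ≤ e) (hK : 0 ≤ K)
    (TA : Finset (I4 n)) (hc : TA.card ≤ 6 * n) (hD : D ≤ ∑ t ∈ TA, DT a t)
    (h : ∀ t ∈ TA, VT (upc T e) a b t ≤ (1 / 2 + e) - K * DT a t) :
    ∑ t ∈ TA, VT (upc T e) a b t ≤ 6 * n * (1 / 2 + e) - K * D := by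
  refine (Finset.sum_le_sum h).trans ?_
  rw [Finset.sum_sub_distrib, Finset.sum_const, ← Finset.mul_sum, nsmul_eq_mul]
  have h1 : (TA.card : ℝ) ≤ 6 * n := by exact_mod_cast hc
  have h2 := mul_le_mul_of_nonneg_left hD hK
  have h3 : (TA.card : ℝ) * (1 / 2 + e) ≤ 6 * n * (1 / 2 + e) :=
    mul_le_mul_of_nonneg_right h1 (by linarith)
  linarith

lemma up_inr {n : ℕ} (a b : Fin n → V3) (hb : ∀ i, ip (b i) (b i) = 1) (T : ℝ)
    (H : ∀ u : V3, ip u u = 1 → ∃ i j, 2 - T / 2 < ip (a i) u + ip (b j) u) :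
    Inr a (1 - T / 2) := by
  intro u hu
  obtain ⟨i, j, h⟩ := H u hu
  exact ⟨i, by linarith [up_le_one (hb j) hu]⟩

theorem upper (hV : BoxV) (hX : BoxX) (ε : ℝ) (hε : 0 < ε) : ∃ N : ℕ, ∀ n ≥ N,
    ∀ x : Fin n → V3, (∀ i, ip (x i) (x i) = 1) →
      ∃ u : V3, ip u u = 1 ∧ ∀ i j, ip (x i) u - ip (x j) u ≤ 2 - (Real.pi - ε) / n := by
  rcases le_or_gt Real.pi ε with hπ | hπ
  · refine ⟨0, fun n _ x hx => ⟨![1, 0, 0], by simp [ip], fun i j => ?_⟩⟩
    have hu : ip ![1, 0, 0] ![1, 0, 0] = 1 := by simp [ip]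
    have h1 := up_le_one (hx i) hu
    have h2 := up_le_one ((up_neg2 (x j)).trans (hx j)) hu
    rw [up_neg] at h2
    have h3 : (Real.pi - ε) / n ≤ 0 := div_nonpos_of_nonpos_of_nonneg (by linarith) (by positivity)
    linarith
  have hπ4 := Real.pi_le_four
  have hπ0 := Real.pi_pos
  obtain ⟨e, he⟩ : ∃ e : ℝ, e = ε / 32 := ⟨_, rfl⟩
  have he0 : 0 < e := by rw [he]; positivity
  have he1 : e ≤ 1 / 8 := by rw [he]; linarith
  obtain ⟨T0, hT0, hv⟩ := v3 hV e he0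
  obtain ⟨T1, hT1, hx3⟩ := x3 hX e he0 (by linarith)
  obtain ⟨τ, hτ⟩ : ∃ τ : ℝ, τ = min T0 (min T1 e) := ⟨_, rfl⟩
  have hτ0 : 0 < τ := by rw [hτ]; exact lt_min hT0 (lt_min hT1 he0)
  refine ⟨max 3 ⌈8 / τ⌉₊, fun n hn x hx => ?_⟩
  have hn3 : 3 ≤ n := le_of_max_le_left hn
  have hn0 : (0 : ℝ) < n := by exact_mod_cast (by omega : 0 < n)
  have hnτ : 8 / τ ≤ n := (Nat.le_ceil _).trans (by exact_mod_cast le_of_max_le_right hn)
  obtain ⟨T, hT⟩ : ∃ T : ℝ, T = 2 * (Real.pi - ε) / n := ⟨_, rfl⟩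
  have hTn : n * T = 2 * (Real.pi - ε) := by rw [hT]; field_simp
  have hTp : 0 < T := by rw [hT]; exact div_pos (by linarith) hn0
  have hTτ : T ≤ τ := by
    rw [div_le_iff₀ hτ0] at hnτ
    rw [hT, div_le_iff₀ hn0]
    linarith
  have hTa : T ≤ T0 := hTτ.trans (by rw [hτ]; exact min_le_left _ _)
  have hTb : T ≤ T1 := hTτ.trans (by rw [hτ]; exact (min_le_right _ _).trans (min_le_left _ _))
  have hTe : T ≤ e := hTτ.trans (by rw [hτ]; exact (min_le_right _ _).trans (min_le_right _ _))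
  by_contra hcon
  push Not at hcon
  have hb : ∀ i, ip ((fun i => -x i) i) ((fun i => -x i) i) = 1 := fun i =>
    (up_neg2 (x i)).trans (hx i)
  have H : ∀ u : V3, ip u u = 1 → ∃ i j, 2 - T / 2 < ip (x i) u + ip ((fun i => -x i) j) u := by
    intro u hu
    obtain ⟨i, j, h⟩ := hcon u hu
    refine ⟨i, j, ?_⟩
    have : (Real.pi - ε) / n = T / 2 := by rw [hT]; ring
    rw [this] at h
    simp only [up_neg]
    linarith
  generalize (fun i => -x i) = b at hb H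
  have H' : ∀ u : V3, ip u u = 1 → ∃ i j, 2 - T / 2 < ip (b i) u + ip (x j) u := by
    intro u hu
    obtain ⟨i, j, h⟩ := H u hu
    exact ⟨j, i, by linarith⟩
  obtain ⟨TA, TB, X, hA, hB, hXX, cA, cB, dA, dB, hE⟩ := comb hn3 x b (upc T e) (upc_anti T e)
    (upc_cont T e) (1 - T / 2) (1 - T) (by linarith) (by linarith) (up_inr x b hb T H)
    (up_inr b x hx T H')
  have hK : 0 ≤ (1 - e) * (1 - T / 2) / (4 * T) :=
    div_nonneg (mul_nonneg (by linarith) (by linarith)) (by linarith)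
  have sA := up_sum x b T e _ _ he0.le hK TA cA dA fun t ht =>
    up_tri x b hx hb T e hTp (by linarith) (by linarith) H (hv T hTp hTa) t (hA t ht)
  have sB := up_sum b x T e _ _ he0.le hK TB cB dB fun t ht =>
    up_tri b x hb hx T e hTp (by linarith) (by linarith) H' (hv T hTp hTa) t (hB t ht)
  have sX : 0 ≤ ∑ t ∈ X, ST (upc T e) x b t := by
    refine Finset.sum_nonneg fun t ht => ?_
    obtain ⟨u, hu, s1, k1, s2, k2, hd⟩ := hXX t ht
    obtain ⟨i, j, hij⟩ := H u hu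
    have h1 := hx3 T hTp hTb _ _ _ _ u (hx t.1) (hx t.2.1) (hb t.2.2.1) (hb t.2.2.2) hu k1 k2
      (by linarith [s1 i, s2 j]) hd
    simp only [ST, Sf, upc] at h1 ⊢
    linarith
  have h1 : (1 - e) * (1 - T / 2) / (4 * T) * (24 * Real.pi * (1 - T) ^ 3)
      ≤ 6 * n * (1 / 2 + e) := by linarith
  have h2 : Real.pi * ((1 - e) * (1 - T / 2) * (1 - T) ^ 3) ≤ (Real.pi - ε) * (1 + 2 * e) := by
    have h3 := mul_le_mul_of_nonneg_left h1 hTp.le
    have h4 : T * ((1 - e) * (1 - T / 2) / (4 * T) * (24 * Real.pi * (1 - T) ^ 3))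
        = 6 * (Real.pi * ((1 - e) * (1 - T / 2) * (1 - T) ^ 3)) := by field_simp; ring
    have h5 : T * (6 * n * (1 / 2 + e)) = 6 * ((Real.pi - ε) * (1 + 2 * e)) := by
      linear_combination (3 * (1 + 2 * e)) * hTn
    rw [h4, h5] at h3
    linarith
  have h6 : (1 - e) ^ 5 ≤ (1 - e) * (1 - T / 2) * (1 - T) ^ 3 := by
    have : (1 - e) ^ 5 = (1 - e) * (1 - e) * (1 - e) ^ 3 := by ring
    rw [this]
    have h7 : (0 : ℝ) ≤ 1 - e := by linarith
    gcongr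
    · exact mul_nonneg h7 (by linarith)
    · linarith
  have h8 : 1 - 5 * e ≤ (1 - e) ^ 5 := by
    have := one_add_mul_le_pow (a := -e) (by linarith) 5
    push_cast at this
    calc 1 - 5 * e = 1 + 5 * -e := by ring
      _ ≤ (1 + -e) ^ 5 := this
      _ = (1 - e) ^ 5 := by ring
  have h9 := mul_le_mul_of_nonneg_left (h8.trans h6) hπ0.le
  have h10 : ε = 32 * e := by rw [he]; ring
  nlinarith [mul_pos hε he0]

end Pool.Agent.MP_90395b_gt.As

end

section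

namespace Pool.Agent.MP_90395b_gt.As

open Pool.Agent.MP_90395b_gt.W5 Filter Topology

/-- Euclidean 3-space. -/
abbrev FE := EuclideanSpace ℝ (Fin 3)

lemma fin_inner_ip (a b : FE) : inner ℝ a b = ip a.ofLp b.ofLp := by
  simp [PiLp.inner_apply, Fin.sum_univ_three, ip]; ring

lemma fin_ip_one (a : FE) (h : ‖a‖ = 1) : ip a.ofLp a.ofLp = 1 := by
  rw [← fin_inner_ip, real_inner_self_eq_norm_sq, h]; norm_num

lemma fin_norm_one (a : V3) (h : ip a a = 1) : ‖(WithLp.toLp 2 a : FE)‖ = 1 := by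
  have h1 := fin_inner_ip (WithLp.toLp 2 a) (WithLp.toLp 2 a)
  rw [real_inner_self_eq_norm_sq, h] at h1
  exact (pow_eq_one_iff_of_nonneg (norm_nonneg _) two_ne_zero).mp h1

lemma fin_hull_bound {n : ℕ} (x : Fin n → FE) (u : FE) (lo hi : ℝ)
    (h : ∀ i, lo ≤ inner ℝ (x i) u ∧ inner ℝ (x i) u ≤ hi) :
    ∀ r ∈ (fun y : FE => inner ℝ y u) '' convexHull ℝ (Set.range x), lo ≤ r ∧ r ≤ hi := by
  rintro r ⟨y, hy, rfl⟩
  have hc : Convex ℝ {y : FE | lo ≤ inner ℝ y u ∧ inner ℝ y u ≤ hi} := by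
    intro a ha b hb s t hs ht hst
    simp only [Set.mem_ofPred_eq, inner_add_left, real_inner_smul_left] at ha hb ⊢
    have e1 : lo = s * lo + t * lo := by rw [← add_mul, hst, one_mul]
    have e2 : hi = s * hi + t * hi := by rw [← add_mul, hst, one_mul]
    constructor
    · linarith [mul_le_mul_of_nonneg_left ha.1 hs, mul_le_mul_of_nonneg_left hb.1 ht]
    · linarith [mul_le_mul_of_nonneg_left ha.2 hs, mul_le_mul_of_nonneg_left hb.2 ht]
  exact convexHull_min (by rintro _ ⟨i, rfl⟩; exact h i) hc hy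

lemma fin_vert_bound {n : ℕ} (x : Fin n → FE) (hn : ∀ i, ‖x i‖ = 1) (u : FE) (i : Fin n) :
    sInf ((fun y : FE => inner ℝ y u) '' convexHull ℝ (Set.range x)) ≤ inner ℝ (x i) u ∧
    inner ℝ (x i) u ≤ sSup ((fun y : FE => inner ℝ y u) '' convexHull ℝ (Set.range x)) := by
  have hb := fin_hull_bound x u (-‖u‖) ‖u‖ (fun j => by
    have := abs_real_inner_le_norm (x j) u
    rw [hn j, one_mul] at this
    exact abs_le.mp this)
  have hm : inner ℝ (x i) u ∈ (fun y : FE => inner ℝ y u) '' convexHull ℝ (Set.range x) :=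
    ⟨x i, subset_convexHull ℝ _ ⟨i, rfl⟩, rfl⟩
  exact ⟨csInf_le ⟨-‖u‖, fun r hr => (hb r hr).1⟩ hm, le_csSup ⟨‖u‖, fun r hr => (hb r hr).2⟩ hm⟩

/-- the width of the hull of the points `x i` -/
noncomputable def finW {n : ℕ} (x : Fin n → FE) : ℝ :=
  ⨅ u : {u : FE // ‖u‖ = 1},
    (sSup ((fun y : FE => inner ℝ y u.1) '' convexHull ℝ (Set.range x))
      - sInf ((fun y : FE => inner ℝ y u.1) '' convexHull ℝ (Set.range x)))

lemma fin_width_le {n : ℕ} (x : Fin n → FE) (i₀ : Fin n) (hn : ∀ i, ‖x i‖ = 1) (u : FE)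
    (hu : ‖u‖ = 1) (lo hi : ℝ) (h : ∀ i, lo ≤ inner ℝ (x i) u ∧ inner ℝ (x i) u ≤ hi) :
    finW x ≤ hi - lo := by
  have hb := fin_hull_bound x u lo hi h
  have hne : ((fun y : FE => inner ℝ y u) '' convexHull ℝ (Set.range x)).Nonempty :=
    ⟨_, x i₀, subset_convexHull ℝ _ ⟨i₀, rfl⟩, rfl⟩
  refine le_trans (ciInf_le ⟨0, ?_⟩ ⟨u, hu⟩) ?_
  · rintro _ ⟨v, rfl⟩
    have := fin_vert_bound x hn v.1 i₀
    simp only
    linarith [this.1, this.2]
  · have h1 := csSup_le hne (fun r hr => (hb r hr).2)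
    have h2 := le_csInf hne (fun r hr => (hb r hr).1)
    simp only
    linarith

lemma fin_upper {n : ℕ} (hn0 : 0 < n) (x : Fin n → FE) (hn : ∀ i, ‖x i‖ = 1) (c : ℝ) (u : V3)
    (hu : ip u u = 1) (h : ∀ i j, ip (x i).ofLp u - ip (x j).ofLp u ≤ c) : finW x ≤ c := by
  have hne : (Finset.univ : Finset (Fin n)).Nonempty := ⟨⟨0, hn0⟩, Finset.mem_univ _⟩
  obtain ⟨a, -, ha⟩ := Finset.exists_min_image Finset.univ (fun i => ip (x i).ofLp u) hne
  obtain ⟨b, -, hb⟩ := Finset.exists_max_image Finset.univ (fun i => ip (x i).ofLp u) hne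
  refine le_trans (fin_width_le x a hn (WithLp.toLp 2 u) (fin_norm_one u hu) (ip (x a).ofLp u)
    (ip (x b).ofLp u) fun i => ?_) (h b a)
  rw [fin_inner_ip]
  exact ⟨ha i (Finset.mem_univ _), hb i (Finset.mem_univ _)⟩

lemma fin_lower {n : ℕ} (x : Fin n → FE) (hn : ∀ i, ‖x i‖ = 1) (c : ℝ)
    (h : ∀ u : V3, ip u u = 1 → ∃ i j, c ≤ ip (x i).ofLp u - ip (x j).ofLp u) : c ≤ finW x := by
  have : Nonempty {u : FE // ‖u‖ = 1} := ⟨⟨EuclideanSpace.single 0 1, by simp⟩⟩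
  refine le_ciInf fun u => ?_
  obtain ⟨i, j, hij⟩ := h u.1.ofLp (fin_ip_one _ u.2)
  have h1 := (fin_vert_bound x hn u.1 i).2
  have h2 := (fin_vert_bound x hn u.1 j).1
  rw [fin_inner_ip] at h1 h2
  linarith

theorem final (hV : BoxV) (hX : BoxX) : Tendsto (fun n : ℕ => (n : ℝ) *
    (2 - sSup {w : ℝ | ∃ x : Fin n → EuclideanSpace ℝ (Fin 3),
      (Function.Injective x ∧ ∀ i, ‖x i‖ = 1) ∧
      w = ⨅ u : {u : EuclideanSpace ℝ (Fin 3) // ‖u‖ = 1},
        (sSup ((fun y : EuclideanSpace ℝ (Fin 3) => inner ℝ y u.1) '' convexHull ℝ (Set.range x))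
          - sInf ((fun y : EuclideanSpace ℝ (Fin 3) => inner ℝ y u.1) ''
            convexHull ℝ (Set.range x)))})) atTop (𝓝 Real.pi) := by
  change Tendsto (fun n : ℕ => (n : ℝ) * (2 - sSup {w : ℝ | ∃ x : Fin n → FE,
      (Function.Injective x ∧ ∀ i, ‖x i‖ = 1) ∧ w = finW x})) atTop (𝓝 Real.pi)
  refine Metric.tendsto_atTop.mpr fun ε hε => ?_
  obtain ⟨N₁, h1⟩ := upper hV hX (ε / 2) (by positivity)
  obtain ⟨N₂, h2⟩ := construction (ε / 2) (by positivity)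
  refine ⟨max (max N₁ N₂) 1, fun n hn => ?_⟩
  have hn0 : 0 < n := by omega
  have hnr : (0 : ℝ) < n := by exact_mod_cast hn0
  set S := {w : ℝ | ∃ x : Fin n → FE, (Function.Injective x ∧ ∀ i, ‖x i‖ = 1) ∧ w = finW x}
    with hS
  have hub : ∀ w ∈ S, w ≤ 2 - (Real.pi - ε / 2) / n := by
    rintro w ⟨x, hx, rfl⟩
    obtain ⟨u, hu, h⟩ := h1 n (by omega) (fun i => (x i).ofLp) fun i => fin_ip_one _ (hx.2 i)
    exact fin_upper hn0 x hx.2 _ u hu h
  obtain ⟨y, hy, hy1, hy2⟩ := h2 n (by omega)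
  have hyn : ∀ i, ‖(WithLp.toLp 2 (y i) : FE)‖ = 1 := fun i => fin_norm_one _ (hy1 i)
  have hmem : finW (fun i => (WithLp.toLp 2 (y i) : FE)) ∈ S :=
    ⟨_, ⟨fun a b hab => hy (WithLp.toLp_injective 2 hab), hyn⟩, rfl⟩
  have hlo : 2 - (Real.pi + ε / 2) / n ≤ sSup S :=
    le_trans (fin_lower _ hyn _ hy2) (le_csSup ⟨_, hub⟩ hmem)
  have hhi : sSup S ≤ 2 - (Real.pi - ε / 2) / n := csSup_le ⟨_, hmem⟩ hub
  have e1 : 2 - sSup S ≤ (Real.pi + ε / 2) / n := by linarith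
  have e2 : (Real.pi - ε / 2) / n ≤ 2 - sSup S := by linarith
  rw [le_div_iff₀ hnr] at e1
  rw [div_le_iff₀ hnr] at e2
  rw [Real.dist_eq, abs_lt]
  constructor <;> linarith

end Pool.Agent.MP_90395b_gt.As

end
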