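import Pool.Agent.MP_90395b_gt.W5Alg

section

namespace Pool.Agent.MP_90395b_gt.W5

lemma tetra (P Q R S : V3) (hP : ip P P ≤ 1) (hQ : ip Q Q ≤ 1) (hR : ip R R ≤ 1)
    (hS : ip S S ≤ 1) (W : ℝ) (u00 u01 u10 u11 : V3)
    (n00 : ip u00 u00 ≤ W) (n01 : ip u01 u01 ≤ W) (n10 : ip u10 u10 ≤ W) (n11 : ip u11 u11 ≤ W)
    (d00 : ip u00 (P - Q) = 1) (d01 : ip u01 (P - Q) = 1) (d10 : ip u10 (P - Q) = 1)
    (d11 : ip u11 (P - Q) = 1)
    (r00 : ip u00 (R - Q) = 0) (r01 : ip u01 (R - Q) = 0) (r10 : ip u10 (R - Q) = 1)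
    (r11 : ip u11 (R - Q) = 1)
    (s00 : ip u00 (S - Q) = 0) (s01 : ip u01 (S - Q) = 1) (s10 : ip u10 (S - Q) = 0)
    (s11 : ip u11 (S - Q) = 1) : 7 / 12 < W := by
  have hD : 0 < ip (P - Q) (P - Q) := (pos_of_ip u00 _ (by rw [d00]; norm_num)).1
  have p1 := pair u10 u01 _ W d10 d01 n10 n01
  have p2 := pair u11 u00 _ W d11 d00 n11 n00
  have m1 := dt_mul (u10 - u01) (u11 - u00) (P - Q) (R - Q) (S - Q) (P - Q)
  simp only [sub_ip (P - Q) u10 u01, sub_ip (P - Q) u11 u00,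
    sub_ip (R - Q) u10 u01, sub_ip (R - Q) u11 u00, sub_ip (S - Q) u10 u01,
    sub_ip (S - Q) u11 u00, d00, d01, d10, d11, r00, r01, r10, r11, s00, s01, s10, s11] at m1
  have h1 := dt_had (u10 - u01) (u11 - u00) (P - Q)
  have h2 := dt_had (R - S) (R + S - P - Q) (P - Q)
  have h3 : dt (R - S) (R + S - P - Q) (P - Q) = 2 * dt (R - Q) (S - Q) (P - Q) := by
    simp [dt]; ring
  have h4 : 7 / 64 * ip (R - S) (R - S) + 63 / 1024 * ip (R + S - P - Q) (R + S - P - Q)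
      + ip ((7 / 32 : ℝ) • (R + S) + (9 / 32 : ℝ) • (P + Q))
        ((7 / 32 : ℝ) • (R + S) + (9 / 32 : ℝ) • (P + Q))
      = 7 / 32 * (ip R R + ip S S) + 9 / 32 * (ip P P + ip Q Q)
        - 9 / 64 * ip (P - Q) (P - Q) := by
    simp [ip]; ring
  have h5 := ip_nonneg ((7 / 32 : ℝ) • (R + S) + (9 / 32 : ℝ) • (P + Q))
  have a1 := ip_nonneg (u10 - u01)
  have a2 := ip_nonneg (u11 - u00)
  have b1 := ip_nonneg (R - S)
  have b2 := ip_nonneg (R + S - P - Q)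
  rw [h3] at h2
  generalize ip (P - Q) (P - Q) = D at *
  generalize ip (u10 - u01) (u10 - u01) = a at *
  generalize ip (u11 - u00) (u11 - u00) = b at *
  generalize ip (R - S) (R - S) = c at *
  generalize ip (R + S - P - Q) (R + S - P - Q) = e at *
  generalize dt (R - Q) (S - Q) (P - Q) = V at *
  generalize dt (u10 - u01) (u11 - u00) (P - Q) = T at *
  obtain ⟨A, hA⟩ : ∃ A, A = W - 1 / D := ⟨_, rfl⟩
  obtain ⟨B, hB⟩ : ∃ B, B = (64 - 9 * D) / 21 := ⟨_, rfl⟩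
  rw [← hA] at p1 p2
  have hA0 : 0 ≤ A := by linarith
  have hv : 7 / 64 * c + 63 / 1024 * e ≤ 21 / 64 * B := by rw [hB]; linarith
  have hB0 : 0 ≤ B := by linarith
  have hce : c * e ≤ 4 * B ^ 2 := by
    have : (7 / 64 * c + 63 / 1024 * e) ^ 2 ≤ (21 / 64 * B) ^ 2 :=
      pow_le_pow_left₀ (by positivity) hv 2
    linarith [sq_nonneg (7 / 64 * c - 63 / 1024 * e)]
  have hV : V ^ 2 ≤ B ^ 2 * D := by linarith [mul_le_mul_of_nonneg_right hce hD.le]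
  have hab : a * b ≤ 16 * A ^ 2 := by linarith [mul_le_mul p1 p2 a2 (by linarith)]
  have hT : T ^ 2 ≤ 16 * A ^ 2 * D := by linarith [mul_le_mul_of_nonneg_right hab hD.le]
  have hTV : T * V = 2 * D := by linarith
  have hk : (2 * D) ^ 2 ≤ (16 * A ^ 2 * D) * (B ^ 2 * D) := by
    rw [← hTV, mul_pow]; exact mul_le_mul hT hV (sq_nonneg _) (by positivity)
  have hk2 : (1 / 2 : ℝ) ^ 2 ≤ A ^ 2 * B ^ 2 := by
    have hD2 : 0 < D ^ 2 := by positivity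
    by_contra hc
    push Not at hc
    linarith [mul_lt_mul_of_pos_right hc hD2]
  have hAB := mul_ge_of_sq A B (1 / 2) hA0 hB0 hk2
  have hBpos : 0 < B := by
    rcases hB0.lt_or_eq with h | h
    · exact h
    · rw [← h] at hAB; linarith
  have e1 : 0.6 - 0.09 * D ≤ 1 / D := by
    rw [le_div_iff₀ hD]; linarith [sq_nonneg (0.3 * D - 1)]
  have e2 : 0.64 - 0.2048 * B ≤ A := by
    by_contra hc
    push Not at hc
    linarith [mul_lt_mul_of_pos_right hc hBpos, sq_nonneg (B - 1.5625)]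
  linarith

lemma regA (x1 x2 x3 d z1 z2 z3 : V3) (a1 a2 a3 A : ℝ) (hs : a1 + a2 + a3 = 1)
    (h1 : 0 ≤ a1) (h2 : 0 ≤ a2) (h3 : 0 ≤ a3) (hA : 0 < A) (hD : 0 < ip d d)
    (n1 : ip z1 z1 ≤ 4 * A * a1 ^ 2) (n2 : ip z2 z2 ≤ 4 * A * a2 ^ 2)
    (n3 : ip z3 z3 ≤ 4 * A * a3 ^ 2)
    (d1 : ip z1 d = 0) (d2 : ip z2 d = 0) (d3 : ip z3 d = 0)
    (p1 : ip z1 (x1 - x3) = a3 - a2 + a1) (q1 : ip z1 (x2 - x3) = 2 * a1)
    (p2 : ip z2 (x1 - x3) = -2 * a2) (q2 : ip z2 (x2 - x3) = a1 - a3 - a2)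
    (p3 : ip z3 (x1 - x3) = a3 - a2 + a1) (q3 : ip z3 (x2 - x3) = a1 - a3 - a2) :
    1 ≤ A * (ip (pr d x1) (pr d x1) + ip (pr d x2) (pr d x2) + ip (pr d x3) (pr d x3)
      - ip (pr d x1 + pr d x2 + pr d x3) (pr d x1 + pr d x2 + pr d x3) / 3) := by
  obtain ⟨N, hN⟩ : ∃ N, N = a1 ^ 2 + a2 ^ 2 + a3 ^ 2 := ⟨_, rfl⟩
  have hN0 : 0 < N := by
    have : (a1 + a2 + a3) ^ 2 = 1 := by rw [hs]; norm_num
    linarith [sq_nonneg (a1 - a2), sq_nonneg (a2 - a3), sq_nonneg (a1 - a3)]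
  have m12 := dt_mul z1 z2 d (x1 - x3) (x2 - x3) d
  have m13 := dt_mul z1 z3 d (x1 - x3) (x2 - x3) d
  have m23 := dt_mul z2 z3 d (x1 - x3) (x2 - x3) d
  rw [d1, d2, p1, q1, p2, q2] at m12
  rw [d1, d3, p1, q1, p3, q3] at m13
  rw [d2, d3, p2, q2, p3, q3] at m23
  have hL := L3 z1 z2 z3 d 1 1 1 (2 * A * N / ip d d) zero_le_one zero_le_one zero_le_one
    (by positivity)
  have hh := dt_had (pr d x1 - pr d x2) (pr d x1 + pr d x2 - (2 : ℝ) • pr d x3) d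
  have hv : dt (pr d x1 - pr d x2) (pr d x1 + pr d x2 - (2 : ℝ) • pr d x3) d
      = 2 * dt (x1 - x3) (x2 - x3) d := by
    unfold pr
    generalize ip x1 d / ip d d = t1
    generalize ip x2 d / ip d d = t2
    generalize ip x3 d / ip d d = t3
    simp [dt]; ring
  have hS : ip (pr d x1) (pr d x1) + ip (pr d x2) (pr d x2) + ip (pr d x3) (pr d x3)
      - ip (pr d x1 + pr d x2 + pr d x3) (pr d x1 + pr d x2 + pr d x3) / 3
      = ip (pr d x1 - pr d x2) (pr d x1 - pr d x2) / 2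
        + ip (pr d x1 + pr d x2 - (2 : ℝ) • pr d x3) (pr d x1 + pr d x2 - (2 : ℝ) • pr d x3) / 6 := by
    generalize pr d x1 = y1
    generalize pr d x2 = y2
    generalize pr d x3 = y3
    simp [ip]; ring
  rw [hS]
  rw [hv] at hh
  have b1 := ip_nonneg (pr d x1 - pr d x2)
  have b2 := ip_nonneg (pr d x1 + pr d x2 - (2 : ℝ) • pr d x3)
  have c1 := ip_nonneg z1
  have c2 := ip_nonneg z2
  have c3 := ip_nonneg z3
  generalize ip (pr d x1 - pr d x2) (pr d x1 - pr d x2) = c at *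
  generalize ip (pr d x1 + pr d x2 - (2 : ℝ) • pr d x3)
    (pr d x1 + pr d x2 - (2 : ℝ) • pr d x3) = e at *
  generalize dt (x1 - x3) (x2 - x3) d = V at *
  generalize dt z1 z2 d = T12 at *
  generalize dt z1 z3 d = T13 at *
  generalize dt z2 z3 d = T23 at *
  generalize dt z1 z2 z3 = T at *
  generalize ip d (x1 - x3) = k1 at *
  generalize ip d (x2 - x3) = k2 at *
  generalize ip z1 z1 = l1 at *
  generalize ip z2 z2 = l2 at *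
  generalize ip z3 z3 = l3 at *
  generalize ip d d = D at *
  have hc : 2 * A * N / D * D = 2 * A * N := by field_simp
  have hsum : 1 * l1 + 1 * l2 + 1 * l3 + 2 * A * N / D * D ≤ 6 * A * N := by
    rw [hc, hN]; linarith
  have hcube : (1 * l1 + 1 * l2 + 1 * l3 + 2 * A * N / D * D) ^ 3 ≤ (6 * A * N) ^ 3 :=
    pow_le_pow_left₀ (by positivity) hsum 3
  have hT : 2 * A * N / D * (T12 ^ 2 + T13 ^ 2 + T23 ^ 2) ≤ 8 * (A * N) ^ 3 := by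
    linarith [sq_nonneg T]
  have hT2 : T12 ^ 2 + T13 ^ 2 + T23 ^ 2 ≤ 4 * D * (A * N) ^ 2 := by
    have hAN : 0 < A * N := by positivity
    rw [div_mul_eq_mul_div, div_le_iff₀ hD] at hT
    by_contra hc2
    push Not at hc2
    linarith [mul_lt_mul_of_pos_left hc2 hAN]
  have hq : (T12 ^ 2 + T13 ^ 2 + T23 ^ 2) * V ^ 2
      = D ^ 2 * (3 - 8 * (a1 * a2 + a1 * a3 + a2 * a3)) := by
    have : (T12 ^ 2 + T13 ^ 2 + T23 ^ 2) * V ^ 2
      = (T12 * V) ^ 2 + (T13 * V) ^ 2 + (T23 * V) ^ 2 := by ring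
    rw [this, m12, m13, m23]
    have ha : a3 = 1 - a1 - a2 := by linarith
    rw [ha]; ring
  have hq2 : 3 * N ^ 2 ≤ 3 - 8 * (a1 * a2 + a1 * a3 + a2 * a3) := by
    obtain ⟨q, hq⟩ : ∃ q, q = a1 * a2 + a1 * a3 + a2 * a3 := ⟨_, rfl⟩
    have e1 : N = 1 - 2 * q := by
      rw [hN, hq]; have ha : a3 = 1 - a1 - a2 := by linarith
      rw [ha]; ring
    have e2 : 0 ≤ q := by rw [hq]; positivity
    have e3 : q ≤ N := by
      rw [hN, hq]; linarith [sq_nonneg (a1 - a2), sq_nonneg (a2 - a3), sq_nonneg (a1 - a3)]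
    rw [← hq, e1]; rw [e1] at e3
    linarith [mul_nonneg e2 (by linarith : 0 ≤ 1 - 3 * q)]
  have hV : 4 * V ^ 2 ≤ 3 * D * (c / 2 + e / 6) ^ 2 := by
    have : c * e ≤ 3 * (c / 2 + e / 6) ^ 2 := by linarith [sq_nonneg (c / 2 - e / 6)]
    linarith [mul_le_mul_of_nonneg_right this hD.le]
  have hk : D ^ 2 * (3 * N ^ 2) ≤ (4 * D * (A * N) ^ 2) * (3 / 4 * D * (c / 2 + e / 6) ^ 2) := by
    calc D ^ 2 * (3 * N ^ 2) ≤ (T12 ^ 2 + T13 ^ 2 + T23 ^ 2) * V ^ 2 := by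
          rw [hq]; exact mul_le_mul_of_nonneg_left hq2 (sq_nonneg _)
      _ ≤ _ := mul_le_mul hT2 (by linarith) (sq_nonneg _) (by positivity)
  have hk2 : (1 : ℝ) ^ 2 ≤ A ^ 2 * (c / 2 + e / 6) ^ 2 := by
    have hD2 : 0 < D ^ 2 * N ^ 2 := by positivity
    by_contra hc2
    push Not at hc2
    linarith [mul_lt_mul_of_pos_right hc2 hD2]
  exact mul_ge_of_sq A _ 1 hA.le (by positivity) hk2

lemma regP (x1 x2 x3 y1 y2 : V3) (a1 a2 a3 b1 b2 W : ℝ) (hs : a1 + a2 + a3 = 1)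
    (ht : b1 + b2 = 1) (h1 : 0 < a1) (hb : b2 ≤ b1)
    (hx1 : ip x1 x1 ≤ 1) (hx2 : ip x2 x2 ≤ 1) (hx3 : ip x3 x3 ≤ 1) (hy1 : ip y1 y1 ≤ 1)
    (hy2 : ip y2 y2 ≤ 1)
    (rel : ∀ i, a1 * x1 i + a2 * x2 i + a3 * x3 i = b1 * y1 i + b2 * y2 i)
    (uA uB uC uD : V3) (nA : ip uA uA ≤ W) (nB : ip uB uB ≤ W) (nC : ip uC uC ≤ W)
    (nD : ip uD uD ≤ W) (a b g h : ℝ) (ha : a1 * a = b1 - a2) (hb' : a1 * b = b1 - a3)
    (hg : b1 * g = 1 - a1) (hh : b1 * h = a1)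
    (pA : ip uA (x1 - x3) = a) (qA : ip uA (x2 - x3) = 1) (rA : ip uA (y1 - y2) = 1)
    (pB : ip uB (x1 - x3) = b - 1) (qB : ip uB (x2 - x3) = -1) (rB : ip uB (y1 - y2) = 1)
    (pC : ip uC (x1 - x3) = -1) (qC : ip uC (x2 - x3) = 0) (rC : ip uC (y1 - y2) = g)
    (pD : ip uD (x1 - x3) = 1) (qD : ip uD (x2 - x3) = 0) (rD : ip uD (y1 - y2) = h) :
    7 / 12 < W := by
  have m1 := dt_mul uA uB uC (x1 - x3) (x2 - x3) (y1 - y2)
  have m2 := dt_mul uA uB uD (x1 - x3) (x2 - x3) (y1 - y2)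
  have m3 := dt_mul uA uC uD (x1 - x3) (x2 - x3) (y1 - y2)
  have m4 := dt_mul uB uC uD (x1 - x3) (x2 - x3) (y1 - y2)
  simp only [pA, qA, rA, pB, qB, rB, pC, qC, rC, pD, qD, rD] at m1 m2 m3 m4
  have hL := L3 uA uB uC uD (1 / 4) (1 / 4) (1 / 4) (1 / 4) (by norm_num) (by norm_num)
    (by norm_num) (by norm_num)
  have hM := L3 (x1 - x2) (x1 + x2 - (2 : ℝ) • x3) (y1 - y2)
    ((2 : ℝ) • (x1 + x2 + x3) - (3 : ℝ) • (y1 + y2)) (1 / 2) (1 / 6) (1 / 2) (1 / 30)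
    (by norm_num) (by norm_num) (by norm_num) (by norm_num)
  have htr : 1 / 2 * ip (x1 - x2) (x1 - x2)
      + 1 / 6 * ip (x1 + x2 - (2 : ℝ) • x3) (x1 + x2 - (2 : ℝ) • x3)
      + 1 / 2 * ip (y1 - y2) (y1 - y2)
      + 1 / 30 * ip ((2 : ℝ) • (x1 + x2 + x3) - (3 : ℝ) • (y1 + y2))
        ((2 : ℝ) • (x1 + x2 + x3) - (3 : ℝ) • (y1 + y2))
      = ip x1 x1 + ip x2 x2 + ip x3 x3 + ip y1 y1 + ip y2 y2
        - ip (x1 + x2 + x3 + y1 + y2) (x1 + x2 + x3 + y1 + y2) / 5 := by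
    simp [ip]; ring
  have htr0 : 0 ≤ ip x1 x1 + ip x2 x2 + ip x3 x3 + ip y1 y1 + ip y2 y2
        - ip (x1 + x2 + x3 + y1 + y2) (x1 + x2 + x3 + y1 + y2) / 5 := by
    rw [← htr]
    have := ip_nonneg (x1 - x2)
    have := ip_nonneg (x1 + x2 - (2 : ℝ) • x3)
    have := ip_nonneg (y1 - y2)
    have := ip_nonneg ((2 : ℝ) • (x1 + x2 + x3) - (3 : ℝ) • (y1 + y2))
    positivity
  rw [htr] at hM
  have hM2 := hM.trans (pow_le_pow_left₀ htr0 (show _ ≤ (5 : ℝ) by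
    have := ip_nonneg (x1 + x2 + x3 + y1 + y2); linarith) 3)
  have ha3 : a3 = 1 - a1 - a2 := by linarith
  have hb2 : b2 = 1 - b1 := by linarith
  have hw : (2 : ℝ) • (x1 + x2 + x3) - (3 : ℝ) • (y1 + y2)
      = (2 - 6 * a1) • (x1 - x3) + (2 - 6 * a2) • (x2 - x3) + (3 * (2 * b1 - 1)) • (y1 - y2) := by
    ext i
    have := rel i
    rw [ha3, hb2] at this
    simp only [Pi.add_apply, Pi.sub_apply, Pi.smul_apply, smul_eq_mul]
    linear_combination 6 * this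
  rw [hw] at hM2
  have e1 : dt (x1 - x2) (x1 + x2 - (2 : ℝ) • x3) (y1 - y2)
      = 2 * dt (x1 - x3) (x2 - x3) (y1 - y2) := by simp [dt]; ring
  have e2 : dt (x1 - x2) (x1 + x2 - (2 : ℝ) • x3)
      ((2 - 6 * a1) • (x1 - x3) + (2 - 6 * a2) • (x2 - x3) + (3 * (2 * b1 - 1)) • (y1 - y2))
      = 6 * (2 * b1 - 1) * dt (x1 - x3) (x2 - x3) (y1 - y2) := by simp [dt]; ring
  have e3 : dt (x1 - x2) (y1 - y2)
      ((2 - 6 * a1) • (x1 - x3) + (2 - 6 * a2) • (x2 - x3) + (3 * (2 * b1 - 1)) • (y1 - y2))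
      = (6 * a1 + 6 * a2 - 4) * dt (x1 - x3) (x2 - x3) (y1 - y2) := by simp [dt]; ring
  have e4 : dt (x1 + x2 - (2 : ℝ) • x3) (y1 - y2)
      ((2 - 6 * a1) • (x1 - x3) + (2 - 6 * a2) • (x2 - x3) + (3 * (2 * b1 - 1)) • (y1 - y2))
      = (6 * a2 - 6 * a1) * dt (x1 - x3) (x2 - x3) (y1 - y2) := by simp [dt]; ring
  rw [e1, e2, e3, e4] at hM2
  have c1 := ip_nonneg uA
  have c2 := ip_nonneg uB
  have c3 := ip_nonneg uC
  have c4 := ip_nonneg uD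
  have hW : 0 ≤ W := by linarith
  have hL2 := hL.trans (pow_le_pow_left₀ (by positivity) (show _ ≤ W by linarith) 3)
  generalize dt (x1 - x3) (x2 - x3) (y1 - y2) = V at *
  generalize dt uA uB uC = T1 at *
  generalize dt uA uB uD = T2 at *
  generalize dt uA uC uD = T3 at *
  generalize dt uB uC uD = T4 at *
  obtain ⟨e, he⟩ : ∃ e, e = 2 * b1 - 1 := ⟨_, rfl⟩
  have he0 : 0 ≤ e := by linarith
  have hb1 : b1 = (1 + e) / 2 := by linarith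
  have k1 : T1 * V * (a1 * b1) = -(a1 + e) := by
    rw [m1, he]; rw [ha3] at hb'
    linear_combination (-(b1 * g)) * ha + (-(b1 * g)) * hb' + (-(2 * b1 - 1)) * hg
  have k2 : T2 * V * (a1 * b1) = a1 := by
    rw [m2]; rw [ha3] at hb'
    linear_combination (-(b1 * h)) * ha + (-(b1 * h)) * hb' + (-(2 * b1 - 1)) * hh
  have k3 : T3 * V * (a1 * b1) = a1 := by
    rw [m3]; linear_combination a1 * hg + a1 * hh
  have k4 : T4 * V * (a1 * b1) = -a1 := by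
    rw [m4]; linear_combination (-a1) * hg + (-a1) * hh
  obtain ⟨m, hm⟩ : ∃ m, m = (a1 * b1) ^ 2 := ⟨_, rfl⟩
  have hm0 : 0 < m := by rw [hm, hb1]; positivity
  have hS : (T1 ^ 2 + T2 ^ 2 + T3 ^ 2 + T4 ^ 2) * (V ^ 2 * m) = (a1 + e) ^ 2 + 3 * a1 ^ 2 := by
    have : (T1 ^ 2 + T2 ^ 2 + T3 ^ 2 + T4 ^ 2) * (V ^ 2 * m) = (T1 * V * (a1 * b1)) ^ 2
      + (T2 * V * (a1 * b1)) ^ 2 + (T3 * V * (a1 * b1)) ^ 2 + (T4 * V * (a1 * b1)) ^ 2 := by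
      rw [hm]; ring
    rw [this, k1, k2, k3, k4]; ring
  obtain ⟨K, hK⟩ : ∃ K, K = 2 + e ^ 2 - 2 * a1 + 3 * a1 ^ 2 := ⟨_, rfl⟩
  have hK0 : 0 ≤ K := by rw [hK]; linarith [sq_nonneg e, sq_nonneg (a1 - 1 / 3)]
  have hVK : V ^ 2 * K ≤ 1250 / 27 := by
    rw [← he] at hM2
    rw [hK]
    linarith [mul_nonneg (sq_nonneg V) (sq_nonneg (2 * a2 + a1 - 1))]
  have hq := quart a1 e h1.le he0
  rw [← hK, ← hS] at hq
  have hm4 : a1 ^ 2 * (1 + e) ^ 2 = 4 * m := by rw [hm, hb1]; ring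
  rw [hm4] at hq
  have hT : T1 ^ 2 + T2 ^ 2 + T3 ^ 2 + T4 ^ 2 ≤ 64 / 27 * W ^ 3 := by linarith
  have hfin : (T1 ^ 2 + T2 ^ 2 + T3 ^ 2 + T4 ^ 2) * (V ^ 2 * K) ≤ (64 / 27 * W ^ 3) * (1250 / 27) :=
    mul_le_mul hT hVK (by positivity) (by positivity)
  have h22 : 22 ≤ (T1 ^ 2 + T2 ^ 2 + T3 ^ 2 + T4 ^ 2) * (V ^ 2 * K) := by
    by_contra hc
    push Not at hc
    linarith [mul_lt_mul_of_pos_right hc hm0]
  by_contra hc
  push Not at hc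
  have := pow_le_pow_left₀ hW hc 3
  norm_num at this
  linarith

end Pool.Agent.MP_90395b_gt.W5

end

section

namespace Pool.Agent.MP_90395b_gt.W5

def Hw (x1 x2 x3 y1 y2 : V3) (W : ℝ) : Prop :=
  ∀ (u : V3) (c : ℝ), (c ≤ ip u x1 ∧ ip u x1 ≤ c + 1) → (c ≤ ip u x2 ∧ ip u x2 ≤ c + 1) →
    (c ≤ ip u x3 ∧ ip u x3 ≤ c + 1) → (c ≤ ip u y1 ∧ ip u y1 ≤ c + 1) →
    (c ≤ ip u y2 ∧ ip u y2 ≤ c + 1) → ip u u ≤ W

lemma rel_ip {x1 x2 x3 y1 y2 : V3} {a1 a2 a3 b1 b2 : ℝ}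
    (rel : ∀ i, a1 * x1 i + a2 * x2 i + a3 * x3 i = b1 * y1 i + b2 * y2 i) (u : V3) :
    a1 * ip u x1 + a2 * ip u x2 + a3 * ip u x3 = b1 * ip u y1 + b2 * ip u y2 := by
  unfold ip
  linear_combination u 0 * rel 0 + u 1 * rel 1 + u 2 * rel 2

lemma vals {x1 x2 x3 y1 y2 : V3} {a1 a2 a3 b1 b2 : ℝ} (hs : a1 + a2 + a3 = 1) (ht : b1 + b2 = 1)
    (rel : ∀ i, a1 * x1 i + a2 * x2 i + a3 * x3 i = b1 * y1 i + b2 * y2 i) (u : V3)
    (f1 f2 f3 g1 g2 : ℝ) (hr : a1 * f1 + a2 * f2 + a3 * f3 = b1 * g1 + b2 * g2)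
    (h1 : ip u (x1 - x3) = f1 - f3) (h2 : ip u (x2 - x3) = f2 - f3)
    (h3 : ip u (y1 - y2) = g1 - g2) :
    ∃ c, ip u x1 = c + f1 ∧ ip u x2 = c + f2 ∧ ip u x3 = c + f3 ∧ ip u y1 = c + g1
      ∧ ip u y2 = c + g2 := by
  have h := rel_ip rel u
  rw [ip_sub] at h1 h2 h3
  have ha : a3 = 1 - a1 - a2 := by linarith
  have hb : b2 = 1 - b1 := by linarith
  subst ha hb
  refine ⟨ip u x3 - f3, by linarith, by linarith, by linarith, ?_, ?_⟩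
  · linear_combination (-1) * h + hr + a1 * h1 + a2 * h2 + (1 - b1) * h3
  · linear_combination (-1) * h + hr + a1 * h1 + a2 * h2 + (- b1) * h3

lemma ip_zero (a : V3) (h : ip a a = 0) : a = 0 := by
  unfold ip at h
  ext i; fin_cases i <;> simp <;> nlinarith [sq_nonneg (a 0), sq_nonneg (a 1), sq_nonneg (a 2)]

theorem core (x1 x2 x3 y1 y2 : V3) (a1 a2 a3 b1 b2 W : ℝ) (hs : a1 + a2 + a3 = 1)
    (ht : b1 + b2 = 1) (h12 : a2 ≤ a1) (h23 : a3 ≤ a2) (h3 : 0 ≤ a3) (hb : b2 ≤ b1)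
    (_hb2 : 0 ≤ b2)
    (hx1 : ip x1 x1 = 1) (hx2 : ip x2 x2 = 1) (hx3 : ip x3 x3 = 1) (hy1 : ip y1 y1 = 1)
    (hy2 : ip y2 y2 = 1)
    (rel : ∀ i, a1 * x1 i + a2 * x2 i + a3 * x3 i = b1 * y1 i + b2 * y2 i)
    (hW : Hw x1 x2 x3 y1 y2 W) :
    7 / 12 ≤ W ∧ (W = 7 / 12 → y2 = -y1 ∧ ip y1 x1 = 0 ∧ ip y1 x2 = 0 ∧ ip y1 x3 = 0 ∧
      ip x1 x2 = -1 / 2 ∧ ip x1 x3 = -1 / 2 ∧ ip x2 x3 = -1 / 2) := by
  by_cases hV : dt (x1 - x3) (x2 - x3) (y1 - y2) = 0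
  · exfalso
    obtain ⟨u, hu, k1, k2, k3⟩ := exZ _ _ _ hV
    have hW0 : 0 ≤ W := by
      have := hW 0 0 (by simp [ip]) (by simp [ip]) (by simp [ip]) (by simp [ip]) (by simp [ip])
      simpa [ip] using this
    obtain ⟨t, ht'⟩ : ∃ t, t = W / ip u u + 1 := ⟨_, rfl⟩
    have ht1 : 1 ≤ t := by rw [ht']; have : 0 ≤ W / ip u u := by positivity
                           linarith
    have ht2 : t * ip u u = W + ip u u := by rw [ht']; field_simp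
    obtain ⟨c, v1, v2, v3, v4, v5⟩ := vals hs ht rel (t • u) 0 0 0 0 0 (by ring)
      (by rw [smul_ip, k1]; ring) (by rw [smul_ip, k2]; ring) (by rw [smul_ip, k3]; ring)
    have := hW (t • u) c (by rw [v1]; constructor <;> linarith)
      (by rw [v2]; constructor <;> linarith) (by rw [v3]; constructor <;> linarith)
      (by rw [v4]; constructor <;> linarith) (by rw [v5]; constructor <;> linarith)
    rw [smul_ip, ip_smul, ht2] at this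
    nlinarith
  have F : ∀ f1 f2 f3 g1 g2 : ℝ, 0 ≤ f1 → f1 ≤ 1 → 0 ≤ f2 → f2 ≤ 1 → 0 ≤ f3 → f3 ≤ 1 →
      0 ≤ g1 → g1 ≤ 1 → 0 ≤ g2 → g2 ≤ 1 → a1 * f1 + a2 * f2 + a3 * f3 = b1 * g1 + b2 * g2 →
      ∃ u c, ip u u ≤ W ∧ ip u x1 = c + f1 ∧ ip u x2 = c + f2 ∧ ip u x3 = c + f3 ∧
        ip u y1 = c + g1 ∧ ip u y2 = c + g2 := by
    intro f1 f2 f3 g1 g2 _ _ _ _ _ _ _ _ _ _ hr
    obtain ⟨u, k1, k2, k3⟩ := exU _ _ _ hV (f1 - f3) (f2 - f3) (g1 - g2)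
    obtain ⟨c, v1, v2, v3, v4, v5⟩ := vals hs ht rel u f1 f2 f3 g1 g2 hr k1 k2 k3
    exact ⟨u, c, hW u c (by rw [v1]; constructor <;> linarith)
      (by rw [v2]; constructor <;> linarith) (by rw [v3]; constructor <;> linarith)
      (by rw [v4]; constructor <;> linarith) (by rw [v5]; constructor <;> linarith),
      v1, v2, v3, v4, v5⟩
  have z := le_refl (0 : ℝ)
  have o := le_refl (1 : ℝ)
  have zo := zero_le_one (α := ℝ)
  have fin : 7 / 12 < W → 7 / 12 ≤ W ∧ (W = 7 / 12 → y2 = -y1 ∧ ip y1 x1 = 0 ∧ ip y1 x2 = 0 ∧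
      ip y1 x3 = 0 ∧ ip x1 x2 = -1 / 2 ∧ ip x1 x3 = -1 / 2 ∧ ip x2 x3 = -1 / 2) :=
    fun h => ⟨h.le, fun h' => absurd h' h.ne'⟩
  by_cases c1 : b1 ≤ a1
  · apply fin
    obtain ⟨t00, l00, m00, e00⟩ := exT b1 a1 (by linarith) (by linarith)
    obtain ⟨t01, l01, m01, e01⟩ := exT (b1 - a3) a1 (by linarith) (by linarith)
    obtain ⟨t10, l10, m10, e10⟩ := exT (b1 - a2) a1 (by linarith) (by linarith)
    obtain ⟨t11, l11, m11, e11⟩ := exT (b1 - a2 - a3) a1 (by linarith) (by linarith)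
    obtain ⟨u00, c00, n00, _, _, _, _, _⟩ := F t00 0 0 1 0 l00 m00 z zo z zo zo o z zo (by linarith)
    obtain ⟨u01, c01, n01, _, _, _, _, _⟩ := F t01 0 1 1 0 l01 m01 z zo zo o zo o z zo (by linarith)
    obtain ⟨u10, c10, n10, _, _, _, _, _⟩ := F t10 1 0 1 0 l10 m10 zo o z zo zo o z zo (by linarith)
    obtain ⟨u11, c11, n11, _, _, _, _, _⟩ := F t11 1 1 1 0 l11 m11 zo o zo o zo o z zo (by linarith)
    refine tetra y1 y2 x2 x3 hy1.le hy2.le hx2.le hx3.le W u00 u01 u10 u11 n00 n01 n10 n11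
      ?_ ?_ ?_ ?_ ?_ ?_ ?_ ?_ ?_ ?_ ?_ ?_ <;> rw [ip_sub] <;> linarith
  by_cases c2 : b2 ≤ a2
  · apply fin
    obtain ⟨t00, l00, m00, e00⟩ := exT a1 b1 (by linarith) (by linarith)
    obtain ⟨t01, l01, m01, e01⟩ := exT (a1 - b2) b1 (by linarith) (by linarith)
    obtain ⟨t10, l10, m10, e10⟩ := exT (a1 + a3) b1 (by linarith) (by linarith)
    obtain ⟨t11, l11, m11, e11⟩ := exT (a1 + a3 - b2) b1 (by linarith) (by linarith)
    obtain ⟨u00, c00, n00, _, _, _, _, _⟩ := F 1 0 0 t00 0 zo o z zo z zo l00 m00 z zo (by linarith)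
    obtain ⟨u01, c01, n01, _, _, _, _, _⟩ := F 1 0 0 t01 1 zo o z zo z zo l01 m01 zo o (by linarith)
    obtain ⟨u10, c10, n10, _, _, _, _, _⟩ := F 1 0 1 t10 0 zo o z zo zo o l10 m10 z zo (by linarith)
    obtain ⟨u11, c11, n11, _, _, _, _, _⟩ := F 1 0 1 t11 1 zo o z zo zo o l11 m11 zo o (by linarith)
    refine tetra x1 x2 x3 y2 hx1.le hx2.le hx3.le hy2.le W u00 u01 u10 u11 n00 n01 n10 n11
      ?_ ?_ ?_ ?_ ?_ ?_ ?_ ?_ ?_ ?_ ?_ ?_ <;> rw [ip_sub] <;> linarith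
  push Not at c1 c2
  by_cases c3 : b2 ≤ a1
  · apply fin
    obtain ⟨a, la, ma, ea⟩ := exT (b1 - a2) a1 (by linarith) (by linarith)
    obtain ⟨b, lb, mb, eb⟩ := exT (b1 - a3) a1 (by linarith) (by linarith)
    obtain ⟨g, lg, mg, eg⟩ := exT (1 - a1) b1 (by linarith) (by linarith)
    obtain ⟨h, lh, mh, eh⟩ := exT a1 b1 (by linarith) (by linarith)
    obtain ⟨uA, cA, nA, _, _, _, _, _⟩ := F a 1 0 1 0 la ma zo o z zo zo o z zo (by linarith)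
    obtain ⟨uB, cB, nB, _, _, _, _, _⟩ := F b 0 1 1 0 lb mb z zo zo o zo o z zo (by linarith)
    obtain ⟨uC, cC, nC, _, _, _, _, _⟩ := F 0 1 1 g 0 z zo zo o zo o lg mg z zo (by linarith)
    obtain ⟨uD, cD, nD, _, _, _, _, _⟩ := F 1 0 0 h 0 zo o z zo z zo lh mh z zo (by linarith)
    refine regP x1 x2 x3 y1 y2 a1 a2 a3 b1 b2 W hs ht (by linarith) hb hx1.le hx2.le hx3.le
      hy1.le hy2.le rel uA uB uC uD nA nB nC nD a b g h ea eb eg eh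
      ?_ ?_ ?_ ?_ ?_ ?_ ?_ ?_ ?_ ?_ ?_ ?_ <;> rw [ip_sub] <;> linarith
  push Not at c3
  obtain ⟨t23, l23, m23, e23⟩ := exT (b1 - a2) a1 (by linarith) (by linarith)
  obtain ⟨t32, l32, m32, e32⟩ := exT (b1 - a3) a1 (by linarith) (by linarith)
  obtain ⟨t31, l31, m31, e31⟩ := exT (b1 - a3) a2 (by linarith) (by linarith)
  obtain ⟨t13, l13, m13, e13⟩ := exT (b1 - a1) a2 (by linarith) (by linarith)
  obtain ⟨t12, l12, m12, e12⟩ := exT (b1 - a1) a3 (by linarith) (by linarith)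
  obtain ⟨t21, l21, m21, e21⟩ := exT (b1 - a2) a3 (by linarith) (by linarith)
  obtain ⟨u23, c23, n23, p23, q23, r23, s23, w23⟩ :=
    F t23 1 0 1 0 l23 m23 zo o z zo zo o z zo (by linarith)
  obtain ⟨u32, c32, n32, p32, q32, r32, s32, w32⟩ :=
    F t32 0 1 1 0 l32 m32 z zo zo o zo o z zo (by linarith)
  obtain ⟨u31, c31, n31, p31, q31, r31, s31, w31⟩ :=
    F 0 t31 1 1 0 z zo l31 m31 zo o zo o z zo (by linarith)
  obtain ⟨u13, c13, n13, p13, q13, r13, s13, w13⟩ :=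
    F 1 t13 0 1 0 zo o l13 m13 z zo zo o z zo (by linarith)
  obtain ⟨u12, c12, n12, p12, q12, r12, s12, w12⟩ :=
    F 1 0 t12 1 0 zo o z zo l12 m12 zo o z zo (by linarith)
  obtain ⟨u21, c21, n21, p21, q21, r21, s21, w21⟩ :=
    F 0 1 t21 1 0 z zo zo o l21 m21 zo o z zo (by linarith)
  have d23 : ip u23 (y1 - y2) = 1 := by rw [ip_sub]; linarith
  have d32 : ip u32 (y1 - y2) = 1 := by rw [ip_sub]; linarith
  have d31 : ip u31 (y1 - y2) = 1 := by rw [ip_sub]; linarith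
  have d13 : ip u13 (y1 - y2) = 1 := by rw [ip_sub]; linarith
  have d12 : ip u12 (y1 - y2) = 1 := by rw [ip_sub]; linarith
  have d21 : ip u21 (y1 - y2) = 1 := by rw [ip_sub]; linarith
  have hD : 0 < ip (y1 - y2) (y1 - y2) := (pos_of_ip u23 _ (by rw [d23]; norm_num)).1
  have k1 := pair u23 u32 _ W d23 d32 n23 n32
  have k2 := pair u31 u13 _ W d31 d13 n31 n13
  have k3 := pair u12 u21 _ W d12 d21 n12 n21
  obtain ⟨A, hA⟩ : ∃ A, A = W - 1 / ip (y1 - y2) (y1 - y2) := ⟨_, rfl⟩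
  rw [← hA] at k1 k2 k3
  have hA0 : 0 < A := by
    have : ip (u23 - u32) (x2 - x3) = 2 := by rw [sub_ip, ip_sub, ip_sub]; linarith
    have := (pos_of_ip (u23 - u32) (x2 - x3) (by rw [this]; norm_num)).2
    linarith
  have hR := regA x1 x2 x3 (y1 - y2) (a1 • (u23 - u32)) (a2 • (u31 - u13)) (a3 • (u12 - u21))
    a1 a2 a3 A hs (by linarith) (by linarith) h3 hA0 hD
    (by rw [smul_ip, ip_smul]; linarith [mul_le_mul_of_nonneg_left k1 (sq_nonneg a1)])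
    (by rw [smul_ip, ip_smul]; linarith [mul_le_mul_of_nonneg_left k2 (sq_nonneg a2)])
    (by rw [smul_ip, ip_smul]; linarith [mul_le_mul_of_nonneg_left k3 (sq_nonneg a3)])
    (by rw [smul_ip, sub_ip, d23, d32]; ring) (by rw [smul_ip, sub_ip, d31, d13]; ring)
    (by rw [smul_ip, sub_ip, d12, d21]; ring)
    (by rw [smul_ip, sub_ip, ip_sub, ip_sub, p23, r23, p32, r32]; linear_combination e23 - e32)
    (by rw [smul_ip, sub_ip, ip_sub, ip_sub, q23, r23, q32, r32]; ring)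
    (by rw [smul_ip, sub_ip, ip_sub, ip_sub, p31, r31, p13, r13]; ring)
    (by rw [smul_ip, sub_ip, ip_sub, ip_sub, q31, r31, q13, r13]; linear_combination e31 - e13)
    (by rw [smul_ip, sub_ip, ip_sub, ip_sub, p12, r12, p21, r21]; linear_combination e21 - e12)
    (by rw [smul_ip, sub_ip, ip_sub, ip_sub, q12, r12, q21, r21]; linear_combination e21 - e12)
  rw [pr_sq _ _ hD, pr_sq _ _ hD, pr_sq _ _ hD, hx1, hx2, hx3] at hR
  have hpar : ip (y1 - y2) (y1 - y2) + ip (y1 + y2) (y1 + y2) = 4 := by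
    have : ip (y1 - y2) (y1 - y2) + ip (y1 + y2) (y1 + y2) = 2 * ip y1 y1 + 2 * ip y2 y2 := by
      simp [ip]; ring
    rw [this, hy1, hy2]; norm_num
  have hp0 := ip_nonneg (y1 + y2)
  have hD4 : 1 / 4 ≤ 1 / ip (y1 - y2) (y1 - y2) :=
    one_div_le_one_div_of_le hD (by linarith)
  have j1 : 0 ≤ ip x1 (y1 - y2) ^ 2 / ip (y1 - y2) (y1 - y2) := by positivity
  have j2 : 0 ≤ ip x2 (y1 - y2) ^ 2 / ip (y1 - y2) (y1 - y2) := by positivity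
  have j3 : 0 ≤ ip x3 (y1 - y2) ^ 2 / ip (y1 - y2) (y1 - y2) := by positivity
  have j4 := ip_nonneg (pr (y1 - y2) x1 + pr (y1 - y2) x2 + pr (y1 - y2) x3)
  obtain ⟨S, hS⟩ : ∃ S, S = 1 - ip x1 (y1 - y2) ^ 2 / ip (y1 - y2) (y1 - y2)
    + (1 - ip x2 (y1 - y2) ^ 2 / ip (y1 - y2) (y1 - y2))
    + (1 - ip x3 (y1 - y2) ^ 2 / ip (y1 - y2) (y1 - y2))
    - ip (pr (y1 - y2) x1 + pr (y1 - y2) x2 + pr (y1 - y2) x3)
      (pr (y1 - y2) x1 + pr (y1 - y2) x2 + pr (y1 - y2) x3) / 3 := ⟨_, rfl⟩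
  rw [← hS] at hR
  have hS3 : S ≤ 3 := by linarith
  have hA3 : 1 / 3 ≤ A := by linarith [mul_le_mul_of_nonneg_left hS3 hA0.le]
  refine ⟨by linarith, fun hE => ?_⟩
  have hAe : A = 1 / 3 := by linarith
  have hDe : 1 / ip (y1 - y2) (y1 - y2) = 1 / 4 := by linarith
  have hD' : ip (y1 - y2) (y1 - y2) = 4 := by
    rw [div_eq_div_iff hD.ne' (by norm_num)] at hDe; linarith
  have hy : y2 = -y1 := by
    have := ip_zero (y1 + y2) (by linarith)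
    exact (neg_eq_of_add_eq_zero_right this).symm
  rw [hAe] at hR
  have i1 : ip x1 (y1 - y2) = 0 := by
    have : ip x1 (y1 - y2) ^ 2 / ip (y1 - y2) (y1 - y2) = 0 := by linarith
    rw [hD', div_eq_zero_iff] at this; simpa using this
  have i2 : ip x2 (y1 - y2) = 0 := by
    have : ip x2 (y1 - y2) ^ 2 / ip (y1 - y2) (y1 - y2) = 0 := by linarith
    rw [hD', div_eq_zero_iff] at this; simpa using this
  have i3 : ip x3 (y1 - y2) = 0 := by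
    have : ip x3 (y1 - y2) ^ 2 / ip (y1 - y2) (y1 - y2) = 0 := by linarith
    rw [hD', div_eq_zero_iff] at this; simpa using this
  have i4 : pr (y1 - y2) x1 + pr (y1 - y2) x2 + pr (y1 - y2) x3 = 0 := ip_zero _ (by linarith)
  have i5 : x1 + x2 + x3 = 0 := by simpa [pr, i1, i2, i3] using i4
  have g : ∀ v, ip v x1 + ip v x2 + ip v x3 = 0 := by
    intro v; rw [← ip_add, ← ip_add, i5]; simp [ip]
  have g1 := g x1
  have g2 := g x2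
  have g3 := g x3
  rw [ip_comm x2 x1] at g2
  rw [ip_comm x3 x1, ip_comm x3 x2] at g3
  have hyy : ∀ v, ip v (y1 - y2) = 2 * ip y1 v := by
    intro v; rw [hy]; simp [ip]; ring
  rw [hyy] at i1 i2 i3
  exact ⟨hy, by linarith, by linarith, by linarith, by linarith, by linarith, by linarith⟩

end Pool.Agent.MP_90395b_gt.W5

end

section

namespace Pool.Agent.MP_90395b_gt.W5

lemma ip_lt_one (p q : V3) (hp : ip p p = 1) (hq : ip q q = 1) (h : p ≠ q) : ip p q < 1 := by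
  have h1 := ip_nonneg (p - q)
  have h2 : ip (p - q) (p - q) = ip p p + ip q q - 2 * ip p q := by simp [ip]; ring
  rcases h1.lt_or_eq with h3 | h3
  · linarith
  · exact absurd (sub_eq_zero.mp (ip_zero _ h3.symm)) h

lemma ip_le_one (p q : V3) (hp : ip p p = 1) (hq : ip q q = 1) : ip p q ≤ 1 := by
  have h1 := ip_nonneg (p - q)
  have h2 : ip (p - q) (p - q) = ip p p + ip q q - 2 * ip p q := by simp [ip]; ring
  linarith

lemma lab (p0 p1 p2 p3 p4 : V3) (l0 l1 l2 l3 l4 W : ℝ) (h01 : l0 ≤ l1) (h12 : l1 ≤ l2)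
    (h23 : l2 ≤ l3) (h34 : l3 ≤ l4) (hsum : l0 + l1 + l2 + l3 + l4 = 0) (hne : l0 < l4)
    (h2 : 0 ≤ l2) (rel : ∀ i, l0 * p0 i + l1 * p1 i + l2 * p2 i + l3 * p3 i + l4 * p4 i = 0)
    (n0 : ip p0 p0 = 1) (n1 : ip p1 p1 = 1) (n2 : ip p2 p2 = 1) (n3 : ip p3 p3 = 1)
    (n4 : ip p4 p4 = 1) (hd : p0 ≠ p1) (hW : Hw p4 p3 p2 p0 p1 W) :
    7 / 12 ≤ W ∧ (W = 7 / 12 → p1 = -p0 ∧ ip p0 p4 = 0 ∧ ip p0 p3 = 0 ∧ ip p0 p2 = 0 ∧
      ip p4 p3 = -1 / 2 ∧ ip p4 p2 = -1 / 2 ∧ ip p3 p2 = -1 / 2) := by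
  have hl1 : l1 ≤ 0 := by
    by_contra hc
    push Not at hc
    have e : l0 * ip p0 p0 + l1 * ip p0 p1 + l2 * ip p0 p2 + l3 * ip p0 p3 + l4 * ip p0 p4 = 0 := by
      unfold ip; linear_combination p0 0 * rel 0 + p0 1 * rel 1 + p0 2 * rel 2
    rw [n0] at e
    have e1 := mul_lt_mul_of_pos_left (ip_lt_one p0 p1 n0 n1 hd) hc
    have e2 := mul_le_mul_of_nonneg_left (ip_le_one p0 p2 n0 n2) h2
    have e3 := mul_le_mul_of_nonneg_left (ip_le_one p0 p3 n0 n3) (by linarith : 0 ≤ l3)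
    have e4 := mul_le_mul_of_nonneg_left (ip_le_one p0 p4 n0 n4) (by linarith : 0 ≤ l4)
    linarith
  obtain ⟨s, hs⟩ : ∃ s, s = l2 + l3 + l4 := ⟨_, rfl⟩
  have hs0 : 0 < s := by
    by_contra hc
    push Not at hc
    linarith
  refine core p4 p3 p2 p0 p1 (l4 / s) (l3 / s) (l2 / s) (-l0 / s) (-l1 / s) W ?_ ?_ ?_ ?_ ?_ ?_ ?_
    n4 n3 n2 n0 n1 ?_ hW
  · field_simp; linarith
  · field_simp; linarith
  · exact div_le_div_of_nonneg_right h34 hs0.le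
  · exact div_le_div_of_nonneg_right h23 hs0.le
  · positivity
  · exact div_le_div_of_nonneg_right (by linarith) hs0.le
  · exact div_nonneg (by linarith) hs0.le
  · intro i; field_simp; linarith [rel i]

theorem five (x : Fin 5 → V3) (hinj : Function.Injective x) (hn : ∀ i, ip (x i) (x i) = 1)
    (W : ℝ) (hW : ∀ (u : V3) (c : ℝ), (∀ i, c ≤ ip u (x i) ∧ ip u (x i) ≤ c + 1) → ip u u ≤ W) :
    7 / 12 ≤ W ∧ (W = 7 / 12 → ∃ σ : Equiv.Perm (Fin 5), x (σ 1) = -x (σ 0) ∧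
      ip (x (σ 0)) (x (σ 2)) = 0 ∧ ip (x (σ 0)) (x (σ 3)) = 0 ∧ ip (x (σ 0)) (x (σ 4)) = 0 ∧
      ip (x (σ 2)) (x (σ 3)) = -1 / 2 ∧ ip (x (σ 2)) (x (σ 4)) = -1 / 2 ∧
      ip (x (σ 3)) (x (σ 4)) = -1 / 2) := by
  have hdep : ¬ LinearIndependent ℝ (fun i => ((x i, (1 : ℝ)) : V3 × ℝ)) := by
    intro h
    have := h.fintype_card_le_finrank
    simp at this
  obtain ⟨g, hg, i0, hi0⟩ := Fintype.not_linearIndependent_iff.mp hdep
  have key : ∀ (τ : Equiv.Perm (Fin 5)) (l : Fin 5 → ℝ), Monotone (l ∘ τ) →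
      ∑ i, l i • ((x i, (1 : ℝ)) : V3 × ℝ) = 0 → l i0 ≠ 0 → 0 ≤ l (τ 2) →
      7 / 12 ≤ W ∧ (W = 7 / 12 → ∃ σ : Equiv.Perm (Fin 5), x (σ 1) = -x (σ 0) ∧
      ip (x (σ 0)) (x (σ 2)) = 0 ∧ ip (x (σ 0)) (x (σ 3)) = 0 ∧ ip (x (σ 0)) (x (σ 4)) = 0 ∧
      ip (x (σ 2)) (x (σ 3)) = -1 / 2 ∧ ip (x (σ 2)) (x (σ 4)) = -1 / 2 ∧
      ip (x (σ 3)) (x (σ 4)) = -1 / 2) := by
    intro τ l hm hl hl0 h2
    rw [← Equiv.sum_comp τ, Fin.sum_univ_five] at hl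
    have s1 := congrArg Prod.snd hl
    have s2 := congrArg Prod.fst hl
    simp only [Prod.snd_add, Prod.smul_snd, smul_eq_mul, mul_one, Prod.snd_zero] at s1
    simp only [Prod.fst_add, Prod.smul_fst, Prod.fst_zero] at s2
    have m01 : l (τ 0) ≤ l (τ 1) := hm (by decide : (0 : Fin 5) ≤ 1)
    have m12 : l (τ 1) ≤ l (τ 2) := hm (by decide : (1 : Fin 5) ≤ 2)
    have m23 : l (τ 2) ≤ l (τ 3) := hm (by decide : (2 : Fin 5) ≤ 3)
    have m34 : l (τ 3) ≤ l (τ 4) := hm (by decide : (3 : Fin 5) ≤ 4)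
    have hne : l (τ 0) < l (τ 4) := by
      by_contra hc
      push Not at hc
      apply hl0
      have a1 : l (τ 0) ≤ l (τ (τ.symm i0)) := hm (Fin.zero_le _)
      have a2 : l (τ (τ.symm i0)) ≤ l (τ 4) := hm (Fin.le_last _)
      rw [Equiv.apply_symm_apply] at a1 a2
      linarith
    have hH : Hw (x (τ 4)) (x (τ 3)) (x (τ 2)) (x (τ 0)) (x (τ 1)) W := by
      intro u c b4 b3 b2 b0 b1
      apply hW u c
      intro i
      obtain ⟨j, rfl⟩ := τ.surjective i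
      fin_cases j
      exacts [b0, b1, b2, b3, b4]
    have := lab (x (τ 0)) (x (τ 1)) (x (τ 2)) (x (τ 3)) (x (τ 4)) _ _ _ _ _ W m01 m12 m23 m34 s1
      hne h2 (fun i => by simpa using congrFun s2 i) (hn _) (hn _) (hn _) (hn _) (hn _)
      (fun h => absurd (τ.injective (hinj h)) (by decide)) hH
    refine ⟨this.1, fun hE => ⟨τ, ?_⟩⟩
    obtain ⟨k1, k2, k3, k4, k5, k6, k7⟩ := this.2 hE
    exact ⟨k1, k4, k3, k2, by rw [ip_comm, k7], by rw [ip_comm, k6], by rw [ip_comm, k5]⟩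
  by_cases h2 : 0 ≤ g (Tuple.sort g 2)
  · exact key (Tuple.sort g) g (Tuple.monotone_sort g) hg hi0 h2
  · refine key (Fin.revPerm.trans (Tuple.sort g)) (fun i => -g i) ?_ ?_ (by simpa using hi0) ?_
    · intro a b hab
      simp only [Function.comp, Equiv.trans_apply, Fin.revPerm_apply, neg_le_neg_iff]
      exact Tuple.monotone_sort g (Fin.rev_le_rev.mpr hab)
    · simp only [neg_smul, Finset.sum_neg_distrib, hg, neg_zero]
    · have : (Fin.revPerm.trans (Tuple.sort g)) 2 = Tuple.sort g 2 := rfl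
      rw [this]; push Not at h2; linarith

lemma aux3 (t a m l h : ℝ) (ht : t ^ 2 ≤ l ^ 2) (hlh : l ≤ h) (hm : m ≤ l) (ha : a ≤ h)
    (h1 : m ≤ 2 * a) (h2 : a ≤ 2 * m) :
    t ^ 2 + 4 / 3 * (a ^ 2 - a * m + m ^ 2) ≤ 7 / 12 * (l + h) ^ 2 := by
  have hm0 : 0 ≤ m := by linarith
  have ha0 : 0 ≤ a := by linarith
  nlinarith [mul_nonneg (sub_nonneg.2 ha) (sub_nonneg.2 h1), mul_nonneg (sub_nonneg.2 hm) (sub_nonneg.2 h2),
    mul_nonneg (sub_nonneg.2 hlh) (sub_nonneg.2 h2), mul_nonneg (sub_nonneg.2 hlh) (sub_nonneg.2 h1),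
    mul_nonneg (sub_nonneg.2 hlh) hm0, mul_nonneg (sub_nonneg.2 hlh) ha0,
    mul_nonneg (sub_nonneg.2 ha) (sub_nonneg.2 hm), mul_nonneg (sub_nonneg.2 hm) hm0,
    mul_nonneg (sub_nonneg.2 ha) ha0, mul_nonneg (sub_nonneg.2 hlh) (sub_nonneg.2 hlh),
    mul_nonneg (sub_nonneg.2 hlh) (sub_nonneg.2 hm), mul_nonneg (sub_nonneg.2 hlh) (sub_nonneg.2 ha),
    mul_nonneg (sub_nonneg.2 h1) (sub_nonneg.2 h2), mul_nonneg (sub_nonneg.2 ha) hm0,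
    mul_nonneg (sub_nonneg.2 hm) ha0, mul_nonneg (sub_nonneg.2 hm) (sub_nonneg.2 hm),
    mul_nonneg (sub_nonneg.2 ha) (sub_nonneg.2 h2), mul_nonneg (sub_nonneg.2 hm) (sub_nonneg.2 h1)]

lemma aux4 (t a b c lo hi : ℝ) (hab : b ≤ a) (hbc : c ≤ b) (hs : a + b + c = 0) (ha : a ≤ hi)
    (hc : lo ≤ c) (t1 : lo ≤ t) (t2 : t ≤ hi) (t3 : lo ≤ -t) (t4 : -t ≤ hi) :
    t ^ 2 + 2 / 3 * (a ^ 2 + b ^ 2 + c ^ 2) ≤ 7 / 12 * (hi - lo) ^ 2 := by
  have hb : b = -a - c := by linarith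
  rcases le_total (-lo) hi with h | h
  · have := aux3 t a (-c) (-lo) hi (by nlinarith) h (by linarith) ha (by linarith) (by linarith)
    rw [hb]; linarith
  · have := aux3 t (-c) a hi (-lo) (by nlinarith) h ha (by linarith) (by linarith) (by linarith)
    rw [hb]; linarith

lemma reg_bound (p x1 x2 x3 u : V3) (lo hi : ℝ) (np : ip p p = 1) (n1 : ip x1 x1 = 1)
    (n2 : ip x2 x2 = 1) (n3 : ip x3 x3 = 1) (k1 : ip p x1 = 0) (k2 : ip p x2 = 0)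
    (k12 : ip x1 x2 = -1 / 2) (k13 : ip x1 x3 = -1 / 2) (k23 : ip x2 x3 = -1 / 2)
    (b0 : lo ≤ ip u p ∧ ip u p ≤ hi) (b0' : lo ≤ -ip u p ∧ -ip u p ≤ hi)
    (b1 : lo ≤ ip u x1 ∧ ip u x1 ≤ hi) (b2 : lo ≤ ip u x2 ∧ ip u x2 ≤ hi)
    (b3 : lo ≤ ip u x3 ∧ ip u x3 ≤ hi) : ip u u ≤ 7 / 12 * (hi - lo) ^ 2 := by
  have hz : x1 + x2 + x3 = 0 := by
    apply ip_zero
    have : ip (x1 + x2 + x3) (x1 + x2 + x3) = ip x1 x1 + ip x2 x2 + ip x3 x3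
      + 2 * ip x1 x2 + 2 * ip x1 x3 + 2 * ip x2 x3 := by simp [ip]; ring
    rw [this, n1, n2, n3, k12, k13, k23]; norm_num
  have hs : ip u x1 + ip u x2 + ip u x3 = 0 := by rw [← ip_add, ← ip_add, hz]; simp [ip]
  have hG : ip u u * (ip p p * (ip x1 x1 * ip x2 x2 - ip x1 x2 ^ 2)
        - ip p x1 * (ip p x1 * ip x2 x2 - ip x1 x2 * ip p x2)
        + ip p x2 * (ip p x1 * ip x1 x2 - ip x1 x1 * ip p x2))
      = ip u p ^ 2 * (ip x1 x1 * ip x2 x2 - ip x1 x2 ^ 2)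
        + ip u x1 ^ 2 * (ip p p * ip x2 x2 - ip p x2 ^ 2)
        + ip u x2 ^ 2 * (ip p p * ip x1 x1 - ip p x1 ^ 2)
        - 2 * ip u p * ip u x1 * (ip p x1 * ip x2 x2 - ip p x2 * ip x1 x2)
        + 2 * ip u p * ip u x2 * (ip p x1 * ip x1 x2 - ip p x2 * ip x1 x1)
        - 2 * ip u x1 * ip u x2 * (ip p p * ip x1 x2 - ip p x1 * ip p x2) := by
    unfold ip; ring
  rw [np, n1, n2, k1, k2, k12] at hG
  generalize ip u p = t at *
  generalize ip u x1 = a at *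
  generalize ip u x2 = b at *
  generalize ip u x3 = c at *
  have hU : ip u u = t ^ 2 + 2 / 3 * (a ^ 2 + b ^ 2 + c ^ 2) := by
    have hc : c = -a - b := by linarith
    rw [hc]; linarith
  rw [hU]
  rcases le_total a b with h1 | h1 <;> rcases le_total b c with h2 | h2 <;>
    rcases le_total a c with h3 | h3
  · linarith [aux4 t c b a lo hi h2 h1 (by linarith) b3.2 b1.1 b0.1 b0.2 b0'.1 b0'.2]
  · linarith [aux4 t c b a lo hi h2 h1 (by linarith) b3.2 b1.1 b0.1 b0.2 b0'.1 b0'.2]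
  · linarith [aux4 t b c a lo hi h2 h3 (by linarith) b2.2 b1.1 b0.1 b0.2 b0'.1 b0'.2]
  · linarith [aux4 t b a c lo hi h1 h3 (by linarith) b2.2 b3.1 b0.1 b0.2 b0'.1 b0'.2]
  · linarith [aux4 t c a b lo hi h3 h1 (by linarith) b3.2 b2.1 b0.1 b0.2 b0'.1 b0'.2]
  · linarith [aux4 t a c b lo hi h3 h2 (by linarith) b1.2 b2.1 b0.1 b0.2 b0'.1 b0'.2]
  · linarith [aux4 t a b c lo hi h1 h2 (by linarith) b1.2 b3.1 b0.1 b0.2 b0'.1 b0'.2]
  · linarith [aux4 t a b c lo hi h1 h2 (by linarith) b1.2 b3.1 b0.1 b0.2 b0'.1 b0'.2]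

end Pool.Agent.MP_90395b_gt.W5

end
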