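import Pool.Agent.Mg.F90395b.G8570e2
import Pool.Agent.Mg.F90395b.Gb8f4d7
import Pool.Agent.Mg.F90395b.G0c3744
import Pool.Agent.Mg.F90395b.G1fafb7
import Pool.Agent.Mg.F90395b.Gbfcc0b
import Pool.Agent.Mg.F90395b.G57cda0

section

namespace Pool.Agent.MP_90395b_gt.Bn

open Pool.Agent.MP_90395b_gt.As

theorem list_max (a : ℝ) (l : List ℝ) : ∃ s ∈ a :: l, ∀ q ∈ a :: l, q ≤ s := by
  induction l generalizing a with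
  | nil => exact ⟨a, by simp, by simp⟩
  | cons b l ih =>
    obtain ⟨s, h1, h2⟩ := ih b
    rcases le_total a s with h | h
    · exact ⟨s, List.mem_cons_of_mem _ h1, List.forall_mem_cons.2 ⟨h, h2⟩⟩
    · exact ⟨a, List.mem_cons_self, List.forall_mem_cons.2 ⟨le_rfl, fun q hq => (h2 q hq).trans h⟩⟩

theorem slx_a {t c x y u : ℝ} (hc : P5 pDA t c x y u ≤ 0)
    (a0 : (-8 : ℝ) ≤ 8 * t) (b0 : 8 * t ≤ (8 : ℝ))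
    (a1 : (-1 : ℝ) ≤ 1 * c) (b1 : 1 * c ≤ (1 : ℝ))
    (a2 : (0 : ℝ) ≤ 8 * x) (b2 : 8 * x ≤ (3 : ℝ))
    (a3 : (0 : ℝ) ≤ 1 * y) (b3 : 1 * y ≤ (1 : ℝ))
    (a4 : (-1 : ℝ) ≤ 1 * u) (b4 : 1 * u ≤ (1 : ℝ)) :
    0 ≤ P5 pXA t c x y u := by
  refine sound6 xm_a 1 one_pos hc ?_ ?_ ?_ ?_ ?_ ?_ ?_ ?_ ?_ ?_ ?_ ?_ <;>
    clear hc <;> push_cast <;> linarith

theorem slx_b {t c x y u : ℝ} (hc : P5 pDA t c x y u ≤ 0)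
    (a0 : (-8 : ℝ) ≤ 8 * t) (b0 : 8 * t ≤ (8 : ℝ))
    (a1 : (-1 : ℝ) ≤ 1 * c) (b1 : 1 * c ≤ (1 : ℝ))
    (a2 : (5 : ℝ) ≤ 8 * x) (b2 : 8 * x ≤ (8 : ℝ))
    (a3 : (0 : ℝ) ≤ 8 * y) (b3 : 8 * y ≤ (3 : ℝ))
    (a4 : (-1 : ℝ) ≤ 1 * u) (b4 : 1 * u ≤ (1 : ℝ)) :
    0 ≤ P5 pXA t c x y u := by
  refine sound6 xm_b 1 one_pos hc ?_ ?_ ?_ ?_ ?_ ?_ ?_ ?_ ?_ ?_ ?_ ?_ <;>
    clear hc <;> push_cast <;> linarith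

theorem slx_c {t c x y u : ℝ} (hc : P5 pDA t c x y u ≤ 0)
    (a0 : (-8 : ℝ) ≤ 8 * t) (b0 : 8 * t ≤ (8 : ℝ))
    (a1 : (-1 : ℝ) ≤ 1 * c) (b1 : 1 * c ≤ (1 : ℝ))
    (a2 : (3 : ℝ) ≤ 8 * x) (b2 : 8 * x ≤ (5 : ℝ))
    (a3 : (0 : ℝ) ≤ 8 * y) (b3 : 8 * y ≤ (3 : ℝ))
    (a4 : (-1 : ℝ) ≤ 1 * u) (b4 : 1 * u ≤ (1 : ℝ)) :
    0 ≤ P5 pXA t c x y u := by
  refine sound6 xm_c 1 one_pos hc ?_ ?_ ?_ ?_ ?_ ?_ ?_ ?_ ?_ ?_ ?_ ?_ <;>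
    clear hc <;> push_cast <;> linarith

theorem slx_e {t c x y u : ℝ} (hc : P5 pDA t c x y u ≤ 0)
    (a0 : (-8 : ℝ) ≤ 8 * t) (b0 : 8 * t ≤ (-1 : ℝ))
    (a1 : (-1 : ℝ) ≤ 1 * c) (b1 : 1 * c ≤ (1 : ℝ))
    (a2 : (3 : ℝ) ≤ 8 * x) (b2 : 8 * x ≤ (5 : ℝ))
    (a3 : (3 : ℝ) ≤ 8 * y) (b3 : 8 * y ≤ (5 : ℝ))
    (a4 : (-1 : ℝ) ≤ 1 * u) (b4 : 1 * u ≤ (1 : ℝ)) :
    0 ≤ P5 pXA t c x y u := by
  refine sound6 xm_e 1 one_pos hc ?_ ?_ ?_ ?_ ?_ ?_ ?_ ?_ ?_ ?_ ?_ ?_ <;>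
    clear hc <;> push_cast <;> linarith

theorem slx_f {t c x y u : ℝ} (hc : P5 pDA t c x y u ≤ 0)
    (a0 : (1 : ℝ) ≤ 8 * t) (b0 : 8 * t ≤ (8 : ℝ))
    (a1 : (-1 : ℝ) ≤ 1 * c) (b1 : 1 * c ≤ (1 : ℝ))
    (a2 : (3 : ℝ) ≤ 8 * x) (b2 : 8 * x ≤ (5 : ℝ))
    (a3 : (3 : ℝ) ≤ 8 * y) (b3 : 8 * y ≤ (5 : ℝ))
    (a4 : (-1 : ℝ) ≤ 1 * u) (b4 : 1 * u ≤ (1 : ℝ)) :
    0 ≤ P5 pXA t c x y u := by
  refine sound6 xm_f 1 one_pos hc ?_ ?_ ?_ ?_ ?_ ?_ ?_ ?_ ?_ ?_ ?_ ?_ <;>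
    clear hc <;> push_cast <;> linarith

theorem slx_g {t c x y u : ℝ} (hc : P5 pDA t c x y u ≤ 0)
    (a0 : (-1 : ℝ) ≤ 8 * t) (b0 : 8 * t ≤ (1 : ℝ))
    (a1 : (-1 : ℝ) ≤ 1 * c) (b1 : 1 * c ≤ (1 : ℝ))
    (a2 : (3 : ℝ) ≤ 8 * x) (b2 : 8 * x ≤ (5 : ℝ))
    (a3 : (3 : ℝ) ≤ 8 * y) (b3 : 8 * y ≤ (5 : ℝ))
    (a4 : (-8 : ℝ) ≤ 8 * u) (b4 : 8 * u ≤ (-1 : ℝ)) :
    0 ≤ P5 pXA t c x y u := by
  refine sound6 xm_g 1 one_pos hc ?_ ?_ ?_ ?_ ?_ ?_ ?_ ?_ ?_ ?_ ?_ ?_ <;>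
    clear hc <;> push_cast <;> linarith

theorem slx_h {t c x y u : ℝ} (hc : P5 pDA t c x y u ≤ 0)
    (a0 : (-1 : ℝ) ≤ 8 * t) (b0 : 8 * t ≤ (1 : ℝ))
    (a1 : (-1 : ℝ) ≤ 1 * c) (b1 : 1 * c ≤ (1 : ℝ))
    (a2 : (3 : ℝ) ≤ 8 * x) (b2 : 8 * x ≤ (5 : ℝ))
    (a3 : (3 : ℝ) ≤ 8 * y) (b3 : 8 * y ≤ (5 : ℝ))
    (a4 : (1 : ℝ) ≤ 8 * u) (b4 : 8 * u ≤ (8 : ℝ)) :
    0 ≤ P5 pXA t c x y u := by
  refine sound6 xm_h 1 one_pos hc ?_ ?_ ?_ ?_ ?_ ?_ ?_ ?_ ?_ ?_ ?_ ?_ <;>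
    clear hc <;> push_cast <;> linarith

theorem slx_i {t c x y u : ℝ} (hc : P5 pDA t c x y u ≤ 0)
    (a0 : (-1 : ℝ) ≤ 8 * t) (b0 : 8 * t ≤ (1 : ℝ))
    (a1 : (-8 : ℝ) ≤ 8 * c) (b1 : 8 * c ≤ (-1 : ℝ))
    (a2 : (3 : ℝ) ≤ 8 * x) (b2 : 8 * x ≤ (5 : ℝ))
    (a3 : (3 : ℝ) ≤ 8 * y) (b3 : 8 * y ≤ (5 : ℝ))
    (a4 : (-1 : ℝ) ≤ 8 * u) (b4 : 8 * u ≤ (1 : ℝ)) :
    0 ≤ P5 pXA t c x y u := by
  refine sound6 xm_i 1 one_pos hc ?_ ?_ ?_ ?_ ?_ ?_ ?_ ?_ ?_ ?_ ?_ ?_ <;>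
    clear hc <;> push_cast <;> linarith

theorem slx_j {t c x y u : ℝ} (hc : P5 pDA t c x y u ≤ 0)
    (a0 : (-1 : ℝ) ≤ 8 * t) (b0 : 8 * t ≤ (1 : ℝ))
    (a1 : (1 : ℝ) ≤ 8 * c) (b1 : 8 * c ≤ (8 : ℝ))
    (a2 : (3 : ℝ) ≤ 8 * x) (b2 : 8 * x ≤ (5 : ℝ))
    (a3 : (3 : ℝ) ≤ 8 * y) (b3 : 8 * y ≤ (5 : ℝ))
    (a4 : (-1 : ℝ) ≤ 8 * u) (b4 : 8 * u ≤ (1 : ℝ)) :
    0 ≤ P5 pXA t c x y u := by
  refine sound6 xm_j 1 one_pos hc ?_ ?_ ?_ ?_ ?_ ?_ ?_ ?_ ?_ ?_ ?_ ?_ <;>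
    clear hc <;> push_cast <;> linarith

theorem locX {t c x y u : ℝ} (a0 : -1 ≤ 8 * t) (b0 : 8 * t ≤ 1) (a1 : -1 ≤ 8 * c)
    (b1 : 8 * c ≤ 1) (a2 : -1 ≤ 8 * x) (b2 : 8 * x ≤ 1) (a3 : -1 ≤ 8 * y) (b3 : 8 * y ≤ 1)
    (a4 : -1 ≤ 8 * u) (b4 : 8 * u ≤ 1) : 0 ≤ P5 pQA t c x y u := by
  obtain ⟨r, h1, h2⟩ := list_max (-8 * c)
    [8 * c, -8 * x, 8 * x, -8 * y, 8 * y, -8 * u, 8 * u, -8 * t, 8 * t]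
  simp only [List.mem_cons, List.not_mem_nil, or_false, forall_eq_or_imp, forall_eq] at h1 h2
  obtain ⟨q0, q1, q2, q3, q4, q5, q6, q7, q8, q9⟩ := h2
  rcases le_or_gt r 0 with hr | hr
  · obtain rfl : t = 0 := by linarith
    obtain rfl : c = 0 := by linarith
    obtain rfl : x = 0 := by linarith
    obtain rfl : y = 0 := by linarith
    obtain rfl : u = 0 := by linarith
    have := P5_QA (1 / 2) (1 / 2) 0 0 0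
    rw [sub_self] at this
    rw [this]
    norm_num [Jt, Jl0, Jm0]
  have gB : 0 ≤ P5 pQB u c x y t → 0 ≤ P5 pQA t c x y u := fun h => P5_QB x y t u c ▸ h
  rcases h1 with e | e | e | e | e | e | e | e | e | e
  · refine id (sound6 xb_c0 r hr (P5_o ..) ?_ ?_ ?_ ?_ ?_ ?_ ?_ ?_ ?_ ?_ ?_ ?_) <;>
      clear gB <;> push_cast <;> linarith
  · refine id (sound6 xb_c1 r hr (P5_o ..) ?_ ?_ ?_ ?_ ?_ ?_ ?_ ?_ ?_ ?_ ?_ ?_) <;>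
      clear gB <;> push_cast <;> linarith
  · refine id (sound6 xb_x0 r hr (P5_o ..) ?_ ?_ ?_ ?_ ?_ ?_ ?_ ?_ ?_ ?_ ?_ ?_) <;>
      clear gB <;> push_cast <;> linarith
  · refine id (sound6 xb_x1 r hr (P5_o ..) ?_ ?_ ?_ ?_ ?_ ?_ ?_ ?_ ?_ ?_ ?_ ?_) <;>
      clear gB <;> push_cast <;> linarith
  · refine id (sound6 xb_y0 r hr (P5_o ..) ?_ ?_ ?_ ?_ ?_ ?_ ?_ ?_ ?_ ?_ ?_ ?_) <;>
      clear gB <;> push_cast <;> linarith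
  · refine id (sound6 xb_y1 r hr (P5_o ..) ?_ ?_ ?_ ?_ ?_ ?_ ?_ ?_ ?_ ?_ ?_ ?_) <;>
      clear gB <;> push_cast <;> linarith
  · refine id (sound6 xb_u0 r hr (P5_o ..) ?_ ?_ ?_ ?_ ?_ ?_ ?_ ?_ ?_ ?_ ?_ ?_) <;>
      clear gB <;> push_cast <;> linarith
  · refine id (sound6 xb_u1 r hr (P5_o ..) ?_ ?_ ?_ ?_ ?_ ?_ ?_ ?_ ?_ ?_ ?_ ?_) <;>
      clear gB <;> push_cast <;> linarith
  · refine gB (sound6 xb_t0 r hr (P5_o ..) ?_ ?_ ?_ ?_ ?_ ?_ ?_ ?_ ?_ ?_ ?_ ?_) <;>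
      clear gB <;> push_cast <;> linarith
  · refine gB (sound6 xb_t1 r hr (P5_o ..) ?_ ?_ ?_ ?_ ?_ ?_ ?_ ?_ ?_ ?_ ?_ ?_) <;>
      clear gB <;> push_cast <;> linarith

theorem boxX : BoxX := by
  intro x y t u c hx hy c0 c1 hb
  have hc : P5 pDA t c x y u ≤ 0 := by rw [P5_DA]; linarith
  have g : 0 ≤ P5 pXA t c x y u → 1 ≤ Jt x y t u c 1 1 0 := fun h => by
    rw [P5_XA] at h; linarith
  have t2 := sq_nonneg t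
  have u2 := sq_nonneg u
  obtain ⟨t0, t1⟩ := abs_le_of_sq_le_sq' (a := t) (b := 1) (by linarith) zero_le_one
  obtain ⟨u0, u1⟩ := abs_le_of_sq_le_sq' (a := u) (b := 1) (by linarith) zero_le_one
  have hxy : x + y ≤ 1 := by linarith
  rcases le_total x (3 / 8) with h1 | h1
  · refine g (slx_a hc ?_ ?_ ?_ ?_ ?_ ?_ ?_ ?_ ?_ ?_) <;>
      clear g hc hb t2 u2 <;> linarith
  rcases le_total (5 / 8) x with h2 | h2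
  · refine g (slx_b hc ?_ ?_ ?_ ?_ ?_ ?_ ?_ ?_ ?_ ?_) <;>
      clear g hc hb t2 u2 <;> linarith
  rcases le_total y (3 / 8) with h3 | h3
  · refine g (slx_c hc ?_ ?_ ?_ ?_ ?_ ?_ ?_ ?_ ?_ ?_) <;>
      clear g hc hb t2 u2 <;> linarith
  rcases le_total t (-1 / 8) with h4 | h4
  · refine g (slx_e hc ?_ ?_ ?_ ?_ ?_ ?_ ?_ ?_ ?_ ?_) <;>
      clear g hc hb t2 u2 <;> linarith
  rcases le_total (1 / 8) t with h5 | h5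
  · refine g (slx_f hc ?_ ?_ ?_ ?_ ?_ ?_ ?_ ?_ ?_ ?_) <;>
      clear g hc hb t2 u2 <;> linarith
  rcases le_total u (-1 / 8) with h6 | h6
  · refine g (slx_g hc ?_ ?_ ?_ ?_ ?_ ?_ ?_ ?_ ?_ ?_) <;>
      clear g hc hb t2 u2 <;> linarith
  rcases le_total (1 / 8) u with h7 | h7
  · refine g (slx_h hc ?_ ?_ ?_ ?_ ?_ ?_ ?_ ?_ ?_ ?_) <;>
      clear g hc hb t2 u2 <;> linarith
  rcases le_total c (-1 / 8) with h8 | h8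
  · refine g (slx_i hc ?_ ?_ ?_ ?_ ?_ ?_ ?_ ?_ ?_ ?_) <;>
      clear g hc hb t2 u2 <;> linarith
  rcases le_total (1 / 8) c with h9 | h9
  · refine g (slx_j hc ?_ ?_ ?_ ?_ ?_ ?_ ?_ ?_ ?_ ?_) <;>
      clear g hc hb t2 u2 <;> linarith
  have k := locX (t := t) (c := c) (x := x - 1 / 2) (y := y - 1 / 2) (u := u) (by linarith)
    (by linarith) (by linarith) (by linarith) (by linarith) (by linarith) (by linarith)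
    (by linarith) (by linarith) (by linarith)
  rw [P5_QA] at k
  have : 0 ≤ (1 - x - y - t ^ 2 - u ^ 2) * (1 - (1 - x - y - t ^ 2 - u ^ 2)) :=
    mul_nonneg (by linarith) (by linarith)
  linarith

end Pool.Agent.MP_90395b_gt.Bn

end

section

namespace Pool.Agent.MP_90395b_gt.Bn

open Pool.Agent.MP_90395b_gt.As

theorem slv_a {h s k u v : ℝ} (hc : P5 pCA h s k u v ≤ 0)
    (a0 : (0 : ℝ) ≤ 4 * h) (b0 : 4 * h ≤ (3 : ℝ))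
    (a1 : (0 : ℝ) ≤ 1 * s) (b1 : 1 * s ≤ (1 : ℝ))
    (a2 : (-1 : ℝ) ≤ 1 * k) (b2 : 1 * k ≤ (0 : ℝ))
    (a3 : (-1 : ℝ) ≤ 1 * u) (b3 : 1 * u ≤ (1 : ℝ))
    (a4 : (-1 : ℝ) ≤ 1 * v) (b4 : 1 * v ≤ (1 : ℝ)) :
    0 ≤ P5 pVA h s k u v := by
  rcases le_total (1 * v) (0) with c | c
  · rcases le_total (2 * v) (-1) with cL | cL
    · rcases le_total (2 * k) (-1) with cLL | cLL
      · refine sound6 vm_aLLL 1 one_pos hc ?_ ?_ ?_ ?_ ?_ ?_ ?_ ?_ ?_ ?_ ?_ ?_ <;>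
          clear hc <;> push_cast <;> linarith
      · rcases le_total (1 * u) (0) with cLLR | cLLR
        · refine sound6 vm_aLLRL 1 one_pos hc ?_ ?_ ?_ ?_ ?_ ?_ ?_ ?_ ?_ ?_ ?_ ?_ <;>
            clear hc <;> push_cast <;> linarith
        · refine sound6 vm_aLLRR 1 one_pos hc ?_ ?_ ?_ ?_ ?_ ?_ ?_ ?_ ?_ ?_ ?_ ?_ <;>
            clear hc <;> push_cast <;> linarith
    · rcases le_total (2 * u) (-1) with cLR | cLR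
      · refine sound6 vm_aLRL 1 one_pos hc ?_ ?_ ?_ ?_ ?_ ?_ ?_ ?_ ?_ ?_ ?_ ?_ <;>
          clear hc <;> push_cast <;> linarith
      · refine sound6 vm_aLRR 1 one_pos hc ?_ ?_ ?_ ?_ ?_ ?_ ?_ ?_ ?_ ?_ ?_ ?_ <;>
          clear hc <;> push_cast <;> linarith
  · refine sound6 vm_aR 1 one_pos hc ?_ ?_ ?_ ?_ ?_ ?_ ?_ ?_ ?_ ?_ ?_ ?_ <;>
      clear hc <;> push_cast <;> linarith

theorem slv_b {h s k u v : ℝ} (hc : P5 pCA h s k u v ≤ 0)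
    (a0 : (0 : ℝ) ≤ 4 * h) (b0 : 4 * h ≤ (3 : ℝ))
    (a1 : (0 : ℝ) ≤ 1 * s) (b1 : 1 * s ≤ (2 : ℝ))
    (a2 : (0 : ℝ) ≤ 2 * k) (b2 : 2 * k ≤ (1 : ℝ))
    (a3 : (-1 : ℝ) ≤ 1 * u) (b3 : 1 * u ≤ (1 : ℝ))
    (a4 : (-1 : ℝ) ≤ 1 * v) (b4 : 1 * v ≤ (1 : ℝ)) :
    0 ≤ P5 pVA h s k u v := by
  rcases le_total (8 * h) (3) with c | c
  · rcases le_total (1 * s) (1) with cL | cL
    · refine sound6 vm_bLL 1 one_pos hc ?_ ?_ ?_ ?_ ?_ ?_ ?_ ?_ ?_ ?_ ?_ ?_ <;>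
        clear hc <;> push_cast <;> linarith
    · refine sound6 vm_bLR 1 one_pos hc ?_ ?_ ?_ ?_ ?_ ?_ ?_ ?_ ?_ ?_ ?_ ?_ <;>
        clear hc <;> push_cast <;> linarith
  · rcases le_total (16 * h) (9) with cR | cR
    · rcases le_total (1 * s) (1) with cRL | cRL
      · refine sound6 vm_bRLL 1 one_pos hc ?_ ?_ ?_ ?_ ?_ ?_ ?_ ?_ ?_ ?_ ?_ ?_ <;>
          clear hc <;> push_cast <;> linarith
      · rcases le_total (1 * v) (0) with cRLR | cRLR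
        · refine sound6 vm_bRLRL 1 one_pos hc ?_ ?_ ?_ ?_ ?_ ?_ ?_ ?_ ?_ ?_ ?_ ?_ <;>
            clear hc <;> push_cast <;> linarith
        · refine sound6 vm_bRLRR 1 one_pos hc ?_ ?_ ?_ ?_ ?_ ?_ ?_ ?_ ?_ ?_ ?_ ?_ <;>
            clear hc <;> push_cast <;> linarith
    · rcases le_total (32 * h) (21) with cRR | cRR
      · rcases le_total (64 * h) (39) with cRRL | cRRL
        · rcases le_total (1 * s) (1) with cRRLL | cRRLL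
          · refine sound6 vm_bRRLLL 1 one_pos hc ?_ ?_ ?_ ?_ ?_ ?_ ?_ ?_ ?_ ?_ ?_ ?_ <;>
              clear hc <;> push_cast <;> linarith
          · rcases le_total (2 * s) (3) with cRRLLR | cRRLLR
            · refine sound6 vm_bRRLLRL 1 one_pos hc ?_ ?_ ?_ ?_ ?_ ?_ ?_ ?_ ?_ ?_ ?_ ?_ <;>
                clear hc <;> push_cast <;> linarith
            · refine sound6 vm_bRRLLRR 1 one_pos hc ?_ ?_ ?_ ?_ ?_ ?_ ?_ ?_ ?_ ?_ ?_ ?_ <;>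
                clear hc <;> push_cast <;> linarith
        · rcases le_total (1 * s) (1) with cRRLR | cRRLR
          · refine sound6 vm_bRRLRL 1 one_pos hc ?_ ?_ ?_ ?_ ?_ ?_ ?_ ?_ ?_ ?_ ?_ ?_ <;>
              clear hc <;> push_cast <;> linarith
          · rcases le_total (2 * s) (3) with cRRLRR | cRRLRR
            · refine sound6 vm_bRRLRRL 1 one_pos hc ?_ ?_ ?_ ?_ ?_ ?_ ?_ ?_ ?_ ?_ ?_ ?_ <;>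
                clear hc <;> push_cast <;> linarith
            · refine sound6 vm_bRRLRRR 1 one_pos hc ?_ ?_ ?_ ?_ ?_ ?_ ?_ ?_ ?_ ?_ ?_ ?_ <;>
                clear hc <;> push_cast <;> linarith
      · rcases le_total (1 * s) (1) with cRRR | cRRR
        · rcases le_total (2 * u) (1) with cRRRL | cRRRL
          · refine sound6 vm_bRRRLL 1 one_pos hc ?_ ?_ ?_ ?_ ?_ ?_ ?_ ?_ ?_ ?_ ?_ ?_ <;>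
              clear hc <;> push_cast <;> linarith
          · refine sound6 vm_bRRRLR 1 one_pos hc ?_ ?_ ?_ ?_ ?_ ?_ ?_ ?_ ?_ ?_ ?_ ?_ <;>
              clear hc <;> push_cast <;> linarith
        · rcases le_total (2 * s) (3) with cRRRR | cRRRR
          · refine sound6 vm_bRRRRL 1 one_pos hc ?_ ?_ ?_ ?_ ?_ ?_ ?_ ?_ ?_ ?_ ?_ ?_ <;>
              clear hc <;> push_cast <;> linarith
          · refine sound6 vm_bRRRRR 1 one_pos hc ?_ ?_ ?_ ?_ ?_ ?_ ?_ ?_ ?_ ?_ ?_ ?_ <;>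
              clear hc <;> push_cast <;> linarith

theorem slv_c {h s k u v : ℝ} (hc : P5 pCA h s k u v ≤ 0)
    (a0 : (3 : ℝ) ≤ 4 * h) (b0 : 4 * h ≤ (4 : ℝ))
    (a1 : (0 : ℝ) ≤ 1 * s) (b1 : 1 * s ≤ (2 : ℝ))
    (a2 : (1 : ℝ) ≤ 8 * k) (b2 : 8 * k ≤ (4 : ℝ))
    (a3 : (-3 : ℝ) ≤ 4 * u) (b3 : 4 * u ≤ (3 : ℝ))
    (a4 : (-3 : ℝ) ≤ 4 * v) (b4 : 4 * v ≤ (3 : ℝ)) :
    0 ≤ P5 pVA h s k u v := by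
  rcases le_total (1 * s) (1) with c | c
  · rcases le_total (8 * v) (3) with cL | cL
    · refine sound6 vm_cLL 1 one_pos hc ?_ ?_ ?_ ?_ ?_ ?_ ?_ ?_ ?_ ?_ ?_ ?_ <;>
        clear hc <;> push_cast <;> linarith
    · refine sound6 vm_cLR 1 one_pos hc ?_ ?_ ?_ ?_ ?_ ?_ ?_ ?_ ?_ ?_ ?_ ?_ <;>
        clear hc <;> push_cast <;> linarith
  · rcases le_total (2 * s) (3) with cR | cR
    · refine sound6 vm_cRL 1 one_pos hc ?_ ?_ ?_ ?_ ?_ ?_ ?_ ?_ ?_ ?_ ?_ ?_ <;>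
        clear hc <;> push_cast <;> linarith
    · rcases le_total (8 * u) (-3) with cRR | cRR
      · refine sound6 vm_cRRL 1 one_pos hc ?_ ?_ ?_ ?_ ?_ ?_ ?_ ?_ ?_ ?_ ?_ ?_ <;>
          clear hc <;> push_cast <;> linarith
      · refine sound6 vm_cRRR 1 one_pos hc ?_ ?_ ?_ ?_ ?_ ?_ ?_ ?_ ?_ ?_ ?_ ?_ <;>
          clear hc <;> push_cast <;> linarith

theorem slv_d {h s k u v : ℝ} (hc : P5 pCA h s k u v ≤ 0)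
    (a0 : (3 : ℝ) ≤ 4 * h) (b0 : 4 * h ≤ (4 : ℝ))
    (a1 : (0 : ℝ) ≤ 1 * s) (b1 : 1 * s ≤ (1 : ℝ))
    (a2 : (-3 : ℝ) ≤ 4 * k) (b2 : 4 * k ≤ (-1 : ℝ))
    (a3 : (-3 : ℝ) ≤ 4 * u) (b3 : 4 * u ≤ (3 : ℝ))
    (a4 : (-3 : ℝ) ≤ 4 * v) (b4 : 4 * v ≤ (3 : ℝ)) :
    0 ≤ P5 pVA h s k u v := by
  rcases le_total (16 * h) (13) with c | c
  · refine sound6 vm_dL 1 one_pos hc ?_ ?_ ?_ ?_ ?_ ?_ ?_ ?_ ?_ ?_ ?_ ?_ <;>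
      clear hc <;> push_cast <;> linarith
  · rcases le_total (1 * u) (0) with cR | cR
    · refine sound6 vm_dRL 1 one_pos hc ?_ ?_ ?_ ?_ ?_ ?_ ?_ ?_ ?_ ?_ ?_ ?_ <;>
        clear hc <;> push_cast <;> linarith
    · refine sound6 vm_dRR 1 one_pos hc ?_ ?_ ?_ ?_ ?_ ?_ ?_ ?_ ?_ ?_ ?_ ?_ <;>
        clear hc <;> push_cast <;> linarith

theorem slv_e {h s k u v : ℝ} (hc : P5 pCA h s k u v ≤ 0)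
    (a0 : (3 : ℝ) ≤ 4 * h) (b0 : 4 * h ≤ (4 : ℝ))
    (a1 : (0 : ℝ) ≤ 4 * s) (b1 : 4 * s ≤ (3 : ℝ))
    (a2 : (-2 : ℝ) ≤ 8 * k) (b2 : 8 * k ≤ (1 : ℝ))
    (a3 : (-3 : ℝ) ≤ 4 * u) (b3 : 4 * u ≤ (3 : ℝ))
    (a4 : (-3 : ℝ) ≤ 4 * v) (b4 : 4 * v ≤ (3 : ℝ)) :
    0 ≤ P5 pVA h s k u v := by
  rcases le_total (1 * u) (0) with c | c
  · refine sound6 vm_eL 1 one_pos hc ?_ ?_ ?_ ?_ ?_ ?_ ?_ ?_ ?_ ?_ ?_ ?_ <;>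
      clear hc <;> push_cast <;> linarith
  · refine sound6 vm_eR 1 one_pos hc ?_ ?_ ?_ ?_ ?_ ?_ ?_ ?_ ?_ ?_ ?_ ?_ <;>
      clear hc <;> push_cast <;> linarith

theorem slv_f {h s k u v : ℝ} (hc : P5 pCA h s k u v ≤ 0)
    (a0 : (3 : ℝ) ≤ 4 * h) (b0 : 4 * h ≤ (4 : ℝ))
    (a1 : (5 : ℝ) ≤ 4 * s) (b1 : 4 * s ≤ (6 : ℝ))
    (a2 : (0 : ℝ) ≤ 8 * k) (b2 : 8 * k ≤ (1 : ℝ))
    (a3 : (-3 : ℝ) ≤ 4 * u) (b3 : 4 * u ≤ (3 : ℝ))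
    (a4 : (-3 : ℝ) ≤ 4 * v) (b4 : 4 * v ≤ (3 : ℝ)) :
    0 ≤ P5 pVA h s k u v := by
  refine sound6 vm_f 1 one_pos hc ?_ ?_ ?_ ?_ ?_ ?_ ?_ ?_ ?_ ?_ ?_ ?_ <;>
    clear hc <;> push_cast <;> linarith

theorem slv_g {h s k u v : ℝ} (hc : P5 pCA h s k u v ≤ 0)
    (a0 : (3 : ℝ) ≤ 4 * h) (b0 : 4 * h ≤ (4 : ℝ))
    (a1 : (3 : ℝ) ≤ 4 * s) (b1 : 4 * s ≤ (5 : ℝ))
    (a2 : (-2 : ℝ) ≤ 8 * k) (b2 : 8 * k ≤ (1 : ℝ))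
    (a3 : (-3 : ℝ) ≤ 4 * u) (b3 : 4 * u ≤ (-1 : ℝ))
    (a4 : (-3 : ℝ) ≤ 4 * v) (b4 : 4 * v ≤ (3 : ℝ)) :
    0 ≤ P5 pVA h s k u v := by
  refine sound6 vm_g 1 one_pos hc ?_ ?_ ?_ ?_ ?_ ?_ ?_ ?_ ?_ ?_ ?_ ?_ <;>
    clear hc <;> push_cast <;> linarith

theorem slv_h {h s k u v : ℝ} (hc : P5 pCA h s k u v ≤ 0)
    (a0 : (3 : ℝ) ≤ 4 * h) (b0 : 4 * h ≤ (4 : ℝ))
    (a1 : (3 : ℝ) ≤ 4 * s) (b1 : 4 * s ≤ (5 : ℝ))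
    (a2 : (-2 : ℝ) ≤ 8 * k) (b2 : 8 * k ≤ (1 : ℝ))
    (a3 : (1 : ℝ) ≤ 4 * u) (b3 : 4 * u ≤ (3 : ℝ))
    (a4 : (-3 : ℝ) ≤ 4 * v) (b4 : 4 * v ≤ (3 : ℝ)) :
    0 ≤ P5 pVA h s k u v := by
  rcases le_total (8 * u) (3) with c | c
  · rcases le_total (16 * h) (13) with cL | cL
    · refine sound6 vm_hLL 1 one_pos hc ?_ ?_ ?_ ?_ ?_ ?_ ?_ ?_ ?_ ?_ ?_ ?_ <;>
        clear hc <;> push_cast <;> linarith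
    · refine sound6 vm_hLR 1 one_pos hc ?_ ?_ ?_ ?_ ?_ ?_ ?_ ?_ ?_ ?_ ?_ ?_ <;>
        clear hc <;> push_cast <;> linarith
  · refine sound6 vm_hR 1 one_pos hc ?_ ?_ ?_ ?_ ?_ ?_ ?_ ?_ ?_ ?_ ?_ ?_ <;>
      clear hc <;> push_cast <;> linarith

theorem slv_i {h s k u v : ℝ} (hc : P5 pCA h s k u v ≤ 0)
    (a0 : (3 : ℝ) ≤ 4 * h) (b0 : 4 * h ≤ (4 : ℝ))
    (a1 : (3 : ℝ) ≤ 4 * s) (b1 : 4 * s ≤ (5 : ℝ))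
    (a2 : (-2 : ℝ) ≤ 8 * k) (b2 : 8 * k ≤ (1 : ℝ))
    (a3 : (-1 : ℝ) ≤ 4 * u) (b3 : 4 * u ≤ (1 : ℝ))
    (a4 : (-3 : ℝ) ≤ 4 * v) (b4 : 4 * v ≤ (-1 : ℝ)) :
    0 ≤ P5 pVA h s k u v := by
  rcases le_total (2 * v) (-1) with c | c
  · refine sound6 vm_iL 1 one_pos hc ?_ ?_ ?_ ?_ ?_ ?_ ?_ ?_ ?_ ?_ ?_ ?_ <;>
      clear hc <;> push_cast <;> linarith
  · refine sound6 vm_iR 1 one_pos hc ?_ ?_ ?_ ?_ ?_ ?_ ?_ ?_ ?_ ?_ ?_ ?_ <;>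
      clear hc <;> push_cast <;> linarith

theorem slv_j {h s k u v : ℝ} (hc : P5 pCA h s k u v ≤ 0)
    (a0 : (3 : ℝ) ≤ 4 * h) (b0 : 4 * h ≤ (4 : ℝ))
    (a1 : (3 : ℝ) ≤ 4 * s) (b1 : 4 * s ≤ (5 : ℝ))
    (a2 : (-2 : ℝ) ≤ 8 * k) (b2 : 8 * k ≤ (1 : ℝ))
    (a3 : (-1 : ℝ) ≤ 4 * u) (b3 : 4 * u ≤ (1 : ℝ))
    (a4 : (1 : ℝ) ≤ 4 * v) (b4 : 4 * v ≤ (3 : ℝ)) :
    0 ≤ P5 pVA h s k u v := by
  refine sound6 vm_j 1 one_pos hc ?_ ?_ ?_ ?_ ?_ ?_ ?_ ?_ ?_ ?_ ?_ ?_ <;>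
    clear hc <;> push_cast <;> linarith

end Pool.Agent.MP_90395b_gt.Bn

end

section

namespace Pool.Agent.MP_90395b_gt.Bn

open Pool.Agent.MP_90395b_gt.As

theorem locV {h s k u v : ℝ} (hb : h ^ 2 + k ^ 2 + u ^ 2 + v ^ 2 ≤ 1) (a0 : 3 ≤ 4 * h)
    (b0 : h ≤ 1) (a1 : 3 ≤ 4 * s) (b1 : 4 * s ≤ 5) (a2 : -1 ≤ 4 * k) (b2 : 8 * k ≤ 1)
    (a3 : -1 ≤ 4 * u) (b3 : 4 * u ≤ 1) (a4 : -1 ≤ 4 * v) (b4 : 4 * v ≤ 1) :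
    0 ≤ P5 pVA h s k u v := by
  obtain ⟨r, h1, h2⟩ := list_max (-7 / 2 * (s - 1)) [7 / 2 * (s - 1), -7 / 2 * k, 7 * k,
    -7 / 2 * u, 7 / 2 * u, -7 / 2 * v, 7 / 2 * v, -7 / 2 * (h - 1)]
  simp only [List.mem_cons, List.not_mem_nil, or_false, forall_eq_or_imp, forall_eq] at h1 h2
  obtain ⟨q0, q1, q2, q3, q4, q5, q6, q7, q8⟩ := h2
  rcases le_or_gt r 0 with hr | hr
  · obtain rfl : h = 1 := by linarith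
    obtain rfl : s = 1 := by linarith
    obtain rfl : k = 0 := by linarith
    obtain rfl : u = 0 := by linarith
    obtain rfl : v = 0 := by linarith
    rw [P5_VA]
    norm_num [P1s, cH, gh]
  have gA : 0 ≤ P5 (shAt 1 (shAt 0 pVA)) (h - 1) (s - 1) k u v → 0 ≤ P5 pVA h s k u v := by
    rw [P5_sh01, sub_add_cancel, sub_add_cancel]; exact id
  have gB : 0 ≤ P5 (shAt 1 (shAt 2 pVB)) k (s - 1) (h - 1) u v → 0 ≤ P5 pVA h s k u v := by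
    rw [P5_sh12, sub_add_cancel, sub_add_cancel, P5_VB]; exact id
  have cA : P5 (shAt 1 (shAt 0 pCA)) (h - 1) (s - 1) k u v ≤ 0 := by
    rw [P5_sh01, sub_add_cancel, sub_add_cancel, P5_CA]; linarith
  have cB : P5 (shAt 1 (shAt 2 pCB)) k (s - 1) (h - 1) u v ≤ 0 := by
    rw [P5_sh12, sub_add_cancel, sub_add_cancel, P5_CB]; linarith
  clear hb
  rcases h1 with e | e | e | e | e | e | e | e | e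
  · refine gA (sound6 vb_s0 r hr cA ?_ ?_ ?_ ?_ ?_ ?_ ?_ ?_ ?_ ?_ ?_ ?_) <;>
      clear gA gB cA cB <;> push_cast <;> linarith
  · refine gA (sound6 vb_s1 r hr cA ?_ ?_ ?_ ?_ ?_ ?_ ?_ ?_ ?_ ?_ ?_ ?_) <;>
      clear gA gB cA cB <;> push_cast <;> linarith
  · refine gA (sound6 vb_k0 r hr cA ?_ ?_ ?_ ?_ ?_ ?_ ?_ ?_ ?_ ?_ ?_ ?_) <;>
      clear gA gB cA cB <;> push_cast <;> linarith
  · refine gA (sound6 vb_k1 r hr cA ?_ ?_ ?_ ?_ ?_ ?_ ?_ ?_ ?_ ?_ ?_ ?_) <;>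
      clear gA gB cA cB <;> push_cast <;> linarith
  · refine gA (sound6 vb_u0 r hr cA ?_ ?_ ?_ ?_ ?_ ?_ ?_ ?_ ?_ ?_ ?_ ?_) <;>
      clear gA gB cA cB <;> push_cast <;> linarith
  · refine gA (sound6 vb_u1 r hr cA ?_ ?_ ?_ ?_ ?_ ?_ ?_ ?_ ?_ ?_ ?_ ?_) <;>
      clear gA gB cA cB <;> push_cast <;> linarith
  · refine gA (sound6 vb_v0 r hr cA ?_ ?_ ?_ ?_ ?_ ?_ ?_ ?_ ?_ ?_ ?_ ?_) <;>
      clear gA gB cA cB <;> push_cast <;> linarith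
  · refine gA (sound6 vb_v1 r hr cA ?_ ?_ ?_ ?_ ?_ ?_ ?_ ?_ ?_ ?_ ?_ ?_) <;>
      clear gA gB cA cB <;> push_cast <;> linarith
  · refine gB (sound6 vb_h0 r hr cB ?_ ?_ ?_ ?_ ?_ ?_ ?_ ?_ ?_ ?_ ?_ ?_) <;>
      clear gA gB cA cB <;> push_cast <;> linarith

theorem boxV0 {h s k u v : ℝ} (h0 : 0 ≤ h) (k1 : k ≤ 1 / 2) (s0 : 0 ≤ s) (s2 : s ≤ 2)
    (c1 : k ≤ 0 → s ≤ 1) (c2 : 3 / 4 ≤ h → k ≤ 1 / 8 → s ≤ 3 / 2)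
    (hb : h ^ 2 + k ^ 2 + u ^ 2 + v ^ 2 ≤ 1) : 0 ≤ P5 pVA h s k u v := by
  have hc : P5 pCA h s k u v ≤ 0 := by rw [P5_CA]; linarith
  have h2 := sq_nonneg h
  have k2 := sq_nonneg k
  have u2 := sq_nonneg u
  have v2 := sq_nonneg v
  obtain ⟨-, h1⟩ := abs_le_of_sq_le_sq' (a := h) (b := 1) (by linarith) zero_le_one
  rcases le_total h (3 / 4) with d1 | d1
  · obtain ⟨k0, -⟩ := abs_le_of_sq_le_sq' (a := k) (b := 1) (by linarith) zero_le_one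
    obtain ⟨u0, u1⟩ := abs_le_of_sq_le_sq' (a := u) (b := 1) (by linarith) zero_le_one
    obtain ⟨v0, v1⟩ := abs_le_of_sq_le_sq' (a := v) (b := 1) (by linarith) zero_le_one
    rcases le_total k 0 with d2 | d2
    · have := c1 d2
      refine slv_a hc ?_ ?_ ?_ ?_ ?_ ?_ ?_ ?_ ?_ ?_ <;>
      clear hc hb h2 k2 u2 v2 <;> linarith
    · refine slv_b hc ?_ ?_ ?_ ?_ ?_ ?_ ?_ ?_ ?_ ?_ <;>
      clear hc hb h2 k2 u2 v2 <;> linarith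
  have h3 : (3 / 4) ^ 2 ≤ h ^ 2 := pow_le_pow_left₀ (by norm_num) d1 2
  obtain ⟨k0, -⟩ := abs_le_of_sq_le_sq' (a := k) (b := 3 / 4) (by linarith) (by norm_num)
  obtain ⟨u0, u1⟩ := abs_le_of_sq_le_sq' (a := u) (b := 3 / 4) (by linarith) (by norm_num)
  obtain ⟨v0, v1⟩ := abs_le_of_sq_le_sq' (a := v) (b := 3 / 4) (by linarith) (by norm_num)
  rcases le_total (1 / 8) k with d2 | d2
  · refine slv_c hc ?_ ?_ ?_ ?_ ?_ ?_ ?_ ?_ ?_ ?_ <;>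
      clear hc hb h2 k2 u2 v2 <;> linarith
  have s3 := c2 d1 d2
  rcases le_total k (-1 / 4) with d3 | d3
  · have := c1 (by linarith)
    refine slv_d hc ?_ ?_ ?_ ?_ ?_ ?_ ?_ ?_ ?_ ?_ <;>
      clear hc hb h2 k2 u2 v2 <;> linarith
  rcases le_total s (3 / 4) with d4 | d4
  · refine slv_e hc ?_ ?_ ?_ ?_ ?_ ?_ ?_ ?_ ?_ ?_ <;>
      clear hc hb h2 k2 u2 v2 <;> linarith
  rcases le_total (5 / 4) s with d5 | d5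
  · have : 0 ≤ k := by
      by_contra hk
      linarith [c1 (le_of_not_ge hk)]
    refine slv_f hc ?_ ?_ ?_ ?_ ?_ ?_ ?_ ?_ ?_ ?_ <;>
      clear hc hb h2 k2 u2 v2 <;> linarith
  rcases le_total u (-1 / 4) with d6 | d6
  · refine slv_g hc ?_ ?_ ?_ ?_ ?_ ?_ ?_ ?_ ?_ ?_ <;>
      clear hc hb h2 k2 u2 v2 <;> linarith
  rcases le_total (1 / 4) u with d7 | d7
  · refine slv_h hc ?_ ?_ ?_ ?_ ?_ ?_ ?_ ?_ ?_ ?_ <;>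
      clear hc hb h2 k2 u2 v2 <;> linarith
  rcases le_total v (-1 / 4) with d8 | d8
  · refine slv_i hc ?_ ?_ ?_ ?_ ?_ ?_ ?_ ?_ ?_ ?_ <;>
      clear hc hb h2 k2 u2 v2 <;> linarith
  rcases le_total (1 / 4) v with d9 | d9
  · refine slv_j hc ?_ ?_ ?_ ?_ ?_ ?_ ?_ ?_ ?_ ?_ <;>
      clear hc hb h2 k2 u2 v2 <;> linarith
  refine locV hb ?_ ?_ ?_ ?_ ?_ ?_ ?_ ?_ ?_ ?_ <;> clear hc hb h2 k2 u2 v2 <;> linarith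

theorem boxV : BoxV := by
  intro h k u v s h0 k1 s0 s2 c1 c2 hb
  have key := boxV0 h0 k1 s0 s2 c1 c2 hb
  rw [P5_VA, P1s_eq] at key
  have := (mul_nonneg_iff_of_pos_left (by positivity)).1 key
  linarith

end Pool.Agent.MP_90395b_gt.Bn

end
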